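import Pool.Agent.MP_c0c4a4_co.N5.Ops2

/-!
Nodes with a bad set: a set of stones of Maker which cannot be answered.
-/

set_option autoImplicit false

namespace Pool.Agent.MP_c0c4a4_co.N5

noncomputable section

/-- bounded existential quantifier -/
def anyUp (f : Nat → Bool) (n : Nat) : Bool :=
  @Nat.rec (fun _ => Bool) false (fun i ih => bor (f i) ih) n

/-- the table of the bad sets (16 entries of 128 bits) is closed under the symmetry `G` -/
def badcl (G BMT : Nat) : Bool :=
  allUp (fun a => frc (fun m => anyUp (fun b => Nat.beq m (e128 BMT b)) 16) (imb G (e128 BMT a))) 16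

/-- the entries of the table are masks of 125 bits -/
def badlt (BMT : Nat) : Bool := allUp (fun a => Nat.beq (Nat.shiftRight (e128 BMT a) 125) 0) 16

/-- the check of a node with three stones; the data start with `15` (4 bits) if there is a bad set:
then follow the number of the bad set (4 bits), the index of its fourth element (7 bits) and the
data of the groups -/
def ndB (sel : Nat → (Nat → Nat → Bool) → Bool) (ent : Nat → Nat) (CL BMT s j l n NC D : Nat) :
    Bool :=
  @Bool.rec (fun _ => Bool)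
    (ndOK sel ent 3 (Nat.lor s (Nat.mul 128 (Nat.lor j (Nat.mul 128 l)))) (Nat.succ l) n NC D)
    (frc (fun x => frc (fun c =>
      band (Nat.ble (Nat.mul 5 c) x)
      (band (Nat.beq (Nat.lor (Nat.pow 2 (e8 CL s)) (Nat.lor (Nat.pow 2 (e8 CL j))
        (Nat.lor (Nat.pow 2 (e8 CL l)) (Nat.pow 2 (e8 CL x)))))
        (e128 BMT (Nat.land (Nat.shiftRight D 4) 15)))
      (grps sel ent 3 (Nat.lor s (Nat.mul 128 (Nat.lor j (Nat.mul 128 l)))) c (Nat.sub NC c)
        (fun cov => Nat.beq (Nat.lor cov (Nat.sub (Nat.pow 2 (Nat.sub (Nat.succ l) (Nat.mul 5 c))) 1))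
          (Nat.lor (Nat.sub (Nat.pow 2 (Nat.sub n (Nat.mul 5 c))) 1) cov))
        (Nat.land (Nat.shiftRight D 15) 15) (Nat.shiftRight D 19)
        (Nat.pow 2 (Nat.sub x (Nat.mul 5 c)))))) (Nat.div (Nat.succ l) 5))
      (Nat.land (Nat.shiftRight D 8) 127))
    (Nat.beq (Nat.land D 15) 15)

/-- the check of a row -/
def rowB (sel : Nat → (Nat → Nat → Bool) → Bool) (ent : Nat → Nat) (CL BMT n NC s j W : Nat) :
    Bool :=
  allUp (fun t => frc (fun l => ndB sel ent CL BMT s j l n NC (Nat.shiftRight W (e24 W t)))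
    (Nat.add (Nat.succ j) t)) (Nat.sub (Nat.sub n 2) j)

/-- the check of several rows -/
def rowsB (sel : Nat → (Nat → Nat → Bool) → Bool) (ent : Nat → Nat)
    (CL BMT n NC s j0 RO DD m : Nat) : Bool :=
  allUp (fun r => frc (fun W => rowB sel ent CL BMT n NC s (Nat.add j0 r) W)
    (Nat.land (Nat.shiftRight DD (Nat.land (Nat.shiftRight RO (Nat.mul 64 r)) 4294967295))
      (Nat.sub (Nat.pow 2 (Nat.land (Nat.shiftRight RO (Nat.add 32 (Nat.mul 64 r))) 4294967295)) 1)))
    m

end

end Pool.Agent.MP_c0c4a4_co.N5
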