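/-!
Checkers written with the raw operations on `Nat` (fast in the kernel). This file has no imports, so
that the files with the data are cheap.
-/

set_option autoImplicit false

namespace Pool.Agent.MP_c0c4a4_co.N5

noncomputable section

/-- conjunction, with a lazy second argument -/
@[reducible] def band (a b : Bool) : Bool := @Bool.rec (fun _ => Bool) false b a

/-- raw test of a bit -/
@[reducible] def tb (m n : Nat) : Bool := Nat.beq (Nat.land (Nat.shiftRight m n) 1) 1

/-- evaluation of the argument before the call -/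
def frc (f : Nat → Bool) (x : Nat) : Bool := @Nat.rec (fun _ => Bool) (f 0) (fun n _ => f (Nat.succ n)) x

/-- bounded universal quantifier -/
def allUp (f : Nat → Bool) (n : Nat) : Bool := @Nat.rec (fun _ => Bool) true (fun i ih => band (f i) ih) n

/-- the quantifier over the `2 ^ d` numbers `2 ^ d * i + j`, `j < 2 ^ d`, by splitting -/
def all2 (f : Nat → Bool) (d : Nat) : Nat → Bool :=
  @Nat.rec (fun _ => Nat → Bool) (fun i => f i)
    (fun _ ih i => band (ih (Nat.mul 2 i)) (ih (Nat.succ (Nat.mul 2 i)))) d

/-- union of masks -/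
def orUpTo (f : Nat → Nat) (n : Nat) : Nat := @Nat.rec (fun _ => Nat) 0 (fun i ih => Nat.lor (f i) ih) n

/-- mask if the Boolean is true -/
def ifm (b : Bool) (m : Nat) : Nat := @Bool.rec (fun _ => Nat) 0 m b

/-- image of the `w` bits of the chunk `v` number `r` under `f` -/
def chunkImg (w : Nat) (f : Nat → Nat) (r v : Nat) : Nat :=
  orUpTo (fun i => ifm (tb v i) (Nat.pow 2 (f (Nat.add (Nat.mul w r) i)))) w

/-- entry of width 128 -/
def e128 (t i : Nat) : Nat :=
  Nat.land (Nat.shiftRight t (Nat.mul 128 i)) 340282366920938463463374607431768211455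

/-- entry of width 8 -/
def e8 (t i : Nat) : Nat := Nat.land (Nat.shiftRight t (Nat.mul 8 i)) 255

/-- entry of width 24 -/
def e24 (t i : Nat) : Nat := Nat.land (Nat.shiftRight t (Nat.mul 24 i)) 16777215

/-- entry of width 32 -/
def e32 (t i : Nat) : Nat := Nat.land (Nat.shiftRight t (Nat.mul 32 i)) 4294967295

/-- all entries of a table of entries of width `w` are small; `e` is the function giving an entry -/
def smallTab (e : Nat → Nat → Nat) (w t k n : Nat) : Bool :=
  band (Nat.beq (Nat.shiftRight t (Nat.mul w n)) 0)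
    (allUp (fun i => Nat.beq (Nat.shiftRight (e t i) k) 0) n)

/-- selection of one of five tables -/
def sel5 (a0 a1 a2 a3 a4 : Nat) (r : Nat) : Nat :=
  match r with
  | 0 => a0
  | 1 => a1
  | 2 => a2
  | 3 => a3
  | _ => a4

/-- region of a placed gadget -/
def iReg (e : Nat → Nat → Nat) (a0 a1 a2 a3 a4 : Nat) (q R : Nat) : Nat :=
  Nat.lor (e a0 (Nat.add (Nat.mul 32 q) (Nat.land R 31)))
  (Nat.lor (e a1 (Nat.add (Nat.mul 32 q) (Nat.land (Nat.shiftRight R 5) 31)))
  (Nat.lor (e a2 (Nat.add (Nat.mul 32 q) (Nat.land (Nat.shiftRight R 10) 31)))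
  (Nat.lor (e a3 (Nat.add (Nat.mul 32 q) (Nat.land (Nat.shiftRight R 15) 31)))
   (e a4 (Nat.add (Nat.mul 32 q) (Nat.land (Nat.shiftRight R 20) 31))))))

/-- lines of a placed gadget -/
def iLin (e : Nat → Nat → Nat) (b0 b1 b2 : Nat) (q L : Nat) : Nat :=
  Nat.lor (e b0 (Nat.add (Nat.mul 16 q) (Nat.land L 15)))
  (Nat.lor (e b1 (Nat.add (Nat.mul 16 q) (Nat.land (Nat.shiftRight L 4) 15)))
   (e b2 (Nat.add (Nat.mul 16 q) (Nat.land (Nat.shiftRight L 8) 15))))

/-- the check of a frame: `CT` table of the cells, `LT` table of the lines, `e` the function giving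
an entry of the tables `a0`, ..., `b2` -/
def frameOK (LMf AL : Nat → Nat) (e : Nat → Nat → Nat) (CT LT a0 a1 a2 a3 a4 b0 b1 b2 q : Nat) : Bool :=
  band (allUp (fun i => band (Nat.ble (e8 CT (25 * q + i)) 199)
    (allUp (fun j => @Bool.rec (fun _ => Bool) true false
      (Nat.beq (e8 CT (25 * q + i)) (e8 CT (25 * q + j)))) i)) 25)
  (band (allUp (fun l => band (Nat.ble (Nat.succ (Nat.log2 (AL l))) 25)
    (allUp (fun i => @Bool.rec (fun _ => Bool) true
      (tb (LMf (e8 LT (12 * q + l))) (e8 CT (25 * q + i))) (tb (AL l) i)) 25)) 12)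
  (band (allUp (fun r => allUp (fun v =>
      Nat.beq (e (sel5 a0 a1 a2 a3 a4 r) (Nat.add (Nat.mul 32 q) v))
        (chunkImg 5 (fun i => e8 CT (25 * q + i)) r v)) 32) 5)
   (allUp (fun r => allUp (fun v =>
      Nat.beq (e (sel5 b0 b1 b2 0 0 r) (Nat.add (Nat.mul 16 q) v))
        (chunkImg 4 (fun i => e8 LT (12 * q + i)) r v)) 16) 3)))

/-- image of a mask of cells under a symmetry with table `PT` -/
def gImg (PT m : Nat) : Nat :=
  orUpTo (fun r => e128 PT (Nat.add (Nat.mul 32 r) (Nat.land (Nat.shiftRight m (Nat.mul 5 r)) 31))) 25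

/-- the check of a symmetry: `CT` is the table of the images of the cells, `LT` the table of the
lines: the line `l` contains the image of the line `LT l` -/
def symOK (LMf : Nat → Nat) (nl CT LT PT : Nat) : Bool :=
  band (allUp (fun i => band (Nat.ble (e8 CT i) 124)
    (allUp (fun j => @Bool.rec (fun _ => Bool) true false (Nat.beq (e8 CT i) (e8 CT j))) i)) 125)
  (band (allUp (fun r => allUp (fun v =>
      Nat.beq (e128 PT (Nat.add (Nat.mul 32 r) v)) (chunkImg 5 (fun i => e8 CT i) r v)) 32) 25)
  (allUp (fun l => band (Nat.ble (Nat.succ (e8 LT l)) nl)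
    (band (Nat.beq (Nat.shiftRight (LMf (e8 LT l)) 125) 0)
      (Nat.beq (Nat.lor (gImg PT (LMf (e8 LT l))) (LMf l)) (LMf l)))) nl))

/-- the loop over the parts of a position: references have 21 bits (16 bits for the gadget, 5 bits
for the symmetry); `RR`, `LL` are the region and the lines of a reference -/
def chl (RR LL : Nat → Nat) (k : Nat) (cont : Nat → Nat → Nat → Bool) (n : Nat) :
    Nat → Nat → Nat → Bool :=
  @Nat.rec (fun _ => Nat → Nat → Nat → Bool) (fun D acc la => cont D acc la)
    (fun _ ih D acc la =>
      frc (fun j =>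
      band (Nat.ble (Nat.succ (Nat.shiftRight j 5)) k)
      (band (Nat.beq (Nat.land (RR j) acc) 0)
        (ih (Nat.shiftRight D 21) (Nat.lor acc (RR j))
          (Nat.lor la (LL j))))) (Nat.land D 2097151)) n

/-- the check of one gadget: for every cell `x` of the region (in decreasing order) the answer `y`
(5 bits), the number of parts (4 bits) and the parts (21 bits each). `inc y` is the mask of the
abstract lines through `y`. -/
def itm (RR LL inc : Nat → Nat) (k Rk Lk : Nat) (n : Nat) : Nat → Nat → Bool :=
  @Nat.rec (fun _ => Nat → Nat → Bool) (fun rem _ => Nat.beq rem 0)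
    (fun _ ih rem D =>
      @Bool.rec (fun _ => Bool)
        (band (Nat.ble (Nat.land D 31) 24)
        (band (tb Rk (Nat.land D 31))
        (band (@Bool.rec (fun _ => Bool) true false (Nat.beq (Nat.land D 31) (Nat.log2 rem)))
          (chl RR LL k (fun D' acc' la' =>
              band (Nat.beq (Nat.lor acc' Rk) Rk)
              (band (Nat.beq (Nat.lor Lk la') la')
                (ih (Nat.xor rem (Nat.pow 2 (Nat.log2 rem))) D')))
            (Nat.land (Nat.shiftRight D 5) 15) (Nat.shiftRight D 9)
            (Nat.pow 2 (Nat.log2 rem)) (inc (Nat.land D 31))))))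
        true (Nat.beq rem 0)) n

/-- the check of the gadget `k`; `RI`, `LI` are the tables of the regions and of the lines -/
def gadOK (RI LI RR LL inc : Nat → Nat) (k D : Nat) : Bool :=
  band (Nat.ble 1 (RI k)) (itm RR LL inc k (RI k) (LI k) 25 (RI k) D)

/-- the loop over the placed gadgets of a plan; `iR j`, `iL j` are the region and the lines of the
placed gadget `j` (26 bits) -/
def insLoop (iR iL : Nat → Nat) (cont : Nat → Nat → Nat → Bool) (n : Nat) :
    Nat → Nat → Nat → Bool :=
  @Nat.rec (fun _ => Nat → Nat → Nat → Bool) (fun D r l => cont D r l)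
    (fun _ ih D r l =>
      frc (fun j => band (Nat.beq (Nat.land (iR j) r) 0)
        (ih (Nat.shiftRight D 26) (Nat.lor (iR j) r) (Nat.lor (iL j) l))) (Nat.land D 67108863)) n

/-- the loop over the placed gadgets of a plan except the gadget number `s` (counted downwards) -/
def insSkip (iR iL : Nat → Nat) (cont : Nat → Nat → Nat → Bool) (s n : Nat) :
    Nat → Nat → Nat → Bool :=
  @Nat.rec (fun _ => Nat → Nat → Nat → Bool) (fun D r l => cont D r l)
    (fun m ih D r l =>
      @Bool.rec (fun _ => Bool)
      (frc (fun j => band (Nat.beq (Nat.land (iR j) r) 0)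
        (ih (Nat.shiftRight D 26) (Nat.lor (iR j) r) (Nat.lor (iL j) l))) (Nat.land D 67108863))
      (ih (Nat.shiftRight D 26) r l) (Nat.beq m s)) n

/-- the final test of a plan: `F` free cells, `y` the answer, `r` the regions, `l` the blocked lines -/
def planEnd (full F y r l : Nat) : Bool :=
  band (Nat.beq (Nat.land F (Nat.lor r (Nat.pow 2 y))) 0) (Nat.beq l full)

/-- the check of a plan: `F` is the mask of the free cells, `hitB` the mask of the lines hit by
Breaker's stones, `inc y` the mask of the lines through `y`; `full` is the mask of all lines. The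
data: `y` (7 bits), number of gadgets (5 bits), gadgets (26 bits each). -/
def planOK (iR iL inc : Nat → Nat) (full hitB F D : Nat) : Bool :=
  insLoop iR iL (fun _ r l => planEnd full F (Nat.land D 127) r l)
    (Nat.land (Nat.shiftRight D 7) 31) (Nat.shiftRight D 12) 0
    (Nat.lor hitB (inc (Nat.land D 127)))

/-- the check of a variant of a plan: `D` are the data of the plan, `E` the data of the variant: the
number `s` of the omitted gadget (5 bits), the number of the new gadgets (5 bits), the new
gadgets (26 bits each). -/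
def altOK (iR iL inc : Nat → Nat) (full hitB F D E : Nat) : Bool :=
  insLoop iR iL (fun _ r' l' =>
    insSkip iR iL (fun _ r l => planEnd full F (Nat.land D 127) r l) (Nat.land E 31)
      (Nat.land (Nat.shiftRight D 7) 31) (Nat.shiftRight D 12) r' l')
    (Nat.land (Nat.shiftRight E 5) 31) (Nat.shiftRight E 10) 0
    (Nat.lor hitB (inc (Nat.land D 127)))

/-- the loop over the plans of a node with Maker's stones `M`: the identifiers have 18 bits -/
def nodeLoop (T : Nat → Nat) (M : Nat) (cont : Nat → Nat → Bool) (n : Nat) : Nat → Nat → Bool :=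
  @Nat.rec (fun _ => Nat → Nat → Bool) (fun D acc => cont D acc)
    (fun _ ih D acc =>
      frc (fun j => band (Nat.beq (Nat.land M (T j)) M)
        (ih (Nat.shiftRight D 18) (Nat.lor (T j) acc))) (Nat.land D 262143)) n

/-- the check of one node: the number of plans (6 bits) and the plans (18 bits each) -/
def nodeOK (T : Nat → Nat) (full M B D : Nat) : Bool :=
  nodeLoop T M (fun _ acc => band (Nat.beq (Nat.lor acc B) full)
          (@Bool.rec (fun _ => Bool) true false (Nat.beq (Nat.lor M B) full)))
        (Nat.land D 63) (Nat.shiftRight D 6) 0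

end

end Pool.Agent.MP_c0c4a4_co.N5
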