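import Mathlib
import Pool.Agent.MP_c0c4a4_co.Defs
import Pool.Agent.MP_c0c4a4_co.Framework
import Pool.Agent.MP_c0c4a4_co.Board
import Pool.Agent.MP_c0c4a4_co.Fast

/-!
Maker-Breaker games on families of sets of natural numbers (Breaker moves second), and the passage
from such a game to a strong draw on the board of side 5.
-/

set_option autoImplicit false

namespace Pool.Agent.MP_c0c4a4_co.N5

/-- the family after the moves `x` of Maker and `y` of Breaker -/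
def ch (H : Set (Set ℕ)) (x y : ℕ) : Set (Set ℕ) := {s | ∃ t ∈ H, y ∉ t ∧ s = t \ {x}}

/-- Breaker, moving second, prevents Maker from claiming a whole member of `H` -/
def Bw (H : Set (Set ℕ)) : Prop :=
  ∃ P : Set (Set (Set ℕ)), H ∈ P ∧ ∀ K ∈ P, ∅ ∉ K ∧ ∀ x, ∃ y, y ≠ x ∧ ch K x y ∈ P

/-- every member of `H` contains a member of `H'` -/
def Dom (H' H : Set (Set ℕ)) : Prop := ∀ t ∈ H, ∃ t' ∈ H', t' ⊆ t

theorem Bw.out {H : Set (Set ℕ)} (h : Bw H) : ∅ ∉ H ∧ ∀ x, ∃ y, y ≠ x ∧ Bw (ch H x y) := by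
  obtain ⟨P, hH, hP⟩ := h
  refine ⟨(hP H hH).1, fun x => ?_⟩
  obtain ⟨y, hy, hc⟩ := (hP H hH).2 x
  exact ⟨y, hy, P, hc, hP⟩

theorem Bw.mono {H' H : Set (Set ℕ)} (h : Bw H') (hd : Dom H' H) : Bw H := by
  refine ⟨{K | ∃ K', Bw K' ∧ Dom K' K}, ⟨H', h, hd⟩, ?_⟩
  rintro K ⟨K', hK', hd⟩
  obtain ⟨h0, hs⟩ := hK'.out
  constructor
  · intro he
    obtain ⟨t', ht', hsub⟩ := hd ∅ he
    rw [Set.subset_empty_iff] at hsub
    exact h0 (hsub ▸ ht')
  · intro x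
    obtain ⟨y, hy, hb⟩ := hs x
    refine ⟨y, hy, ch K' x y, hb, ?_⟩
    rintro s ⟨t, ht, hyt, rfl⟩
    obtain ⟨t', ht', hsub⟩ := hd t ht
    exact ⟨t' \ {x}, ⟨t', ht', fun h => hyt (hsub h), rfl⟩, Set.diff_subset_diff_left hsub⟩

theorem Bw.intro {H : Set (Set ℕ)} (h0 : ∅ ∉ H)
    (hs : ∀ x, (∃ t ∈ H, x ∈ t) → ∃ y, y ≠ x ∧ Bw (ch H x y)) : Bw H := by
  refine ⟨{K | K ⊆ H ∨ Bw K}, Or.inl subset_rfl, ?_⟩
  rintro K (hK | hK)
  · refine ⟨fun h => h0 (hK h), fun x => ?_⟩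
    by_cases hx : ∃ t ∈ H, x ∈ t
    · obtain ⟨y, hy, hb⟩ := hs x hx
      refine ⟨y, hy, Or.inr (hb.mono ?_)⟩
      rintro s ⟨t, ht, hyt, rfl⟩
      exact ⟨_, ⟨t, hK ht, hyt, rfl⟩, subset_rfl⟩
    · refine ⟨x + 1, by omega, Or.inl ?_⟩
      rintro s ⟨t, ht, hyt, rfl⟩
      have : t \ {x} = t := by
        rw [Set.diff_singleton_eq_self]
        exact fun h => hx ⟨t, hK ht, h⟩
      rw [this]
      exact hK ht
  · obtain ⟨h1, h2⟩ := hK.out
    refine ⟨h1, fun x => ?_⟩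
    obtain ⟨y, hy, hb⟩ := h2 x
    exact ⟨y, hy, Or.inr hb⟩

theorem Bw.empty : Bw ∅ :=
  Bw.intro (by simp) (by rintro x ⟨t, ht, _⟩; exact ht.elim)

theorem Bw.union {H1 H2 : Set (Set ℕ)} (h1 : Bw H1) (h2 : Bw H2)
    (hd : ∀ s ∈ H1, ∀ t ∈ H2, Disjoint s t) : Bw (H1 ∪ H2) := by
  refine ⟨{K | ∃ K1 K2, Bw K1 ∧ Bw K2 ∧ (∀ s ∈ K1, ∀ t ∈ K2, Disjoint s t) ∧ Dom (K1 ∪ K2) K},
    ⟨H1, H2, h1, h2, hd, fun t ht => ⟨t, ht, subset_rfl⟩⟩, ?_⟩
  rintro K ⟨K1, K2, h1, h2, hd, hdom⟩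
  obtain ⟨h10, h1s⟩ := h1.out
  obtain ⟨h20, h2s⟩ := h2.out
  constructor
  · intro he
    obtain ⟨t', ht', hsub⟩ := hdom ∅ he
    rw [Set.subset_empty_iff] at hsub
    subst hsub
    rcases ht' with h | h
    · exact h10 h
    · exact h20 h
  · intro x
    by_cases hx : ∃ s ∈ K1, x ∈ s
    · obtain ⟨s0, hs0, hxs0⟩ := hx
      obtain ⟨y, hy, hb⟩ := h1s x
      refine ⟨y, hy, ch K1 x y, K2, hb, h2, ?_, ?_⟩
      · rintro s ⟨t, ht, hyt, rfl⟩ t2 ht2
        exact (hd t ht t2 ht2).mono_left Set.diff_subset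
      · rintro s ⟨t, ht, hyt, rfl⟩
        obtain ⟨t', ht', hsub⟩ := hdom t ht
        rcases ht' with h | h
        · exact ⟨t' \ {x}, Or.inl ⟨t', h, fun h' => hyt (hsub h'), rfl⟩,
            Set.diff_subset_diff_left hsub⟩
        · refine ⟨t', Or.inr h, fun c hc => ⟨hsub hc, ?_⟩⟩
          rintro rfl
          exact Set.disjoint_left.1 (hd s0 hs0 t' h) hxs0 hc
    · obtain ⟨y, hy, hb⟩ := h2s x
      refine ⟨y, hy, K1, ch K2 x y, h1, hb, ?_, ?_⟩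
      · rintro t1 ht1 s ⟨t, ht, hyt, rfl⟩
        exact (hd t1 ht1 t ht).mono_right Set.diff_subset
      · rintro s ⟨t, ht, hyt, rfl⟩
        obtain ⟨t', ht', hsub⟩ := hdom t ht
        rcases ht' with h | h
        · refine ⟨t', Or.inl h, fun c hc => ⟨hsub hc, ?_⟩⟩
          rintro rfl
          exact hx ⟨t', h, hc⟩
        · exact ⟨t' \ {x}, Or.inr ⟨t', h, fun h' => hyt (hsub h'), rfl⟩,
            Set.diff_subset_diff_left hsub⟩

theorem Bw.image {H : Set (Set ℕ)} (h : Bw H) (f : ℕ → ℕ) (hf : Function.Injective f) :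
    Bw ((fun s => f '' s) '' H) := by
  refine ⟨{K | ∃ K', Bw K' ∧ Dom ((fun s => f '' s) '' K') K},
    ⟨H, h, fun t ht => ⟨t, ht, subset_rfl⟩⟩, ?_⟩
  rintro K ⟨K', hK', hdom⟩
  obtain ⟨h0, hs⟩ := hK'.out
  constructor
  · intro he
    obtain ⟨t', ⟨t0, ht0, rfl⟩, hsub⟩ := hdom ∅ he
    rw [Set.subset_empty_iff, Set.image_eq_empty] at hsub
    exact h0 (hsub ▸ ht0)
  · intro x
    by_cases hx : ∃ x0, f x0 = x
    · obtain ⟨x0, rfl⟩ := hx
      obtain ⟨y, hy, hb⟩ := hs x0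
      refine ⟨f y, fun e => hy (hf e), ch K' x0 y, hb, ?_⟩
      rintro s ⟨t, ht, hyt, rfl⟩
      obtain ⟨t', ⟨t0, ht0, rfl⟩, hsub⟩ := hdom t ht
      refine ⟨f '' (t0 \ {x0}), ⟨_, ⟨t0, ht0, fun h' => hyt (hsub ⟨y, h', rfl⟩), rfl⟩, rfl⟩, ?_⟩
      rintro c ⟨d, ⟨hd1, hd2⟩, rfl⟩
      exact ⟨hsub ⟨d, hd1, rfl⟩, fun e => hd2 (hf e)⟩
    · refine ⟨x + 1, by omega, K', hK', ?_⟩
      rintro s ⟨t, ht, hyt, rfl⟩
      obtain ⟨t', ⟨t0, ht0, rfl⟩, hsub⟩ := hdom t ht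
      refine ⟨f '' t0, ⟨t0, ht0, rfl⟩, ?_⟩
      rintro c ⟨d, hd1, rfl⟩
      exact ⟨hsub ⟨d, hd1, rfl⟩, fun e => hx ⟨d, e⟩⟩

/-- a family all of whose members contain both `u` and `v` -/
theorem Bw.pair {H : Set (Set ℕ)} {u v : ℕ} (huv : u ≠ v) (h : ∀ t ∈ H, u ∈ t ∧ v ∈ t) : Bw H := by
  have key : Bw {({u, v} : Set ℕ)} := by
    refine Bw.intro (fun h => ?_) ?_
    · rw [Set.mem_singleton_iff] at h
      have : u ∈ (∅ : Set ℕ) := by rw [h]; simp
      exact this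
    · rintro x ⟨t, ht, hx⟩
      rw [Set.mem_singleton_iff] at ht
      subst ht
      have : ∀ y, y ∈ ({u, v} : Set ℕ) → Bw (ch {({u, v} : Set ℕ)} x y) := by
        intro y hy
        refine Bw.empty.mono ?_
        rintro s ⟨t, ht, hyt, rfl⟩
        rw [Set.mem_singleton_iff] at ht
        subst ht
        exact (hyt hy).elim
      rcases hx with rfl | hx
      · exact ⟨v, huv.symm, this v (by simp)⟩
      · rw [Set.mem_singleton_iff] at hx
        subst hx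
        exact ⟨u, huv, this u (by simp)⟩
  refine key.mono (fun t ht => ⟨{u, v}, rfl, ?_⟩)
  rintro c (rfl | hc)
  · exact (h t ht).1
  · rw [Set.mem_singleton_iff] at hc
    subst hc
    exact (h t ht).2

/-- the set of the bits of a mask -/
def mset (m : ℕ) : Set ℕ := {c | Nat.testBit m c = true}

@[simp] theorem mem_mset {m c : ℕ} : c ∈ mset m ↔ Nat.testBit m c = true := Iff.rfl

/-- what is left of the lines after the moves `M` of Maker and `B` of Breaker -/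
def fam (LM : List ℕ) (M B : Set ℕ) : Set (Set ℕ) :=
  {t | ∃ m ∈ LM, Disjoint (mset m) B ∧ t = mset m \ M}

/-- all masks in the list are masks of cells of the board -/
def LMlt (LM : List ℕ) : Prop := ∀ m ∈ LM, m < 2 ^ 125

theorem lt_of_testBit {m c k : ℕ} (hm : m < 2 ^ k) (h : Nat.testBit m c = true) : c < k := by
  by_contra hcon
  have : m < 2 ^ c := lt_of_lt_of_le hm (Nat.pow_le_pow_right (by norm_num) (by omega))
  rw [Nat.testBit_lt_two_pow this] at h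
  exact Bool.noConfusion h

/-- more stones of Breaker, fewer stones of Maker -/
theorem fam_mono {LM : List ℕ} {M B M' B' : Set ℕ} (h : Bw (fam LM M B)) (hM : M' ⊆ M)
    (hB : B ⊆ B') : Bw (fam LM M' B') := by
  refine h.mono ?_
  rintro t ⟨m, hm, hd, rfl⟩
  exact ⟨_, ⟨m, hm, hd.mono_right hB, rfl⟩, Set.diff_subset_diff_right hM⟩

/-- the rule for a position with Maker to move -/
theorem fam_step {LM : List ℕ} (hLM : LMlt LM) {M B : Set ℕ}
    (h0 : ∃ x, x < 125 ∧ x ∉ M ∧ x ∉ B)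
    (h : ∀ x, x < 125 → x ∉ M → x ∉ B → ∃ y, y ≠ x ∧ y ∉ M ∧
      Bw (fam LM (insert x M) (insert y B))) : Bw (fam LM M B) := by
  refine Bw.intro ?_ ?_
  · rintro ⟨m, hm, hd, he⟩
    obtain ⟨x, hx, hxM, hxB⟩ := h0
    obtain ⟨y, hy, hyM, hb⟩ := h x hx hxM hxB
    have hsub : mset m ⊆ M := Set.diff_eq_empty.1 he.symm
    refine hb.out.1 ⟨m, hm, ?_, ?_⟩
    · rw [Set.disjoint_insert_right]
      exact ⟨fun h' => hyM (hsub h'), hd⟩
    · exact (Set.diff_eq_empty.2 (hsub.trans (Set.subset_insert _ _))).symm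
  · rintro x ⟨t, ⟨m, hm, hd, rfl⟩, hx⟩
    have hxlt : x < 125 := lt_of_testBit (hLM m hm) hx.1
    obtain ⟨y, hy, hyM, hb⟩ := h x hxlt hx.2 (Set.disjoint_left.1 hd hx.1)
    refine ⟨y, hy, hb.mono ?_⟩
    rintro s ⟨t, ⟨m', hm', hd', rfl⟩, hyt, rfl⟩
    refine ⟨_, ⟨m', hm', ?_, rfl⟩, ?_⟩
    · rw [Set.disjoint_insert_right]
      exact ⟨fun h' => hyt ⟨h', hyM⟩, hd'⟩
    · rintro c ⟨hc1, hc2⟩
      rw [Set.mem_insert_iff, not_or] at hc2
      exact ⟨⟨hc1, hc2.2⟩, hc2.1⟩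

/-- transport by a symmetry -/
theorem fam_image {LM : List ℕ} {M B : Set ℕ} (h : Bw (fam LM M B)) (f : ℕ → ℕ)
    (hf : Function.Injective f) (hL : ∀ m ∈ LM, ∃ m' ∈ LM, f '' mset m' ⊆ mset m) :
    Bw (fam LM (f '' M) (f '' B)) := by
  refine (h.image f hf).mono ?_
  rintro t ⟨m, hm, hd, rfl⟩
  obtain ⟨m', hm', hsub⟩ := hL m hm
  refine ⟨f '' (mset m' \ M), ⟨_, ⟨m', hm', ?_, rfl⟩, rfl⟩, ?_⟩
  · rw [Set.disjoint_left]
    intro c hc hcB
    exact Set.disjoint_left.1 hd (hsub ⟨c, hc, rfl⟩) ⟨c, hcB, rfl⟩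
  · rintro c ⟨d, ⟨hd1, hd2⟩, rfl⟩
    refine ⟨hsub ⟨d, hd1, rfl⟩, ?_⟩
    rintro ⟨e, he, hee⟩
    exact hd2 (hf hee ▸ he)

lemma allListed_spec {n : ℕ} {Ls : List ℕ} (h : allListed n Ls = true) (a : Cell n)
    (t : Fin 3 → Fin 3) (ht : ∃ j, t j ≠ 0) :
    lmask n (if (t 0 : ℕ) = 0 then a 0 else 0) (if (t 1 : ℕ) = 0 then a 1 else 0)
      (if (t 2 : ℕ) = 0 then a 2 else 0) (t 0) (t 1) (t 2) ∈ Ls := by
  unfold allListed at h
  rw [List.all_eq_true] at h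
  have h1 := h (t 0) (List.mem_range.2 (t 0).2)
  rw [List.all_eq_true] at h1
  have h2 := h1 (t 1) (List.mem_range.2 (t 1).2)
  rw [List.all_eq_true] at h2
  have h3 := h2 (t 2) (List.mem_range.2 (t 2).2)
  rw [Bool.or_eq_true] at h3
  have hne : ¬ (((t 0 : ℕ) + (t 1 : ℕ) + (t 2 : ℕ)) == 0) = true := by
    intro h0
    rw [beq_iff_eq] at h0
    obtain ⟨j, hj⟩ := ht
    apply hj
    apply Fin.ext
    fin_cases j
    · show ((t 0 : Fin 3) : ℕ) = 0; omega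
    · show ((t 1 : Fin 3) : ℕ) = 0; omega
    · show ((t 2 : Fin 3) : ℕ) = 0; omega
  have h4 := h3.resolve_left hne
  have key : ∀ (s : ℕ) (x : Fin n), (if s = 0 then (x : ℕ) else 0) <
      (match s with | 0 => n | _ => 1) := by
    intro s x
    cases s with
    | zero => simp
    | succ s => simp
  rw [List.all_eq_true] at h4
  have h5 := h4 _ (List.mem_range.2 (key (t 0) (a 0)))
  rw [List.all_eq_true] at h5
  have h6 := h5 _ (List.mem_range.2 (key (t 1) (a 1)))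
  rw [List.all_eq_true] at h6
  have h7 := h6 _ (List.mem_range.2 (key (t 2) (a 2)))
  rw [List.any_eq_true] at h7
  obtain ⟨L, hL, hLe⟩ := h7
  rw [← Nat.eq_of_beq_eq_true hLe]
  exact hL

/-- a win of Breaker on the lines gives a strong draw -/
theorem strongDraw_of_Bw (LM : List ℕ) (hL : allListed 5 LM = true) (hLM : LMlt LM)
    (h : Bw (fam LM ∅ ∅)) : SecondForcesStrongDraw 5 := by
  classical
  have : Inhabited (Cell 5) := ⟨fun _ => 0⟩
  let P : Finset (Cell 5) → Finset (Cell 5) → Prop := fun M B =>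
    (∀ c, c ∈ M → c ∉ B) ∧ Bw (fam LM (code '' (M : Set (Cell 5))) (code '' (B : Set (Cell 5))))
  obtain ⟨σ, hσ⟩ := exists_strategy P
    ⟨by simp, by simpa using h⟩
    (by
      intro M B x hP hxM hxB
      obtain ⟨hD, hI⟩ := hP
      obtain ⟨y, hy, hb⟩ := hI.out.2 (code x)
      by_cases hcase : ∃ y' : Cell 5, code y' = y ∧ y' ∉ M ∧ y' ∉ B
      · obtain ⟨y', rfl, hyM, hyB⟩ := hcase
        left
        refine ⟨y', fun e => hy (by rw [e]), hyM, hyB, ?_, ?_⟩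
        · intro c hc
          rw [Finset.mem_insert] at hc ⊢
          rintro (hcy | hcB)
          · rcases hc with rfl | hc
            · exact hy (by rw [hcy])
            · exact hyM (hcy ▸ hc)
          · rcases hc with rfl | hc
            · exact hxB hcB
            · exact hD c hc hcB
        · rw [Finset.coe_insert, Finset.coe_insert, Set.image_insert_eq, Set.image_insert_eq]
          refine hb.mono ?_
          rintro t ⟨m, hm, hd, rfl⟩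
          rw [Set.disjoint_insert_right] at hd
          refine ⟨_, ⟨_, ⟨m, hm, hd.2, rfl⟩, fun h' => hd.1 h'.1, rfl⟩, ?_⟩
          rintro c ⟨⟨hc1, hc2⟩, hc3⟩
          refine ⟨hc1, ?_⟩
          rw [Set.mem_insert_iff, not_or]
          exact ⟨hc3, hc2⟩
      · right
        refine ⟨?_, ?_⟩
        · intro c hc
          rw [Finset.mem_insert] at hc
          rcases hc with rfl | hc
          · exact hxB
          · exact hD c hc
        · rw [Finset.coe_insert, Set.image_insert_eq]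
          refine hb.mono ?_
          rintro t ⟨m, hm, hd, rfl⟩
          refine ⟨_, ⟨_, ⟨m, hm, hd, rfl⟩, ?_, rfl⟩, ?_⟩
          · rintro ⟨hy1, hy2⟩
            have hylt : y < 5 * 5 * 5 := lt_of_testBit (hLM m hm) hy1
            obtain ⟨y', rfl⟩ := code_surj hylt
            apply hcase
            refine ⟨y', rfl, fun h' => hy2 ⟨y', h', rfl⟩, fun h' => ?_⟩
            exact Set.disjoint_left.1 hd hy1 ⟨y', h', rfl⟩
          · rintro c ⟨⟨hc1, hc2⟩, hc3⟩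
            refine ⟨hc1, ?_⟩
            rw [Set.mem_insert_iff, not_or]
            exact ⟨hc3, hc2⟩)
  refine ⟨σ, fun l hl => ?_⟩
  obtain ⟨h1, M, B, hM, hD, hI⟩ := hσ l hl.1 hl.2
  refine ⟨h1, ?_⟩
  rintro L ⟨a, t, ht, rfl⟩ hsub
  have hb := allListed_spec hL a t ht
  refine hI.out.1 ⟨_, hb, ?_, ?_⟩
  · rw [Set.disjoint_left]
    intro c hc hcB
    obtain ⟨i, hi, hic⟩ := testBit_foldr _ _ _ hc
    rw [List.mem_range] at hi
    have e0 := gco_eq a t ⟨i, hi⟩ 0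
    have e1 := gco_eq a t ⟨i, hi⟩ 1
    have e2 := gco_eq a t ⟨i, hi⟩ 2
    simp only at e0 e1 e2
    have hcode : code (lineCell a t ⟨i, hi⟩) = c := by
      unfold code
      rw [← hic, ← e0, ← e1, ← e2]
    obtain ⟨d, hd, hdc⟩ := hcB
    have hdeq : d = lineCell a t ⟨i, hi⟩ := code_injective (by rw [hdc, hcode])
    have : lineCell a t ⟨i, hi⟩ ∈ M := (hM _).2 (hsub ⟨⟨i, hi⟩, rfl⟩)
    exact hD _ this (by rw [← hdeq]; exact hd)
  · symm
    rw [Set.diff_eq_empty]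
    intro c hc
    obtain ⟨i, hi, hic⟩ := testBit_foldr _ _ _ hc
    rw [List.mem_range] at hi
    have e0 := gco_eq a t ⟨i, hi⟩ 0
    have e1 := gco_eq a t ⟨i, hi⟩ 1
    have e2 := gco_eq a t ⟨i, hi⟩ 2
    simp only at e0 e1 e2
    have hcode : code (lineCell a t ⟨i, hi⟩) = c := by
      unfold code
      rw [← hic, ← e0, ← e1, ← e2]
    exact ⟨lineCell a t ⟨i, hi⟩, (hM _).2 (hsub ⟨⟨i, hi⟩, rfl⟩), hcode⟩

end Pool.Agent.MP_c0c4a4_co.N5
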