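import Mathlib
import Pool.Agent.MP_c0c4a4_co.N5.Ops
import Pool.Agent.MP_c0c4a4_co.N5.Sem

/-!
Checkers written with the raw operations on `ℕ` (fast in the kernel), and their soundness.
-/

set_option autoImplicit false

namespace Pool.Agent.MP_c0c4a4_co.N5

theorem band_iff {a b : Bool} : band a b = true ↔ a = true ∧ b = true := by
  cases a <;> simp [band]

theorem tb_eq (m n : ℕ) : tb m n = Nat.testBit m n := by
  unfold tb
  have h : Nat.testBit m n = (1 &&& (m >>> n) != 0) := rfl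
  rw [h]
  have h1 : Nat.land (Nat.shiftRight m n) 1 = 1 &&& (m >>> n) := by
    change (m >>> n) &&& 1 = _
    rw [Nat.and_comm]
  rw [h1]
  have h2 : 1 &&& (m >>> n) = (m >>> n) % 2 := by
    rw [Nat.and_comm, Nat.and_one_is_mod]
  rw [h2]
  rcases Nat.mod_two_eq_zero_or_one (m >>> n) with h | h
  · rw [h]; rfl
  · rw [h]; rfl

theorem land_eq (a b : ℕ) : Nat.land a b = a &&& b := rfl
theorem lor_eq (a b : ℕ) : Nat.lor a b = a ||| b := rfl
theorem beq_iff {a b : ℕ} : Nat.beq a b = true ↔ a = b := by rw [Nat.beq_eq]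
theorem ble_iff {a b : ℕ} : Nat.ble a b = true ↔ a ≤ b := by rw [Nat.ble_eq]

theorem mem_lor {a b c : ℕ} : c ∈ mset (Nat.lor a b) ↔ c ∈ mset a ∨ c ∈ mset b := by
  rw [lor_eq, mem_mset, mem_mset, mem_mset, T.testBit_or_iff]

theorem mem_land {a b c : ℕ} : c ∈ mset (Nat.land a b) ↔ c ∈ mset a ∧ c ∈ mset b := by
  rw [land_eq, mem_mset, mem_mset, mem_mset, T.testBit_and_iff]

theorem mem_pow {a c : ℕ} : c ∈ mset (Nat.pow 2 a) ↔ c = a := by
  change Nat.testBit (2 ^ a) c = true ↔ _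
  rw [T.testBit_pow_iff]; exact eq_comm

theorem subset_of_land {a b : ℕ} (h : Nat.beq (Nat.land a b) a = true) : mset a ⊆ mset b := by
  intro c hc
  rw [beq_iff] at h
  rw [← h] at hc
  exact (mem_land.1 hc).2

theorem subset_of_lor {a b : ℕ} (h : Nat.beq (Nat.lor a b) b = true) : mset a ⊆ mset b := by
  intro c hc
  rw [beq_iff] at h
  rw [← h]
  exact mem_lor.2 (Or.inl hc)

theorem disjoint_of_land {a b : ℕ} (h : Nat.beq (Nat.land a b) 0 = true) :
    Disjoint (mset a) (mset b) := by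
  rw [Set.disjoint_left]
  intro c h1 h2
  have := mem_land.2 ⟨h1, h2⟩
  rw [beq_iff.1 h] at this
  simp at this

theorem frc_eq (f : ℕ → Bool) (x : ℕ) : frc f x = f x := by cases x <;> rfl

/-! ### gadgets in an abstract board -/

/-- the family of the sets `line l ∩ R`, where `l` runs over the bits of `Lam` -/
def gfam (AL : ℕ → ℕ) (R Lam : ℕ) : Set (Set ℕ) :=
  {t | ∃ l ∈ mset Lam, t = mset (AL l) ∩ mset R}

theorem chl_zero (RR LL : ℕ → ℕ) (k : ℕ) (cont : ℕ → ℕ → ℕ → Bool) (D acc la : ℕ) :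
    chl RR LL k cont 0 D acc la = cont D acc la := rfl

theorem chl_succ (RR LL : ℕ → ℕ) (k : ℕ) (cont : ℕ → ℕ → ℕ → Bool) (n D acc la : ℕ) :
    chl RR LL k cont (n + 1) D acc la =
      band (Nat.ble (Nat.succ (Nat.shiftRight (Nat.land D 2097151) 5)) k)
      (band (Nat.beq (Nat.land (RR (Nat.land D 2097151)) acc) 0)
        (chl RR LL k cont n (Nat.shiftRight D 21) (Nat.lor acc (RR (Nat.land D 2097151)))
          (Nat.lor la (LL (Nat.land D 2097151))))) := by
  change frc (fun j =>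
      band (Nat.ble (Nat.succ (Nat.shiftRight j 5)) k)
      (band (Nat.beq (Nat.land (RR j) acc) 0)
        (chl RR LL k cont n (Nat.shiftRight D 21) (Nat.lor acc (RR j))
          (Nat.lor la (LL j))))) (Nat.land D 2097151) = _
  rw [frc_eq]

/-- soundness of the loop: there is a family won by Breaker inside of the new region which
dominates all lines which are new in the mask of lines -/
theorem chl_sound (AL RR LL : ℕ → ℕ) (k : ℕ) (cont : ℕ → ℕ → ℕ → Bool)
    (hk : ∀ j, Nat.shiftRight j 5 < k → Bw (gfam AL (RR j) (LL j))) :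
    ∀ (n D acc la : ℕ), chl RR LL k cont n D acc la = true →
      ∃ D' acc' la' H, cont D' acc' la' = true ∧ Bw H ∧
        (∀ t ∈ H, t ⊆ mset acc' ∧ Disjoint t (mset acc)) ∧ (mset acc ⊆ mset acc') ∧
        (∀ l ∈ mset la', l ∈ mset la ∨ ∃ t ∈ H, t ⊆ mset (AL l)) := by
  intro n
  induction n with
  | zero =>
    intro D acc la h
    exact ⟨D, acc, la, ∅, h, Bw.empty, by simp, subset_rfl, fun l hl => Or.inl hl⟩
  | succ n ih =>
    intro D acc la h
    rw [chl_succ, band_iff, band_iff] at h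
    obtain ⟨h1, h2, h3⟩ := h
    set j := Nat.land D 2097151 with hj
    have hjk : Nat.shiftRight j 5 < k := ble_iff.1 h1
    obtain ⟨D', acc', la', H, g1, g2, g3, g4, g5⟩ := ih _ _ _ h3
    have hsub : mset acc ⊆ mset (Nat.lor acc (RR j)) := fun c hc => mem_lor.2 (Or.inl hc)
    have hsub2 : mset (RR j) ⊆ mset (Nat.lor acc (RR j)) := fun c hc => mem_lor.2 (Or.inr hc)
    refine ⟨D', acc', la', gfam AL (RR j) (LL j) ∪ H, g1, ?_, ?_, hsub.trans g4, ?_⟩
    · refine (hk j hjk).union g2 ?_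
      rintro s ⟨l, hl, rfl⟩ t ht
      exact ((g3 t ht).2.mono_right (Set.inter_subset_right.trans hsub2)).symm
    · rintro t (⟨l, hl, rfl⟩ | ht)
      · refine ⟨Set.inter_subset_right.trans (hsub2.trans g4), ?_⟩
        exact (disjoint_of_land h2).mono_left Set.inter_subset_right
      · exact ⟨(g3 t ht).1, (g3 t ht).2.mono_right hsub⟩
    · intro l hl
      rcases g5 l hl with h | ⟨t, ht, hts⟩
      · rcases mem_lor.1 h with h | h
        · exact Or.inl h
        · exact Or.inr ⟨_, Or.inl ⟨l, h, rfl⟩, Set.inter_subset_left⟩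
      · exact Or.inr ⟨t, Or.inr ht, hts⟩

theorem mem_xor_pow {m x c : ℕ} (hc : c ∈ mset m) (hne : c ≠ x) :
    c ∈ mset (Nat.xor m (Nat.pow 2 x)) := by
  change Nat.testBit (m ^^^ 2 ^ x) c = true
  rw [Nat.testBit_xor, Nat.testBit_two_pow]
  have : decide (x = c) = false := by simp [Ne.symm hne]
  rw [this, Bool.xor_false]
  exact hc

theorem itm_sound (AL RR LL inc : ℕ → ℕ) (k Rk Lk : ℕ)
    (hinc : ∀ y, y ≤ 24 → ∀ l ∈ mset (inc y), y ∈ mset (AL l))
    (hk : ∀ j, Nat.shiftRight j 5 < k → Bw (gfam AL (RR j) (LL j))) :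
    ∀ (n rem D : ℕ), itm RR LL inc k Rk Lk n rem D = true →
      ∀ x ∈ mset rem, ∃ y, y ≠ x ∧ Bw (ch (gfam AL Rk Lk) x y) := by
  intro n
  induction n with
  | zero =>
    intro rem D h x hx
    have : rem = 0 := beq_iff.1 h
    rw [this] at hx
    simp at hx
  | succ n ih =>
    intro rem D h x hx
    change @Bool.rec (fun _ => Bool)
        (band (Nat.ble (Nat.land D 31) 24)
        (band (tb Rk (Nat.land D 31))
        (band (@Bool.rec (fun _ => Bool) true false (Nat.beq (Nat.land D 31) (Nat.log2 rem)))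
          (chl RR LL k (fun D' acc' la' =>
              band (Nat.beq (Nat.lor acc' Rk) Rk)
              (band (Nat.beq (Nat.lor Lk la') la')
                (itm RR LL inc k Rk Lk n (Nat.xor rem (Nat.pow 2 (Nat.log2 rem))) D')))
            (Nat.land (Nat.shiftRight D 5) 15) (Nat.shiftRight D 9)
            (Nat.pow 2 (Nat.log2 rem)) (inc (Nat.land D 31))))))
        true (Nat.beq rem 0) = true at h
    cases hrem : Nat.beq rem 0 with
    | true =>
      rw [beq_iff.1 hrem] at hx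
      simp at hx
    | false =>
      rw [hrem] at h
      rw [band_iff, band_iff, band_iff] at h
      obtain ⟨h1, h2, h3, h4⟩ := h
      set y := Nat.land D 31 with hy
      set z := Nat.log2 rem with hz
      have hyz : y ≠ z := by
        intro e
        rw [beq_iff.2 e] at h3
        exact Bool.noConfusion h3
      obtain ⟨D', acc', la', H, g1, g2, g3, g4, g5⟩ :=
        chl_sound AL RR LL k _ hk _ _ _ _ h4
      rw [band_iff, band_iff] at g1
      obtain ⟨g6, g7, g8⟩ := g1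
      by_cases hxz : x = z
      · subst hxz
        refine ⟨y, hyz, g2.mono ?_⟩
        rintro s ⟨t, ⟨l, hl, rfl⟩, hyt, rfl⟩
        have hyR : y ∈ mset Rk := by rw [mem_mset, ← tb_eq]; exact h2
        have hyl : y ∉ mset (AL l) := fun h' => hyt ⟨h', hyR⟩
        have hla : l ∈ mset la' := subset_of_lor g7 hl
        rcases g5 l hla with h' | ⟨t, ht, hts⟩
        · exact (hyl (hinc y (ble_iff.1 h1) l h')).elim
        · refine ⟨t, ht, fun c hc => ⟨⟨hts hc, ?_⟩, ?_⟩⟩
          · exact subset_of_lor g6 ((g3 t ht).1 hc)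
          · rintro rfl
            exact Set.disjoint_left.1 (g3 t ht).2 hc (mem_pow.2 rfl)
      · exact ih _ _ g8 x (mem_xor_pow hx hxz)

theorem gadOK_sound (AL RI LI RR LL inc : ℕ → ℕ)
    (hinc : ∀ y, y ≤ 24 → ∀ l ∈ mset (inc y), y ∈ mset (AL l)) (k D : ℕ)
    (hk : ∀ j, Nat.shiftRight j 5 < k → Bw (gfam AL (RR j) (LL j)))
    (h : gadOK RI LI RR LL inc k D = true) :
    Bw (gfam AL (RI k) (LI k)) := by
  unfold gadOK at h
  rw [band_iff] at h
  obtain ⟨h1, h2⟩ := h
  have key := itm_sound AL RR LL inc k (RI k) (LI k) hinc hk _ _ _ h2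
  have hne : (RI k) ≠ 0 := by
    have := ble_iff.1 h1
    omega
  obtain ⟨x0, hx0⟩ := Nat.exists_testBit_of_ne_zero hne
  refine Bw.intro ?_ ?_
  · intro he
    obtain ⟨y, hy, hb⟩ := key x0 hx0
    refine hb.out.1 ⟨∅, he, by simp, by simp⟩
  · rintro x ⟨t, ⟨l, hl, rfl⟩, hx⟩
    exact key x hx.2

theorem gfam_zero (AL : ℕ → ℕ) (R : ℕ) : Bw (gfam AL R 0) := by
  refine Bw.empty.mono ?_
  rintro t ⟨l, hl, rfl⟩
  simp at hl

/-- all gadgets are won -/
theorem gad_all (AL RI LI RR LL inc : ℕ → ℕ) (N : ℕ)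
    (hinc : ∀ y, y ≤ 24 → ∀ l ∈ mset (inc y), y ∈ mset (AL l))
    (hRR : ∀ j, Bw (gfam AL (RI (Nat.shiftRight j 5)) (LI (Nat.shiftRight j 5))) →
      Bw (gfam AL (RR j) (LL j)))
    (h : ∀ k, k < N → ∃ D, gadOK RI LI RR LL inc k D = true) :
    ∀ k, k < N → Bw (gfam AL (RI k) (LI k)) := by
  intro k
  induction k using Nat.strong_induction_on with
  | _ k ih =>
    intro hk
    obtain ⟨D, hD⟩ := h k hk
    exact gadOK_sound AL RI LI RR LL inc hinc k D (fun j hj => hRR j (ih _ hj (hj.trans hk))) hD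

end Pool.Agent.MP_c0c4a4_co.N5
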