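import Mathlib
import Pool.Agent.MP_c0c4a4_co.N5.Sem
import Pool.Agent.MP_c0c4a4_co.N5.Chk

/-!
Placed gadgets, plans, nodes: checkers and their soundness.
-/

set_option autoImplicit false

namespace Pool.Agent.MP_c0c4a4_co.N5

theorem mem_orUpTo {f : ℕ → ℕ} {c : ℕ} : ∀ {n : ℕ}, c ∈ mset (orUpTo f n) ↔
    ∃ i, i < n ∧ c ∈ mset (f i) := by
  intro n
  induction n with
  | zero =>
    change c ∈ mset 0 ↔ _
    simp
  | succ n ih =>
    change c ∈ mset (Nat.lor (f n) (orUpTo f n)) ↔ _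
    rw [mem_lor, ih]
    constructor
    · rintro (h | ⟨i, hi, h⟩)
      · exact ⟨n, by omega, h⟩
      · exact ⟨i, by omega, h⟩
    · rintro ⟨i, hi, h⟩
      rcases Nat.lt_or_ge i n with h' | h'
      · exact Or.inr ⟨i, h', h⟩
      · have : i = n := by omega
        subst this
        exact Or.inl h

theorem mem_ifm {b : Bool} {m c : ℕ} : c ∈ mset (ifm b m) ↔ b = true ∧ c ∈ mset m := by
  cases b <;> simp [ifm]

theorem testBit_chunk (R a w i : ℕ) :
    Nat.testBit (Nat.land (Nat.shiftRight R a) (2 ^ w - 1)) i = (decide (i < w) && Nat.testBit R (a + i)) := by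
  change Nat.testBit ((R >>> a) &&& (2 ^ w - 1)) i = _
  rw [Nat.testBit_and, Nat.testBit_two_pow_sub_one, Nat.testBit_shiftRight, Bool.and_comm]

/-- `g` computes images of masks with `n` chunks of `w` bits, `e r v` being the image of the chunk
`r` if it has the value `v` -/
def ImgTab (w n : ℕ) (f : ℕ → ℕ) (e : ℕ → ℕ → ℕ) : Prop :=
  ∀ r, r < n → ∀ v, v < 2 ^ w → e r v = chunkImg w f r v

theorem ImgTab.mem {w n : ℕ} {f : ℕ → ℕ} {e : ℕ → ℕ → ℕ} (h : ImgTab w n f e) (hw : 0 < w)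
    (R : ℕ) (c : ℕ) (hR : R < 2 ^ (w * n)) :
    (∃ r, r < n ∧ c ∈ mset (e r (Nat.land (Nat.shiftRight R (w * r)) (2 ^ w - 1)))) ↔
      ∃ d ∈ mset R, f d = c := by
  have hlt : ∀ r, Nat.land (Nat.shiftRight R (w * r)) (2 ^ w - 1) < 2 ^ w := by
    intro r
    have h1 : Nat.land (Nat.shiftRight R (w * r)) (2 ^ w - 1) ≤ 2 ^ w - 1 := Nat.and_le_right
    have h2 : 0 < 2 ^ w := by positivity
    omega
  constructor
  · rintro ⟨r, hr, hc⟩
    rw [h r hr _ (hlt r)] at hc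
    obtain ⟨i, hi, hc⟩ := mem_orUpTo.1 hc
    rw [mem_ifm, tb_eq, testBit_chunk, Bool.and_eq_true] at hc
    refine ⟨w * r + i, hc.1.2, ?_⟩
    exact (mem_pow.1 hc.2).symm
  · rintro ⟨d, hd, rfl⟩
    have hd' : d < w * n := lt_of_testBit hR hd
    have hdiv : d / w < n := by
      rw [Nat.div_lt_iff_lt_mul hw]
      rw [Nat.mul_comm] at hd'
      exact hd'
    refine ⟨d / w, hdiv, ?_⟩
    rw [h _ hdiv _ (hlt _)]
    refine mem_orUpTo.2 ⟨d % w, Nat.mod_lt _ hw, ?_⟩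
    rw [mem_ifm, tb_eq, testBit_chunk, Bool.and_eq_true]
    have e1 : w * (d / w) + d % w = d := Nat.div_add_mod d w
    refine ⟨⟨by simpa using Nat.mod_lt _ hw, by rw [e1]; exact hd⟩, ?_⟩
    rw [mem_pow]
    change f d = f (w * (d / w) + d % w)
    rw [e1]

/-- a placed gadget: the family `H` is won by Breaker inside of the region `R`, and blocks all the
lines of the mask `L` -/
def Inst (LMf : ℕ → ℕ) (R L : ℕ) : Prop :=
  ∃ H : Set (Set ℕ), Bw H ∧ (∀ t ∈ H, t ⊆ mset R) ∧ ∀ l ∈ mset L, ∃ t ∈ H, t ⊆ mset (LMf l)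

/-- a frame: a placement `cell` of the abstract board into the cube, `lid l` being the number of
the line which is the image of the abstract line `l` -/
structure FrameOK (LMf AL cell lid : ℕ → ℕ) : Prop where
  inj : ∀ i j, i < 25 → j < 25 → cell i = cell j → i = j
  lt : ∀ i, i < 25 → cell i < 200
  lin : ∀ l, l < 12 → ∀ i, i ∈ mset (AL l) → i < 25 ∧ cell i ∈ mset (LMf (lid l))

/-- the embedding extended to an injective map -/
def emb (cell : ℕ → ℕ) (i : ℕ) : ℕ := if i < 25 then cell i else i + 200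

theorem emb_inj {LMf AL cell lid : ℕ → ℕ} (h : FrameOK LMf AL cell lid) :
    Function.Injective (emb cell) := by
  intro i j hij
  unfold emb at hij
  split_ifs at hij with h1 h2 h2
  · exact h.inj i j h1 h2 hij
  · have := h.lt i h1
    omega
  · have := h.lt j h2
    omega
  · omega

theorem inst_of_frame {LMf AL cell lid : ℕ → ℕ} (h : FrameOK LMf AL cell lid) {R Lam R' L' : ℕ}
    (hb : Bw (gfam AL R Lam)) (hRlt : R < 2 ^ 25) (hL : Lam < 2 ^ 12)
    (hR : ∀ c, (∃ d ∈ mset R, cell d = c) → c ∈ mset R')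
    (hLL : ∀ c, c ∈ mset L' → (∃ d ∈ mset Lam, lid d = c)) : Inst LMf R' L' := by
  refine ⟨_, hb.image (emb cell) (emb_inj h), ?_, ?_⟩
  · rintro t ⟨s, ⟨l, hl, rfl⟩, rfl⟩
    rintro c ⟨d, ⟨hd1, hd2⟩, rfl⟩
    have hd : d < 25 := lt_of_testBit hRlt hd2
    simp only [emb, if_pos hd]
    exact hR _ ⟨d, hd2, rfl⟩
  · intro l hl
    obtain ⟨d, hd, rfl⟩ := hLL l hl
    refine ⟨_, ⟨_, ⟨d, hd, rfl⟩, rfl⟩, ?_⟩
    rintro c ⟨i, ⟨hi1, hi2⟩, rfl⟩
    obtain ⟨g1, g2⟩ := h.lin d (lt_of_testBit hL hd) i hi1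
    simp only [emb, if_pos g1]
    exact g2

/-- a placement of the abstract board into itself -/
theorem gfam_of_inst {AL : ℕ → ℕ} {R' L' : ℕ} (h : Inst AL R' L') : Bw (gfam AL R' L') := by
  obtain ⟨H, hb, h1, h2⟩ := h
  refine hb.mono ?_
  rintro t ⟨l, hl, rfl⟩
  obtain ⟨t, ht, hts⟩ := h2 l hl
  exact ⟨t, ht, fun c hc => ⟨hts hc, h1 t ht hc⟩⟩

/-- the list of the masks of the lines -/
def LMl (LMf : ℕ → ℕ) (nl : ℕ) : List ℕ := (List.range nl).map LMf

theorem mem_LMl {LMf : ℕ → ℕ} {nl m : ℕ} : m ∈ LMl LMf nl ↔ ∃ l, l < nl ∧ LMf l = m := by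
  simp [LMl]

/-- the mask `m` of cells is good for the position `B` of Breaker: there is an answer `y` outside of
`m` after which Breaker wins against all sets of stones of Maker inside of `m` -/
def Good (LM : List ℕ) (B : Set ℕ) (m : ℕ) : Prop :=
  ∃ y, y ∉ mset m ∧ ∀ M, M ⊆ mset m → Bw (fam LM M (insert y B))

theorem Good.mono {LM : List ℕ} {B : Set ℕ} {m m' : ℕ} (h : Good LM B m)
    (hm : mset m' ⊆ mset m) : Good LM B m' := by
  obtain ⟨y, hy, h⟩ := h
  exact ⟨y, fun h' => hy (hm h'), fun M hM => h M (hM.trans hm)⟩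

/-- what the loops over placed gadgets give -/
def LoopRes (LMf : ℕ → ℕ) (cont : ℕ → ℕ → ℕ → Bool) (r l : ℕ) : Prop :=
  ∃ D' r' l' H, cont D' r' l' = true ∧ Bw H ∧
    (∀ t ∈ H, t ⊆ mset r' ∧ Disjoint t (mset r)) ∧ (mset r ⊆ mset r') ∧
    (∀ i ∈ mset l', i ∈ mset l ∨ ∃ t ∈ H, t ⊆ mset (LMf i))

theorem LoopRes.step {LMf : ℕ → ℕ} {cont : ℕ → ℕ → ℕ → Bool} {R L r l : ℕ} (h : Inst LMf R L)
    (h1 : Nat.beq (Nat.land R r) 0 = true) (h2 : LoopRes LMf cont (Nat.lor R r) (Nat.lor L l)) :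
    LoopRes LMf cont r l := by
  obtain ⟨G, gB, gR, gL⟩ := h
  obtain ⟨D', r', l', H, g1, g2, g3, g4, g5⟩ := h2
  have hsub : mset r ⊆ mset (Nat.lor R r) := fun c hc => mem_lor.2 (Or.inr hc)
  have hsub2 : mset R ⊆ mset (Nat.lor R r) := fun c hc => mem_lor.2 (Or.inl hc)
  refine ⟨D', r', l', G ∪ H, g1, ?_, ?_, hsub.trans g4, ?_⟩
  · refine gB.union g2 ?_
    intro s hs t ht
    exact ((g3 t ht).2.mono_right ((gR s hs).trans hsub2)).symm
  · rintro t (ht | ht)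
    · refine ⟨(gR t ht).trans (hsub2.trans g4), ?_⟩
      exact (disjoint_of_land h1).mono_left (gR t ht)
    · exact ⟨(g3 t ht).1, (g3 t ht).2.mono_right hsub⟩
  · intro i hi
    rcases g5 i hi with h' | ⟨t, ht, hts⟩
    · rcases mem_lor.1 h' with h' | h'
      · obtain ⟨t, ht, hts⟩ := gL i h'
        exact Or.inr ⟨t, Or.inl ht, hts⟩
      · exact Or.inl h'
    · exact Or.inr ⟨t, Or.inr ht, hts⟩

theorem insLoop_sound (LMf : ℕ → ℕ) (iR iL : ℕ → ℕ) (h : ∀ j, Inst LMf (iR j) (iL j))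
    (cont : ℕ → ℕ → ℕ → Bool) : ∀ (n D r l : ℕ), insLoop iR iL cont n D r l = true →
      LoopRes LMf cont r l := by
  intro n
  induction n with
  | zero =>
    intro D r l hc
    exact ⟨D, r, l, ∅, hc, Bw.empty, by simp, subset_rfl, fun i hi => Or.inl hi⟩
  | succ n ih =>
    intro D r l hc
    change frc (fun j => band (Nat.beq (Nat.land (iR j) r) 0)
        (insLoop iR iL cont n (Nat.shiftRight D 26) (Nat.lor (iR j) r) (Nat.lor (iL j) l)))
          (Nat.land D 67108863) = true at hc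
    rw [frc_eq, band_iff] at hc
    exact LoopRes.step (h _) hc.1 (ih _ _ _ hc.2)

theorem insSkip_sound (LMf : ℕ → ℕ) (iR iL : ℕ → ℕ) (h : ∀ j, Inst LMf (iR j) (iL j))
    (cont : ℕ → ℕ → ℕ → Bool) (s : ℕ) : ∀ (n D r l : ℕ), insSkip iR iL cont s n D r l = true →
      LoopRes LMf cont r l := by
  intro n
  induction n with
  | zero =>
    intro D r l hc
    exact ⟨D, r, l, ∅, hc, Bw.empty, by simp, subset_rfl, fun i hi => Or.inl hi⟩
  | succ n ih =>
    intro D r l hc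
    change @Bool.rec (fun _ => Bool) (frc (fun j => band (Nat.beq (Nat.land (iR j) r) 0)
        (insSkip iR iL cont s n (Nat.shiftRight D 26) (Nat.lor (iR j) r) (Nat.lor (iL j) l)))
          (Nat.land D 67108863))
        (insSkip iR iL cont s n (Nat.shiftRight D 26) r l) (Nat.beq n s) = true at hc
    cases hb : Nat.beq n s with
    | true =>
      rw [hb] at hc
      exact ih _ _ _ hc
    | false =>
      rw [hb] at hc
      change frc _ _ = true at hc
      rw [frc_eq, band_iff] at hc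
      exact LoopRes.step (h _) hc.1 (ih _ _ _ hc.2)

theorem good_of_loop {LMf : ℕ → ℕ} {nl : ℕ} {inc : ℕ → ℕ} {full hitB F y : ℕ} {B : Set ℕ}
    (hinc : ∀ y, ∀ l ∈ mset (inc y), y ∈ mset (LMf l))
    (hfull : ∀ l, l < nl → l ∈ mset full)
    (hB : ∀ l ∈ mset hitB, ∃ b ∈ B, b ∈ mset (LMf l))
    (hc : LoopRes LMf (fun _ r l => planEnd full F y r l) 0 (Nat.lor hitB (inc y))) :
    Good (LMl LMf nl) B F := by
  obtain ⟨D', r', l', H, g1, g2, g3, g4, g5⟩ := hc
  unfold planEnd at g1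
  rw [band_iff, beq_iff, beq_iff] at g1
  refine ⟨y, ?_, ?_⟩
  · intro hy
    have : y ∈ mset (Nat.land F (Nat.lor r' (Nat.pow 2 y))) :=
      mem_land.2 ⟨hy, mem_lor.2 (Or.inr (mem_pow.2 rfl))⟩
    rw [g1.1] at this
    simp at this
  · intro M hM
    refine g2.mono ?_
    rintro t ⟨m, hm, hd, rfl⟩
    obtain ⟨l, hl, rfl⟩ := mem_LMl.1 hm
    have hl' : l ∈ mset l' := by rw [g1.2]; exact hfull l hl
    rcases g5 l hl' with h' | ⟨t, ht, hts⟩
    · exfalso
      rcases mem_lor.1 h' with h' | h'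
      · obtain ⟨b, hb, hbl⟩ := hB l h'
        exact Set.disjoint_left.1 hd hbl (Set.mem_insert_of_mem _ hb)
      · exact Set.disjoint_left.1 hd (hinc y l h') (Set.mem_insert _ _)
    · refine ⟨t, ht, fun c hc => ⟨hts hc, fun hcM => ?_⟩⟩
      have : c ∈ mset (Nat.land F (Nat.lor r' (Nat.pow 2 y))) :=
        mem_land.2 ⟨hM hcM, mem_lor.2 (Or.inl ((g3 t ht).1 hc))⟩
      rw [g1.1] at this
      simp at this

theorem planOK_sound {LMf : ℕ → ℕ} {nl : ℕ} {iR iL inc : ℕ → ℕ}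
    {full hitB F D : ℕ} {B : Set ℕ}
    (h : ∀ j, Inst LMf (iR j) (iL j))
    (hinc : ∀ y, ∀ l ∈ mset (inc y), y ∈ mset (LMf l))
    (hfull : ∀ l, l < nl → l ∈ mset full)
    (hB : ∀ l ∈ mset hitB, ∃ b ∈ B, b ∈ mset (LMf l))
    (hc : planOK iR iL inc full hitB F D = true) : Good (LMl LMf nl) B F :=
  good_of_loop hinc hfull hB (insLoop_sound LMf iR iL h _ _ _ _ _ hc)

theorem altOK_sound {LMf : ℕ → ℕ} {nl : ℕ} {iR iL inc : ℕ → ℕ}
    {full hitB F D E : ℕ} {B : Set ℕ}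
    (h : ∀ j, Inst LMf (iR j) (iL j))
    (hinc : ∀ y, ∀ l ∈ mset (inc y), y ∈ mset (LMf l))
    (hfull : ∀ l, l < nl → l ∈ mset full)
    (hB : ∀ l ∈ mset hitB, ∃ b ∈ B, b ∈ mset (LMf l))
    (hc : altOK iR iL inc full hitB F D E = true) : Good (LMl LMf nl) B F := by
  obtain ⟨D1, r1, l1, H1, a1, a2, a3, a4, a5⟩ := insLoop_sound LMf iR iL h _ _ _ _ _ hc
  obtain ⟨D', r', l', H, g1, g2, g3, g4, g5⟩ := insSkip_sound LMf iR iL h _ _ _ _ _ _ a1
  refine good_of_loop hinc hfull hB ⟨D', r', l', H1 ∪ H, g1, ?_, ?_, a4.trans g4, ?_⟩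
  · refine a2.union g2 ?_
    intro s hs t ht
    exact ((g3 t ht).2.mono_right (a3 s hs).1).symm
  · rintro t (ht | ht)
    · exact ⟨(a3 t ht).1.trans g4, (a3 t ht).2⟩
    · exact ⟨(g3 t ht).1, (g3 t ht).2.mono_right a4⟩
  · intro i hi
    rcases g5 i hi with h' | ⟨t, ht, hts⟩
    · rcases a5 i h' with h'' | ⟨t, ht, hts⟩
      · exact Or.inl h''
      · exact Or.inr ⟨t, Or.inl ht, hts⟩
    · exact Or.inr ⟨t, Or.inr ht, hts⟩

theorem nodeLoop_sound (T : ℕ → ℕ) (M : ℕ) (cont : ℕ → ℕ → Bool) (P : ℕ → Prop)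
    (hT : ∀ i, P (T i)) : ∀ (n D acc : ℕ), nodeLoop T M cont n D acc = true →
      ∃ D' acc', cont D' acc' = true ∧ ∀ x ∈ mset acc', x ∈ mset acc ∨
        ∃ m, P m ∧ mset M ⊆ mset m ∧ x ∈ mset m := by
  intro n
  induction n with
  | zero => intro D acc h; exact ⟨D, acc, h, fun x hx => Or.inl hx⟩
  | succ n ih =>
    intro D acc h
    change frc (fun j => band (Nat.beq (Nat.land M (T j)) M)
        (nodeLoop T M cont n (Nat.shiftRight D 18) (Nat.lor (T j) acc))) (Nat.land D 262143) = true at h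
    rw [frc_eq, band_iff] at h
    obtain ⟨D', acc', h1, h2⟩ := ih _ _ h.2
    refine ⟨D', acc', h1, fun x hx => ?_⟩
    rcases h2 x hx with h' | h'
    · rcases mem_lor.1 h' with h'' | h''
      · exact Or.inr ⟨_, hT _, subset_of_land h.1, h''⟩
      · exact Or.inl h''
    · exact Or.inr h'

/-- the rule for a node, all of whose children are covered by good masks -/
theorem node_rule {LM : List ℕ} (hLM : LMlt LM) {M : ℕ} {B : Set ℕ}
    (hex : ∃ x, x < 125 ∧ x ∉ mset M ∧ x ∉ B)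
    (h : ∀ x, x < 125 → x ∉ mset M → x ∉ B →
      ∃ m, Good LM B m ∧ mset M ⊆ mset m ∧ x ∈ mset m) : Bw (fam LM (mset M) B) := by
  refine fam_step hLM hex ?_
  intro x hx hxM hxB
  obtain ⟨m, ⟨y, hy, hg⟩, hMm, hxm⟩ := h x hx hxM hxB
  refine ⟨y, ?_, fun h' => hy (hMm h'), hg _ ?_⟩
  · rintro rfl
    exact hy hxm
  · rintro c (rfl | hc)
    · exact hxm
    · exact hMm hc

theorem exists_of_ne_full {m : ℕ} (hm : m < 2 ^ 125) (h : m ≠ 2 ^ 125 - 1) :
    ∃ x, x < 125 ∧ x ∉ mset m := by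
  by_contra hcon
  push Not at hcon
  apply h
  apply Nat.eq_of_testBit_eq
  intro i
  rw [Nat.testBit_two_pow_sub_one]
  by_cases hi : i < 125
  · have := hcon i hi
    rw [mem_mset] at this
    simp [this, hi]
  · have : Nat.testBit m i = false := by
      apply Nat.testBit_lt_two_pow
      exact lt_of_lt_of_le hm (Nat.pow_le_pow_right (by norm_num) (by omega))
    rw [this]
    simp [hi]

theorem nodeOK_sound {LM : List ℕ} (hLM : LMlt LM) (T : ℕ → ℕ) (M B D : ℕ)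
    (hM : M < 2 ^ 125) (hB : B < 2 ^ 125)
    (hT : ∀ i, T i ≠ 0 → Good LM (mset B) (T i)) (h : nodeOK T (2 ^ 125 - 1) M B D = true) :
    Bw (fam LM (mset M) (mset B)) := by
  obtain ⟨D', acc', h1, h2⟩ := nodeLoop_sound T _ _ (fun m => m ≠ 0 → Good LM (mset B) m) hT _ _ _ h
  rw [band_iff] at h1
  obtain ⟨h3, h4⟩ := h1
  refine node_rule hLM ?_ ?_
  · have hne : Nat.lor M B ≠ 2 ^ 125 - 1 := by
      intro e
      rw [beq_iff.2 e] at h4
      exact Bool.noConfusion h4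
    have hlt' : Nat.lor M B < 2 ^ 125 := Nat.or_lt_two_pow hM hB
    obtain ⟨x, hx, hxn⟩ := exists_of_ne_full hlt' hne
    rw [mem_lor, not_or] at hxn
    exact ⟨x, hx, hxn.1, hxn.2⟩
  · intro x hx hxM hxB
    have hxf : x ∈ mset (Nat.lor acc' B) := by
      rw [beq_iff.1 h3, mem_mset, Nat.testBit_two_pow_sub_one]
      simpa using hx
    have hxa : x ∈ mset acc' := by
      rcases mem_lor.1 hxf with h' | h'
      · exact h'
      · exact (hxB h').elim
    rcases h2 x hxa with h' | ⟨m, hm1, hm2, hm3⟩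
    · simp at h'
    · refine ⟨m, hm1 ?_, hm2, hm3⟩
      rintro rfl
      simp at hm3

end Pool.Agent.MP_c0c4a4_co.N5
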