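import Mathlib
import Pool.Agent.MP_c0c4a4_co.N5.Sem
import Pool.Agent.MP_c0c4a4_co.N5.Chk
import Pool.Agent.MP_c0c4a4_co.N5.Plan

/-!
Frames (placements of the abstract board), symmetries of the cube, loops.
-/

set_option autoImplicit false

namespace Pool.Agent.MP_c0c4a4_co.N5

theorem allUp_iff {f : ℕ → Bool} {n : ℕ} : allUp f n = true ↔ ∀ i, i < n → f i = true := by
  induction n with
  | zero => simp [allUp]
  | succ n ih =>
    change band (f n) (allUp f n) = true ↔ _
    rw [band_iff, ih]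
    constructor
    · rintro ⟨h1, h2⟩ i hi
      rcases Nat.lt_or_ge i n with h | h
      · exact h2 i h
      · have : i = n := by omega
        rw [this]; exact h1
    · intro h
      exact ⟨h n (by omega), fun i hi => h i (by omega)⟩

theorem all2_iff {f : ℕ → Bool} : ∀ {d i : ℕ}, all2 f d i = true →
    ∀ j, j < 2 ^ d → f (2 ^ d * i + j) = true := by
  intro d
  induction d with
  | zero =>
    intro i h j hj
    have : j = 0 := by simpa using hj
    subst this
    simpa [all2] using h
  | succ d ih =>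
    intro i h j hj
    change band (all2 f d (2 * i)) (all2 f d (2 * i + 1)) = true at h
    rw [band_iff] at h
    rcases Nat.lt_or_ge j (2 ^ d) with hj' | hj'
    · have := ih h.1 j hj'
      rw [pow_succ, show 2 ^ d * 2 * i + j = 2 ^ d * (2 * i) + j by ring]
      exact this
    · have := ih h.2 (j - 2 ^ d) (by rw [pow_succ] at hj; omega)
      rw [pow_succ, show 2 ^ d * 2 * i + j = 2 ^ d * (2 * i + 1) + (j - 2 ^ d) by
        have : j = 2 ^ d + (j - 2 ^ d) := by omega
        rw [this]; simp; ring]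
      exact this

theorem lt_of_shiftRight {t k : ℕ} (h : Nat.beq (Nat.shiftRight t k) 0 = true) : t < 2 ^ k := by
  have h1 := beq_iff.1 h
  change t >>> k = 0 at h1
  rw [Nat.shiftRight_eq_div_pow] at h1
  have h2 : 0 < 2 ^ k := by positivity
  rcases Nat.div_eq_zero_iff.1 h1 with h | h
  · omega
  · exact h

theorem e128_zero_of_ge {t i n : ℕ} (ht : Nat.beq (Nat.shiftRight t (Nat.mul 128 n)) 0 = true)
    (h : n ≤ i) : e128 t i = 0 := by
  have ht := lt_of_shiftRight ht
  unfold e128
  have : Nat.shiftRight t (Nat.mul 128 i) = 0 := by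
    change t >>> (128 * i) = 0
    rw [Nat.shiftRight_eq_div_pow]
    apply Nat.div_eq_of_lt
    refine lt_of_lt_of_le ht (Nat.pow_le_pow_right (by norm_num) ?_)
    change 128 * n ≤ 128 * i
    omega
  rw [this]
  exact Nat.zero_and _

theorem e32_zero_of_ge {t i n : ℕ} (ht : Nat.beq (Nat.shiftRight t (Nat.mul 32 n)) 0 = true)
    (h : n ≤ i) : e32 t i = 0 := by
  have ht := lt_of_shiftRight ht
  unfold e32
  have : Nat.shiftRight t (Nat.mul 32 i) = 0 := by
    change t >>> (32 * i) = 0
    rw [Nat.shiftRight_eq_div_pow]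
    apply Nat.div_eq_of_lt
    refine lt_of_lt_of_le ht (Nat.pow_le_pow_right (by norm_num) ?_)
    change 32 * n ≤ 32 * i
    omega
  rw [this]
  exact Nat.zero_and _

/-- the function `e` gives the entries of width `w` -/
def EntW (e : ℕ → ℕ → ℕ) (w : ℕ) : Prop :=
  ∀ t i n, Nat.beq (Nat.shiftRight t (Nat.mul w n)) 0 = true → n ≤ i → e t i = 0

theorem entW128 : EntW e128 128 := fun _ _ _ h1 h2 => e128_zero_of_ge h1 h2

theorem entW32 : EntW e32 32 := fun _ _ _ h1 h2 => e32_zero_of_ge h1 h2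

theorem smallTab_sound {e : ℕ → ℕ → ℕ} {w t k n : ℕ} (he : EntW e w)
    (h : smallTab e w t k n = true) (i : ℕ) : e t i < 2 ^ k := by
  unfold smallTab at h
  rw [band_iff, allUp_iff] at h
  rcases Nat.lt_or_ge i n with hi | hi
  · exact lt_of_shiftRight (h.2 i hi)
  · rw [he t i n h.1 hi]
    positivity

theorem iReg_lt {e : ℕ → ℕ → ℕ} {w a0 a1 a2 a3 a4 k n : ℕ} (he : EntW e w)
    (h0 : smallTab e w a0 k n = true) (h1 : smallTab e w a1 k n = true)
    (h2 : smallTab e w a2 k n = true) (h3 : smallTab e w a3 k n = true)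
    (h4 : smallTab e w a4 k n = true)
    (q R : ℕ) : iReg e a0 a1 a2 a3 a4 q R < 2 ^ k := by
  unfold iReg
  exact Nat.or_lt_two_pow (smallTab_sound he h0 _) (Nat.or_lt_two_pow (smallTab_sound he h1 _)
    (Nat.or_lt_two_pow (smallTab_sound he h2 _) (Nat.or_lt_two_pow (smallTab_sound he h3 _)
      (smallTab_sound he h4 _))))

theorem iLin_lt {e : ℕ → ℕ → ℕ} {w b0 b1 b2 k n : ℕ} (he : EntW e w)
    (h0 : smallTab e w b0 k n = true) (h1 : smallTab e w b1 k n = true)
    (h2 : smallTab e w b2 k n = true) (q L : ℕ) : iLin e b0 b1 b2 q L < 2 ^ k := by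
  unfold iLin
  exact Nat.or_lt_two_pow (smallTab_sound he h0 _) (Nat.or_lt_two_pow (smallTab_sound he h1 _)
    (smallTab_sound he h2 _))

theorem frameOK_sound {LMf AL : ℕ → ℕ} {e : ℕ → ℕ → ℕ} {CT LT a0 a1 a2 a3 a4 b0 b1 b2 q : ℕ}
    (h : frameOK LMf AL e CT LT a0 a1 a2 a3 a4 b0 b1 b2 q = true) {R Lam : ℕ}
    (hb : Bw (gfam AL R Lam)) (hR : R < 2 ^ 25) (hL : Lam < 2 ^ 12) :
    Inst LMf (iReg e a0 a1 a2 a3 a4 q R) (iLin e b0 b1 b2 q Lam) := by
  unfold frameOK at h
  rw [band_iff, band_iff, band_iff, allUp_iff, allUp_iff, allUp_iff, allUp_iff] at h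
  obtain ⟨h1, h2, h3, h4⟩ := h
  have hF : FrameOK LMf AL (fun i => e8 CT (25 * q + i)) (fun l => e8 LT (12 * q + l)) := by
    have hlt : ∀ i j, i < 25 → j < i → e8 CT (25 * q + i) ≠ e8 CT (25 * q + j) := by
      intro i j hi hj e'
      have := h1 i hi
      rw [band_iff, allUp_iff] at this
      have h5 := this.2 j hj
      rw [beq_iff.2 e'] at h5
      exact Bool.noConfusion h5
    refine ⟨?_, ?_, ?_⟩
    · intro i j hi hj hij
      rcases Nat.lt_trichotomy i j with h' | h' | h'
      · exact (hlt j i hj h' hij.symm).elim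
      · exact h'
      · exact (hlt i j hi h' hij).elim
    · intro i hi
      have := h1 i hi
      rw [band_iff] at this
      have := ble_iff.1 this.1
      omega
    · intro l hl i hi
      have := h2 l hl
      rw [band_iff, allUp_iff] at this
      obtain ⟨g1, g2⟩ := this
      have hi25 : i < 25 := by
        have := ble_iff.1 g1
        have h0 : AL l ≠ 0 := by
          intro h0
          rw [h0] at hi
          simp at hi
        have h6 : AL l < 2 ^ 25 := by
          rw [← Nat.log2_lt h0]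
          omega
        exact lt_of_testBit h6 hi
      refine ⟨hi25, ?_⟩
      have h5 := g2 i hi25
      have h6 : tb (AL l) i = true := by rw [tb_eq]; exact hi
      rw [h6] at h5
      rw [mem_mset, ← tb_eq]
      exact h5
  have hI1 : ImgTab 5 5 (fun i => e8 CT (25 * q + i))
      (fun r v => e (sel5 a0 a1 a2 a3 a4 r) (Nat.add (Nat.mul 32 q) v)) := by
    intro r hr v hv
    have := h3 r hr
    rw [allUp_iff] at this
    exact beq_iff.1 (this v hv)
  have hI2 : ImgTab 4 3 (fun i => e8 LT (12 * q + i))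
      (fun r v => e (sel5 b0 b1 b2 0 0 r) (Nat.add (Nat.mul 16 q) v)) := by
    intro r hr v hv
    have := h4 r hr
    rw [allUp_iff] at this
    exact beq_iff.1 (this v hv)
  refine inst_of_frame hF hb hR hL ?_ ?_
  · intro c hc
    obtain ⟨r, hr, hc⟩ := (hI1.mem (by norm_num) R c (by simpa using hR)).2 hc
    unfold iReg
    simp only [mem_lor]
    interval_cases r
    · exact Or.inl hc
    · exact Or.inr (Or.inl hc)
    · exact Or.inr (Or.inr (Or.inl hc))
    · exact Or.inr (Or.inr (Or.inr (Or.inl hc)))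
    · exact Or.inr (Or.inr (Or.inr (Or.inr hc)))
  · intro c hc
    refine (hI2.mem (by norm_num) Lam c (by simpa using hL)).1 ?_
    unfold iLin at hc
    simp only [mem_lor] at hc
    rcases hc with hc | hc | hc
    · exact ⟨0, by norm_num, hc⟩
    · exact ⟨1, by norm_num, hc⟩
    · exact ⟨2, by norm_num, hc⟩

/-- the permutation of a symmetry -/
def gmap (CT i : ℕ) : ℕ := if i < 125 then e8 CT i else i

structure SymOK (LMf : ℕ → ℕ) (nl CT PT : ℕ) : Prop where
  inj : Function.Injective (gmap CT)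
  img : ∀ m, m < 2 ^ 125 → mset (gImg PT m) = gmap CT '' mset m
  lin : ∀ m ∈ LMl LMf nl, ∃ m' ∈ LMl LMf nl, gmap CT '' mset m' ⊆ mset m

theorem symOK_sound {LMf : ℕ → ℕ} {nl CT LT PT : ℕ} (h : symOK LMf nl CT LT PT = true) :
    SymOK LMf nl CT PT := by
  unfold symOK at h
  rw [band_iff, band_iff, allUp_iff, allUp_iff, allUp_iff] at h
  obtain ⟨h1, h2, h3⟩ := h
  have hle : ∀ i, i < 125 → e8 CT i < 125 := by
    intro i hi
    have := h1 i hi
    rw [band_iff] at this
    have := ble_iff.1 this.1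
    omega
  have hlt : ∀ i j, i < 125 → j < i → e8 CT i ≠ e8 CT j := by
    intro i j hi hj e
    have := h1 i hi
    rw [band_iff, allUp_iff] at this
    have h5 := this.2 j hj
    rw [beq_iff.2 e] at h5
    exact Bool.noConfusion h5
  have hinj : Function.Injective (gmap CT) := by
    intro i j hij
    unfold gmap at hij
    split_ifs at hij with h1 h2 h2
    · rcases Nat.lt_trichotomy i j with h' | h' | h'
      · exact (hlt j i h2 h' hij.symm).elim
      · exact h'
      · exact (hlt i j h1 h' hij).elim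
    · have := hle i h1
      omega
    · have := hle j h2
      omega
    · exact hij
  have hI : ImgTab 5 25 (fun i => e8 CT i) (fun r v => e128 PT (Nat.add (Nat.mul 32 r) v)) := by
    intro r hr v hv
    have := h2 r hr
    rw [allUp_iff] at this
    exact beq_iff.1 (this v hv)
  have himg : ∀ m, m < 2 ^ 125 → mset (gImg PT m) = gmap CT '' mset m := by
    intro m hm
    ext c
    have key := hI.mem (by norm_num) m c (by simpa using hm)
    unfold gImg
    rw [mem_orUpTo]
    refine key.trans ?_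
    constructor
    · rintro ⟨d, hd, rfl⟩
      refine ⟨d, hd, ?_⟩
      unfold gmap
      rw [if_pos (lt_of_testBit hm hd)]
    · rintro ⟨d, hd, rfl⟩
      refine ⟨d, hd, ?_⟩
      unfold gmap
      rw [if_pos (lt_of_testBit hm hd)]
  refine ⟨hinj, himg, ?_⟩
  intro m hm
  obtain ⟨l, hl, rfl⟩ := mem_LMl.1 hm
  have := h3 l hl
  rw [band_iff, band_iff] at this
  obtain ⟨g1, g2, g3⟩ := this
  refine ⟨LMf (e8 LT l), mem_LMl.2 ⟨_, ble_iff.1 g1, rfl⟩, ?_⟩
  have hlt' : LMf (e8 LT l) < 2 ^ 125 := lt_of_shiftRight g2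
  rw [← himg _ hlt']
  exact subset_of_lor g3

theorem fam_sym {LMf : ℕ → ℕ} {nl CT PT : ℕ} (h : SymOK LMf nl CT PT) {M B : Set ℕ}
    (hb : Bw (fam (LMl LMf nl) M B)) :
    Bw (fam (LMl LMf nl) (gmap CT '' M) (gmap CT '' B)) :=
  fam_image hb _ h.inj h.lin

theorem Good.sym {LMf : ℕ → ℕ} {nl CT PT : ℕ} (h : SymOK LMf nl CT PT) {B : Set ℕ} {m : ℕ}
    (hm : m < 2 ^ 125) (hg : Good (LMl LMf nl) B m) :
    Good (LMl LMf nl) (gmap CT '' B) (gImg PT m) := by
  obtain ⟨y, hy, hg⟩ := hg
  refine ⟨gmap CT y, ?_, ?_⟩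
  · rw [h.img m hm]
    rintro ⟨d, hd, hde⟩
    exact hy (h.inj hde ▸ hd)
  · intro M hM
    rw [h.img m hm] at hM
    have e : M = gmap CT '' (gmap CT ⁻¹' M) := by
      refine (Set.image_preimage_eq_of_subset ?_).symm
      exact hM.trans (Set.image_subset_range _ _)
    have hsub : gmap CT ⁻¹' M ⊆ mset m := by
      intro c hc
      obtain ⟨d, hd, hde⟩ := hM hc
      exact h.inj hde ▸ hd
    rw [e, ← Set.image_insert_eq]
    exact fam_sym h (hg _ hsub)

end Pool.Agent.MP_c0c4a4_co.N5
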