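import Mathlib
import Pool.Agent.MP_c0c4a4_co.N5.Ops
import Pool.Agent.MP_c0c4a4_co.N5.Tables
import Pool.Agent.MP_c0c4a4_co.N5.Sem
import Pool.Agent.MP_c0c4a4_co.N5.Chk
import Pool.Agent.MP_c0c4a4_co.N5.Plan
import Pool.Agent.MP_c0c4a4_co.N5.Frame

/-!
Soundness of the tables of the board of side 5.
-/

set_option autoImplicit false

namespace Pool.Agent.MP_c0c4a4_co.N5

/-- the list of the lines -/
noncomputable def LM : List ℕ := LMl LMf 109

theorem LM_listed : allListed 5 LM = true := by decide +kernel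

theorem LM_lt : LMlt LM := by
  intro m hm
  obtain ⟨l, hl, rfl⟩ := mem_LMl.1 hm
  exact lt_of_shiftRight (allUp_iff.1 LM_chk l hl)

theorem e128_lt (t i : ℕ) : e128 t i < 2 ^ 128 :=
  lt_of_le_of_lt Nat.and_le_right (by norm_num)

theorem inc_sound : ∀ y, ∀ l ∈ mset (inc y), y ∈ mset (LMf l) := by
  intro y l hl
  by_cases hy : y < 125
  · have hl128 : l < 128 := lt_of_testBit (e128_lt _ _) hl
    have := allUp_iff.1 (allUp_iff.1 inc_chk1 y hy) l hl128
    have h6 : tb (inc y) l = true := by rw [tb_eq]; exact hl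
    rw [h6] at this
    rw [mem_mset, ← tb_eq]
    exact this
  · have : inc y = 0 := e128_zero_of_ge inc_chk2 (by omega)
    rw [this] at hl
    simp at hl

theorem incA_sound : ∀ y, y ≤ 24 → ∀ l ∈ mset (incA y), y ∈ mset (AL l) := by
  intro y hy l hl
  have hl12 : l < 12 := by
    refine lt_of_testBit ?_ hl
    unfold incA
    refine lt_of_le_of_lt Nat.and_le_right (by norm_num)
  have := allUp_iff.1 (allUp_iff.1 incA_chk y (by omega)) l hl12
  have h6 : tb (incA y) l = true := by rw [tb_eq]; exact hl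
  rw [h6] at this
  rw [mem_mset, ← tb_eq]
  exact this

/-- every placed gadget is fine -/
theorem inst_ok {R Lam : ℕ} (hb : Bw (gfam AL R Lam)) (hR : R < 2 ^ 25) (hL : Lam < 2 ^ 12) (q : ℕ) :
    Inst LMf (iReg e128 RT0 RT1 RT2 RT3 RT4 q R) (iLin e128 LT0 LT1 LT2 q Lam) := by
  by_cases hq : q < 21
  · exact frameOK_sound (allUp_iff.1 frames_chk q hq) hb hR hL
  · have h0 : iLin e128 LT0 LT1 LT2 q Lam = 0 := by
      unfold iLin
      rw [e128_zero_of_ge LT_chk0, e128_zero_of_ge LT_chk1, e128_zero_of_ge LT_chk2]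
      · rfl
      · change 16 * 21 ≤ 16 * q + _; omega
      · change 16 * 21 ≤ 16 * q + _; omega
      · change 16 * 21 ≤ 16 * q + _; omega
    rw [h0]
    exact ⟨∅, Bw.empty, by simp, by simp⟩

theorem RR_ok {RI LI : ℕ → ℕ} (hR : ∀ k, RI k < 2 ^ 25) (hL : ∀ k, LI k < 2 ^ 12) (j : ℕ)
    (hb : Bw (gfam AL (RI (Nat.shiftRight j 5)) (LI (Nat.shiftRight j 5)))) :
    Bw (gfam AL (RR RI j) (LL LI j)) := by
  have hlt : Nat.land j 31 < 32 := lt_of_le_of_lt Nat.and_le_right (by norm_num)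
  exact gfam_of_inst (frameOK_sound (allUp_iff.1 syms_chk _ hlt) hb (hR _) (hL _))

theorem RR_lt (RI : ℕ → ℕ) (j : ℕ) : RR RI j < 2 ^ 25 :=
  iReg_lt (n := 1024) entW32 DT_chk0 DT_chk1 DT_chk2 DT_chk3 DT_chk4 _ _

theorem LL_lt (LI : ℕ → ℕ) (j : ℕ) : LL LI j < 2 ^ 12 :=
  iLin_lt (n := 512) entW32 ET_chk0 ET_chk1 ET_chk2 _ _

end Pool.Agent.MP_c0c4a4_co.N5
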