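import Pool.Agent.MP_c0c4a4_co.N5.Ops

/-!
Checkers for slots (regions of a plane in which Breaker wins even if Maker has one stone in a robust
cell), plans consisting of slots, and nodes.
-/

set_option autoImplicit false

namespace Pool.Agent.MP_c0c4a4_co.N5

noncomputable section

/-- negation -/
def bnot (b : Bool) : Bool := @Bool.rec (fun _ => Bool) true false b

/-- disjunction -/
def bor (a b : Bool) : Bool := @Bool.rec (fun _ => Bool) b true a

/-- mask of 128 bits -/
def M128 : Nat := 340282366920938463463374607431768211455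

/-- the loop over the robust cells of a slot (in decreasing order): for each of them the number of
gadgets (4 bits) and the gadgets (21 bits each) -/
def slt (RR LL : Nat → Nat) (NG R A : Nat) (n : Nat) : Nat → Nat → Bool :=
  @Nat.rec (fun _ => Nat → Nat → Bool) (fun rem _ => Nat.beq rem 0)
    (fun _ ih rem D =>
      @Bool.rec (fun _ => Bool)
        (chl RR LL NG (fun D' acc' la' =>
              band (Nat.beq (Nat.lor acc' R) R)
              (band (Nat.beq (Nat.lor A la') la')
                (ih (Nat.xor rem (Nat.pow 2 (Nat.log2 rem))) D')))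
            (Nat.land D 15) (Nat.shiftRight D 4) (Nat.pow 2 (Nat.log2 rem)) 0)
        true (Nat.beq rem 0)) n

/-- the check of a slot with region `R`, robust cells `H`, lines `A` -/
def slotOK (RR LL : Nat → Nat) (NG R H A D : Nat) : Bool :=
  @Bool.rec (fun _ => Bool)
    (slt RR LL NG R A 25 H D)
    (chl RR LL NG (fun _ acc' la' =>
        band (Nat.beq (Nat.lor acc' R) R) (Nat.beq (Nat.lor A la') la'))
      (Nat.land D 15) (Nat.shiftRight D 4) 0 0)
    (Nat.beq H 0)

/-- the mask of the cells compatible with the cell `p`, in the entry `E` of a table of plans: the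
entry consists of the mask of the good cells (128 bits), the numbers of the masks of the cells (3
bits each, 384 bits), and the eight masks (128 bits each) -/
def nts (E p : Nat) : Nat :=
  e128 E (Nat.add 4 (Nat.land (Nat.shiftRight E (Nat.add 128 (Nat.mul 3 p))) 7))

/-- all cells `a` of the mask `rem` have a compatibility mask disjoint from `R` -/
def vlo (E R : Nat) (n : Nat) : Nat → Bool :=
  @Nat.rec (fun _ => Nat → Bool) (fun rem => Nat.beq rem 0)
    (fun _ ih rem =>
      @Bool.rec (fun _ => Bool)
        (frc (fun a => band (Nat.beq (Nat.land (nts E a) R) 0)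
          (ih (Nat.xor rem (Nat.pow 2 a)))) (Nat.log2 rem))
        true (Nat.beq rem 0)) n

/-- the loop over the slots of a plan; `iR j`, `iH j`, `iL j` are the region, the robust cells and
the lines of the placed slot `j` (26 bits) -/
def sLoop (iR iH iL : Nat → Nat) (E : Nat) (cont : Nat → Nat → Bool) (n : Nat) :
    Nat → Nat → Nat → Bool :=
  @Nat.rec (fun _ => Nat → Nat → Nat → Bool) (fun _ r l => cont r l)
    (fun _ ih D r l =>
      frc (fun j => frc (fun R => frc (fun V =>
        band (Nat.beq (Nat.land R r) 0)
        (band (Nat.beq (Nat.lor V (iH j)) (iH j))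
        (band (vlo E R 25 V)
          (ih (Nat.shiftRight D 26) (Nat.lor R r) (Nat.lor (iL j) l)))))
          (Nat.land E R)) (iR j)) (Nat.land D 67108863)) n

/-- the check of a plan: `E` is the entry of the table of the plans, `hitB` the mask of the lines
hit by Breaker's stones, `MF` the mask of the fixed stones of Maker, `inc y` the mask of the lines
through `y`; `full` is the mask of all lines. The data: `y` (7 bits), number of slots (5 bits), slots
(26 bits each). -/
def plnOK (iR iH iL inc : Nat → Nat) (full hitB MF E D : Nat) : Bool :=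
  band (Nat.beq (Nat.land (Nat.lor (Nat.land E M128) MF) (Nat.pow 2 (Nat.land D 127))) 0)
  (sLoop iR iH iL E (fun r l => band (Nat.beq (Nat.land r MF) 0) (Nat.beq l full))
    (Nat.land (Nat.shiftRight D 7) 31) (Nat.shiftRight D 12) 0
    (Nat.lor hitB (inc (Nat.land D 127))))

/-- the walk over the cells of `P` (7 bits each) -/
def wlk (E : Nat) (cont : Nat → Bool) (k : Nat) : Nat → Nat → Bool :=
  @Nat.rec (fun _ => Nat → Nat → Bool) (fun K _ => cont K)
    (fun _ ih K P =>
      frc (fun p => band (tb K p) (frc (fun K' => ih K' (Nat.shiftRight P 7)) (Nat.land K (nts E p))))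
        (Nat.land P 127)) k

/-- the images of the indices in `I` (7 bits each) under `f` -/
def mpi (f : Nat → Nat) (k : Nat) : Nat → Nat :=
  @Nat.rec (fun _ => Nat → Nat) (fun _ => 0)
    (fun _ ih I => Nat.lor (f (Nat.land I 127)) (Nat.mul 128 (ih (Nat.shiftRight I 7)))) k

/-- the loop over the plans of a group: 12 bits each; the union of the masks is collected -/
def refs (ent : Nat → Nat) (k P : Nat) (cont : Nat → Nat → Bool) (n : Nat) : Nat → Nat → Bool :=
  @Nat.rec (fun _ => Nat → Nat → Bool) (fun D acc => cont D acc)
    (fun _ ih D acc =>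
      frc (fun E => wlk E (fun K => ih (Nat.shiftRight D 12) (Nat.lor K acc)) k (Nat.land E M128) P)
        (ent (Nat.land D 4095))) n

/-- the image of the chunks of the mask `T`, the first chunk being the chunk number `c` -/
def cimg (px : Nat → Nat → Nat) (c T nc : Nat) : Nat :=
  orUpTo (fun r => px (Nat.add c r) (Nat.land (Nat.shiftRight T (Nat.mul 5 r)) 31)) nc

/-- the loop over the groups of a node: number of the symmetry (5 bits), number of the plans (4
bits), plans (12 bits each), mask of the covered indices (`5 * nc` bits); `sel g` gives the table of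
the cells and the table of the chunks of the inverse of the symmetry `g` -/
def grps (sel : Nat → (Nat → Nat → Bool) → Bool) (ent : Nat → Nat) (k I c nc : Nat)
    (cont : Nat → Bool) (n : Nat) : Nat → Nat → Bool :=
  @Nat.rec (fun _ => Nat → Nat → Bool) (fun _ cov => cont cov)
    (fun _ ih D cov =>
      sel (Nat.land D 31) (fun CX PX =>
        frc (fun P =>
          refs ent k P (fun D' acc =>
            frc (fun T =>
              band (Nat.beq (Nat.lor (cimg (fun r v => e128 PX (Nat.add (Nat.mul 32 r) v)) c T nc)
                acc) acc)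
              (ih (Nat.shiftRight D' (Nat.mul 5 nc)) (Nat.lor T cov)))
              (Nat.land D' (Nat.sub (Nat.pow 2 (Nat.mul 5 nc)) 1)))
            (Nat.land (Nat.shiftRight D 5) 15) (Nat.shiftRight D 9) 0)
          (mpi (fun i => e8 CX i) k I))) n

/-- the check of a node: the stones of Maker have the indices in `I`, all the indices `≥ lo` must be
covered, where `n` is the number of the indices, `NC` the number of the chunks -/
def ndOK (sel : Nat → (Nat → Nat → Bool) → Bool) (ent : Nat → Nat) (k I lo n NC D : Nat) : Bool :=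
  frc (fun c => grps sel ent k I c (Nat.sub NC c)
    (fun cov => Nat.beq (Nat.lor cov (Nat.sub (Nat.pow 2 (Nat.sub lo (Nat.mul 5 c))) 1))
      (Nat.lor (Nat.sub (Nat.pow 2 (Nat.sub n (Nat.mul 5 c))) 1)
       cov))
    (Nat.land D 15) (Nat.shiftRight D 4) 0) (Nat.div lo 5)

/-- the image of every cell of the mask `rem` is in the mask `m` -/
def isub (CT m : Nat) (n : Nat) : Nat → Bool :=
  @Nat.rec (fun _ => Nat → Bool) (fun rem => Nat.beq rem 0)
    (fun _ ih rem =>
      @Bool.rec (fun _ => Bool)
        (frc (fun a => band (tb m (e8 CT a)) (ih (Nat.xor rem (Nat.pow 2 a)))) (Nat.log2 rem))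
        true (Nat.beq rem 0)) n

/-- the images of the first `n` cells are different and not in `acc` -/
def injL (CT : Nat) (n : Nat) : Nat → Bool :=
  @Nat.rec (fun _ => Nat → Bool) (fun _ => true)
    (fun i ih acc => frc (fun a => band (Nat.ble a 124) (band (bnot (tb acc a))
      (ih (Nat.lor acc (Nat.pow 2 a))))) (e8 CT i)) n

/-- the check of a symmetry: `G` is the table of the images of the cells, `LT` the table of the
lines: the line `l` contains the image of the line `LT l` -/
def sym2OK (LMf : Nat → Nat) (nl G LT : Nat) : Bool :=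
  band (injL G 125 0)
  (allUp (fun l => band (Nat.ble (Nat.succ (e8 LT l)) nl)
    (band (Nat.beq (Nat.shiftRight (LMf (e8 LT l)) 125) 0)
      (isub G (LMf l) 125 (LMf (e8 LT l))))) nl)

/-- the image of a mask of cells -/
def imb (G m : Nat) : Nat := orUpTo (fun c => ifm (tb m c) (Nat.pow 2 (e8 G c))) 125

/-- the check of the lists of cells and blocks: `CL` the free cells, `PS` the inverse, `BS` the
starts of the blocks -/
def celOK (CL PS BS M B n : Nat) : Bool :=
  band (Nat.beq (Nat.shiftRight (Nat.lor M B) 125) 0)
  (band (allUp (fun i => band (Nat.beq (e8 PS (e8 CL i)) i)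
    (band (Nat.ble (e8 CL i) 124)
    (band (bnot (tb (Nat.lor M B) (e8 CL i)))
    (band (Nat.ble (e8 BS i) i) (Nat.beq (e8 BS (e8 BS i)) (e8 BS i)))))) n)
  (allUp (fun c => bor (tb (Nat.lor M B) c)
    (band (Nat.ble (Nat.succ (e8 PS c)) n) (Nat.beq (e8 CL (e8 PS c)) c))) 125))

/-- the check of the tables `CX`, `PX` of the inverse of a symmetry `G` -/
def symD (LMf : Nat → Nat) (nl CL PS BS M B n NC G LT CX PX : Nat) : Bool :=
  band (sym2OK LMf nl G LT)
  (band (Nat.beq (imb G M) M)
  (band (Nat.beq (imb G B) B)
  (band (allUp (fun i => frc (fun c =>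
      band (Nat.ble c 124)
      (band (Nat.beq (e8 G c) (e8 CL i))
      (band (Nat.ble (Nat.succ (e8 PS c)) n)
      (band (Nat.beq (e8 CL (e8 PS c)) c)
        (Nat.beq (e8 BS (e8 PS c)) (e8 BS i)))))) (e8 CX i)) n)
  (allUp (fun r => allUp (fun v =>
      Nat.beq (e128 PX (Nat.add (Nat.mul 32 r) v)) (chunkImg 5 (fun i => e8 CX i) r v)) 32) NC))))

/-- every index is mapped to the start of its block -/
def repD (sel : Nat → (Nat → Nat → Bool) → Bool) (PS BS US n : Nat) : Bool :=
  allUp (fun i => sel (e8 US i) (fun CX _ => Nat.beq (e8 PS (e8 CX i)) (e8 BS i))) n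

/-- the check of a row: the nodes with the first stones `s`, `j` and the third stone `l`,
`j < l < n - 1`; `W` contains a table of offsets (24 bits each), and the data -/
def row3 (sel : Nat → (Nat → Nat → Bool) → Bool) (ent : Nat → Nat) (n NC s j W : Nat) : Bool :=
  allUp (fun t => ndOK sel ent 3
    (Nat.lor s (Nat.mul 128 (Nat.lor j (Nat.mul 128 (Nat.add (Nat.succ j) t)))))
    (Nat.add (Nat.succ (Nat.succ j)) t) n NC (Nat.shiftRight W (e24 W t)))
    (Nat.sub (Nat.sub n 2) j)

/-- the check of a row: the nodes with the first stone `s` and the second stone `j`,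
`s < j < n - 1` -/
def row2 (sel : Nat → (Nat → Nat → Bool) → Bool) (ent : Nat → Nat) (n NC s W : Nat) : Bool :=
  allUp (fun t => ndOK sel ent 2
    (Nat.lor s (Nat.mul 128 (Nat.add (Nat.succ s) t)))
    (Nat.add (Nat.succ (Nat.succ s)) t) n NC (Nat.shiftRight W (e24 W t)))
    (Nat.sub (Nat.sub n 2) s)

/-- the check of the nodes with one stone `s < n - 1` -/
def row1 (sel : Nat → (Nat → Nat → Bool) → Bool) (ent : Nat → Nat) (n NC W : Nat) : Bool :=
  allUp (fun t => ndOK sel ent 1 t (Nat.succ t) n NC (Nat.shiftRight W (e24 W t))) (Nat.sub n 1)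

/-- the check of several rows: `RO` contains the offset and the length of the data of each row (32
bits each) -/
def rows3 (sel : Nat → (Nat → Nat → Bool) → Bool) (ent : Nat → Nat) (n NC s j0 RO DD m : Nat) :
    Bool :=
  allUp (fun r => frc (fun W => row3 sel ent n NC s (Nat.add j0 r) W)
    (Nat.land (Nat.shiftRight DD (Nat.land (Nat.shiftRight RO (Nat.mul 64 r)) 4294967295))
      (Nat.sub (Nat.pow 2 (Nat.land (Nat.shiftRight RO (Nat.add 32 (Nat.mul 64 r))) 4294967295)) 1)))
    m

/-- the check of several rows with two stones -/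
def rows2 (sel : Nat → (Nat → Nat → Bool) → Bool) (ent : Nat → Nat) (n NC s0 RO DD m : Nat) :
    Bool :=
  allUp (fun r => frc (fun W => row2 sel ent n NC (Nat.add s0 r) W)
    (Nat.land (Nat.shiftRight DD (Nat.land (Nat.shiftRight RO (Nat.mul 64 r)) 4294967295))
      (Nat.sub (Nat.pow 2 (Nat.land (Nat.shiftRight RO (Nat.add 32 (Nat.mul 64 r))) 4294967295)) 1)))
    m

end

end Pool.Agent.MP_c0c4a4_co.N5
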