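import Mathlib
import Pool.Agent.MP_c0c4a4_co.N5.Ops2
import Pool.Agent.MP_c0c4a4_co.N5.Base

/-!
Slots and plans: soundness of the checkers.
-/

set_option autoImplicit false

namespace Pool.Agent.MP_c0c4a4_co.N5

theorem bnot_iff {b : Bool} : bnot b = true ↔ b = false := by cases b <;> simp [bnot]

theorem bor_iff {a b : Bool} : bor a b = true ↔ a = true ∨ b = true := by cases a <;> simp [bor]

/-- the lines of the mask `L` are blocked inside of the set `Z` -/
def InstS (LMf : ℕ → ℕ) (Z : Set ℕ) (L : ℕ) : Prop :=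
  ∃ H : Set (Set ℕ), Bw H ∧ (∀ t ∈ H, t ⊆ Z) ∧ ∀ l ∈ mset L, ∃ t ∈ H, t ⊆ mset (LMf l)

theorem InstS.mono {LMf : ℕ → ℕ} {Z Z' : Set ℕ} {L : ℕ} (h : InstS LMf Z L) (hZ : Z ⊆ Z') :
    InstS LMf Z' L := by
  obtain ⟨H, h1, h2, h3⟩ := h
  exact ⟨H, h1, fun t ht => (h2 t ht).trans hZ, h3⟩

/-- a slot: region `R`, robust cells `H`, lines `L` -/
def SlotG (LMf : ℕ → ℕ) (R H L : ℕ) : Prop :=
  (∀ c ∈ mset H, InstS LMf (mset R \ {c}) L) ∧ (mset H = ∅ → InstS LMf (mset R) L)

theorem SlotG.avoid {LMf : ℕ → ℕ} {R H L : ℕ} (h : SlotG LMf R H L) (M : Set ℕ)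
    (h1 : ∀ p ∈ M, p ∈ mset R → p ∈ mset H)
    (h2 : ∀ p ∈ M, ∀ q ∈ M, p ∈ mset R → q ∈ mset R → p = q) : InstS LMf (mset R \ M) L := by
  by_cases hc : ∃ c ∈ M, c ∈ mset R
  · obtain ⟨c, hcM, hcR⟩ := hc
    refine (h.1 c (h1 c hcM hcR)).mono ?_
    rintro d ⟨hd1, hd2⟩
    refine ⟨hd1, fun hdM => hd2 ?_⟩
    exact h2 d hdM c hcM hd1 hcR
  · push Not at hc
    have hR : mset R \ M = mset R := by
      ext d
      exact ⟨fun hd => hd.1, fun hd => ⟨hd, fun hdM => hc d hdM hd⟩⟩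
    rw [hR]
    by_cases hH : mset H = ∅
    · exact h.2 hH
    · obtain ⟨c, hc⟩ := Set.nonempty_iff_ne_empty.2 hH
      exact (h.1 c hc).mono Set.diff_subset

theorem slotG_zero (LMf : ℕ → ℕ) (R H : ℕ) : SlotG LMf R H 0 :=
  ⟨fun _ _ => ⟨∅, Bw.empty, by simp, by simp⟩, fun _ => ⟨∅, Bw.empty, by simp, by simp⟩⟩

theorem slt_sound (AL RR LL : ℕ → ℕ) (NG R A : ℕ)
    (hk : ∀ j, Nat.shiftRight j 5 < NG → Bw (gfam AL (RR j) (LL j))) :
    ∀ (n rem D : ℕ), slt RR LL NG R A n rem D = true →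
      ∀ c ∈ mset rem, InstS AL (mset R \ {c}) A := by
  intro n
  induction n with
  | zero =>
    intro rem D h c hc
    have : rem = 0 := beq_iff.1 h
    rw [this] at hc
    simp at hc
  | succ n ih =>
    intro rem D h c hc
    change @Bool.rec (fun _ => Bool)
        (chl RR LL NG (fun D' acc' la' =>
              band (Nat.beq (Nat.lor acc' R) R)
              (band (Nat.beq (Nat.lor A la') la')
                (slt RR LL NG R A n (Nat.xor rem (Nat.pow 2 (Nat.log2 rem))) D')))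
            (Nat.land D 15) (Nat.shiftRight D 4) (Nat.pow 2 (Nat.log2 rem)) 0)
        true (Nat.beq rem 0) = true at h
    cases hrem : Nat.beq rem 0 with
    | true =>
      rw [beq_iff.1 hrem] at hc
      simp at hc
    | false =>
      rw [hrem] at h
      obtain ⟨D', acc', la', H, g1, g2, g3, g4, g5⟩ :=
        chl_sound AL RR LL NG _ hk _ _ _ _ h
      rw [band_iff, band_iff] at g1
      obtain ⟨g6, g7, g8⟩ := g1
      by_cases hcz : c = Nat.log2 rem
      · subst hcz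
        refine ⟨H, g2, ?_, ?_⟩
        · intro t ht d hd
          refine ⟨subset_of_lor g6 ((g3 t ht).1 hd), ?_⟩
          intro hd'
          rw [Set.mem_singleton_iff] at hd'
          subst hd'
          exact Set.disjoint_left.1 (g3 t ht).2 hd (mem_pow.2 rfl)
        · intro l hl
          rcases g5 l (subset_of_lor g7 hl) with h' | h'
          · simp at h'
          · exact h'
      · exact ih _ _ g8 c (mem_xor_pow hc hcz)

theorem slotOK_sound (AL RR LL : ℕ → ℕ) (NG R H A D : ℕ)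
    (hk : ∀ j, Nat.shiftRight j 5 < NG → Bw (gfam AL (RR j) (LL j)))
    (h : slotOK RR LL NG R H A D = true) : SlotG AL R H A := by
  unfold slotOK at h
  cases hH : Nat.beq H 0 with
  | true =>
    rw [hH] at h
    have hH0 := beq_iff.1 hH
    obtain ⟨D', acc', la', H', g1, g2, g3, g4, g5⟩ :=
      chl_sound AL RR LL NG _ hk _ _ _ _ h
    rw [band_iff] at g1
    refine ⟨fun c hc => ?_, fun _ => ⟨H', g2, ?_, ?_⟩⟩
    · rw [hH0] at hc
      simp at hc
    · intro t ht
      exact (g3 t ht).1.trans (subset_of_lor g1.1)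
    · intro l hl
      rcases g5 l (subset_of_lor g1.2 hl) with h' | h'
      · simp at h'
      · exact h'
  | false =>
    rw [hH] at h
    refine ⟨slt_sound AL RR LL NG R A hk _ _ _ h, fun h0 => ?_⟩
    exfalso
    have hne : H ≠ 0 := by
      intro e
      rw [beq_iff.2 e] at hH
      exact Bool.noConfusion hH
    obtain ⟨c, hc⟩ := Nat.exists_testBit_of_ne_zero hne
    have : c ∈ mset H := hc
    rw [h0] at this
    exact this

/-! ### placements -/

theorem frame_exact {LMf AL : ℕ → ℕ} {e : ℕ → ℕ → ℕ} {CT LT a0 a1 a2 a3 a4 b0 b1 b2 q : ℕ}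
    (h : frameOK LMf AL e CT LT a0 a1 a2 a3 a4 b0 b1 b2 q = true) :
    ∃ f lid : ℕ → ℕ, FrameOK LMf AL f lid ∧
      (∀ R, R < 2 ^ 25 → mset (iReg e a0 a1 a2 a3 a4 q R) = f '' mset R) ∧
      (∀ L, L < 2 ^ 12 → ∀ c ∈ mset (iLin e b0 b1 b2 q L), ∃ d ∈ mset L, lid d = c) := by
  unfold frameOK at h
  rw [band_iff, band_iff, band_iff, allUp_iff, allUp_iff, allUp_iff, allUp_iff] at h
  obtain ⟨h1, h2, h3, h4⟩ := h
  have hF : FrameOK LMf AL (fun i => e8 CT (25 * q + i)) (fun l => e8 LT (12 * q + l)) := by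
    have hlt : ∀ i j, i < 25 → j < i → e8 CT (25 * q + i) ≠ e8 CT (25 * q + j) := by
      intro i j hi hj e'
      have := h1 i hi
      rw [band_iff, allUp_iff] at this
      have h5 := this.2 j hj
      rw [beq_iff.2 e'] at h5
      exact Bool.noConfusion h5
    refine ⟨?_, ?_, ?_⟩
    · intro i j hi hj hij
      rcases Nat.lt_trichotomy i j with h' | h' | h'
      · exact (hlt j i hj h' hij.symm).elim
      · exact h'
      · exact (hlt i j hi h' hij).elim
    · intro i hi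
      have := h1 i hi
      rw [band_iff] at this
      have := ble_iff.1 this.1
      omega
    · intro l hl i hi
      have := h2 l hl
      rw [band_iff, allUp_iff] at this
      obtain ⟨g1, g2⟩ := this
      have hi25 : i < 25 := by
        have := ble_iff.1 g1
        have h0 : AL l ≠ 0 := by
          intro h0
          rw [h0] at hi
          simp at hi
        have h6 : AL l < 2 ^ 25 := by
          rw [← Nat.log2_lt h0]
          omega
        exact lt_of_testBit h6 hi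
      refine ⟨hi25, ?_⟩
      have h5 := g2 i hi25
      have h6 : tb (AL l) i = true := by rw [tb_eq]; exact hi
      rw [h6] at h5
      rw [mem_mset, ← tb_eq]
      exact h5
  have hI1 : ImgTab 5 5 (fun i => e8 CT (25 * q + i))
      (fun r v => e (sel5 a0 a1 a2 a3 a4 r) (Nat.add (Nat.mul 32 q) v)) := by
    intro r hr v hv
    have := h3 r hr
    rw [allUp_iff] at this
    exact beq_iff.1 (this v hv)
  have hI2 : ImgTab 4 3 (fun i => e8 LT (12 * q + i))
      (fun r v => e (sel5 b0 b1 b2 0 0 r) (Nat.add (Nat.mul 16 q) v)) := by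
    intro r hr v hv
    have := h4 r hr
    rw [allUp_iff] at this
    exact beq_iff.1 (this v hv)
  refine ⟨_, _, hF, ?_, ?_⟩
  · intro R hR
    ext c
    rw [Set.mem_image, ← hI1.mem (by norm_num) R c (by simpa using hR)]
    unfold iReg
    simp only [mem_lor]
    constructor
    · rintro (hc | hc | hc | hc | hc)
      · exact ⟨0, by norm_num, hc⟩
      · exact ⟨1, by norm_num, hc⟩
      · exact ⟨2, by norm_num, hc⟩
      · exact ⟨3, by norm_num, hc⟩
      · exact ⟨4, by norm_num, hc⟩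
    · rintro ⟨r, hr, hc⟩
      interval_cases r
      · exact Or.inl hc
      · exact Or.inr (Or.inl hc)
      · exact Or.inr (Or.inr (Or.inl hc))
      · exact Or.inr (Or.inr (Or.inr (Or.inl hc)))
      · exact Or.inr (Or.inr (Or.inr (Or.inr hc)))
  · intro L hL c hc
    refine (hI2.mem (by norm_num) L c (by simpa using hL)).1 ?_
    unfold iLin at hc
    simp only [mem_lor] at hc
    rcases hc with hc | hc | hc
    · exact ⟨0, by norm_num, hc⟩
    · exact ⟨1, by norm_num, hc⟩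
    · exact ⟨2, by norm_num, hc⟩

theorem InstS.frame {LMf AL f lid : ℕ → ℕ} (hF : FrameOK LMf AL f lid) {Z : Set ℕ} {A L : ℕ}
    (h : InstS AL Z A) (hZ : ∀ c ∈ Z, c < 25) (hA : A < 2 ^ 12)
    (hL : ∀ c ∈ mset L, ∃ d ∈ mset A, lid d = c) : InstS LMf (f '' Z) L := by
  obtain ⟨H, h1, h2, h3⟩ := h
  refine ⟨_, h1.image (emb f) (emb_inj hF), ?_, ?_⟩
  · rintro t ⟨s, hs, rfl⟩
    rintro c ⟨d, hd, rfl⟩
    have hdZ := h2 s hs hd
    simp only [emb, if_pos (hZ d hdZ)]
    exact ⟨d, hdZ, rfl⟩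
  · intro l hl
    obtain ⟨d, hd, rfl⟩ := hL l hl
    obtain ⟨t, ht, hts⟩ := h3 d hd
    refine ⟨_, ⟨t, ht, rfl⟩, ?_⟩
    rintro c ⟨i, hi, rfl⟩
    have hiZ := hZ i (h2 t ht hi)
    obtain ⟨g1, g2⟩ := hF.lin d (lt_of_testBit hA hd) i (hts hi)
    simp only [emb, if_pos hiZ]
    exact g2

theorem SlotG.frame {LMf AL : ℕ → ℕ} {e : ℕ → ℕ → ℕ} {CT LT a0 a1 a2 a3 a4 b0 b1 b2 q : ℕ}
    (h : frameOK LMf AL e CT LT a0 a1 a2 a3 a4 b0 b1 b2 q = true) {R H A : ℕ}
    (hs : SlotG AL R H A) (hR : R < 2 ^ 25) (hH : H < 2 ^ 25) (hA : A < 2 ^ 12) :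
    SlotG LMf (iReg e a0 a1 a2 a3 a4 q R) (iReg e a0 a1 a2 a3 a4 q H) (iLin e b0 b1 b2 q A) := by
  obtain ⟨f, lid, hF, e1, e2⟩ := frame_exact h
  refine ⟨?_, ?_⟩
  · intro c hc
    rw [e1 H hH] at hc
    obtain ⟨d, hd, rfl⟩ := hc
    rw [e1 R hR]
    refine ((hs.1 d hd).frame hF (fun c hc => lt_of_testBit hR hc.1) hA (e2 A hA)).mono ?_
    rintro _ ⟨i, ⟨hi1, hi2⟩, rfl⟩
    refine ⟨⟨i, hi1, rfl⟩, ?_⟩
    intro he
    rw [Set.mem_singleton_iff] at he
    exact hi2 (hF.inj i d (lt_of_testBit hR hi1) (lt_of_testBit hH hd) he)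
  · intro h0
    rw [e1 H hH, Set.image_eq_empty] at h0
    rw [e1 R hR]
    exact (hs.2 h0).frame hF (fun c hc => lt_of_testBit hR hc) hA (e2 A hA)

/-- every placed slot is fine -/
theorem slot_placed {R H A : ℕ} (hs : SlotG AL R H A) (hR : R < 2 ^ 25) (hH : H < 2 ^ 25)
    (hA : A < 2 ^ 12) (q : ℕ) :
    SlotG LMf (iReg e128 RT0 RT1 RT2 RT3 RT4 q R) (iReg e128 RT0 RT1 RT2 RT3 RT4 q H)
      (iLin e128 LT0 LT1 LT2 q A) := by
  by_cases hq : q < 21
  · exact hs.frame (allUp_iff.1 frames_chk q hq) hR hH hA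
  · have h0 : iLin e128 LT0 LT1 LT2 q A = 0 := by
      unfold iLin
      rw [e128_zero_of_ge LT_chk0, e128_zero_of_ge LT_chk1, e128_zero_of_ge LT_chk2]
      · rfl
      · change 16 * 21 ≤ 16 * q + _; omega
      · change 16 * 21 ≤ 16 * q + _; omega
      · change 16 * 21 ≤ 16 * q + _; omega
    rw [h0]
    exact slotG_zero _ _ _

theorem slot_sym {SR SH SA : ℕ → ℕ} (hR : ∀ k, SR k < 2 ^ 25) (hH : ∀ k, SH k < 2 ^ 25)
    (hA : ∀ k, SA k < 2 ^ 12) (j : ℕ)
    (hs : SlotG AL (SR (Nat.shiftRight j 5)) (SH (Nat.shiftRight j 5)) (SA (Nat.shiftRight j 5))) :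
    SlotG AL (RR SR j) (RR SH j) (LL SA j) := by
  have hlt : Nat.land j 31 < 32 := lt_of_le_of_lt Nat.and_le_right (by norm_num)
  exact hs.frame (allUp_iff.1 syms_chk _ hlt) (hR _) (hH _) (hA _)

/-! ### plans -/

/-- Breaker has a winning answer if Maker has the stones `S` -/
def OKp (LM : List ℕ) (B S : Set ℕ) : Prop := ∃ y, y ∉ S ∧ Bw (fam LM S (insert y B))

/-- compatibility of the stones `M` with an entry of a table of plans -/
def Cmp (E : ℕ) (M : Set ℕ) : Prop :=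
  (∀ p ∈ M, p ∈ mset (Nat.land E M128)) ∧
    ∀ p ∈ M, ∀ q ∈ M, p ≠ q → q ∈ mset (nts E p) ∨ p ∈ mset (nts E q)

/-- the entry `E` of a table of plans is fine -/
def PG (LM : List ℕ) (B MF : Set ℕ) (E : ℕ) : Prop := ∀ M, Cmp E M → OKp LM B (MF ∪ M)

theorem vlo_sound (E R : ℕ) : ∀ (n rem : ℕ), vlo E R n rem = true →
    ∀ a ∈ mset rem, Disjoint (mset (nts E a)) (mset R) := by
  intro n
  induction n with
  | zero =>
    intro rem h a ha
    have : rem = 0 := beq_iff.1 h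
    rw [this] at ha
    simp at ha
  | succ n ih =>
    intro rem h a ha
    change @Bool.rec (fun _ => Bool)
        (frc (fun a => band (Nat.beq (Nat.land (nts E a) R) 0)
          (vlo E R n (Nat.xor rem (Nat.pow 2 a)))) (Nat.log2 rem))
        true (Nat.beq rem 0) = true at h
    cases hrem : Nat.beq rem 0 with
    | true =>
      rw [beq_iff.1 hrem] at ha
      simp at ha
    | false =>
      rw [hrem] at h
      change frc _ _ = true at h
      rw [frc_eq, band_iff] at h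
      by_cases haz : a = Nat.log2 rem
      · subst haz
        exact disjoint_of_land h.1
      · exact ih _ h.2 a (mem_xor_pow ha haz)

theorem mem_M128 {c : ℕ} : c ∈ mset M128 ↔ c < 128 := by
  have : M128 = 2 ^ 128 - 1 := by norm_num [M128]
  rw [this, mem_mset, Nat.testBit_two_pow_sub_one]
  simp

theorem sLoop_sound (LMf iR iH iL : ℕ → ℕ) (h : ∀ j, SlotG LMf (iR j) (iH j) (iL j))
    (hlt : ∀ j, iR j < 2 ^ 128) (E : ℕ) (M : Set ℕ) (hM : Cmp E M) (cont : ℕ → ℕ → Bool) :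
    ∀ (n D r l : ℕ), sLoop iR iH iL E cont n D r l = true →
      ∃ r' l' H, cont r' l' = true ∧ Bw H ∧
        (∀ t ∈ H, t ⊆ mset r' \ M ∧ Disjoint t (mset r)) ∧ (mset r ⊆ mset r') ∧
        (∀ i ∈ mset l', i ∈ mset l ∨ ∃ t ∈ H, t ⊆ mset (LMf i)) := by
  intro n
  induction n with
  | zero =>
    intro D r l hc
    exact ⟨r, l, ∅, hc, Bw.empty, by simp, subset_rfl, fun i hi => Or.inl hi⟩
  | succ n ih =>
    intro D r l hc
    change frc (fun j => frc (fun R => frc (fun V =>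
        band (Nat.beq (Nat.land R r) 0)
        (band (Nat.beq (Nat.lor V (iH j)) (iH j))
        (band (vlo E R 25 V)
          (sLoop iR iH iL E cont n (Nat.shiftRight D 26) (Nat.lor R r) (Nat.lor (iL j) l)))))
          (Nat.land E R)) (iR j)) (Nat.land D 67108863) = true at hc
    rw [frc_eq, frc_eq, frc_eq, band_iff, band_iff, band_iff] at hc
    obtain ⟨h1, h2, h3, h4⟩ := hc
    set j := Nat.land D 67108863 with hj
    obtain ⟨r', l', H, g1, g2, g3, g4, g5⟩ := ih _ _ _ h4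
    have hsub : mset r ⊆ mset (Nat.lor (iR j) r) := fun c hc => mem_lor.2 (Or.inr hc)
    have hsub2 : mset (iR j) ⊆ mset (Nat.lor (iR j) r) := fun c hc => mem_lor.2 (Or.inl hc)
    have hV : ∀ p ∈ M, p ∈ mset (iR j) → p ∈ mset (Nat.land E (iR j)) := by
      intro p hp hpR
      exact mem_land.2 ⟨(mem_land.1 (hM.1 p hp)).1, hpR⟩
    have hav := (h j).avoid M
      (fun p hp hpR => subset_of_lor h2 (hV p hp hpR))
      (by
        intro p hp q hq hpR hqR
        by_contra hne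
        rcases hM.2 p hp q hq hne with h' | h'
        · exact Set.disjoint_left.1 (vlo_sound E _ _ _ h3 p (hV p hp hpR)) h' hqR
        · exact Set.disjoint_left.1 (vlo_sound E _ _ _ h3 q (hV q hq hqR)) h' hpR)
    obtain ⟨G, gB, gR, gL⟩ := hav
    refine ⟨r', l', G ∪ H, g1, ?_, ?_, hsub.trans g4, ?_⟩
    · refine gB.union g2 ?_
      intro s hs t ht
      refine ((g3 t ht).2.mono_right ?_).symm
      exact ((gR s hs).trans Set.diff_subset).trans hsub2
    · rintro t (ht | ht)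
      · refine ⟨fun c hc => ⟨(hsub2.trans g4) (gR t ht hc).1, (gR t ht hc).2⟩, ?_⟩
        exact (disjoint_of_land h1).mono_left ((gR t ht).trans Set.diff_subset)
      · exact ⟨(g3 t ht).1, (g3 t ht).2.mono_right hsub⟩
    · intro i hi
      rcases g5 i hi with h' | ⟨t, ht, hts⟩
      · rcases mem_lor.1 h' with h' | h'
        · obtain ⟨t, ht, hts⟩ := gL i h'
          exact Or.inr ⟨t, Or.inl ht, hts⟩
        · exact Or.inl h'
      · exact Or.inr ⟨t, Or.inr ht, hts⟩

theorem plnOK_sound {LMf : ℕ → ℕ} {nl : ℕ} {iR iH iL inc : ℕ → ℕ} {full hitB MF E D : ℕ}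
    {B : Set ℕ}
    (h : ∀ j, SlotG LMf (iR j) (iH j) (iL j)) (hlt : ∀ j, iR j < 2 ^ 128)
    (hinc : ∀ y, ∀ l ∈ mset (inc y), y ∈ mset (LMf l))
    (hfull : ∀ l, l < nl → l ∈ mset full)
    (hB : ∀ l ∈ mset hitB, ∃ b ∈ B, b ∈ mset (LMf l))
    (hc : plnOK iR iH iL inc full hitB MF E D = true) : PG (LMl LMf nl) B (mset MF) E := by
  intro M hM
  unfold plnOK at hc
  rw [band_iff] at hc
  obtain ⟨h1, h2⟩ := hc
  set y := Nat.land D 127 with hy
  obtain ⟨r', l', H, g1, g2, g3, g4, g5⟩ := sLoop_sound LMf iR iH iL h hlt E M hM _ _ _ _ _ h2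
  rw [band_iff, beq_iff] at g1
  refine ⟨y, ?_, ?_⟩
  · have hd := disjoint_of_land h1
    rw [Set.disjoint_left] at hd
    rintro (h' | h')
    · exact hd (mem_lor.2 (Or.inr h')) (mem_pow.2 rfl)
    · exact hd (mem_lor.2 (Or.inl (hM.1 y h'))) (mem_pow.2 rfl)
  · refine g2.mono ?_
    rintro t ⟨m, hm, hd, rfl⟩
    obtain ⟨l, hl, rfl⟩ := mem_LMl.1 hm
    have hl' : l ∈ mset l' := by rw [beq_iff.1 g1.2]; exact hfull l hl
    rcases g5 l hl' with h' | ⟨t, ht, hts⟩
    · exfalso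
      rcases mem_lor.1 h' with h' | h'
      · obtain ⟨b, hb, hbl⟩ := hB l h'
        exact Set.disjoint_left.1 hd hbl (Set.mem_insert_of_mem _ hb)
      · exact Set.disjoint_left.1 hd (hinc y l h') (Set.mem_insert _ _)
    · refine ⟨t, ht, fun c hc => ⟨hts hc, ?_⟩⟩
      have hcr := (g3 t ht).1 hc
      rintro (h' | h')
      · have : c ∈ mset (Nat.land r' (MF)) := mem_land.2 ⟨hcr.1, h'⟩
        rw [g1.1] at this
        simp at this
      · exact hcr.2 h'

end Pool.Agent.MP_c0c4a4_co.N5
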