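import Mathlib
import Pool.Agent.MP_c0c4a4_co.N5.Slots

/-!
Nodes: soundness of the checkers.
-/

set_option autoImplicit false

namespace Pool.Agent.MP_c0c4a4_co.N5

/-- the set of the `k` entries of 7 bits -/
def pset : ℕ → ℕ → Set ℕ
  | 0, _ => ∅
  | k + 1, P => insert (Nat.land P 127) (pset k (Nat.shiftRight P 7))

theorem Cmp.empty (E : ℕ) : Cmp E ∅ := ⟨by simp, by simp⟩

/-- `K` only contains cells which are compatible with all the stones in `S` -/
def Inv (E : ℕ) (S : Set ℕ) (K : ℕ) : Prop :=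
  Cmp E S ∧ ∀ x ∈ mset K, x ∈ mset (Nat.land E M128) ∧ ∀ p ∈ S, x ∈ mset (nts E p)

theorem Inv.cmp {E : ℕ} {S : Set ℕ} {K x : ℕ} (h : Inv E S K) (hx : x ∈ mset K) :
    Cmp E (insert x S) := by
  refine ⟨?_, ?_⟩
  · rintro p (rfl | hp)
    · exact (h.2 _ hx).1
    · exact h.1.1 p hp
  · rintro p (rfl | hp) q (rfl | hq) hne
    · exact (hne rfl).elim
    · exact Or.inr ((h.2 _ hx).2 q hq)
    · exact Or.inl ((h.2 _ hx).2 p hp)
    · exact h.1.2 p hp q hq hne

theorem Inv.step {E : ℕ} {S : Set ℕ} {K p : ℕ} (h : Inv E S K) (hp : p ∈ mset K) :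
    Inv E (insert p S) (Nat.land K (nts E p)) := by
  refine ⟨h.cmp hp, ?_⟩
  intro x hx
  obtain ⟨h1, h2⟩ := mem_land.1 hx
  refine ⟨(h.2 x h1).1, ?_⟩
  rintro q (rfl | hq)
  · exact h2
  · exact (h.2 x h1).2 q hq

theorem wlk_sound (E : ℕ) (cont : ℕ → Bool) : ∀ (k K P : ℕ) (S : Set ℕ),
    wlk E cont k K P = true → Inv E S K →
      ∃ K', cont K' = true ∧ Inv E (pset k P ∪ S) K' := by
  intro k
  induction k with
  | zero =>
    intro K P S h hI
    refine ⟨K, h, ?_⟩
    simpa [pset] using hI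
  | succ k ih =>
    intro K P S h hI
    change frc (fun p => band (tb K p) (frc (fun K' => wlk E cont k K' (Nat.shiftRight P 7))
      (Nat.land K (nts E p)))) (Nat.land P 127) = true at h
    rw [frc_eq, band_iff, frc_eq, tb_eq] at h
    obtain ⟨K', h1, h2⟩ := ih _ _ _ h.2 (hI.step h.1)
    refine ⟨K', h1, ?_⟩
    have : pset (k + 1) P ∪ S = pset k (Nat.shiftRight P 7) ∪ insert (Nat.land P 127) S := by
      simp only [pset]
      rw [Set.insert_union, Set.union_insert]
    rw [this]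
    exact h2

theorem land127_lt (I : ℕ) : Nat.land I 127 < 128 := lt_of_le_of_lt Nat.and_le_right (by norm_num)

theorem mpi_succ (f : ℕ → ℕ) (k I : ℕ) : mpi f (k + 1) I =
    Nat.lor (f (Nat.land I 127)) (Nat.mul 128 (mpi f k (Nat.shiftRight I 7))) := rfl

theorem pset_mpi (f : ℕ → ℕ) : ∀ (k I : ℕ), (∀ i ∈ pset k I, f i < 128) →
    pset k (mpi f k I) = f '' pset k I := by
  intro k
  induction k with
  | zero => intro I _; simp [pset]
  | succ k ih =>
    intro I h
    have h0 : f (Nat.land I 127) < 128 := h _ (Set.mem_insert _ _)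
    rw [mpi_succ]
    set a := f (Nat.land I 127) with ha
    set b := mpi f k (Nat.shiftRight I 7) with hb
    have e1 : Nat.land (Nat.lor a (Nat.mul 128 b)) 127 = a := by
      apply Nat.eq_of_testBit_eq
      intro i
      change Nat.testBit ((a ||| 128 * b) &&& (2 ^ 7 - 1)) i = _
      rw [Nat.testBit_and, Nat.testBit_or, Nat.testBit_two_pow_sub_one,
        show 128 * b = 2 ^ 7 * b by norm_num, Nat.testBit_two_pow_mul]
      by_cases hi : i < 7
      · have : ¬ 7 ≤ i := by omega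
        simp [hi, this]
      · have : Nat.testBit a i = false := by
          apply Nat.testBit_lt_two_pow
          exact lt_of_lt_of_le h0 (by
            calc 128 = 2 ^ 7 := by norm_num
              _ ≤ 2 ^ i := Nat.pow_le_pow_right (by norm_num) (by omega))
        simp [hi, this]
    have e2 : Nat.shiftRight (Nat.lor a (Nat.mul 128 b)) 7 = b := by
      apply Nat.eq_of_testBit_eq
      intro i
      change Nat.testBit ((a ||| 128 * b) >>> 7) i = _
      rw [Nat.testBit_shiftRight, Nat.testBit_or,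
        show 128 * b = 2 ^ 7 * b by norm_num, Nat.testBit_two_pow_mul]
      have : Nat.testBit a (7 + i) = false := by
        apply Nat.testBit_lt_two_pow
        exact lt_of_lt_of_le h0 (by
            calc 128 = 2 ^ 7 := by norm_num
              _ ≤ 2 ^ (7 + i) := Nat.pow_le_pow_right (by norm_num) (by omega))
      rw [this]
      simp
    simp only [pset]
    rw [e1, e2, ih _ (fun i hi => h i (Set.mem_insert_of_mem _ hi)), Set.image_insert_eq]

theorem refs_sound {LM : List ℕ} {B MF : Set ℕ} (ent : ℕ → ℕ) (hent : ∀ j, PG LM B MF (ent j))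
    (k P : ℕ) (cont : ℕ → ℕ → Bool) : ∀ (n D acc : ℕ), refs ent k P cont n D acc = true →
      ∃ D' acc', cont D' acc' = true ∧ ∀ x ∈ mset acc', x ∈ mset acc ∨
        OKp LM B (MF ∪ insert x (pset k P)) := by
  intro n
  induction n with
  | zero => intro D acc h; exact ⟨D, acc, h, fun x hx => Or.inl hx⟩
  | succ n ih =>
    intro D acc h
    change frc (fun E => wlk E (fun K => refs ent k P cont n (Nat.shiftRight D 12) (Nat.lor K acc)) k
      (Nat.land E M128) P) (ent (Nat.land D 4095)) = true at h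
    rw [frc_eq] at h
    obtain ⟨K', h1, h2⟩ := wlk_sound _ _ _ _ _ ∅ h ⟨Cmp.empty _, fun x hx => ⟨hx, by simp⟩⟩
    obtain ⟨D', acc', g1, g2⟩ := ih _ _ h1
    refine ⟨D', acc', g1, fun x hx => ?_⟩
    rcases g2 x hx with h' | h'
    · rcases mem_lor.1 h' with h' | h'
      · right
        have := h2.cmp h'
        rw [Set.union_empty] at this
        exact hent _ _ this
      · exact Or.inl h'
    · exact Or.inr h'

/-- the tables `CX`, `PX` of the inverse of a symmetry -/
structure SymP (LM : List ℕ) (MF B : Set ℕ) (cl : ℕ → ℕ) (n NC CX PX : ℕ) : Prop where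
  tr : ∀ S : Set ℕ, (∀ i ∈ S, i < n) → OKp LM B (MF ∪ (fun i => e8 CX i) '' S) →
    OKp LM B (MF ∪ cl '' S)
  lt : ∀ i, i < n → e8 CX i < 128
  img : ∀ r, r < NC → ∀ v, v < 32 →
    e128 PX (Nat.add (Nat.mul 32 r) v) = chunkImg 5 (fun i => e8 CX i) r v

theorem mem_cimg {CX PX NC c T nc i : ℕ}
    (himg : ∀ r, r < NC → ∀ v, v < 32 →
      e128 PX (Nat.add (Nat.mul 32 r) v) = chunkImg 5 (fun i => e8 CX i) r v)
    (hc : c + nc ≤ NC) (hi : i ∈ mset T) (hlt : i < 5 * nc) :
    e8 CX (5 * c + i) ∈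
      mset (cimg (fun r v => e128 PX (Nat.add (Nat.mul 32 r) v)) c T nc) := by
  unfold cimg
  rw [mem_orUpTo]
  refine ⟨i / 5, by omega, ?_⟩
  have hv : Nat.land (Nat.shiftRight T (Nat.mul 5 (i / 5))) 31 < 32 :=
    lt_of_le_of_lt Nat.and_le_right (by norm_num)
  have e := himg (c + i / 5) (by omega) _ hv
  change e8 CX (5 * c + i) ∈ mset (e128 PX (Nat.add (Nat.mul 32 (c + i / 5)) _))
  rw [e]
  unfold chunkImg
  rw [mem_orUpTo]
  refine ⟨i % 5, Nat.mod_lt _ (by norm_num), ?_⟩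
  rw [mem_ifm, tb_eq]
  have h5 := testBit_chunk T (Nat.mul 5 (i / 5)) 5 (i % 5)
  refine ⟨?_, ?_⟩
  · change Nat.testBit (Nat.land (Nat.shiftRight T (Nat.mul 5 (i / 5))) (2 ^ 5 - 1)) (i % 5) = true
    rw [h5]
    have e2 : Nat.mul 5 (i / 5) + i % 5 = i := Nat.div_add_mod i 5
    rw [e2, Bool.and_eq_true]
    exact ⟨by simpa using Nat.mod_lt i (by norm_num : 0 < 5), hi⟩
  · rw [mem_pow]
    change e8 CX (5 * c + i) = e8 CX (5 * (c + i / 5) + i % 5)
    congr 1
    omega

theorem grps_sound {LM : List ℕ} {B MF : Set ℕ} (ent : ℕ → ℕ) (hent : ∀ j, PG LM B MF (ent j))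
    {cl : ℕ → ℕ} {n NC : ℕ}
    (sel : ℕ → (ℕ → ℕ → Bool) → Bool)
    (hsel : ∀ g cont, sel g cont = true → ∃ CX PX, SymP LM MF B cl n NC CX PX ∧ cont CX PX = true)
    (k I c nc : ℕ) (hI : ∀ i ∈ pset k I, i < n) (hc : c + nc ≤ NC)
    (cont : ℕ → Bool) : ∀ (m D cov : ℕ), grps sel ent k I c nc cont m D cov = true →
      ∃ cov', cont cov' = true ∧ ∀ i ∈ mset cov', 5 * c + i < n → i ∈ mset cov ∨
        OKp LM B (MF ∪ cl '' insert (5 * c + i) (pset k I)) := by
  intro m
  induction m with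
  | zero => intro D cov h; exact ⟨cov, h, fun i hi _ => Or.inl hi⟩
  | succ m ih =>
    intro D cov h
    obtain ⟨CX, PX, hS, h⟩ := hsel _ _ h
    rw [frc_eq] at h
    obtain ⟨D', acc, h1, h2⟩ := refs_sound ent hent _ _ _ _ _ _ h
    rw [frc_eq, band_iff] at h1
    obtain ⟨h3, h4⟩ := h1
    set T := Nat.land D' (Nat.sub (Nat.pow 2 (Nat.mul 5 nc)) 1) with hT
    obtain ⟨cov', g1, g2⟩ := ih _ _ h4
    refine ⟨cov', g1, fun i hi hin => ?_⟩
    rcases g2 i hi hin with h' | h'
    · rcases mem_lor.1 h' with h' | h'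
      · right
        have hi5 : i < 5 * nc := by
          have : i ∈ mset (2 ^ (5 * nc) - 1) := (mem_land.1 h').2
          rw [mem_mset, Nat.testBit_two_pow_sub_one] at this
          simpa using this
        have hx := subset_of_lor h3 (mem_cimg hS.img hc h' hi5)
        rcases h2 _ hx with h'' | h''
        · simp at h''
        · rw [pset_mpi _ _ _ (fun i hi => hS.lt i (hI i hi))] at h''
          refine hS.tr _ ?_ ?_
          · rintro j (rfl | hj)
            · exact hin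
            · exact hI j hj
          · rw [Set.image_insert_eq]
            exact h''
      · exact Or.inl h'
    · exact Or.inr h'

theorem ndOK_sound {LM : List ℕ} {B MF : Set ℕ} (ent : ℕ → ℕ) (hent : ∀ j, PG LM B MF (ent j))
    {cl : ℕ → ℕ} {n NC : ℕ}
    (sel : ℕ → (ℕ → ℕ → Bool) → Bool)
    (hsel : ∀ g cont, sel g cont = true → ∃ CX PX, SymP LM MF B cl n NC CX PX ∧ cont CX PX = true)
    (k I lo D : ℕ) (hI : ∀ i ∈ pset k I, i < n) (hlo : lo ≤ 5 * NC)
    (h : ndOK sel ent k I lo n NC D = true) :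
    ∀ x, lo ≤ x → x < n → OKp LM B (MF ∪ cl '' insert x (pset k I)) := by
  intro x hx1 hx2
  unfold ndOK at h
  rw [frc_eq] at h
  have hdiv : lo / 5 ≤ NC := by omega
  have hc : lo / 5 + (NC - lo / 5) ≤ NC := by omega
  obtain ⟨cov, h1, h2⟩ := grps_sound ent hent sel hsel k I (lo / 5) (NC - lo / 5) hI hc _ _ _ _ h
  have h3 : Nat.lor cov (Nat.sub (Nat.pow 2 (Nat.sub lo (Nat.mul 5 (lo / 5)))) 1) =
      Nat.lor (Nat.sub (Nat.pow 2 (Nat.sub n (Nat.mul 5 (lo / 5)))) 1) cov := beq_iff.1 h1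
  have h4 : x - 5 * (lo / 5) ∈ mset (Nat.lor cov (Nat.sub (Nat.pow 2 (Nat.sub lo (Nat.mul 5 (lo / 5)))) 1)) := by
    rw [h3]
    refine mem_lor.2 (Or.inl ?_)
    change Nat.testBit (2 ^ (n - 5 * (lo / 5)) - 1) _ = true
    rw [Nat.testBit_two_pow_sub_one]
    simp only [decide_eq_true_eq]
    omega
  rcases mem_lor.1 h4 with h' | h'
  · have e : 5 * (lo / 5) + (x - 5 * (lo / 5)) = x := by omega
    rcases h2 _ h' (by rw [e]; exact hx2) with h'' | h''
    · simp at h''
    · rw [e] at h''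
      exact h''
  · exfalso
    have : Nat.testBit (2 ^ (lo - 5 * (lo / 5)) - 1) (x - 5 * (lo / 5)) = true := h'
    rw [Nat.testBit_two_pow_sub_one] at this
    simp only [decide_eq_true_eq] at this
    omega

end Pool.Agent.MP_c0c4a4_co.N5
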