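import Mathlib
import Pool.Agent.MP_c0c4a4_co.N5.Nodes

/-!
Symmetries, reduction to representatives, rows of nodes.
-/

set_option autoImplicit false

namespace Pool.Agent.MP_c0c4a4_co.N5

theorem isub_sound (CT m : ℕ) : ∀ (n rem : ℕ), isub CT m n rem = true →
    ∀ c ∈ mset rem, e8 CT c ∈ mset m := by
  intro n
  induction n with
  | zero =>
    intro rem h c hc
    have : rem = 0 := beq_iff.1 h
    rw [this] at hc
    simp at hc
  | succ n ih =>
    intro rem h c hc
    change @Bool.rec (fun _ => Bool)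
        (frc (fun a => band (tb m (e8 CT a)) (isub CT m n (Nat.xor rem (Nat.pow 2 a)))) (Nat.log2 rem))
        true (Nat.beq rem 0) = true at h
    cases hrem : Nat.beq rem 0 with
    | true =>
      rw [beq_iff.1 hrem] at hc
      simp at hc
    | false =>
      rw [hrem] at h
      change frc _ _ = true at h
      rw [frc_eq, band_iff, tb_eq] at h
      by_cases hcz : c = Nat.log2 rem
      · subst hcz
        exact h.1
      · exact ih _ h.2 c (mem_xor_pow hc hcz)

theorem injL_sound (CT : ℕ) : ∀ (n acc : ℕ), injL CT n acc = true →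
    (∀ i, i < n → e8 CT i < 125 ∧ e8 CT i ∉ mset acc) ∧
      ∀ i j, i < n → j < n → e8 CT i = e8 CT j → i = j := by
  intro n
  induction n with
  | zero => intro acc _; exact ⟨by simp, by simp⟩
  | succ n ih =>
    intro acc h
    change frc (fun a => band (Nat.ble a 124) (band (bnot (tb acc a))
      (injL CT n (Nat.lor acc (Nat.pow 2 a))))) (e8 CT n) = true at h
    rw [frc_eq, band_iff, band_iff, ble_iff, bnot_iff, tb_eq] at h
    obtain ⟨h1, h2, h3⟩ := h
    obtain ⟨g1, g2⟩ := ih _ h3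
    have h2' : e8 CT n ∉ mset acc := by
      rw [mem_mset, h2]
      simp
    refine ⟨?_, ?_⟩
    · intro i hi
      rcases Nat.lt_or_ge i n with h | h
      · exact ⟨(g1 i h).1, fun h' => (g1 i h).2 (mem_lor.2 (Or.inl h'))⟩
      · have : i = n := by omega
        subst this
        exact ⟨by omega, h2'⟩
    · intro i j hi hj hij
      rcases Nat.lt_or_ge i n with h | h <;> rcases Nat.lt_or_ge j n with h' | h'
      · exact g2 i j h h' hij
      · exfalso
        have : j = n := by omega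
        subst this
        exact (g1 i h).2 (mem_lor.2 (Or.inr (by rw [hij]; exact mem_pow.2 rfl)))
      · exfalso
        have : i = n := by omega
        subst this
        exact (g1 j h').2 (mem_lor.2 (Or.inr (by rw [← hij]; exact mem_pow.2 rfl)))
      · omega

/-- the symmetry with table `G` -/
structure Sym2 (LMf : ℕ → ℕ) (nl G : ℕ) : Prop where
  lt : ∀ i, i < 125 → e8 G i < 125
  inj : Function.Injective (gmap G)
  lin : ∀ m ∈ LMl LMf nl, ∃ m' ∈ LMl LMf nl, gmap G '' mset m' ⊆ mset m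

theorem gmap_of_lt {G i : ℕ} (h : i < 125) : gmap G i = e8 G i := if_pos h

theorem sym2_sound {LMf : ℕ → ℕ} {nl G LT : ℕ} (h : sym2OK LMf nl G LT = true) :
    Sym2 LMf nl G := by
  unfold sym2OK at h
  rw [band_iff, allUp_iff] at h
  obtain ⟨h1, h2⟩ := h
  obtain ⟨g1, g2⟩ := injL_sound _ _ _ h1
  refine ⟨fun i hi => (g1 i hi).1, ?_, ?_⟩
  · intro i j hij
    unfold gmap at hij
    split_ifs at hij with h1 h2 h2
    · exact g2 i j h1 h2 hij
    · have := (g1 i h1).1
      omega
    · have := (g1 j h2).1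
      omega
    · exact hij
  · intro m hm
    obtain ⟨l, hl, rfl⟩ := mem_LMl.1 hm
    have := h2 l hl
    rw [band_iff, band_iff] at this
    obtain ⟨f1, f2, f3⟩ := this
    refine ⟨LMf (e8 LT l), mem_LMl.2 ⟨_, ble_iff.1 f1, rfl⟩, ?_⟩
    rintro _ ⟨c, hc, rfl⟩
    have hlt : c < 125 := lt_of_testBit (lt_of_shiftRight f2) hc
    rw [gmap_of_lt hlt]
    exact isub_sound _ _ _ _ f3 c hc

theorem mem_imb {G m c : ℕ} : c ∈ mset (imb G m) ↔ ∃ d, d < 125 ∧ d ∈ mset m ∧ e8 G d = c := by
  unfold imb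
  rw [mem_orUpTo]
  constructor
  · rintro ⟨d, hd, h⟩
    rw [mem_ifm, tb_eq, mem_pow] at h
    exact ⟨d, hd, h.1, h.2.symm⟩
  · rintro ⟨d, hd, h1, h2⟩
    refine ⟨d, hd, ?_⟩
    rw [mem_ifm, tb_eq, mem_pow]
    exact ⟨h1, h2.symm⟩

theorem imb_eq {G m : ℕ} (hm : m < 2 ^ 125) : mset (imb G m) = gmap G '' mset m := by
  ext c
  rw [mem_imb]
  constructor
  · rintro ⟨d, hd, h1, h2⟩
    exact ⟨d, h1, by rw [gmap_of_lt hd]; exact h2⟩
  · rintro ⟨d, hd, h⟩
    have hlt : d < 125 := lt_of_testBit hm hd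
    exact ⟨d, hlt, hd, by rw [← gmap_of_lt hlt]; exact h⟩

theorem Sym2.bw {LMf : ℕ → ℕ} {nl G : ℕ} (h : Sym2 LMf nl G) {M B : Set ℕ}
    (hb : Bw (fam (LMl LMf nl) M B)) :
    Bw (fam (LMl LMf nl) (gmap G '' M) (gmap G '' B)) :=
  fam_image hb _ h.inj h.lin

theorem OKp.sym {LMf : ℕ → ℕ} {nl G : ℕ} (h : Sym2 LMf nl G) {B S : Set ℕ}
    (ho : OKp (LMl LMf nl) B S) : OKp (LMl LMf nl) (gmap G '' B) (gmap G '' S) := by
  obtain ⟨y, hy, hb⟩ := ho
  refine ⟨gmap G y, ?_, ?_⟩
  · rintro ⟨d, hd, hde⟩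
    exact hy (h.inj hde ▸ hd)
  · have := h.bw hb
    rw [Set.image_insert_eq] at this
    exact this

/-- the data of a domain -/
structure DomD (M B n : ℕ) (cl ps bs : ℕ → ℕ) : Prop where
  hM : M < 2 ^ 125
  hB : B < 2 ^ 125
  ps_cl : ∀ i, i < n → ps (cl i) = i
  lt : ∀ i, i < n → cl i < 125 ∧ cl i ∉ mset M ∧ cl i ∉ mset B
  bs_le : ∀ i, i < n → bs i ≤ i
  bs_bs : ∀ i, i < n → bs (bs i) = bs i
  cl_ps : ∀ c, c < 125 → c ∉ mset M → c ∉ mset B → ps c < n ∧ cl (ps c) = c

theorem not_mem_of_bnot {m c : ℕ} (h : bnot (tb m c) = true) : c ∉ mset m := by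
  rw [bnot_iff, tb_eq] at h
  rw [mem_mset, h]
  simp

theorem dom_sound {CL PS BS M B n : ℕ} (h : celOK CL PS BS M B n = true) :
    DomD M B n (e8 CL) (e8 PS) (e8 BS) := by
  unfold celOK at h
  rw [band_iff, band_iff, allUp_iff, allUp_iff] at h
  obtain ⟨h20, h2, h2'⟩ := h
  have hMB := lt_of_shiftRight h20
  have cell : ∀ i, i < n → e8 PS (e8 CL i) = i ∧ e8 CL i < 125 ∧ (e8 CL i ∉ mset M ∧ e8 CL i ∉ mset B) ∧
      e8 BS i ≤ i ∧ e8 BS (e8 BS i) = e8 BS i := by
    intro i hi
    have := h2 i hi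
    rw [band_iff, band_iff, band_iff, band_iff, beq_iff, ble_iff, ble_iff, beq_iff] at this
    obtain ⟨g1, g2, g3, g4, g5⟩ := this
    have g3' := not_mem_of_bnot g3
    rw [mem_lor, not_or] at g3'
    exact ⟨g1, by omega, g3', g4, g5⟩
  refine ⟨lt_of_le_of_lt Nat.left_le_or hMB, lt_of_le_of_lt Nat.right_le_or hMB, ?_, ?_, ?_, ?_, ?_⟩
  · exact fun i hi => (cell i hi).1
  · exact fun i hi => ⟨(cell i hi).2.1, (cell i hi).2.2.1⟩
  · exact fun i hi => (cell i hi).2.2.2.1
  · exact fun i hi => (cell i hi).2.2.2.2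
  · intro c hc hcM hcB
    have := h2' c hc
    rw [bor_iff, band_iff, ble_iff] at this
    rcases this with h | h
    · exfalso
      have : c ∈ mset (Nat.lor M B) := by rw [mem_mset, ← tb_eq]; exact h
      rcases mem_lor.1 this with h' | h'
      · exact hcM h'
      · exact hcB h'
    · exact ⟨h.1, beq_iff.1 h.2⟩

/-- the tables of the inverse of a symmetry, with the data of a domain -/
structure SymQ (LM : List ℕ) (M B : ℕ) (cl ps bs : ℕ → ℕ) (n NC CX PX : ℕ) : Prop
    extends SymP LM (mset M) (mset B) cl n NC CX PX where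
  free : ∀ i, i < n → ps (e8 CX i) < n ∧ cl (ps (e8 CX i)) = e8 CX i ∧ bs (ps (e8 CX i)) = bs i
  inj : ∀ i j, i < n → j < n → e8 CX i = e8 CX j → i = j

theorem symD_sound {LMf : ℕ → ℕ} {nl CL PS BS M B n NC G LT CX PX : ℕ}
    (hD : DomD M B n (e8 CL) (e8 PS) (e8 BS))
    (h : symD LMf nl CL PS BS M B n NC G LT CX PX = true) :
    SymQ (LMl LMf nl) M B (e8 CL) (e8 PS) (e8 BS) n NC CX PX := by
  unfold symD at h
  rw [band_iff, band_iff, band_iff, band_iff, allUp_iff, allUp_iff, beq_iff, beq_iff] at h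
  obtain ⟨h1, h2, h3, h4, h5⟩ := h
  have hs := sym2_sound h1
  have c : ∀ i, i < n → e8 CX i < 125 ∧ e8 G (e8 CX i) = e8 CL i ∧ e8 PS (e8 CX i) < n ∧
      e8 CL (e8 PS (e8 CX i)) = e8 CX i ∧ e8 BS (e8 PS (e8 CX i)) = e8 BS i := by
    intro i hi
    have := h4 i hi
    rw [frc_eq, band_iff, band_iff, band_iff, band_iff, ble_iff, beq_iff, ble_iff, beq_iff,
      beq_iff] at this
    obtain ⟨g1, g2, g3, g4, g5⟩ := this
    exact ⟨by omega, g2, g3, g4, g5⟩
  refine ⟨⟨?_, ?_, ?_⟩, ?_, ?_⟩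
  · intro S hS ho
    have := ho.sym hs
    rw [Set.image_union, ← imb_eq hD.hM, h2, ← imb_eq hD.hB, h3] at this
    have e : gmap G '' ((fun i => e8 CX i) '' S) = e8 CL '' S := by
      rw [Set.image_image]
      apply Set.image_congr
      intro i hi
      rw [gmap_of_lt (c i (hS i hi)).1]
      exact (c i (hS i hi)).2.1
    rw [e] at this
    exact this
  · intro i hi
    have := (c i hi).1
    omega
  · intro r hr v hv
    have := h5 r hr
    rw [allUp_iff] at this
    exact beq_iff.1 (this v hv)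
  · exact fun i hi => ⟨(c i hi).2.2.1, (c i hi).2.2.2.1, (c i hi).2.2.2.2⟩
  · intro i j hi hj hij
    have e1 := (c i hi).2.1
    rw [hij, (c j hj).2.1] at e1
    have := congrArg (e8 PS) e1
    rw [hD.ps_cl j hj, hD.ps_cl i hi] at this
    exact this.symm

/-- reduction of all sets of `k + 1` indices to representatives -/
theorem red_all {LM : List ℕ} {M B n NC : ℕ} {cl ps bs : ℕ → ℕ} (hD : DomD M B n cl ps bs)
    (hrep : ∀ i, i < n → ∃ CX PX, SymQ LM M B cl ps bs n NC CX PX ∧ ps (e8 CX i) = bs i)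
    {k : ℕ} (H : ∀ i, i < n → bs i = i → ∀ G : Finset ℕ, G.card = k → (∀ j ∈ G, i < j ∧ j < n) →
      OKp LM (mset B) (mset M ∪ cl '' (insert i (G : Set ℕ)))) :
    ∀ T : Finset ℕ, T.card = k + 1 → (∀ t ∈ T, t < n) →
      OKp LM (mset B) (mset M ∪ cl '' (T : Set ℕ)) := by
  classical
  intro T hT hTn
  have hne : T.Nonempty := by
    rw [← Finset.card_pos, hT]
    omega
  obtain ⟨i, hi, hmin⟩ := Finset.exists_min_image T bs hne
  have hin := hTn i hi
  obtain ⟨CX, PX, hS, hrepi⟩ := hrep i hin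
  set T' := T.image (fun t => ps (e8 CX t)) with hT'
  have hcard : T'.card = k + 1 := by
    rw [hT', Finset.card_image_of_injOn, hT]
    intro a ha b hb hab
    have h1 := (hS.free a (hTn a ha)).2.1
    have h2 := (hS.free b (hTn b hb)).2.1
    simp only at hab
    rw [hab, h2] at h1
    exact (hS.inj a b (hTn a ha) (hTn b hb) h1.symm)
  have hi0 : bs i ∈ T' := by
    rw [hT', Finset.mem_image]
    exact ⟨i, hi, hrepi⟩
  have hi0n : bs i < n := lt_of_le_of_lt (hD.bs_le i hin) hin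
  have hG : ∀ j ∈ T'.erase (bs i), bs i < j ∧ j < n := by
    intro j hj
    rw [Finset.mem_erase, hT', Finset.mem_image] at hj
    obtain ⟨hj1, t, ht, rfl⟩ := hj
    have h1 := hS.free t (hTn t ht)
    have h2 := hD.bs_le _ h1.1
    rw [h1.2.2] at h2
    have h3 := hmin t ht
    refine ⟨?_, h1.1⟩
    omega
  have key := H (bs i) hi0n (hD.bs_bs i hin) (T'.erase (bs i))
    (by rw [Finset.card_erase_of_mem hi0, hcard]; rfl) hG
  have e1 : insert (bs i) ((T'.erase (bs i) : Finset ℕ) : Set ℕ) = (T' : Set ℕ) := by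
    rw [← Finset.coe_insert, Finset.insert_erase hi0]
  have e2 : cl '' (T' : Set ℕ) = (fun t => e8 CX t) '' (T : Set ℕ) := by
    rw [hT', Finset.coe_image, Set.image_image]
    apply Set.image_congr
    intro t ht
    exact (hS.free t (hTn t ht)).2.1
  rw [e1, e2] at key
  exact hS.tr _ (fun t ht => hTn t ht) key

/-- a domain is won by Breaker -/
def DomG (M B k : ℕ) : Prop := ∀ F : Finset ℕ, F.card = k →
  (∀ c ∈ F, c < 125 ∧ c ∉ mset M ∧ c ∉ mset B) → Bw (fam LM (mset M ∪ F) (mset B))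

theorem domG_of_ok {M B n k : ℕ} {cl ps bs : ℕ → ℕ} (hD : DomD M B n cl ps bs) (hk : k < n)
    (h : ∀ T : Finset ℕ, T.card = k + 1 → (∀ t ∈ T, t < n) →
      OKp LM (mset B) (mset M ∪ cl '' (T : Set ℕ))) : DomG M B k := by
  classical
  intro F hF hFc
  have hps : ∀ c ∈ F, ps c < n ∧ cl (ps c) = c := fun c hc =>
    hD.cl_ps c (hFc c hc).1 (hFc c hc).2.1 (hFc c hc).2.2
  have hcardF : (F.image ps).card = k := by
    rw [Finset.card_image_of_injOn, hF]
    intro a ha b hb hab
    have h1 := (hps a ha).2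
    rw [hab, (hps b hb).2] at h1
    exact h1.symm
  have hclF : cl '' ((F.image ps : Finset ℕ) : Set ℕ) = (F : Set ℕ) := by
    rw [Finset.coe_image, Set.image_image]
    ext c
    constructor
    · rintro ⟨d, hd, rfl⟩
      simp only
      rw [(hps d hd).2]
      exact hd
    · intro hc
      exact ⟨c, hc, (hps c hc).2⟩
  refine fam_step LM_lt ?_ ?_
  · -- a further free cell
    have hex : ∃ i, i < n ∧ i ∉ F.image ps := by
      by_contra hcon
      push Not at hcon
      have hsub : Finset.range n ⊆ F.image ps := fun i hi => hcon i (Finset.mem_range.1 hi)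
      have := Finset.card_le_card hsub
      rw [Finset.card_range, hcardF] at this
      omega
    obtain ⟨i, hi, hiF⟩ := hex
    refine ⟨cl i, (hD.lt i hi).1, ?_, (hD.lt i hi).2.2⟩
    rintro (h' | h')
    · exact (hD.lt i hi).2.1 h'
    · apply hiF
      rw [Finset.mem_image]
      exact ⟨cl i, h', hD.ps_cl i hi⟩
  · intro x hx hxM hxB
    have hxMF : x ∉ mset M := fun h' => hxM (Or.inl h')
    have hxF : x ∉ F := fun h' => hxM (Or.inr h')
    obtain ⟨hx1, hx2⟩ := hD.cl_ps x hx hxMF hxB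
    have hxn : ps x ∉ F.image ps := by
      rw [Finset.mem_image]
      rintro ⟨c, hc, hce⟩
      apply hxF
      have := (hps c hc).2
      rw [hce, hx2] at this
      rw [this]
      exact hc
    have := h (insert (ps x) (F.image ps))
      (by rw [Finset.card_insert_of_notMem hxn, hcardF])
      (by
        intro t ht
        rw [Finset.mem_insert, Finset.mem_image] at ht
        rcases ht with rfl | ⟨c, hc, rfl⟩
        · exact hx1
        · exact (hps c hc).1)
    rw [Finset.coe_insert, Set.image_insert_eq, hclF, hx2] at this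
    obtain ⟨y, hy, hb⟩ := this
    have e : mset M ∪ insert x (F : Set ℕ) = insert x (mset M ∪ (F : Set ℕ)) := by
      rw [Set.union_insert]
    rw [e] at hy hb
    refine ⟨y, ?_, fun h' => hy (Set.mem_insert_of_mem _ h'), hb⟩
    rintro rfl
    exact hy (Set.mem_insert _ _)

end Pool.Agent.MP_c0c4a4_co.N5
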