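import Mathlib
import Pool.Agent.MP_c0c4a4_co.N5.Doms

/-!
Rows of nodes.
-/

set_option autoImplicit false

namespace Pool.Agent.MP_c0c4a4_co.N5

theorem pk_land {a b : ℕ} (h0 : a < 128) : Nat.land (Nat.lor a (Nat.mul 128 b)) 127 = a := by
  apply Nat.eq_of_testBit_eq
  intro i
  change Nat.testBit ((a ||| 128 * b) &&& (2 ^ 7 - 1)) i = _
  rw [Nat.testBit_and, Nat.testBit_or, Nat.testBit_two_pow_sub_one,
    show 128 * b = 2 ^ 7 * b by norm_num, Nat.testBit_two_pow_mul]
  by_cases hi : i < 7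
  · have : ¬ 7 ≤ i := by omega
    simp [hi, this]
  · have : Nat.testBit a i = false := by
      apply Nat.testBit_lt_two_pow
      exact lt_of_lt_of_le h0 (by
        calc 128 = 2 ^ 7 := by norm_num
          _ ≤ 2 ^ i := Nat.pow_le_pow_right (by norm_num) (by omega))
    simp [hi, this]

theorem pk_shift {a b : ℕ} (h0 : a < 128) : Nat.shiftRight (Nat.lor a (Nat.mul 128 b)) 7 = b := by
  apply Nat.eq_of_testBit_eq
  intro i
  change Nat.testBit ((a ||| 128 * b) >>> 7) i = _
  rw [Nat.testBit_shiftRight, Nat.testBit_or,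
    show 128 * b = 2 ^ 7 * b by norm_num, Nat.testBit_two_pow_mul]
  have : Nat.testBit a (7 + i) = false := by
    apply Nat.testBit_lt_two_pow
    exact lt_of_lt_of_le h0 (by
        calc 128 = 2 ^ 7 := by norm_num
          _ ≤ 2 ^ (7 + i) := Nat.pow_le_pow_right (by norm_num) (by omega))
  rw [this]
  simp

theorem land127_of_lt {a : ℕ} (h : a < 128) : Nat.land a 127 = a := by
  have := pk_land (b := 0) h
  change Nat.land (a ||| 0) 127 = a at this
  rwa [Nat.or_zero] at this

theorem pset_one {s : ℕ} (hs : s < 128) : pset 1 s = {s} := by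
  simp only [pset]
  rw [land127_of_lt hs]
  simp

theorem pset_two {s j : ℕ} (hs : s < 128) (hj : j < 128) :
    pset 2 (Nat.lor s (Nat.mul 128 j)) = {s, j} := by
  have e : pset 2 (Nat.lor s (Nat.mul 128 j)) =
    insert (Nat.land (Nat.lor s (Nat.mul 128 j)) 127)
      (pset 1 (Nat.shiftRight (Nat.lor s (Nat.mul 128 j)) 7)) := rfl
  rw [e, pk_land hs, pk_shift hs, pset_one hj]

theorem pset_three {s j l : ℕ} (hs : s < 128) (hj : j < 128) (hl : l < 128) :
    pset 3 (Nat.lor s (Nat.mul 128 (Nat.lor j (Nat.mul 128 l)))) = {s, j, l} := by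
  have e : pset 3 (Nat.lor s (Nat.mul 128 (Nat.lor j (Nat.mul 128 l)))) =
    insert (Nat.land (Nat.lor s (Nat.mul 128 (Nat.lor j (Nat.mul 128 l)))) 127)
      (pset 2 (Nat.shiftRight (Nat.lor s (Nat.mul 128 (Nat.lor j (Nat.mul 128 l)))) 7)) := rfl
  rw [e, pk_land hs, pk_shift hs, pset_two hj hl]

variable (M B : ℕ) (cl : ℕ → ℕ) (n : ℕ)

/-- the sets `{i, j, l, x}`, `j < l < x` -/
def RowG3 (i j : ℕ) : Prop := ∀ l x, j < l → l < x → x < n →
  OKp LM (mset B) (mset M ∪ cl '' {i, j, l, x})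

/-- the sets `{i, j, x}`, `i < j < x` -/
def RowG2 (i : ℕ) : Prop := ∀ j x, i < j → j < x → x < n →
  OKp LM (mset B) (mset M ∪ cl '' {i, j, x})

/-- the sets `{i, x}`, `i < x` -/
def RowG1 : Prop := ∀ i x, i < x → x < n → OKp LM (mset B) (mset M ∪ cl '' {i, x})

/-- the sets `{x}` -/
def RowG0 : Prop := ∀ x, x < n → OKp LM (mset B) (mset M ∪ cl '' {x})

variable {M B cl n}

/-- the assumptions on the tables of the symmetries and of the plans -/
structure Tab (M B n NC : ℕ) (cl ps bs : ℕ → ℕ) (sel : ℕ → (ℕ → ℕ → Bool) → Bool)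
    (ent : ℕ → ℕ) : Prop where
  dom : DomD M B n cl ps bs
  sel_ok : ∀ g cont, sel g cont = true →
    ∃ CX PX, SymQ LM M B cl ps bs n NC CX PX ∧ cont CX PX = true
  ent_ok : ∀ j, PG LM (mset B) (mset M) (ent j)
  n_lt : n < 128
  n_le : n ≤ 5 * NC
  rep : ∃ PS BS US, ps = e8 PS ∧ bs = e8 BS ∧ repD sel PS BS US n = true

section

variable {NC : ℕ} {ps bs : ℕ → ℕ} {sel : ℕ → (ℕ → ℕ → Bool) → Bool} {ent : ℕ → ℕ}

theorem Tab.node (h : Tab M B n NC cl ps bs sel ent) (k I lo D : ℕ)
    (hI : ∀ i ∈ pset k I, i < n) (hlo : lo ≤ n) (hc : ndOK sel ent k I lo n NC D = true) :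
    ∀ x, lo ≤ x → x < n → OKp LM (mset B) (mset M ∪ cl '' insert x (pset k I)) := by
  have hlo' : lo ≤ 5 * NC := hlo.trans h.n_le
  exact ndOK_sound ent h.ent_ok sel (fun g cont hg => by
    obtain ⟨CX, PX, h1, h2⟩ := h.sel_ok g cont hg
    exact ⟨CX, PX, h1.toSymP, h2⟩) k I lo D hI hlo' hc

theorem row3_sound (h : Tab M B n NC cl ps bs sel ent) {s j W : ℕ} (hs : s < n)
    (hc : row3 sel ent n NC s j W = true) : RowG3 M B cl n s j := by
  intro l x hjl hlx hxn
  unfold row3 at hc
  rw [allUp_iff] at hc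
  have h1 := hc (l - (j + 1)) (by
    change l - (j + 1) < n - 2 - j
    omega)
  have e1 : Nat.add (Nat.succ j) (l - (j + 1)) = l := by
    change j + 1 + (l - (j + 1)) = l
    omega
  have e2 : Nat.add (Nat.succ (Nat.succ j)) (l - (j + 1)) = l + 1 := by
    change j + 1 + 1 + (l - (j + 1)) = l + 1
    omega
  rw [e1, e2] at h1
  have hn := h.n_lt
  have hp := pset_three (s := s) (j := j) (l := l) (by omega) (by omega) (by omega)
  have := h.node _ _ _ _ (by
    intro i hi
    rw [hp] at hi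
    rcases hi with rfl | rfl | hi
    · exact hs
    · omega
    · rw [Set.mem_singleton_iff] at hi
      omega) (by omega) h1 x (by omega) hxn
  rw [hp] at this
  have e : ({s, j, l, x} : Set ℕ) = insert x {s, j, l} := by
    ext c
    simp only [Set.mem_insert_iff, Set.mem_singleton_iff]
    tauto
  rw [e]
  exact this

theorem row2_sound (h : Tab M B n NC cl ps bs sel ent) {s W : ℕ}
    (hc : row2 sel ent n NC s W = true) : RowG2 M B cl n s := by
  intro j x hjl hlx hxn
  unfold row2 at hc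
  rw [allUp_iff] at hc
  have h1 := hc (j - (s + 1)) (by
    change j - (s + 1) < n - 2 - s
    omega)
  have e1 : Nat.add (Nat.succ s) (j - (s + 1)) = j := by
    change s + 1 + (j - (s + 1)) = j
    omega
  have e2 : Nat.add (Nat.succ (Nat.succ s)) (j - (s + 1)) = j + 1 := by
    change s + 1 + 1 + (j - (s + 1)) = j + 1
    omega
  rw [e1, e2] at h1
  have hn := h.n_lt
  have hp := pset_two (s := s) (j := j) (by omega) (by omega)
  have := h.node _ _ _ _ (by
    intro i hi
    rw [hp] at hi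
    rcases hi with rfl | hi
    · omega
    · rw [Set.mem_singleton_iff] at hi
      omega) (by omega) h1 x (by omega) hxn
  rw [hp] at this
  have e : ({s, j, x} : Set ℕ) = insert x {s, j} := by
    ext c
    simp only [Set.mem_insert_iff, Set.mem_singleton_iff]
    tauto
  rw [e]
  exact this

theorem row1_sound (h : Tab M B n NC cl ps bs sel ent) {W : ℕ}
    (hc : row1 sel ent n NC W = true) : RowG1 M B cl n := by
  intro i x hix hxn
  unfold row1 at hc
  rw [allUp_iff] at hc
  have h1 := hc i (by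
    change i < n - 1
    omega)
  have hn := h.n_lt
  have hp := pset_one (s := i) (by omega)
  have := h.node _ _ _ _ (by
    intro i' hi
    rw [hp, Set.mem_singleton_iff] at hi
    omega) (by change i + 1 ≤ n; omega) h1 x (by change i + 1 ≤ x; omega) hxn
  rw [hp] at this
  have e : ({i, x} : Set ℕ) = insert x {i} := by
    ext c
    simp only [Set.mem_insert_iff, Set.mem_singleton_iff]
    tauto
  rw [e]
  exact this

theorem row0_sound (h : Tab M B n NC cl ps bs sel ent) {D : ℕ}
    (hc : ndOK sel ent 0 0 0 n NC D = true) : RowG0 M B cl n := by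
  intro x hxn
  have := h.node _ _ _ _ (by intro i hi; simp [pset] at hi) (by omega) hc x (by omega) hxn
  simp only [pset] at this
  simpa using this

theorem rows3_sound (h : Tab M B n NC cl ps bs sel ent) {s j0 RO DD m : ℕ} (hs : s < n)
    (hc : rows3 sel ent n NC s j0 RO DD m = true) :
    ∀ j, j0 ≤ j → j < j0 + m → RowG3 M B cl n s j := by
  intro j h1 h2
  unfold rows3 at hc
  rw [allUp_iff] at hc
  have h3 := hc (j - j0) (by omega)
  rw [frc_eq] at h3
  have e : Nat.add j0 (j - j0) = j := by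
    change j0 + (j - j0) = j
    omega
  rw [e] at h3
  exact row3_sound h hs h3

theorem rows2_sound (h : Tab M B n NC cl ps bs sel ent) {s0 RO DD m : ℕ}
    (hc : rows2 sel ent n NC s0 RO DD m = true) :
    ∀ s, s0 ≤ s → s < s0 + m → RowG2 M B cl n s := by
  intro s h1 h2
  unfold rows2 at hc
  rw [allUp_iff] at hc
  have h3 := hc (s - s0) (by omega)
  rw [frc_eq] at h3
  have e : Nat.add s0 (s - s0) = s := by
    change s0 + (s - s0) = s
    omega
  rw [e] at h3
  exact row2_sound h h3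

theorem Tab.repOK (h : Tab M B n NC cl ps bs sel ent) :
    ∀ i, i < n → ∃ CX PX, SymQ LM M B cl ps bs n NC CX PX ∧ ps (e8 CX i) = bs i := by
  intro i hi
  obtain ⟨PS, BS, US, e1, e2, hr⟩ := h.rep
  unfold repD at hr
  rw [allUp_iff] at hr
  obtain ⟨CX, PX, h1, h2⟩ := h.sel_ok _ _ (hr i hi)
  refine ⟨CX, PX, h1, ?_⟩
  rw [e1, e2]
  exact beq_iff.1 h2

theorem sorted2 {G : Finset ℕ} (h : G.card = 2) : ∃ a b, a < b ∧ G = {a, b} := by
  obtain ⟨x, y, hxy, rfl⟩ := Finset.card_eq_two.1 h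
  rcases Nat.lt_or_gt_of_ne hxy with h | h
  · exact ⟨x, y, h, rfl⟩
  · exact ⟨y, x, h, Finset.pair_comm x y⟩

theorem sorted3 {G : Finset ℕ} (h : G.card = 3) : ∃ a b c, a < b ∧ b < c ∧ G = {a, b, c} := by
  obtain ⟨x, y, z, hxy, hxz, hyz, rfl⟩ := Finset.card_eq_three.1 h
  rcases Nat.lt_or_gt_of_ne hxy with h1 | h1 <;> rcases Nat.lt_or_gt_of_ne hxz with h2 | h2 <;>
    rcases Nat.lt_or_gt_of_ne hyz with h3 | h3
  · exact ⟨x, y, z, h1, h3, rfl⟩
  · exact ⟨x, z, y, h2, h3, by ext c; simp; tauto⟩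
  · omega
  · exact ⟨z, x, y, h2, h1, by ext c; simp; tauto⟩
  · exact ⟨y, x, z, h1, h2, by ext c; simp; tauto⟩
  · omega
  · exact ⟨y, z, x, h3, h2, by ext c; simp; tauto⟩
  · exact ⟨z, y, x, h3, h1, by ext c; simp; tauto⟩

theorem dom3 (h : Tab M B n NC cl ps bs sel ent) (hn : 3 < n)
    (H : ∀ i, i < n → bs i = i → ∀ j, i < j → j < n → RowG3 M B cl n i j) : DomG M B 3 := by
  refine domG_of_ok h.dom hn (red_all h.dom h.repOK ?_)
  intro i hi hbi G hG hGi
  obtain ⟨a, b, c, hab, hbc, rfl⟩ := sorted3 hG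
  have ha := hGi a (by simp)
  have hc := hGi c (by simp)
  have := H i hi hbi a ha.1 ha.2 b c hab hbc hc.2
  convert this using 3
  push_cast
  rfl

theorem dom2 (h : Tab M B n NC cl ps bs sel ent) (hn : 2 < n)
    (H : ∀ i, i < n → bs i = i → RowG2 M B cl n i) : DomG M B 2 := by
  refine domG_of_ok h.dom hn (red_all h.dom h.repOK ?_)
  intro i hi hbi G hG hGi
  obtain ⟨a, b, hab, rfl⟩ := sorted2 hG
  have ha := hGi a (by simp)
  have hb := hGi b (by simp)
  have := H i hi hbi a b ha.1 hab hb.2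
  convert this using 3
  push_cast
  rfl

theorem dom1 (h : Tab M B n NC cl ps bs sel ent) (hn : 1 < n) (H : RowG1 M B cl n) :
    DomG M B 1 := by
  refine domG_of_ok h.dom hn (red_all h.dom h.repOK ?_)
  intro i hi hbi G hG hGi
  obtain ⟨a, rfl⟩ := Finset.card_eq_one.1 hG
  have ha := hGi a (by simp)
  have := H i a ha.1 ha.2
  convert this using 3
  push_cast
  rfl

theorem dom0 (h : Tab M B n NC cl ps bs sel ent) (hn : 0 < n) (H : RowG0 M B cl n) :
    DomG M B 0 := by
  refine domG_of_ok h.dom hn ?_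
  intro T hT hTn
  obtain ⟨a, rfl⟩ := Finset.card_eq_one.1 (by simpa using hT)
  have := H a (hTn a (by simp))
  convert this using 3
  push_cast
  rfl

end

/-- case distinction for the trees of the tables -/
theorem selE {Q : Prop} {a b c : Bool} (h : @Bool.rec (fun _ => Bool) a b c = true)
    (h1 : a = true → Q) (h2 : b = true → Q) : Q := by
  cases c with
  | false => exact h1 h
  | true => exact h2 h

theorem treeE {P : ℕ → Prop} {a b : ℕ} {c : Bool} (h1 : P a) (h2 : P b) :
    P (@Bool.rec (fun _ => ℕ) a b c) := by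
  cases c with
  | false => exact h1
  | true => exact h2

end Pool.Agent.MP_c0c4a4_co.N5
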