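import Mathlib
import Pool.Agent.MP_c0c4a4_co.N5.Ops4
import Pool.Agent.MP_c0c4a4_co.N5.Rows

/-!
Nodes with bad sets.
-/

set_option autoImplicit false

namespace Pool.Agent.MP_c0c4a4_co.N5

theorem anyUp_iff {f : ℕ → Bool} {n : ℕ} : anyUp f n = true ↔ ∃ i, i < n ∧ f i = true := by
  induction n with
  | zero => simp [anyUp]
  | succ n ih =>
    change bor (f n) (anyUp f n) = true ↔ _
    rw [bor_iff, ih]
    constructor
    · rintro (h | ⟨i, hi, h⟩)
      · exact ⟨n, by omega, h⟩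
      · exact ⟨i, by omega, h⟩
    · rintro ⟨i, hi, h⟩
      rcases Nat.lt_or_ge i n with h' | h'
      · exact Or.inr ⟨i, h', h⟩
      · have : i = n := by omega
        subst this
        exact Or.inl h

/-- the bad sets -/
def BadS (BMT : ℕ) (S : Set ℕ) : Prop := ∃ a, a < 16 ∧ S = mset (e128 BMT a)

theorem badcl_sound {G BMT : ℕ} (h : badcl G BMT = true) (hlt : badlt BMT = true) {S : Set ℕ}
    (hS : BadS BMT S) : BadS BMT (gmap G '' S) := by
  obtain ⟨a, ha, rfl⟩ := hS
  unfold badcl at h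
  unfold badlt at hlt
  rw [allUp_iff] at h hlt
  have h1 := h a ha
  rw [frc_eq, anyUp_iff] at h1
  obtain ⟨b, hb, hbe⟩ := h1
  refine ⟨b, hb, ?_⟩
  rw [← imb_eq (lt_of_shiftRight (hlt a ha)), beq_iff.1 hbe]

/-- the tables of the inverse of a symmetry, compatible with the bad sets -/
structure SymB (LM : List ℕ) (BMT M B : ℕ) (cl ps bs : ℕ → ℕ) (n NC CX PX : ℕ) : Prop
    extends SymQ LM M B cl ps bs n NC CX PX where
  bad : ∀ S : Set ℕ, (∀ i ∈ S, i < n) → BadS BMT ((fun i => e8 CX i) '' S) → BadS BMT (cl '' S)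

theorem symB_sound {LMf : ℕ → ℕ} {nl CL PS BS M B n NC G LT CX PX BMT : ℕ}
    (hD : DomD M B n (e8 CL) (e8 PS) (e8 BS))
    (h : symD LMf nl CL PS BS M B n NC G LT CX PX = true)
    (hb : badcl G BMT = true) (hlt : badlt BMT = true) :
    SymB (LMl LMf nl) BMT M B (e8 CL) (e8 PS) (e8 BS) n NC CX PX := by
  refine ⟨symD_sound hD h, ?_⟩
  unfold symD at h
  rw [band_iff, band_iff, band_iff, band_iff, allUp_iff] at h
  obtain ⟨h1, h2, h3, h4, h5⟩ := h
  have c : ∀ i, i < n → e8 CX i < 125 ∧ e8 G (e8 CX i) = e8 CL i := by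
    intro i hi
    have := h4 i hi
    rw [frc_eq, band_iff, band_iff, ble_iff, beq_iff] at this
    obtain ⟨g1, g2, g3⟩ := this
    exact ⟨by omega, g2⟩
  intro S hS hbad
  have := badcl_sound hb hlt hbad
  have e : gmap G '' ((fun i => e8 CX i) '' S) = e8 CL '' S := by
    rw [Set.image_image]
    apply Set.image_congr
    intro i hi
    rw [gmap_of_lt (c i (hS i hi)).1]
    exact (c i (hS i hi)).2
  rw [e] at this
  exact this

/-- assumptions on the tables, with bad sets -/
structure TabB (BMT M B n NC : ℕ) (cl ps bs : ℕ → ℕ) (sel : ℕ → (ℕ → ℕ → Bool) → Bool)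
    (ent : ℕ → ℕ) : Prop where
  dom : DomD M B n cl ps bs
  sel_ok : ∀ g cont, sel g cont = true →
    ∃ CX PX, SymB LM BMT M B cl ps bs n NC CX PX ∧ cont CX PX = true
  ent_ok : ∀ j, PG LM (mset B) (mset M) (ent j)
  n_lt : n < 128
  n_le : n ≤ 5 * NC
  rep : ∃ PS BS US, ps = e8 PS ∧ bs = e8 BS ∧ repD sel PS BS US n = true

section

variable {BMT M B n NC : ℕ} {cl ps bs : ℕ → ℕ} {sel : ℕ → (ℕ → ℕ → Bool) → Bool} {ent : ℕ → ℕ}

theorem TabB.tab (h : TabB BMT M B n NC cl ps bs sel ent) : Tab M B n NC cl ps bs sel ent :=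
  ⟨h.dom, fun g cont hg => by
    obtain ⟨CX, PX, h1, h2⟩ := h.sel_ok g cont hg
    exact ⟨CX, PX, h1.toSymQ, h2⟩, h.ent_ok, h.n_lt, h.n_le, h.rep⟩

/-- what has to be proved for a set of free stones of Maker -/
def QB (BMT M B : ℕ) (S : Set ℕ) : Prop := OKp LM (mset B) (mset M ∪ S) ∨ BadS BMT S

/-- the sets `{i, j, l, x}`, `j < l < x` -/
def RowB3 (BMT M B : ℕ) (cl : ℕ → ℕ) (n i j : ℕ) : Prop := ∀ l x, j < l → l < x → x < n →
  QB BMT M B (cl '' {i, j, l, x})

theorem ndB_sound {CL : ℕ} (h : TabB BMT M B n NC (e8 CL) ps bs sel ent) {s j l D : ℕ}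
    (hs : s < n) (hj : j < n) (hl : l < n)
    (hc : ndB sel ent CL BMT s j l n NC D = true) :
    ∀ x, l < x → x < n → QB BMT M B (e8 CL '' {s, j, l, x}) := by
  have hn := h.n_lt
  have hp := pset_three (s := s) (j := j) (l := l) (by omega) (by omega) (by omega)
  have hI : ∀ i ∈ pset 3 (Nat.lor s (Nat.mul 128 (Nat.lor j (Nat.mul 128 l)))), i < n := by
    intro i hi
    rw [hp] at hi
    rcases hi with rfl | rfl | hi
    · exact hs
    · exact hj
    · rw [Set.mem_singleton_iff] at hi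
      omega
  have e4 : ∀ x, ({s, j, l, x} : Set ℕ) = insert x {s, j, l} := by
    intro x
    ext c
    simp only [Set.mem_insert_iff, Set.mem_singleton_iff]
    tauto
  intro x hx1 hx2
  unfold ndB at hc
  cases hb : Nat.beq (Nat.land D 15) 15 with
  | false =>
    rw [hb] at hc
    have hc : ndOK sel ent 3 (Nat.lor s (Nat.mul 128 (Nat.lor j (Nat.mul 128 l)))) (l + 1) n NC D
      = true := hc
    left
    have := h.tab.node _ _ _ _ hI (by omega) hc x (by omega) hx2
    rw [hp] at this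
    rw [e4]
    exact this
  | true =>
    rw [hb] at hc
    change frc _ _ = true at hc
    rw [frc_eq, frc_eq, band_iff, band_iff, ble_iff, beq_iff] at hc
    obtain ⟨h1, h2, h3⟩ := hc
    set z := Nat.land (Nat.shiftRight D 8) 127 with hz
    have hdiv : (l + 1) / 5 ≤ NC := by
      have := h.n_le
      omega
    have hcc : (l + 1) / 5 + (NC - (l + 1) / 5) ≤ NC := by omega
    obtain ⟨cov, g1, g2⟩ := grps_sound ent h.ent_ok sel (fun g cont hg => by
      obtain ⟨CX, PX, h1, h2⟩ := h.sel_ok g cont hg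
      exact ⟨CX, PX, h1.toSymP, h2⟩) 3 _ ((l + 1) / 5) (NC - (l + 1) / 5) hI hcc _ _ _ _ h3
    have g3 : Nat.lor cov (Nat.sub (Nat.pow 2 (Nat.sub (l + 1) (Nat.mul 5 ((l + 1) / 5)))) 1) =
      Nat.lor (Nat.sub (Nat.pow 2 (Nat.sub n (Nat.mul 5 ((l + 1) / 5)))) 1) cov := beq_iff.1 g1
    have h1' : 5 * ((l + 1) / 5) ≤ z := h1
    have h4 : x - 5 * ((l + 1) / 5) ∈ mset (Nat.lor cov
        (Nat.sub (Nat.pow 2 (Nat.sub (l + 1) (Nat.mul 5 ((l + 1) / 5)))) 1)) := by
      rw [g3]
      refine mem_lor.2 (Or.inl ?_)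
      change Nat.testBit (2 ^ (n - 5 * ((l + 1) / 5)) - 1) _ = true
      rw [Nat.testBit_two_pow_sub_one]
      simp only [decide_eq_true_eq]
      omega
    rcases mem_lor.1 h4 with h' | h'
    · have e : 5 * ((l + 1) / 5) + (x - 5 * ((l + 1) / 5)) = x := by omega
      rcases g2 _ h' (by rw [e]; exact hx2) with h'' | h''
      · right
        have h5 : x - 5 * ((l + 1) / 5) = z - 5 * ((l + 1) / 5) := mem_pow.1 h''
        have hxz : x = z := by omega
        refine ⟨Nat.land (Nat.shiftRight D 4) 15, lt_of_le_of_lt Nat.and_le_right (by norm_num), ?_⟩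
        rw [← h2, hxz]
        ext c
        simp only [Set.mem_image, Set.mem_insert_iff, Set.mem_singleton_iff, mem_lor, mem_pow,
          exists_eq_or_imp, exists_eq_left]
        constructor
        · rintro (h | h | h | h)
          · exact Or.inl h.symm
          · exact Or.inr (Or.inl h.symm)
          · exact Or.inr (Or.inr (Or.inl h.symm))
          · exact Or.inr (Or.inr (Or.inr h.symm))
        · rintro (h | h | h | h)
          · exact Or.inl h.symm
          · exact Or.inr (Or.inl h.symm)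
          · exact Or.inr (Or.inr (Or.inl h.symm))
          · exact Or.inr (Or.inr (Or.inr h.symm))
      · left
        rw [e, hp] at h''
        rw [e4]
        exact h''
    · exfalso
      have : Nat.testBit (2 ^ (l + 1 - 5 * ((l + 1) / 5)) - 1) (x - 5 * ((l + 1) / 5)) = true := h'
      rw [Nat.testBit_two_pow_sub_one] at this
      simp only [decide_eq_true_eq] at this
      omega

theorem rowB_sound {CL : ℕ} (h : TabB BMT M B n NC (e8 CL) ps bs sel ent) {s j W : ℕ}
    (hs : s < n) (hc : rowB sel ent CL BMT n NC s j W = true) : RowB3 BMT M B (e8 CL) n s j := by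
  intro l x hjl hlx hxn
  unfold rowB at hc
  rw [allUp_iff] at hc
  have h1 := hc (l - (j + 1)) (by
    change l - (j + 1) < n - 2 - j
    omega)
  rw [frc_eq] at h1
  have e1 : Nat.add (Nat.succ j) (l - (j + 1)) = l := by
    change j + 1 + (l - (j + 1)) = l
    omega
  rw [e1] at h1
  exact ndB_sound h hs (by omega) (by omega) h1 x hlx hxn

theorem rowsB_sound {CL : ℕ} (h : TabB BMT M B n NC (e8 CL) ps bs sel ent) {s j0 RO DD m : ℕ}
    (hs : s < n) (hc : rowsB sel ent CL BMT n NC s j0 RO DD m = true) :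
    ∀ j, j0 ≤ j → j < j0 + m → RowB3 BMT M B (e8 CL) n s j := by
  intro j h1 h2
  unfold rowsB at hc
  rw [allUp_iff] at hc
  have h3 := hc (j - j0) (by omega)
  rw [frc_eq] at h3
  have e : Nat.add j0 (j - j0) = j := by
    change j0 + (j - j0) = j
    omega
  rw [e] at h3
  exact rowB_sound h hs h3

end

/-- reduction of all sets of `k + 1` indices to representatives, for a general predicate -/
theorem red_allQ {M B n : ℕ} {cl ps bs : ℕ → ℕ} (hD : DomD M B n cl ps bs) (Q : Set ℕ → Prop)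
    (hrep : ∀ i, i < n → ∃ CX, (∀ S : Set ℕ, (∀ i ∈ S, i < n) → Q ((fun i => e8 CX i) '' S) →
        Q (cl '' S)) ∧
      (∀ i, i < n → ps (e8 CX i) < n ∧ cl (ps (e8 CX i)) = e8 CX i ∧ bs (ps (e8 CX i)) = bs i) ∧
      (∀ i j, i < n → j < n → e8 CX i = e8 CX j → i = j) ∧ ps (e8 CX i) = bs i)
    {k : ℕ} (H : ∀ i, i < n → bs i = i → ∀ G : Finset ℕ, G.card = k → (∀ j ∈ G, i < j ∧ j < n) →
      Q (cl '' (insert i (G : Set ℕ)))) :
    ∀ T : Finset ℕ, T.card = k + 1 → (∀ t ∈ T, t < n) → Q (cl '' (T : Set ℕ)) := by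
  classical
  intro T hT hTn
  have hne : T.Nonempty := by
    rw [← Finset.card_pos, hT]
    omega
  obtain ⟨i, hi, hmin⟩ := Finset.exists_min_image T bs hne
  have hin := hTn i hi
  obtain ⟨CX, htr, hfree, hinj, hrepi⟩ := hrep i hin
  set T' := T.image (fun t => ps (e8 CX t)) with hT'
  have hcard : T'.card = k + 1 := by
    rw [hT', Finset.card_image_of_injOn, hT]
    intro a ha b hb hab
    have h1 := (hfree a (hTn a ha)).2.1
    have h2 := (hfree b (hTn b hb)).2.1
    simp only at hab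
    rw [hab, h2] at h1
    exact (hinj a b (hTn a ha) (hTn b hb) h1.symm)
  have hi0 : bs i ∈ T' := by
    rw [hT', Finset.mem_image]
    exact ⟨i, hi, hrepi⟩
  have hi0n : bs i < n := lt_of_le_of_lt (hD.bs_le i hin) hin
  have hG : ∀ j ∈ T'.erase (bs i), bs i < j ∧ j < n := by
    intro j hj
    rw [Finset.mem_erase, hT', Finset.mem_image] at hj
    obtain ⟨hj1, t, ht, rfl⟩ := hj
    have h1 := hfree t (hTn t ht)
    have h2 := hD.bs_le _ h1.1
    rw [h1.2.2] at h2
    have h3 := hmin t ht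
    refine ⟨?_, h1.1⟩
    omega
  have key := H (bs i) hi0n (hD.bs_bs i hin) (T'.erase (bs i))
    (by rw [Finset.card_erase_of_mem hi0, hcard]; rfl) hG
  have e1 : insert (bs i) ((T'.erase (bs i) : Finset ℕ) : Set ℕ) = (T' : Set ℕ) := by
    rw [← Finset.coe_insert, Finset.insert_erase hi0]
  have e2 : cl '' (T' : Set ℕ) = (fun t => e8 CX t) '' (T : Set ℕ) := by
    rw [hT', Finset.coe_image, Set.image_image]
    apply Set.image_congr
    intro t ht
    exact (hfree t (hTn t ht)).2.1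
  rw [e1, e2] at key
  exact htr _ (fun t ht => hTn t ht) key

/-- from sets of indices to sets of cells -/
theorem cells_of_idx {M B n k : ℕ} {cl ps bs : ℕ → ℕ} (hD : DomD M B n cl ps bs) (Q : Set ℕ → Prop)
    (h : ∀ T : Finset ℕ, T.card = k → (∀ t ∈ T, t < n) → Q (cl '' (T : Set ℕ))) :
    ∀ F : Finset ℕ, F.card = k → (∀ c ∈ F, c < 125 ∧ c ∉ mset M ∧ c ∉ mset B) → Q F := by
  classical
  intro F hF hFc
  have hps : ∀ c ∈ F, ps c < n ∧ cl (ps c) = c := fun c hc =>
    hD.cl_ps c (hFc c hc).1 (hFc c hc).2.1 (hFc c hc).2.2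
  have hcardF : (F.image ps).card = k := by
    rw [Finset.card_image_of_injOn, hF]
    intro a ha b hb hab
    have h1 := (hps a ha).2
    rw [hab, (hps b hb).2] at h1
    exact h1.symm
  have hclF : cl '' ((F.image ps : Finset ℕ) : Set ℕ) = (F : Set ℕ) := by
    rw [Finset.coe_image, Set.image_image]
    ext c
    constructor
    · rintro ⟨d, hd, rfl⟩
      simp only
      rw [(hps d hd).2]
      exact hd
    · intro hc
      exact ⟨c, hc, (hps c hc).2⟩
  rw [← hclF]
  refine h _ hcardF ?_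
  intro t ht
  rw [Finset.mem_image] at ht
  obtain ⟨c, hc, rfl⟩ := ht
  exact (hps c hc).1

section

variable {BMT M B n NC : ℕ} {cl ps bs : ℕ → ℕ} {sel : ℕ → (ℕ → ℕ → Bool) → Bool} {ent : ℕ → ℕ}

theorem TabB.repOK (h : TabB BMT M B n NC cl ps bs sel ent) :
    ∀ i, i < n → ∃ CX PX, SymB LM BMT M B cl ps bs n NC CX PX ∧ ps (e8 CX i) = bs i := by
  intro i hi
  obtain ⟨PS, BS, US, e1, e2, hr⟩ := h.rep
  unfold repD at hr
  rw [allUp_iff] at hr
  obtain ⟨CX, PX, h1, h2⟩ := h.sel_ok _ _ (hr i hi)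
  refine ⟨CX, PX, h1, ?_⟩
  rw [e1, e2]
  exact beq_iff.1 h2

/-- the four stones of Maker can be answered, or form a bad set -/
theorem domB3 (h : TabB BMT M B n NC cl ps bs sel ent)
    (H : ∀ i, i < n → bs i = i → ∀ j, i < j → j < n → RowB3 BMT M B cl n i j) :
    ∀ F : Finset ℕ, F.card = 4 → (∀ c ∈ F, c < 125 ∧ c ∉ mset M ∧ c ∉ mset B) →
      QB BMT M B F := by
  refine cells_of_idx h.dom (QB BMT M B) (red_allQ h.dom (QB BMT M B) ?_ ?_)
  · intro i hi
    obtain ⟨CX, PX, hS, hr⟩ := h.repOK i hi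
    refine ⟨CX, ?_, hS.free, hS.inj, hr⟩
    rintro S hlt (h1 | h1)
    · exact Or.inl (hS.tr S hlt h1)
    · exact Or.inr (hS.bad S hlt h1)
  · intro i hi hbi G hG hGi
    obtain ⟨a, b, c, hab, hbc, rfl⟩ := sorted3 hG
    have ha := hGi a (by simp)
    have hc := hGi c (by simp)
    have := H i hi hbi a ha.1 ha.2 b c hab hbc hc.2
    convert this using 2
    push_cast
    rfl

/-- three stones of Maker can be answered -/
theorem domO2 (h : Tab M B n NC cl ps bs sel ent)
    (H : ∀ i, i < n → bs i = i → RowG2 M B cl n i) :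
    ∀ F : Finset ℕ, F.card = 3 → (∀ c ∈ F, c < 125 ∧ c ∉ mset M ∧ c ∉ mset B) →
      OKp LM (mset B) (mset M ∪ F) := by
  refine cells_of_idx h.dom (fun S => OKp LM (mset B) (mset M ∪ S))
    (red_all h.dom h.repOK ?_)
  intro i hi hbi G hG hGi
  obtain ⟨a, b, hab, rfl⟩ := sorted2 hG
  have ha := hGi a (by simp)
  have hb := hGi b (by simp)
  have := H i hi hbi a b ha.1 hab hb.2
  convert this using 3
  push_cast
  rfl

end

end Pool.Agent.MP_c0c4a4_co.N5
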