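import Pool.Agent.MP_c0c4a4_co.N5.DADat
import Pool.Agent.MP_c0c4a4_co.N5.Ops4

/-!
Symmetries of the domain DA.
-/

set_option autoImplicit false

namespace Pool.Agent.MP_c0c4a4_co.N5

namespace DA

theorem cel : celOK CL PS BS 4611686018427387904 10995116277777 120 = true := by decide +kernel

theorem sy0 : symD LMf 109 CL PS BS 4611686018427387904 10995116277777 120 24 G0 L0 X0 P0 = true := by decide +kernel

theorem sy1 : symD LMf 109 CL PS BS 4611686018427387904 10995116277777 120 24 G1 L1 X1 P1 = true := by decide +kernel

theorem sy2 : symD LMf 109 CL PS BS 4611686018427387904 10995116277777 120 24 G2 L2 X2 P2 = true := by decide +kernel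

theorem sy3 : symD LMf 109 CL PS BS 4611686018427387904 10995116277777 120 24 G3 L3 X3 P3 = true := by decide +kernel

theorem sy4 : symD LMf 109 CL PS BS 4611686018427387904 10995116277777 120 24 G4 L4 X4 P4 = true := by decide +kernel

theorem sy5 : symD LMf 109 CL PS BS 4611686018427387904 10995116277777 120 24 G5 L5 X5 P5 = true := by decide +kernel

theorem sy6 : symD LMf 109 CL PS BS 4611686018427387904 10995116277777 120 24 G6 L6 X6 P6 = true := by decide +kernel

theorem sy7 : symD LMf 109 CL PS BS 4611686018427387904 10995116277777 120 24 G7 L7 X7 P7 = true := by decide +kernel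

theorem rep : repD sel PS BS US 120 = true := by decide +kernel

theorem blt : badlt BMT = true := by decide +kernel

theorem bc0 : badcl G0 BMT = true := by decide +kernel

theorem bc1 : badcl G1 BMT = true := by decide +kernel

theorem bc2 : badcl G2 BMT = true := by decide +kernel

theorem bc3 : badcl G3 BMT = true := by decide +kernel

theorem bc4 : badcl G4 BMT = true := by decide +kernel

theorem bc5 : badcl G5 BMT = true := by decide +kernel

theorem bc6 : badcl G6 BMT = true := by decide +kernel

theorem bc7 : badcl G7 BMT = true := by decide +kernel

end DA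

end Pool.Agent.MP_c0c4a4_co.N5
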