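import Pool.Agent.MP_c0c4a4_co.N5.Ops2

/-!
Checker for exceptional sets of stones of Maker, after which Breaker plays a given answer, and for
all further moves of Maker there is a plan.
-/

set_option autoImplicit false

namespace Pool.Agent.MP_c0c4a4_co.N5

noncomputable section

/-- the loop over the plans of an exceptional set: mask of the good cells (128 bits), plan (512
bits) -/
def excL (chk : Nat → Nat → Bool) (cont : Nat → Bool) (n : Nat) : Nat → Nat → Bool :=
  @Nat.rec (fun _ => Nat → Nat → Bool) (fun _ acc => cont acc)
    (fun _ ih D acc =>
      frc (fun e => frc (fun d => band (chk e d) (ih (Nat.shiftRight D 640) (Nat.lor e acc)))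
        (Nat.land (Nat.shiftRight D 128) 13407807929942597099574024998205846127479365820592393377723561443721764030073546976801874298166903427690031858186486050853753882811946569946433649006084095))
        (Nat.land D M128)) n

/-- the check of an exceptional entry `E` (the mask of the stones is in the lower 128 bits): the
data are the answer (7 bits), the number of the plans (6 bits) and the plans -/
def excOK (iR iH iL inc : Nat → Nat) (full cells hitB MF B E D : Nat) : Bool :=
  frc (fun S =>
    band (Nat.beq (Nat.land (Nat.lor MF S) (Nat.pow 2 (Nat.land D 127))) 0)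
    (band (Nat.beq (Nat.land (Nat.lor MF S) (Nat.lor B (Nat.pow 2 (Nat.land D 127)))) 0)
    (band (bnot (Nat.beq (Nat.lor (Nat.lor MF S) (Nat.lor B (Nat.pow 2 (Nat.land D 127)))) cells))
    (excL (plnOK iR iH iL inc full (Nat.lor hitB (inc (Nat.land D 127))) (Nat.lor MF S))
      (fun acc => Nat.beq (Nat.lor acc
        (Nat.lor (Nat.lor MF S) (Nat.lor B (Nat.pow 2 (Nat.land D 127))))) cells)
      (Nat.land (Nat.shiftRight D 7) 63) (Nat.shiftRight D 13) 0)))) (Nat.land E M128)

end

end Pool.Agent.MP_c0c4a4_co.N5
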