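import Mathlib
import Pool.Agent.MP_c0c4a4_co.N5.Ops3
import Pool.Agent.MP_c0c4a4_co.N5.Slots

/-!
Soundness of the check of exceptional sets.
-/

set_option autoImplicit false

namespace Pool.Agent.MP_c0c4a4_co.N5

theorem excL_sound (chk : ℕ → ℕ → Bool) (cont : ℕ → Bool) : ∀ (n D acc : ℕ),
    excL chk cont n D acc = true →
      ∃ acc', cont acc' = true ∧ ∀ x ∈ mset acc', x ∈ mset acc ∨
        ∃ e d, chk e d = true ∧ x ∈ mset e ∧ ∀ z ∈ mset e, z < 128 := by
  intro n
  induction n with
  | zero => intro D acc h; exact ⟨acc, h, fun x hx => Or.inl hx⟩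
  | succ n ih =>
    intro D acc h
    change frc (fun e => frc (fun d => band (chk e d)
      (excL chk cont n (Nat.shiftRight D 640) (Nat.lor e acc))) _) (Nat.land D M128) = true at h
    rw [frc_eq, frc_eq, band_iff] at h
    obtain ⟨acc', h1, h2⟩ := ih _ _ h.2
    refine ⟨acc', h1, fun x hx => ?_⟩
    rcases h2 x hx with h' | h'
    · rcases mem_lor.1 h' with h' | h'
      · right
        exact ⟨_, _, h.1, h', fun z hz => mem_M128.1 (mem_land.1 hz).2⟩
      · exact Or.inl h'
    · exact Or.inr h'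

theorem cmp_single {e x : ℕ} (hx : x ∈ mset e) (hlt : x < 128) : Cmp e {x} := by
  refine ⟨?_, ?_⟩
  · intro p hp
    rw [Set.mem_singleton_iff] at hp
    subst hp
    exact mem_land.2 ⟨hx, mem_M128.2 hlt⟩
  · intro p hp q hq hne
    rw [Set.mem_singleton_iff] at hp hq
    exact (hne (hp.trans hq.symm)).elim

/-- Maker's stones `S` together with the fixed stones `MF` -/
theorem excOK_sound {iR iH iL : ℕ → ℕ} {full cells hitB MF B E D : ℕ}
    (h : ∀ j, SlotG LMf (iR j) (iH j) (iL j)) (hlt : ∀ j, iR j < 2 ^ 128)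
    (hfull : ∀ l, l < 109 → l ∈ mset full) (hcells : cells = 2 ^ 125 - 1)
    (hMF : MF < 2 ^ 125) (hBlt : B < 2 ^ 125) (hE : Nat.land E M128 < 2 ^ 125)
    (hB : ∀ l ∈ mset hitB, ∃ b ∈ mset B, b ∈ mset (LMf l))
    (hc : excOK iR iH iL inc full cells hitB MF B E D = true) :
    ∀ M, M ⊆ mset (Nat.land E M128) → OKp LM (mset B) (mset MF ∪ M) := by
  unfold excOK at hc
  rw [frc_eq, band_iff, band_iff, band_iff] at hc
  obtain ⟨h1, h2, h3, h4⟩ := hc
  set S := Nat.land E M128 with hS
  set y := Nat.land D 127 with hy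
  have hyM : y ∉ mset MF ∪ mset S := by
    have hd := disjoint_of_land h1
    rw [Set.disjoint_left] at hd
    intro h'
    exact hd (mem_lor.2 h') (mem_pow.2 rfl)
  have hpy : Nat.pow 2 y < 2 ^ 125 ∨ 125 ≤ y := by
    rcases Nat.lt_or_ge y 125 with h' | h'
    · exact Or.inl (Nat.pow_lt_pow_right (by norm_num) h')
    · exact Or.inr h'
  obtain ⟨acc, g1, g2⟩ := excL_sound _ _ _ _ _ h4
  have hMS : mset (Nat.lor MF S) = mset MF ∪ mset S := by
    ext c; exact mem_lor
  have hall : ∀ x, x < 125 → x ∈ mset (Nat.lor acc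
        (Nat.lor (Nat.lor MF S) (Nat.lor B (Nat.pow 2 y)))) := by
    intro x hx
    rw [beq_iff.1 g1, hcells, mem_mset, Nat.testBit_two_pow_sub_one]
    simpa using hx
  have hy125 : y < 125 := by
    by_contra hcon
    have hmem : y ∈ mset (Nat.lor acc (Nat.lor (Nat.lor MF S) (Nat.lor B (Nat.pow 2 y)))) :=
      mem_lor.2 (Or.inr (mem_lor.2 (Or.inr (mem_lor.2 (Or.inr (mem_pow.2 rfl))))))
    rw [beq_iff.1 g1, hcells, mem_mset, Nat.testBit_two_pow_sub_one] at hmem
    simp at hmem
    omega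
  have hb : Bw (fam LM (mset (Nat.lor MF S)) (insert y (mset B))) := by
    refine fam_step LM_lt ?_ ?_
    · -- a free cell
      have hne : Nat.lor (Nat.lor MF S) (Nat.lor B (Nat.pow 2 y)) ≠ 2 ^ 125 - 1 := by
        intro e
        rw [bnot_iff] at h3
        have : Nat.beq (Nat.lor (Nat.lor MF S) (Nat.lor B (Nat.pow 2 y))) cells = true := by
          rw [beq_iff, e, hcells]
        rw [this] at h3
        exact Bool.noConfusion h3
      have hlt' : Nat.lor (Nat.lor MF S) (Nat.lor B (Nat.pow 2 y)) < 2 ^ 125 :=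
        Nat.or_lt_two_pow (Nat.or_lt_two_pow hMF hE)
          (Nat.or_lt_two_pow hBlt (Nat.pow_lt_pow_right (by norm_num) hy125))
      obtain ⟨x, hx, hxn⟩ := exists_of_ne_full hlt' hne
      rw [mem_lor, not_or] at hxn
      refine ⟨x, hx, hxn.1, ?_⟩
      rintro (h' | h')
      · exact hxn.2 (mem_lor.2 (Or.inr (by rw [h']; exact mem_pow.2 rfl)))
      · exact hxn.2 (mem_lor.2 (Or.inl h'))
    · intro x hx hxM hxB
      have hxa : x ∈ mset acc := by
        rcases mem_lor.1 (hall x hx) with h' | h'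
        · exact h'
        · exfalso
          rcases mem_lor.1 h' with h' | h'
          · exact hxM h'
          · rcases mem_lor.1 h' with h' | h'
            · exact hxB (Or.inr h')
            · exact hxB (Or.inl (mem_pow.1 h'))
      rcases g2 x hxa with h' | ⟨e, d, he, hxe, _⟩
      · simp at h'
      · have hB' : ∀ l ∈ mset (Nat.lor hitB (inc y)), ∃ b ∈ insert y (mset B), b ∈ mset (LMf l) := by
          intro l hl
          rcases mem_lor.1 hl with h' | h'
          · obtain ⟨b, hb1, hb2⟩ := hB l h'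
            exact ⟨b, Or.inr hb1, hb2⟩
          · exact ⟨y, Or.inl rfl, inc_sound y l h'⟩
        have hp := plnOK_sound (nl := 109) h hlt inc_sound hfull hB' he
        obtain ⟨z, hz, hzb⟩ := hp {x} (cmp_single hxe (by omega))
        have e1 : mset (Nat.lor MF S) ∪ {x} = insert x (mset (Nat.lor MF S)) := by
          rw [Set.union_singleton]
        rw [e1] at hz hzb
        refine ⟨z, ?_, fun h' => hz (Set.mem_insert_of_mem _ h'), hzb⟩
        rintro rfl
        exact hz (Set.mem_insert _ _)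
  intro M hM
  have hsub : mset MF ∪ M ⊆ mset (Nat.lor MF S) := by
    rw [hMS]
    exact Set.union_subset_union_right _ hM
  refine ⟨y, fun h' => hyM ?_, fam_mono hb hsub subset_rfl⟩
  rw [← hMS]
  exact hsub h'

/-- exceptional entries of a table of plans -/
theorem pg_of_exc {M B E : ℕ}
    (h : ∀ S, S ⊆ mset (Nat.land E M128) → OKp LM (mset B) (mset M ∪ S)) :
    PG LM (mset B) (mset M) E := fun S hS => h S hS.1

theorem ent_zero {E i n ME : ℕ} (hz : Nat.beq (Nat.shiftRight E (Nat.mul 1536 n)) 0 = true)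
    (h : n ≤ i) : Nat.land (Nat.shiftRight E (Nat.mul 1536 i)) ME = 0 := by
  have ht := lt_of_shiftRight hz
  have : Nat.shiftRight E (Nat.mul 1536 i) = 0 := by
    change E >>> (1536 * i) = 0
    rw [Nat.shiftRight_eq_div_pow]
    apply Nat.div_eq_of_lt
    refine lt_of_lt_of_le ht (Nat.pow_le_pow_right (by norm_num) ?_)
    change 1536 * n ≤ 1536 * i
    omega
  rw [this]
  exact Nat.zero_and _

end Pool.Agent.MP_c0c4a4_co.N5
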