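import Mathlib
import Pool.Agent.MP_c0c4a4_co.N5.Base
import Pool.Agent.MP_c0c4a4_co.N5.Gad0
import Pool.Agent.MP_c0c4a4_co.N5.Gad1
import Pool.Agent.MP_c0c4a4_co.N5.Gad2
import Pool.Agent.MP_c0c4a4_co.N5.Gad3
import Pool.Agent.MP_c0c4a4_co.N5.Gad4
import Pool.Agent.MP_c0c4a4_co.N5.Gad5
import Pool.Agent.MP_c0c4a4_co.N5.Gad6
import Pool.Agent.MP_c0c4a4_co.N5.Gad7
import Pool.Agent.MP_c0c4a4_co.N5.Gad8
import Pool.Agent.MP_c0c4a4_co.N5.Gad9
import Pool.Agent.MP_c0c4a4_co.N5.Gad10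
import Pool.Agent.MP_c0c4a4_co.N5.Gad11
import Pool.Agent.MP_c0c4a4_co.N5.Gad12
import Pool.Agent.MP_c0c4a4_co.N5.Gad13
import Pool.Agent.MP_c0c4a4_co.N5.Gad14
import Pool.Agent.MP_c0c4a4_co.N5.Gad15
import Pool.Agent.MP_c0c4a4_co.N5.Gad16
import Pool.Agent.MP_c0c4a4_co.N5.Gad17
import Pool.Agent.MP_c0c4a4_co.N5.Gad18
import Pool.Agent.MP_c0c4a4_co.N5.Gad19
import Pool.Agent.MP_c0c4a4_co.N5.Gad20
import Pool.Agent.MP_c0c4a4_co.N5.Gad21
import Pool.Agent.MP_c0c4a4_co.N5.Gad22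
import Pool.Agent.MP_c0c4a4_co.N5.Gad23
import Pool.Agent.MP_c0c4a4_co.N5.Gad24
import Pool.Agent.MP_c0c4a4_co.N5.Gad25
import Pool.Agent.MP_c0c4a4_co.N5.Gad26
import Pool.Agent.MP_c0c4a4_co.N5.Gad27
import Pool.Agent.MP_c0c4a4_co.N5.Gad28
import Pool.Agent.MP_c0c4a4_co.N5.Gad29
import Pool.Agent.MP_c0c4a4_co.N5.Gad30
import Pool.Agent.MP_c0c4a4_co.N5.Gad31
import Pool.Agent.MP_c0c4a4_co.N5.Gad32
import Pool.Agent.MP_c0c4a4_co.N5.Gad33
import Pool.Agent.MP_c0c4a4_co.N5.Gad34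
import Pool.Agent.MP_c0c4a4_co.N5.Gad35
import Pool.Agent.MP_c0c4a4_co.N5.Gad36
import Pool.Agent.MP_c0c4a4_co.N5.Gad37

/-!
All gadgets are won by Breaker.
-/

set_option autoImplicit false

namespace Pool.Agent.MP_c0c4a4_co.N5

theorem RI_lt (k : ℕ) : RI k < 2 ^ 25 := lt_of_le_of_lt Nat.and_le_right (by norm_num)

theorem LI_lt (k : ℕ) : LI k < 2 ^ 12 := lt_of_le_of_lt Nat.and_le_right (by norm_num)

/-- the gadget has a certificate -/
def GadP (k : ℕ) : Prop := ∃ D, gadOK RI LI (RR RI) (LL LI) incA k D = true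

theorem gadP_of_all2 {DAT OFF b d i : ℕ} (h : all2 (gchk DAT OFF b) d i = true) {lo hi : ℕ}
    (hlo : lo = 2 ^ d * i) (hhi : hi = 2 ^ d * i + 2 ^ d) :
    ∀ k, lo ≤ k → k < hi → GadP k := by
  intro k h1 h2
  have := all2_iff h (k - 2 ^ d * i) (by omega)
  rw [Nat.add_sub_cancel' (by omega)] at this
  unfold gchk at this
  rw [frc_eq, frc_eq] at this
  exact ⟨_, this⟩

theorem gadP_0 (k : ℕ) (hl : 0 ≤ k) (hk : k < 1024) : GadP k := by
  rcases Nat.lt_or_ge k 128 with h0 | h0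
  · exact gadP_of_all2 Gad0.c0 (lo := 0) (hi := 128) rfl rfl k hl h0
  rcases Nat.lt_or_ge k 256 with h1 | h1
  · exact gadP_of_all2 Gad0.c1 (lo := 128) (hi := 256) rfl rfl k h0 h1
  rcases Nat.lt_or_ge k 384 with h2 | h2
  · exact gadP_of_all2 Gad0.c2 (lo := 256) (hi := 384) rfl rfl k h1 h2
  rcases Nat.lt_or_ge k 512 with h3 | h3
  · exact gadP_of_all2 Gad0.c3 (lo := 384) (hi := 512) rfl rfl k h2 h3
  rcases Nat.lt_or_ge k 640 with h4 | h4
  · exact gadP_of_all2 Gad0.c4 (lo := 512) (hi := 640) rfl rfl k h3 h4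
  rcases Nat.lt_or_ge k 768 with h5 | h5
  · exact gadP_of_all2 Gad0.c5 (lo := 640) (hi := 768) rfl rfl k h4 h5
  rcases Nat.lt_or_ge k 896 with h6 | h6
  · exact gadP_of_all2 Gad0.c6 (lo := 768) (hi := 896) rfl rfl k h5 h6
  exact gadP_of_all2 Gad0.c7 (lo := 896) (hi := 1024) rfl rfl k h6 hk

theorem gadP_1 (k : ℕ) (hl : 1024 ≤ k) (hk : k < 2048) : GadP k := by
  rcases Nat.lt_or_ge k 1152 with h0 | h0
  · exact gadP_of_all2 Gad1.c0 (lo := 1024) (hi := 1152) rfl rfl k hl h0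
  rcases Nat.lt_or_ge k 1280 with h1 | h1
  · exact gadP_of_all2 Gad1.c1 (lo := 1152) (hi := 1280) rfl rfl k h0 h1
  rcases Nat.lt_or_ge k 1408 with h2 | h2
  · exact gadP_of_all2 Gad1.c2 (lo := 1280) (hi := 1408) rfl rfl k h1 h2
  rcases Nat.lt_or_ge k 1536 with h3 | h3
  · exact gadP_of_all2 Gad1.c3 (lo := 1408) (hi := 1536) rfl rfl k h2 h3
  rcases Nat.lt_or_ge k 1664 with h4 | h4
  · exact gadP_of_all2 Gad1.c4 (lo := 1536) (hi := 1664) rfl rfl k h3 h4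
  rcases Nat.lt_or_ge k 1792 with h5 | h5
  · exact gadP_of_all2 Gad1.c5 (lo := 1664) (hi := 1792) rfl rfl k h4 h5
  rcases Nat.lt_or_ge k 1920 with h6 | h6
  · exact gadP_of_all2 Gad1.c6 (lo := 1792) (hi := 1920) rfl rfl k h5 h6
  exact gadP_of_all2 Gad1.c7 (lo := 1920) (hi := 2048) rfl rfl k h6 hk

theorem gadP_2 (k : ℕ) (hl : 2048 ≤ k) (hk : k < 3072) : GadP k := by
  rcases Nat.lt_or_ge k 2176 with h0 | h0
  · exact gadP_of_all2 Gad2.c0 (lo := 2048) (hi := 2176) rfl rfl k hl h0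
  rcases Nat.lt_or_ge k 2304 with h1 | h1
  · exact gadP_of_all2 Gad2.c1 (lo := 2176) (hi := 2304) rfl rfl k h0 h1
  rcases Nat.lt_or_ge k 2432 with h2 | h2
  · exact gadP_of_all2 Gad2.c2 (lo := 2304) (hi := 2432) rfl rfl k h1 h2
  rcases Nat.lt_or_ge k 2560 with h3 | h3
  · exact gadP_of_all2 Gad2.c3 (lo := 2432) (hi := 2560) rfl rfl k h2 h3
  rcases Nat.lt_or_ge k 2688 with h4 | h4
  · exact gadP_of_all2 Gad2.c4 (lo := 2560) (hi := 2688) rfl rfl k h3 h4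
  rcases Nat.lt_or_ge k 2816 with h5 | h5
  · exact gadP_of_all2 Gad2.c5 (lo := 2688) (hi := 2816) rfl rfl k h4 h5
  rcases Nat.lt_or_ge k 2944 with h6 | h6
  · exact gadP_of_all2 Gad2.c6 (lo := 2816) (hi := 2944) rfl rfl k h5 h6
  exact gadP_of_all2 Gad2.c7 (lo := 2944) (hi := 3072) rfl rfl k h6 hk

theorem gadP_3 (k : ℕ) (hl : 3072 ≤ k) (hk : k < 4096) : GadP k := by
  rcases Nat.lt_or_ge k 3200 with h0 | h0
  · exact gadP_of_all2 Gad3.c0 (lo := 3072) (hi := 3200) rfl rfl k hl h0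
  rcases Nat.lt_or_ge k 3328 with h1 | h1
  · exact gadP_of_all2 Gad3.c1 (lo := 3200) (hi := 3328) rfl rfl k h0 h1
  rcases Nat.lt_or_ge k 3456 with h2 | h2
  · exact gadP_of_all2 Gad3.c2 (lo := 3328) (hi := 3456) rfl rfl k h1 h2
  rcases Nat.lt_or_ge k 3584 with h3 | h3
  · exact gadP_of_all2 Gad3.c3 (lo := 3456) (hi := 3584) rfl rfl k h2 h3
  rcases Nat.lt_or_ge k 3712 with h4 | h4
  · exact gadP_of_all2 Gad3.c4 (lo := 3584) (hi := 3712) rfl rfl k h3 h4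
  rcases Nat.lt_or_ge k 3840 with h5 | h5
  · exact gadP_of_all2 Gad3.c5 (lo := 3712) (hi := 3840) rfl rfl k h4 h5
  rcases Nat.lt_or_ge k 3968 with h6 | h6
  · exact gadP_of_all2 Gad3.c6 (lo := 3840) (hi := 3968) rfl rfl k h5 h6
  exact gadP_of_all2 Gad3.c7 (lo := 3968) (hi := 4096) rfl rfl k h6 hk

theorem gadP_4 (k : ℕ) (hl : 4096 ≤ k) (hk : k < 5120) : GadP k := by
  rcases Nat.lt_or_ge k 4224 with h0 | h0
  · exact gadP_of_all2 Gad4.c0 (lo := 4096) (hi := 4224) rfl rfl k hl h0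
  rcases Nat.lt_or_ge k 4352 with h1 | h1
  · exact gadP_of_all2 Gad4.c1 (lo := 4224) (hi := 4352) rfl rfl k h0 h1
  rcases Nat.lt_or_ge k 4480 with h2 | h2
  · exact gadP_of_all2 Gad4.c2 (lo := 4352) (hi := 4480) rfl rfl k h1 h2
  rcases Nat.lt_or_ge k 4608 with h3 | h3
  · exact gadP_of_all2 Gad4.c3 (lo := 4480) (hi := 4608) rfl rfl k h2 h3
  rcases Nat.lt_or_ge k 4736 with h4 | h4
  · exact gadP_of_all2 Gad4.c4 (lo := 4608) (hi := 4736) rfl rfl k h3 h4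
  rcases Nat.lt_or_ge k 4864 with h5 | h5
  · exact gadP_of_all2 Gad4.c5 (lo := 4736) (hi := 4864) rfl rfl k h4 h5
  rcases Nat.lt_or_ge k 4992 with h6 | h6
  · exact gadP_of_all2 Gad4.c6 (lo := 4864) (hi := 4992) rfl rfl k h5 h6
  exact gadP_of_all2 Gad4.c7 (lo := 4992) (hi := 5120) rfl rfl k h6 hk

theorem gadP_5 (k : ℕ) (hl : 5120 ≤ k) (hk : k < 6144) : GadP k := by
  rcases Nat.lt_or_ge k 5248 with h0 | h0
  · exact gadP_of_all2 Gad5.c0 (lo := 5120) (hi := 5248) rfl rfl k hl h0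
  rcases Nat.lt_or_ge k 5376 with h1 | h1
  · exact gadP_of_all2 Gad5.c1 (lo := 5248) (hi := 5376) rfl rfl k h0 h1
  rcases Nat.lt_or_ge k 5504 with h2 | h2
  · exact gadP_of_all2 Gad5.c2 (lo := 5376) (hi := 5504) rfl rfl k h1 h2
  rcases Nat.lt_or_ge k 5632 with h3 | h3
  · exact gadP_of_all2 Gad5.c3 (lo := 5504) (hi := 5632) rfl rfl k h2 h3
  rcases Nat.lt_or_ge k 5760 with h4 | h4
  · exact gadP_of_all2 Gad5.c4 (lo := 5632) (hi := 5760) rfl rfl k h3 h4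
  rcases Nat.lt_or_ge k 5888 with h5 | h5
  · exact gadP_of_all2 Gad5.c5 (lo := 5760) (hi := 5888) rfl rfl k h4 h5
  rcases Nat.lt_or_ge k 6016 with h6 | h6
  · exact gadP_of_all2 Gad5.c6 (lo := 5888) (hi := 6016) rfl rfl k h5 h6
  exact gadP_of_all2 Gad5.c7 (lo := 6016) (hi := 6144) rfl rfl k h6 hk

theorem gadP_6 (k : ℕ) (hl : 6144 ≤ k) (hk : k < 7168) : GadP k := by
  rcases Nat.lt_or_ge k 6272 with h0 | h0
  · exact gadP_of_all2 Gad6.c0 (lo := 6144) (hi := 6272) rfl rfl k hl h0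
  rcases Nat.lt_or_ge k 6400 with h1 | h1
  · exact gadP_of_all2 Gad6.c1 (lo := 6272) (hi := 6400) rfl rfl k h0 h1
  rcases Nat.lt_or_ge k 6528 with h2 | h2
  · exact gadP_of_all2 Gad6.c2 (lo := 6400) (hi := 6528) rfl rfl k h1 h2
  rcases Nat.lt_or_ge k 6656 with h3 | h3
  · exact gadP_of_all2 Gad6.c3 (lo := 6528) (hi := 6656) rfl rfl k h2 h3
  rcases Nat.lt_or_ge k 6784 with h4 | h4
  · exact gadP_of_all2 Gad6.c4 (lo := 6656) (hi := 6784) rfl rfl k h3 h4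
  rcases Nat.lt_or_ge k 6912 with h5 | h5
  · exact gadP_of_all2 Gad6.c5 (lo := 6784) (hi := 6912) rfl rfl k h4 h5
  rcases Nat.lt_or_ge k 7040 with h6 | h6
  · exact gadP_of_all2 Gad6.c6 (lo := 6912) (hi := 7040) rfl rfl k h5 h6
  exact gadP_of_all2 Gad6.c7 (lo := 7040) (hi := 7168) rfl rfl k h6 hk

theorem gadP_7 (k : ℕ) (hl : 7168 ≤ k) (hk : k < 8192) : GadP k := by
  rcases Nat.lt_or_ge k 7296 with h0 | h0
  · exact gadP_of_all2 Gad7.c0 (lo := 7168) (hi := 7296) rfl rfl k hl h0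
  rcases Nat.lt_or_ge k 7424 with h1 | h1
  · exact gadP_of_all2 Gad7.c1 (lo := 7296) (hi := 7424) rfl rfl k h0 h1
  rcases Nat.lt_or_ge k 7552 with h2 | h2
  · exact gadP_of_all2 Gad7.c2 (lo := 7424) (hi := 7552) rfl rfl k h1 h2
  rcases Nat.lt_or_ge k 7680 with h3 | h3
  · exact gadP_of_all2 Gad7.c3 (lo := 7552) (hi := 7680) rfl rfl k h2 h3
  rcases Nat.lt_or_ge k 7808 with h4 | h4
  · exact gadP_of_all2 Gad7.c4 (lo := 7680) (hi := 7808) rfl rfl k h3 h4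
  rcases Nat.lt_or_ge k 7936 with h5 | h5
  · exact gadP_of_all2 Gad7.c5 (lo := 7808) (hi := 7936) rfl rfl k h4 h5
  rcases Nat.lt_or_ge k 8064 with h6 | h6
  · exact gadP_of_all2 Gad7.c6 (lo := 7936) (hi := 8064) rfl rfl k h5 h6
  exact gadP_of_all2 Gad7.c7 (lo := 8064) (hi := 8192) rfl rfl k h6 hk

theorem gadP_8 (k : ℕ) (hl : 8192 ≤ k) (hk : k < 9216) : GadP k := by
  rcases Nat.lt_or_ge k 8320 with h0 | h0
  · exact gadP_of_all2 Gad8.c0 (lo := 8192) (hi := 8320) rfl rfl k hl h0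
  rcases Nat.lt_or_ge k 8448 with h1 | h1
  · exact gadP_of_all2 Gad8.c1 (lo := 8320) (hi := 8448) rfl rfl k h0 h1
  rcases Nat.lt_or_ge k 8576 with h2 | h2
  · exact gadP_of_all2 Gad8.c2 (lo := 8448) (hi := 8576) rfl rfl k h1 h2
  rcases Nat.lt_or_ge k 8704 with h3 | h3
  · exact gadP_of_all2 Gad8.c3 (lo := 8576) (hi := 8704) rfl rfl k h2 h3
  rcases Nat.lt_or_ge k 8832 with h4 | h4
  · exact gadP_of_all2 Gad8.c4 (lo := 8704) (hi := 8832) rfl rfl k h3 h4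
  rcases Nat.lt_or_ge k 8960 with h5 | h5
  · exact gadP_of_all2 Gad8.c5 (lo := 8832) (hi := 8960) rfl rfl k h4 h5
  rcases Nat.lt_or_ge k 9088 with h6 | h6
  · exact gadP_of_all2 Gad8.c6 (lo := 8960) (hi := 9088) rfl rfl k h5 h6
  exact gadP_of_all2 Gad8.c7 (lo := 9088) (hi := 9216) rfl rfl k h6 hk

theorem gadP_9 (k : ℕ) (hl : 9216 ≤ k) (hk : k < 10240) : GadP k := by
  rcases Nat.lt_or_ge k 9344 with h0 | h0
  · exact gadP_of_all2 Gad9.c0 (lo := 9216) (hi := 9344) rfl rfl k hl h0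
  rcases Nat.lt_or_ge k 9472 with h1 | h1
  · exact gadP_of_all2 Gad9.c1 (lo := 9344) (hi := 9472) rfl rfl k h0 h1
  rcases Nat.lt_or_ge k 9600 with h2 | h2
  · exact gadP_of_all2 Gad9.c2 (lo := 9472) (hi := 9600) rfl rfl k h1 h2
  rcases Nat.lt_or_ge k 9728 with h3 | h3
  · exact gadP_of_all2 Gad9.c3 (lo := 9600) (hi := 9728) rfl rfl k h2 h3
  rcases Nat.lt_or_ge k 9856 with h4 | h4
  · exact gadP_of_all2 Gad9.c4 (lo := 9728) (hi := 9856) rfl rfl k h3 h4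
  rcases Nat.lt_or_ge k 9984 with h5 | h5
  · exact gadP_of_all2 Gad9.c5 (lo := 9856) (hi := 9984) rfl rfl k h4 h5
  rcases Nat.lt_or_ge k 10112 with h6 | h6
  · exact gadP_of_all2 Gad9.c6 (lo := 9984) (hi := 10112) rfl rfl k h5 h6
  exact gadP_of_all2 Gad9.c7 (lo := 10112) (hi := 10240) rfl rfl k h6 hk

theorem gadP_10 (k : ℕ) (hl : 10240 ≤ k) (hk : k < 11264) : GadP k := by
  rcases Nat.lt_or_ge k 10368 with h0 | h0
  · exact gadP_of_all2 Gad10.c0 (lo := 10240) (hi := 10368) rfl rfl k hl h0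
  rcases Nat.lt_or_ge k 10496 with h1 | h1
  · exact gadP_of_all2 Gad10.c1 (lo := 10368) (hi := 10496) rfl rfl k h0 h1
  rcases Nat.lt_or_ge k 10624 with h2 | h2
  · exact gadP_of_all2 Gad10.c2 (lo := 10496) (hi := 10624) rfl rfl k h1 h2
  rcases Nat.lt_or_ge k 10752 with h3 | h3
  · exact gadP_of_all2 Gad10.c3 (lo := 10624) (hi := 10752) rfl rfl k h2 h3
  rcases Nat.lt_or_ge k 10880 with h4 | h4
  · exact gadP_of_all2 Gad10.c4 (lo := 10752) (hi := 10880) rfl rfl k h3 h4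
  rcases Nat.lt_or_ge k 11008 with h5 | h5
  · exact gadP_of_all2 Gad10.c5 (lo := 10880) (hi := 11008) rfl rfl k h4 h5
  rcases Nat.lt_or_ge k 11136 with h6 | h6
  · exact gadP_of_all2 Gad10.c6 (lo := 11008) (hi := 11136) rfl rfl k h5 h6
  exact gadP_of_all2 Gad10.c7 (lo := 11136) (hi := 11264) rfl rfl k h6 hk

theorem gadP_11 (k : ℕ) (hl : 11264 ≤ k) (hk : k < 12288) : GadP k := by
  rcases Nat.lt_or_ge k 11392 with h0 | h0
  · exact gadP_of_all2 Gad11.c0 (lo := 11264) (hi := 11392) rfl rfl k hl h0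
  rcases Nat.lt_or_ge k 11520 with h1 | h1
  · exact gadP_of_all2 Gad11.c1 (lo := 11392) (hi := 11520) rfl rfl k h0 h1
  rcases Nat.lt_or_ge k 11648 with h2 | h2
  · exact gadP_of_all2 Gad11.c2 (lo := 11520) (hi := 11648) rfl rfl k h1 h2
  rcases Nat.lt_or_ge k 11776 with h3 | h3
  · exact gadP_of_all2 Gad11.c3 (lo := 11648) (hi := 11776) rfl rfl k h2 h3
  rcases Nat.lt_or_ge k 11904 with h4 | h4
  · exact gadP_of_all2 Gad11.c4 (lo := 11776) (hi := 11904) rfl rfl k h3 h4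
  rcases Nat.lt_or_ge k 12032 with h5 | h5
  · exact gadP_of_all2 Gad11.c5 (lo := 11904) (hi := 12032) rfl rfl k h4 h5
  rcases Nat.lt_or_ge k 12160 with h6 | h6
  · exact gadP_of_all2 Gad11.c6 (lo := 12032) (hi := 12160) rfl rfl k h5 h6
  exact gadP_of_all2 Gad11.c7 (lo := 12160) (hi := 12288) rfl rfl k h6 hk

theorem gadP_12 (k : ℕ) (hl : 12288 ≤ k) (hk : k < 13312) : GadP k := by
  rcases Nat.lt_or_ge k 12416 with h0 | h0
  · exact gadP_of_all2 Gad12.c0 (lo := 12288) (hi := 12416) rfl rfl k hl h0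
  rcases Nat.lt_or_ge k 12544 with h1 | h1
  · exact gadP_of_all2 Gad12.c1 (lo := 12416) (hi := 12544) rfl rfl k h0 h1
  rcases Nat.lt_or_ge k 12672 with h2 | h2
  · exact gadP_of_all2 Gad12.c2 (lo := 12544) (hi := 12672) rfl rfl k h1 h2
  rcases Nat.lt_or_ge k 12800 with h3 | h3
  · exact gadP_of_all2 Gad12.c3 (lo := 12672) (hi := 12800) rfl rfl k h2 h3
  rcases Nat.lt_or_ge k 12928 with h4 | h4
  · exact gadP_of_all2 Gad12.c4 (lo := 12800) (hi := 12928) rfl rfl k h3 h4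
  rcases Nat.lt_or_ge k 13056 with h5 | h5
  · exact gadP_of_all2 Gad12.c5 (lo := 12928) (hi := 13056) rfl rfl k h4 h5
  rcases Nat.lt_or_ge k 13184 with h6 | h6
  · exact gadP_of_all2 Gad12.c6 (lo := 13056) (hi := 13184) rfl rfl k h5 h6
  exact gadP_of_all2 Gad12.c7 (lo := 13184) (hi := 13312) rfl rfl k h6 hk

theorem gadP_13 (k : ℕ) (hl : 13312 ≤ k) (hk : k < 14336) : GadP k := by
  rcases Nat.lt_or_ge k 13440 with h0 | h0
  · exact gadP_of_all2 Gad13.c0 (lo := 13312) (hi := 13440) rfl rfl k hl h0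
  rcases Nat.lt_or_ge k 13568 with h1 | h1
  · exact gadP_of_all2 Gad13.c1 (lo := 13440) (hi := 13568) rfl rfl k h0 h1
  rcases Nat.lt_or_ge k 13696 with h2 | h2
  · exact gadP_of_all2 Gad13.c2 (lo := 13568) (hi := 13696) rfl rfl k h1 h2
  rcases Nat.lt_or_ge k 13824 with h3 | h3
  · exact gadP_of_all2 Gad13.c3 (lo := 13696) (hi := 13824) rfl rfl k h2 h3
  rcases Nat.lt_or_ge k 13952 with h4 | h4
  · exact gadP_of_all2 Gad13.c4 (lo := 13824) (hi := 13952) rfl rfl k h3 h4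
  rcases Nat.lt_or_ge k 14080 with h5 | h5
  · exact gadP_of_all2 Gad13.c5 (lo := 13952) (hi := 14080) rfl rfl k h4 h5
  rcases Nat.lt_or_ge k 14208 with h6 | h6
  · exact gadP_of_all2 Gad13.c6 (lo := 14080) (hi := 14208) rfl rfl k h5 h6
  exact gadP_of_all2 Gad13.c7 (lo := 14208) (hi := 14336) rfl rfl k h6 hk

theorem gadP_14 (k : ℕ) (hl : 14336 ≤ k) (hk : k < 15360) : GadP k := by
  rcases Nat.lt_or_ge k 14464 with h0 | h0
  · exact gadP_of_all2 Gad14.c0 (lo := 14336) (hi := 14464) rfl rfl k hl h0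
  rcases Nat.lt_or_ge k 14592 with h1 | h1
  · exact gadP_of_all2 Gad14.c1 (lo := 14464) (hi := 14592) rfl rfl k h0 h1
  rcases Nat.lt_or_ge k 14720 with h2 | h2
  · exact gadP_of_all2 Gad14.c2 (lo := 14592) (hi := 14720) rfl rfl k h1 h2
  rcases Nat.lt_or_ge k 14848 with h3 | h3
  · exact gadP_of_all2 Gad14.c3 (lo := 14720) (hi := 14848) rfl rfl k h2 h3
  rcases Nat.lt_or_ge k 14976 with h4 | h4
  · exact gadP_of_all2 Gad14.c4 (lo := 14848) (hi := 14976) rfl rfl k h3 h4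
  rcases Nat.lt_or_ge k 15104 with h5 | h5
  · exact gadP_of_all2 Gad14.c5 (lo := 14976) (hi := 15104) rfl rfl k h4 h5
  rcases Nat.lt_or_ge k 15232 with h6 | h6
  · exact gadP_of_all2 Gad14.c6 (lo := 15104) (hi := 15232) rfl rfl k h5 h6
  exact gadP_of_all2 Gad14.c7 (lo := 15232) (hi := 15360) rfl rfl k h6 hk

theorem gadP_15 (k : ℕ) (hl : 15360 ≤ k) (hk : k < 16384) : GadP k := by
  rcases Nat.lt_or_ge k 15488 with h0 | h0
  · exact gadP_of_all2 Gad15.c0 (lo := 15360) (hi := 15488) rfl rfl k hl h0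
  rcases Nat.lt_or_ge k 15616 with h1 | h1
  · exact gadP_of_all2 Gad15.c1 (lo := 15488) (hi := 15616) rfl rfl k h0 h1
  rcases Nat.lt_or_ge k 15744 with h2 | h2
  · exact gadP_of_all2 Gad15.c2 (lo := 15616) (hi := 15744) rfl rfl k h1 h2
  rcases Nat.lt_or_ge k 15872 with h3 | h3
  · exact gadP_of_all2 Gad15.c3 (lo := 15744) (hi := 15872) rfl rfl k h2 h3
  rcases Nat.lt_or_ge k 16000 with h4 | h4
  · exact gadP_of_all2 Gad15.c4 (lo := 15872) (hi := 16000) rfl rfl k h3 h4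
  rcases Nat.lt_or_ge k 16128 with h5 | h5
  · exact gadP_of_all2 Gad15.c5 (lo := 16000) (hi := 16128) rfl rfl k h4 h5
  rcases Nat.lt_or_ge k 16256 with h6 | h6
  · exact gadP_of_all2 Gad15.c6 (lo := 16128) (hi := 16256) rfl rfl k h5 h6
  exact gadP_of_all2 Gad15.c7 (lo := 16256) (hi := 16384) rfl rfl k h6 hk

theorem gadP_16 (k : ℕ) (hl : 16384 ≤ k) (hk : k < 17408) : GadP k := by
  rcases Nat.lt_or_ge k 16512 with h0 | h0
  · exact gadP_of_all2 Gad16.c0 (lo := 16384) (hi := 16512) rfl rfl k hl h0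
  rcases Nat.lt_or_ge k 16640 with h1 | h1
  · exact gadP_of_all2 Gad16.c1 (lo := 16512) (hi := 16640) rfl rfl k h0 h1
  rcases Nat.lt_or_ge k 16768 with h2 | h2
  · exact gadP_of_all2 Gad16.c2 (lo := 16640) (hi := 16768) rfl rfl k h1 h2
  rcases Nat.lt_or_ge k 16896 with h3 | h3
  · exact gadP_of_all2 Gad16.c3 (lo := 16768) (hi := 16896) rfl rfl k h2 h3
  rcases Nat.lt_or_ge k 17024 with h4 | h4
  · exact gadP_of_all2 Gad16.c4 (lo := 16896) (hi := 17024) rfl rfl k h3 h4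
  rcases Nat.lt_or_ge k 17152 with h5 | h5
  · exact gadP_of_all2 Gad16.c5 (lo := 17024) (hi := 17152) rfl rfl k h4 h5
  rcases Nat.lt_or_ge k 17280 with h6 | h6
  · exact gadP_of_all2 Gad16.c6 (lo := 17152) (hi := 17280) rfl rfl k h5 h6
  exact gadP_of_all2 Gad16.c7 (lo := 17280) (hi := 17408) rfl rfl k h6 hk

theorem gadP_17 (k : ℕ) (hl : 17408 ≤ k) (hk : k < 18432) : GadP k := by
  rcases Nat.lt_or_ge k 17536 with h0 | h0
  · exact gadP_of_all2 Gad17.c0 (lo := 17408) (hi := 17536) rfl rfl k hl h0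
  rcases Nat.lt_or_ge k 17664 with h1 | h1
  · exact gadP_of_all2 Gad17.c1 (lo := 17536) (hi := 17664) rfl rfl k h0 h1
  rcases Nat.lt_or_ge k 17792 with h2 | h2
  · exact gadP_of_all2 Gad17.c2 (lo := 17664) (hi := 17792) rfl rfl k h1 h2
  rcases Nat.lt_or_ge k 17920 with h3 | h3
  · exact gadP_of_all2 Gad17.c3 (lo := 17792) (hi := 17920) rfl rfl k h2 h3
  rcases Nat.lt_or_ge k 18048 with h4 | h4
  · exact gadP_of_all2 Gad17.c4 (lo := 17920) (hi := 18048) rfl rfl k h3 h4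
  rcases Nat.lt_or_ge k 18176 with h5 | h5
  · exact gadP_of_all2 Gad17.c5 (lo := 18048) (hi := 18176) rfl rfl k h4 h5
  rcases Nat.lt_or_ge k 18304 with h6 | h6
  · exact gadP_of_all2 Gad17.c6 (lo := 18176) (hi := 18304) rfl rfl k h5 h6
  exact gadP_of_all2 Gad17.c7 (lo := 18304) (hi := 18432) rfl rfl k h6 hk

theorem gadP_18 (k : ℕ) (hl : 18432 ≤ k) (hk : k < 19456) : GadP k := by
  rcases Nat.lt_or_ge k 18560 with h0 | h0
  · exact gadP_of_all2 Gad18.c0 (lo := 18432) (hi := 18560) rfl rfl k hl h0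
  rcases Nat.lt_or_ge k 18688 with h1 | h1
  · exact gadP_of_all2 Gad18.c1 (lo := 18560) (hi := 18688) rfl rfl k h0 h1
  rcases Nat.lt_or_ge k 18816 with h2 | h2
  · exact gadP_of_all2 Gad18.c2 (lo := 18688) (hi := 18816) rfl rfl k h1 h2
  rcases Nat.lt_or_ge k 18944 with h3 | h3
  · exact gadP_of_all2 Gad18.c3 (lo := 18816) (hi := 18944) rfl rfl k h2 h3
  rcases Nat.lt_or_ge k 19072 with h4 | h4
  · exact gadP_of_all2 Gad18.c4 (lo := 18944) (hi := 19072) rfl rfl k h3 h4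
  rcases Nat.lt_or_ge k 19200 with h5 | h5
  · exact gadP_of_all2 Gad18.c5 (lo := 19072) (hi := 19200) rfl rfl k h4 h5
  rcases Nat.lt_or_ge k 19328 with h6 | h6
  · exact gadP_of_all2 Gad18.c6 (lo := 19200) (hi := 19328) rfl rfl k h5 h6
  exact gadP_of_all2 Gad18.c7 (lo := 19328) (hi := 19456) rfl rfl k h6 hk

theorem gadP_19 (k : ℕ) (hl : 19456 ≤ k) (hk : k < 20480) : GadP k := by
  rcases Nat.lt_or_ge k 19584 with h0 | h0
  · exact gadP_of_all2 Gad19.c0 (lo := 19456) (hi := 19584) rfl rfl k hl h0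
  rcases Nat.lt_or_ge k 19712 with h1 | h1
  · exact gadP_of_all2 Gad19.c1 (lo := 19584) (hi := 19712) rfl rfl k h0 h1
  rcases Nat.lt_or_ge k 19840 with h2 | h2
  · exact gadP_of_all2 Gad19.c2 (lo := 19712) (hi := 19840) rfl rfl k h1 h2
  rcases Nat.lt_or_ge k 19968 with h3 | h3
  · exact gadP_of_all2 Gad19.c3 (lo := 19840) (hi := 19968) rfl rfl k h2 h3
  rcases Nat.lt_or_ge k 20096 with h4 | h4
  · exact gadP_of_all2 Gad19.c4 (lo := 19968) (hi := 20096) rfl rfl k h3 h4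
  rcases Nat.lt_or_ge k 20224 with h5 | h5
  · exact gadP_of_all2 Gad19.c5 (lo := 20096) (hi := 20224) rfl rfl k h4 h5
  rcases Nat.lt_or_ge k 20352 with h6 | h6
  · exact gadP_of_all2 Gad19.c6 (lo := 20224) (hi := 20352) rfl rfl k h5 h6
  exact gadP_of_all2 Gad19.c7 (lo := 20352) (hi := 20480) rfl rfl k h6 hk

theorem gadP_20 (k : ℕ) (hl : 20480 ≤ k) (hk : k < 21504) : GadP k := by
  rcases Nat.lt_or_ge k 20608 with h0 | h0
  · exact gadP_of_all2 Gad20.c0 (lo := 20480) (hi := 20608) rfl rfl k hl h0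
  rcases Nat.lt_or_ge k 20736 with h1 | h1
  · exact gadP_of_all2 Gad20.c1 (lo := 20608) (hi := 20736) rfl rfl k h0 h1
  rcases Nat.lt_or_ge k 20864 with h2 | h2
  · exact gadP_of_all2 Gad20.c2 (lo := 20736) (hi := 20864) rfl rfl k h1 h2
  rcases Nat.lt_or_ge k 20992 with h3 | h3
  · exact gadP_of_all2 Gad20.c3 (lo := 20864) (hi := 20992) rfl rfl k h2 h3
  rcases Nat.lt_or_ge k 21120 with h4 | h4
  · exact gadP_of_all2 Gad20.c4 (lo := 20992) (hi := 21120) rfl rfl k h3 h4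
  rcases Nat.lt_or_ge k 21248 with h5 | h5
  · exact gadP_of_all2 Gad20.c5 (lo := 21120) (hi := 21248) rfl rfl k h4 h5
  rcases Nat.lt_or_ge k 21376 with h6 | h6
  · exact gadP_of_all2 Gad20.c6 (lo := 21248) (hi := 21376) rfl rfl k h5 h6
  exact gadP_of_all2 Gad20.c7 (lo := 21376) (hi := 21504) rfl rfl k h6 hk

theorem gadP_21 (k : ℕ) (hl : 21504 ≤ k) (hk : k < 22528) : GadP k := by
  rcases Nat.lt_or_ge k 21632 with h0 | h0
  · exact gadP_of_all2 Gad21.c0 (lo := 21504) (hi := 21632) rfl rfl k hl h0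
  rcases Nat.lt_or_ge k 21760 with h1 | h1
  · exact gadP_of_all2 Gad21.c1 (lo := 21632) (hi := 21760) rfl rfl k h0 h1
  rcases Nat.lt_or_ge k 21888 with h2 | h2
  · exact gadP_of_all2 Gad21.c2 (lo := 21760) (hi := 21888) rfl rfl k h1 h2
  rcases Nat.lt_or_ge k 22016 with h3 | h3
  · exact gadP_of_all2 Gad21.c3 (lo := 21888) (hi := 22016) rfl rfl k h2 h3
  rcases Nat.lt_or_ge k 22144 with h4 | h4
  · exact gadP_of_all2 Gad21.c4 (lo := 22016) (hi := 22144) rfl rfl k h3 h4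
  rcases Nat.lt_or_ge k 22272 with h5 | h5
  · exact gadP_of_all2 Gad21.c5 (lo := 22144) (hi := 22272) rfl rfl k h4 h5
  rcases Nat.lt_or_ge k 22400 with h6 | h6
  · exact gadP_of_all2 Gad21.c6 (lo := 22272) (hi := 22400) rfl rfl k h5 h6
  exact gadP_of_all2 Gad21.c7 (lo := 22400) (hi := 22528) rfl rfl k h6 hk

theorem gadP_22 (k : ℕ) (hl : 22528 ≤ k) (hk : k < 23552) : GadP k := by
  rcases Nat.lt_or_ge k 22656 with h0 | h0
  · exact gadP_of_all2 Gad22.c0 (lo := 22528) (hi := 22656) rfl rfl k hl h0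
  rcases Nat.lt_or_ge k 22784 with h1 | h1
  · exact gadP_of_all2 Gad22.c1 (lo := 22656) (hi := 22784) rfl rfl k h0 h1
  rcases Nat.lt_or_ge k 22912 with h2 | h2
  · exact gadP_of_all2 Gad22.c2 (lo := 22784) (hi := 22912) rfl rfl k h1 h2
  rcases Nat.lt_or_ge k 23040 with h3 | h3
  · exact gadP_of_all2 Gad22.c3 (lo := 22912) (hi := 23040) rfl rfl k h2 h3
  rcases Nat.lt_or_ge k 23168 with h4 | h4
  · exact gadP_of_all2 Gad22.c4 (lo := 23040) (hi := 23168) rfl rfl k h3 h4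
  rcases Nat.lt_or_ge k 23296 with h5 | h5
  · exact gadP_of_all2 Gad22.c5 (lo := 23168) (hi := 23296) rfl rfl k h4 h5
  rcases Nat.lt_or_ge k 23424 with h6 | h6
  · exact gadP_of_all2 Gad22.c6 (lo := 23296) (hi := 23424) rfl rfl k h5 h6
  exact gadP_of_all2 Gad22.c7 (lo := 23424) (hi := 23552) rfl rfl k h6 hk

theorem gadP_23 (k : ℕ) (hl : 23552 ≤ k) (hk : k < 24576) : GadP k := by
  rcases Nat.lt_or_ge k 23680 with h0 | h0
  · exact gadP_of_all2 Gad23.c0 (lo := 23552) (hi := 23680) rfl rfl k hl h0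
  rcases Nat.lt_or_ge k 23808 with h1 | h1
  · exact gadP_of_all2 Gad23.c1 (lo := 23680) (hi := 23808) rfl rfl k h0 h1
  rcases Nat.lt_or_ge k 23936 with h2 | h2
  · exact gadP_of_all2 Gad23.c2 (lo := 23808) (hi := 23936) rfl rfl k h1 h2
  rcases Nat.lt_or_ge k 24064 with h3 | h3
  · exact gadP_of_all2 Gad23.c3 (lo := 23936) (hi := 24064) rfl rfl k h2 h3
  rcases Nat.lt_or_ge k 24192 with h4 | h4
  · exact gadP_of_all2 Gad23.c4 (lo := 24064) (hi := 24192) rfl rfl k h3 h4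
  rcases Nat.lt_or_ge k 24320 with h5 | h5
  · exact gadP_of_all2 Gad23.c5 (lo := 24192) (hi := 24320) rfl rfl k h4 h5
  rcases Nat.lt_or_ge k 24448 with h6 | h6
  · exact gadP_of_all2 Gad23.c6 (lo := 24320) (hi := 24448) rfl rfl k h5 h6
  exact gadP_of_all2 Gad23.c7 (lo := 24448) (hi := 24576) rfl rfl k h6 hk

theorem gadP_24 (k : ℕ) (hl : 24576 ≤ k) (hk : k < 25600) : GadP k := by
  rcases Nat.lt_or_ge k 24704 with h0 | h0
  · exact gadP_of_all2 Gad24.c0 (lo := 24576) (hi := 24704) rfl rfl k hl h0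
  rcases Nat.lt_or_ge k 24832 with h1 | h1
  · exact gadP_of_all2 Gad24.c1 (lo := 24704) (hi := 24832) rfl rfl k h0 h1
  rcases Nat.lt_or_ge k 24960 with h2 | h2
  · exact gadP_of_all2 Gad24.c2 (lo := 24832) (hi := 24960) rfl rfl k h1 h2
  rcases Nat.lt_or_ge k 25088 with h3 | h3
  · exact gadP_of_all2 Gad24.c3 (lo := 24960) (hi := 25088) rfl rfl k h2 h3
  rcases Nat.lt_or_ge k 25216 with h4 | h4
  · exact gadP_of_all2 Gad24.c4 (lo := 25088) (hi := 25216) rfl rfl k h3 h4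
  rcases Nat.lt_or_ge k 25344 with h5 | h5
  · exact gadP_of_all2 Gad24.c5 (lo := 25216) (hi := 25344) rfl rfl k h4 h5
  rcases Nat.lt_or_ge k 25472 with h6 | h6
  · exact gadP_of_all2 Gad24.c6 (lo := 25344) (hi := 25472) rfl rfl k h5 h6
  exact gadP_of_all2 Gad24.c7 (lo := 25472) (hi := 25600) rfl rfl k h6 hk

theorem gadP_25 (k : ℕ) (hl : 25600 ≤ k) (hk : k < 26624) : GadP k := by
  rcases Nat.lt_or_ge k 25728 with h0 | h0
  · exact gadP_of_all2 Gad25.c0 (lo := 25600) (hi := 25728) rfl rfl k hl h0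
  rcases Nat.lt_or_ge k 25856 with h1 | h1
  · exact gadP_of_all2 Gad25.c1 (lo := 25728) (hi := 25856) rfl rfl k h0 h1
  rcases Nat.lt_or_ge k 25984 with h2 | h2
  · exact gadP_of_all2 Gad25.c2 (lo := 25856) (hi := 25984) rfl rfl k h1 h2
  rcases Nat.lt_or_ge k 26112 with h3 | h3
  · exact gadP_of_all2 Gad25.c3 (lo := 25984) (hi := 26112) rfl rfl k h2 h3
  rcases Nat.lt_or_ge k 26240 with h4 | h4
  · exact gadP_of_all2 Gad25.c4 (lo := 26112) (hi := 26240) rfl rfl k h3 h4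
  rcases Nat.lt_or_ge k 26368 with h5 | h5
  · exact gadP_of_all2 Gad25.c5 (lo := 26240) (hi := 26368) rfl rfl k h4 h5
  rcases Nat.lt_or_ge k 26496 with h6 | h6
  · exact gadP_of_all2 Gad25.c6 (lo := 26368) (hi := 26496) rfl rfl k h5 h6
  exact gadP_of_all2 Gad25.c7 (lo := 26496) (hi := 26624) rfl rfl k h6 hk

theorem gadP_26 (k : ℕ) (hl : 26624 ≤ k) (hk : k < 27648) : GadP k := by
  rcases Nat.lt_or_ge k 26752 with h0 | h0
  · exact gadP_of_all2 Gad26.c0 (lo := 26624) (hi := 26752) rfl rfl k hl h0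
  rcases Nat.lt_or_ge k 26880 with h1 | h1
  · exact gadP_of_all2 Gad26.c1 (lo := 26752) (hi := 26880) rfl rfl k h0 h1
  rcases Nat.lt_or_ge k 27008 with h2 | h2
  · exact gadP_of_all2 Gad26.c2 (lo := 26880) (hi := 27008) rfl rfl k h1 h2
  rcases Nat.lt_or_ge k 27136 with h3 | h3
  · exact gadP_of_all2 Gad26.c3 (lo := 27008) (hi := 27136) rfl rfl k h2 h3
  rcases Nat.lt_or_ge k 27264 with h4 | h4
  · exact gadP_of_all2 Gad26.c4 (lo := 27136) (hi := 27264) rfl rfl k h3 h4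
  rcases Nat.lt_or_ge k 27392 with h5 | h5
  · exact gadP_of_all2 Gad26.c5 (lo := 27264) (hi := 27392) rfl rfl k h4 h5
  rcases Nat.lt_or_ge k 27520 with h6 | h6
  · exact gadP_of_all2 Gad26.c6 (lo := 27392) (hi := 27520) rfl rfl k h5 h6
  exact gadP_of_all2 Gad26.c7 (lo := 27520) (hi := 27648) rfl rfl k h6 hk

theorem gadP_27 (k : ℕ) (hl : 27648 ≤ k) (hk : k < 28672) : GadP k := by
  rcases Nat.lt_or_ge k 27776 with h0 | h0
  · exact gadP_of_all2 Gad27.c0 (lo := 27648) (hi := 27776) rfl rfl k hl h0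
  rcases Nat.lt_or_ge k 27904 with h1 | h1
  · exact gadP_of_all2 Gad27.c1 (lo := 27776) (hi := 27904) rfl rfl k h0 h1
  rcases Nat.lt_or_ge k 28032 with h2 | h2
  · exact gadP_of_all2 Gad27.c2 (lo := 27904) (hi := 28032) rfl rfl k h1 h2
  rcases Nat.lt_or_ge k 28160 with h3 | h3
  · exact gadP_of_all2 Gad27.c3 (lo := 28032) (hi := 28160) rfl rfl k h2 h3
  rcases Nat.lt_or_ge k 28288 with h4 | h4
  · exact gadP_of_all2 Gad27.c4 (lo := 28160) (hi := 28288) rfl rfl k h3 h4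
  rcases Nat.lt_or_ge k 28416 with h5 | h5
  · exact gadP_of_all2 Gad27.c5 (lo := 28288) (hi := 28416) rfl rfl k h4 h5
  rcases Nat.lt_or_ge k 28544 with h6 | h6
  · exact gadP_of_all2 Gad27.c6 (lo := 28416) (hi := 28544) rfl rfl k h5 h6
  exact gadP_of_all2 Gad27.c7 (lo := 28544) (hi := 28672) rfl rfl k h6 hk

theorem gadP_28 (k : ℕ) (hl : 28672 ≤ k) (hk : k < 29696) : GadP k := by
  rcases Nat.lt_or_ge k 28800 with h0 | h0
  · exact gadP_of_all2 Gad28.c0 (lo := 28672) (hi := 28800) rfl rfl k hl h0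
  rcases Nat.lt_or_ge k 28928 with h1 | h1
  · exact gadP_of_all2 Gad28.c1 (lo := 28800) (hi := 28928) rfl rfl k h0 h1
  rcases Nat.lt_or_ge k 29056 with h2 | h2
  · exact gadP_of_all2 Gad28.c2 (lo := 28928) (hi := 29056) rfl rfl k h1 h2
  rcases Nat.lt_or_ge k 29184 with h3 | h3
  · exact gadP_of_all2 Gad28.c3 (lo := 29056) (hi := 29184) rfl rfl k h2 h3
  rcases Nat.lt_or_ge k 29312 with h4 | h4
  · exact gadP_of_all2 Gad28.c4 (lo := 29184) (hi := 29312) rfl rfl k h3 h4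
  rcases Nat.lt_or_ge k 29440 with h5 | h5
  · exact gadP_of_all2 Gad28.c5 (lo := 29312) (hi := 29440) rfl rfl k h4 h5
  rcases Nat.lt_or_ge k 29568 with h6 | h6
  · exact gadP_of_all2 Gad28.c6 (lo := 29440) (hi := 29568) rfl rfl k h5 h6
  exact gadP_of_all2 Gad28.c7 (lo := 29568) (hi := 29696) rfl rfl k h6 hk

theorem gadP_29 (k : ℕ) (hl : 29696 ≤ k) (hk : k < 30720) : GadP k := by
  rcases Nat.lt_or_ge k 29824 with h0 | h0
  · exact gadP_of_all2 Gad29.c0 (lo := 29696) (hi := 29824) rfl rfl k hl h0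
  rcases Nat.lt_or_ge k 29952 with h1 | h1
  · exact gadP_of_all2 Gad29.c1 (lo := 29824) (hi := 29952) rfl rfl k h0 h1
  rcases Nat.lt_or_ge k 30080 with h2 | h2
  · exact gadP_of_all2 Gad29.c2 (lo := 29952) (hi := 30080) rfl rfl k h1 h2
  rcases Nat.lt_or_ge k 30208 with h3 | h3
  · exact gadP_of_all2 Gad29.c3 (lo := 30080) (hi := 30208) rfl rfl k h2 h3
  rcases Nat.lt_or_ge k 30336 with h4 | h4
  · exact gadP_of_all2 Gad29.c4 (lo := 30208) (hi := 30336) rfl rfl k h3 h4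
  rcases Nat.lt_or_ge k 30464 with h5 | h5
  · exact gadP_of_all2 Gad29.c5 (lo := 30336) (hi := 30464) rfl rfl k h4 h5
  rcases Nat.lt_or_ge k 30592 with h6 | h6
  · exact gadP_of_all2 Gad29.c6 (lo := 30464) (hi := 30592) rfl rfl k h5 h6
  exact gadP_of_all2 Gad29.c7 (lo := 30592) (hi := 30720) rfl rfl k h6 hk

theorem gadP_30 (k : ℕ) (hl : 30720 ≤ k) (hk : k < 31744) : GadP k := by
  rcases Nat.lt_or_ge k 30848 with h0 | h0
  · exact gadP_of_all2 Gad30.c0 (lo := 30720) (hi := 30848) rfl rfl k hl h0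
  rcases Nat.lt_or_ge k 30976 with h1 | h1
  · exact gadP_of_all2 Gad30.c1 (lo := 30848) (hi := 30976) rfl rfl k h0 h1
  rcases Nat.lt_or_ge k 31104 with h2 | h2
  · exact gadP_of_all2 Gad30.c2 (lo := 30976) (hi := 31104) rfl rfl k h1 h2
  rcases Nat.lt_or_ge k 31232 with h3 | h3
  · exact gadP_of_all2 Gad30.c3 (lo := 31104) (hi := 31232) rfl rfl k h2 h3
  rcases Nat.lt_or_ge k 31360 with h4 | h4
  · exact gadP_of_all2 Gad30.c4 (lo := 31232) (hi := 31360) rfl rfl k h3 h4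
  rcases Nat.lt_or_ge k 31488 with h5 | h5
  · exact gadP_of_all2 Gad30.c5 (lo := 31360) (hi := 31488) rfl rfl k h4 h5
  rcases Nat.lt_or_ge k 31616 with h6 | h6
  · exact gadP_of_all2 Gad30.c6 (lo := 31488) (hi := 31616) rfl rfl k h5 h6
  exact gadP_of_all2 Gad30.c7 (lo := 31616) (hi := 31744) rfl rfl k h6 hk

theorem gadP_31 (k : ℕ) (hl : 31744 ≤ k) (hk : k < 32768) : GadP k := by
  rcases Nat.lt_or_ge k 31872 with h0 | h0
  · exact gadP_of_all2 Gad31.c0 (lo := 31744) (hi := 31872) rfl rfl k hl h0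
  rcases Nat.lt_or_ge k 32000 with h1 | h1
  · exact gadP_of_all2 Gad31.c1 (lo := 31872) (hi := 32000) rfl rfl k h0 h1
  rcases Nat.lt_or_ge k 32128 with h2 | h2
  · exact gadP_of_all2 Gad31.c2 (lo := 32000) (hi := 32128) rfl rfl k h1 h2
  rcases Nat.lt_or_ge k 32256 with h3 | h3
  · exact gadP_of_all2 Gad31.c3 (lo := 32128) (hi := 32256) rfl rfl k h2 h3
  rcases Nat.lt_or_ge k 32384 with h4 | h4
  · exact gadP_of_all2 Gad31.c4 (lo := 32256) (hi := 32384) rfl rfl k h3 h4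
  rcases Nat.lt_or_ge k 32512 with h5 | h5
  · exact gadP_of_all2 Gad31.c5 (lo := 32384) (hi := 32512) rfl rfl k h4 h5
  rcases Nat.lt_or_ge k 32640 with h6 | h6
  · exact gadP_of_all2 Gad31.c6 (lo := 32512) (hi := 32640) rfl rfl k h5 h6
  exact gadP_of_all2 Gad31.c7 (lo := 32640) (hi := 32768) rfl rfl k h6 hk

theorem gadP_32 (k : ℕ) (hl : 32768 ≤ k) (hk : k < 33792) : GadP k := by
  rcases Nat.lt_or_ge k 32896 with h0 | h0
  · exact gadP_of_all2 Gad32.c0 (lo := 32768) (hi := 32896) rfl rfl k hl h0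
  rcases Nat.lt_or_ge k 33024 with h1 | h1
  · exact gadP_of_all2 Gad32.c1 (lo := 32896) (hi := 33024) rfl rfl k h0 h1
  rcases Nat.lt_or_ge k 33152 with h2 | h2
  · exact gadP_of_all2 Gad32.c2 (lo := 33024) (hi := 33152) rfl rfl k h1 h2
  rcases Nat.lt_or_ge k 33280 with h3 | h3
  · exact gadP_of_all2 Gad32.c3 (lo := 33152) (hi := 33280) rfl rfl k h2 h3
  rcases Nat.lt_or_ge k 33408 with h4 | h4
  · exact gadP_of_all2 Gad32.c4 (lo := 33280) (hi := 33408) rfl rfl k h3 h4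
  rcases Nat.lt_or_ge k 33536 with h5 | h5
  · exact gadP_of_all2 Gad32.c5 (lo := 33408) (hi := 33536) rfl rfl k h4 h5
  rcases Nat.lt_or_ge k 33664 with h6 | h6
  · exact gadP_of_all2 Gad32.c6 (lo := 33536) (hi := 33664) rfl rfl k h5 h6
  exact gadP_of_all2 Gad32.c7 (lo := 33664) (hi := 33792) rfl rfl k h6 hk

theorem gadP_33 (k : ℕ) (hl : 33792 ≤ k) (hk : k < 34816) : GadP k := by
  rcases Nat.lt_or_ge k 33920 with h0 | h0
  · exact gadP_of_all2 Gad33.c0 (lo := 33792) (hi := 33920) rfl rfl k hl h0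
  rcases Nat.lt_or_ge k 34048 with h1 | h1
  · exact gadP_of_all2 Gad33.c1 (lo := 33920) (hi := 34048) rfl rfl k h0 h1
  rcases Nat.lt_or_ge k 34176 with h2 | h2
  · exact gadP_of_all2 Gad33.c2 (lo := 34048) (hi := 34176) rfl rfl k h1 h2
  rcases Nat.lt_or_ge k 34304 with h3 | h3
  · exact gadP_of_all2 Gad33.c3 (lo := 34176) (hi := 34304) rfl rfl k h2 h3
  rcases Nat.lt_or_ge k 34432 with h4 | h4
  · exact gadP_of_all2 Gad33.c4 (lo := 34304) (hi := 34432) rfl rfl k h3 h4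
  rcases Nat.lt_or_ge k 34560 with h5 | h5
  · exact gadP_of_all2 Gad33.c5 (lo := 34432) (hi := 34560) rfl rfl k h4 h5
  rcases Nat.lt_or_ge k 34688 with h6 | h6
  · exact gadP_of_all2 Gad33.c6 (lo := 34560) (hi := 34688) rfl rfl k h5 h6
  exact gadP_of_all2 Gad33.c7 (lo := 34688) (hi := 34816) rfl rfl k h6 hk

theorem gadP_34 (k : ℕ) (hl : 34816 ≤ k) (hk : k < 35840) : GadP k := by
  rcases Nat.lt_or_ge k 34944 with h0 | h0
  · exact gadP_of_all2 Gad34.c0 (lo := 34816) (hi := 34944) rfl rfl k hl h0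
  rcases Nat.lt_or_ge k 35072 with h1 | h1
  · exact gadP_of_all2 Gad34.c1 (lo := 34944) (hi := 35072) rfl rfl k h0 h1
  rcases Nat.lt_or_ge k 35200 with h2 | h2
  · exact gadP_of_all2 Gad34.c2 (lo := 35072) (hi := 35200) rfl rfl k h1 h2
  rcases Nat.lt_or_ge k 35328 with h3 | h3
  · exact gadP_of_all2 Gad34.c3 (lo := 35200) (hi := 35328) rfl rfl k h2 h3
  rcases Nat.lt_or_ge k 35456 with h4 | h4
  · exact gadP_of_all2 Gad34.c4 (lo := 35328) (hi := 35456) rfl rfl k h3 h4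
  rcases Nat.lt_or_ge k 35584 with h5 | h5
  · exact gadP_of_all2 Gad34.c5 (lo := 35456) (hi := 35584) rfl rfl k h4 h5
  rcases Nat.lt_or_ge k 35712 with h6 | h6
  · exact gadP_of_all2 Gad34.c6 (lo := 35584) (hi := 35712) rfl rfl k h5 h6
  exact gadP_of_all2 Gad34.c7 (lo := 35712) (hi := 35840) rfl rfl k h6 hk

theorem gadP_35 (k : ℕ) (hl : 35840 ≤ k) (hk : k < 36864) : GadP k := by
  rcases Nat.lt_or_ge k 35968 with h0 | h0
  · exact gadP_of_all2 Gad35.c0 (lo := 35840) (hi := 35968) rfl rfl k hl h0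
  rcases Nat.lt_or_ge k 36096 with h1 | h1
  · exact gadP_of_all2 Gad35.c1 (lo := 35968) (hi := 36096) rfl rfl k h0 h1
  rcases Nat.lt_or_ge k 36224 with h2 | h2
  · exact gadP_of_all2 Gad35.c2 (lo := 36096) (hi := 36224) rfl rfl k h1 h2
  rcases Nat.lt_or_ge k 36352 with h3 | h3
  · exact gadP_of_all2 Gad35.c3 (lo := 36224) (hi := 36352) rfl rfl k h2 h3
  rcases Nat.lt_or_ge k 36480 with h4 | h4
  · exact gadP_of_all2 Gad35.c4 (lo := 36352) (hi := 36480) rfl rfl k h3 h4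
  rcases Nat.lt_or_ge k 36608 with h5 | h5
  · exact gadP_of_all2 Gad35.c5 (lo := 36480) (hi := 36608) rfl rfl k h4 h5
  rcases Nat.lt_or_ge k 36736 with h6 | h6
  · exact gadP_of_all2 Gad35.c6 (lo := 36608) (hi := 36736) rfl rfl k h5 h6
  exact gadP_of_all2 Gad35.c7 (lo := 36736) (hi := 36864) rfl rfl k h6 hk

theorem gadP_36 (k : ℕ) (hl : 36864 ≤ k) (hk : k < 37888) : GadP k := by
  rcases Nat.lt_or_ge k 36992 with h0 | h0
  · exact gadP_of_all2 Gad36.c0 (lo := 36864) (hi := 36992) rfl rfl k hl h0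
  rcases Nat.lt_or_ge k 37120 with h1 | h1
  · exact gadP_of_all2 Gad36.c1 (lo := 36992) (hi := 37120) rfl rfl k h0 h1
  rcases Nat.lt_or_ge k 37248 with h2 | h2
  · exact gadP_of_all2 Gad36.c2 (lo := 37120) (hi := 37248) rfl rfl k h1 h2
  rcases Nat.lt_or_ge k 37376 with h3 | h3
  · exact gadP_of_all2 Gad36.c3 (lo := 37248) (hi := 37376) rfl rfl k h2 h3
  rcases Nat.lt_or_ge k 37504 with h4 | h4
  · exact gadP_of_all2 Gad36.c4 (lo := 37376) (hi := 37504) rfl rfl k h3 h4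
  rcases Nat.lt_or_ge k 37632 with h5 | h5
  · exact gadP_of_all2 Gad36.c5 (lo := 37504) (hi := 37632) rfl rfl k h4 h5
  rcases Nat.lt_or_ge k 37760 with h6 | h6
  · exact gadP_of_all2 Gad36.c6 (lo := 37632) (hi := 37760) rfl rfl k h5 h6
  exact gadP_of_all2 Gad36.c7 (lo := 37760) (hi := 37888) rfl rfl k h6 hk

theorem gadP_37 (k : ℕ) (hl : 37888 ≤ k) (hk : k < 38677) : GadP k := by
  rcases Nat.lt_or_ge k 38016 with h0 | h0
  · exact gadP_of_all2 Gad37.c0 (lo := 37888) (hi := 38016) rfl rfl k hl h0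
  rcases Nat.lt_or_ge k 38144 with h1 | h1
  · exact gadP_of_all2 Gad37.c1 (lo := 38016) (hi := 38144) rfl rfl k h0 h1
  rcases Nat.lt_or_ge k 38272 with h2 | h2
  · exact gadP_of_all2 Gad37.c2 (lo := 38144) (hi := 38272) rfl rfl k h1 h2
  rcases Nat.lt_or_ge k 38400 with h3 | h3
  · exact gadP_of_all2 Gad37.c3 (lo := 38272) (hi := 38400) rfl rfl k h2 h3
  rcases Nat.lt_or_ge k 38528 with h4 | h4
  · exact gadP_of_all2 Gad37.c4 (lo := 38400) (hi := 38528) rfl rfl k h3 h4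
  rcases Nat.lt_or_ge k 38656 with h5 | h5
  · exact gadP_of_all2 Gad37.c5 (lo := 38528) (hi := 38656) rfl rfl k h4 h5
  rcases Nat.lt_or_ge k 38672 with h6 | h6
  · exact gadP_of_all2 Gad37.c6 (lo := 38656) (hi := 38672) rfl rfl k h5 h6
  rcases Nat.lt_or_ge k 38676 with h7 | h7
  · exact gadP_of_all2 Gad37.c7 (lo := 38672) (hi := 38676) rfl rfl k h6 h7
  exact gadP_of_all2 Gad37.c8 (lo := 38676) (hi := 38677) rfl rfl k h7 hk

theorem gadP_all (k : ℕ) (hk : k < 38677) : GadP k := by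
  rcases Nat.lt_or_ge k 1024 with h0 | h0
  · exact gadP_0 k (Nat.zero_le k) h0
  rcases Nat.lt_or_ge k 2048 with h1 | h1
  · exact gadP_1 k h0 h1
  rcases Nat.lt_or_ge k 3072 with h2 | h2
  · exact gadP_2 k h1 h2
  rcases Nat.lt_or_ge k 4096 with h3 | h3
  · exact gadP_3 k h2 h3
  rcases Nat.lt_or_ge k 5120 with h4 | h4
  · exact gadP_4 k h3 h4
  rcases Nat.lt_or_ge k 6144 with h5 | h5
  · exact gadP_5 k h4 h5
  rcases Nat.lt_or_ge k 7168 with h6 | h6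
  · exact gadP_6 k h5 h6
  rcases Nat.lt_or_ge k 8192 with h7 | h7
  · exact gadP_7 k h6 h7
  rcases Nat.lt_or_ge k 9216 with h8 | h8
  · exact gadP_8 k h7 h8
  rcases Nat.lt_or_ge k 10240 with h9 | h9
  · exact gadP_9 k h8 h9
  rcases Nat.lt_or_ge k 11264 with h10 | h10
  · exact gadP_10 k h9 h10
  rcases Nat.lt_or_ge k 12288 with h11 | h11
  · exact gadP_11 k h10 h11
  rcases Nat.lt_or_ge k 13312 with h12 | h12
  · exact gadP_12 k h11 h12
  rcases Nat.lt_or_ge k 14336 with h13 | h13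
  · exact gadP_13 k h12 h13
  rcases Nat.lt_or_ge k 15360 with h14 | h14
  · exact gadP_14 k h13 h14
  rcases Nat.lt_or_ge k 16384 with h15 | h15
  · exact gadP_15 k h14 h15
  rcases Nat.lt_or_ge k 17408 with h16 | h16
  · exact gadP_16 k h15 h16
  rcases Nat.lt_or_ge k 18432 with h17 | h17
  · exact gadP_17 k h16 h17
  rcases Nat.lt_or_ge k 19456 with h18 | h18
  · exact gadP_18 k h17 h18
  rcases Nat.lt_or_ge k 20480 with h19 | h19
  · exact gadP_19 k h18 h19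
  rcases Nat.lt_or_ge k 21504 with h20 | h20
  · exact gadP_20 k h19 h20
  rcases Nat.lt_or_ge k 22528 with h21 | h21
  · exact gadP_21 k h20 h21
  rcases Nat.lt_or_ge k 23552 with h22 | h22
  · exact gadP_22 k h21 h22
  rcases Nat.lt_or_ge k 24576 with h23 | h23
  · exact gadP_23 k h22 h23
  rcases Nat.lt_or_ge k 25600 with h24 | h24
  · exact gadP_24 k h23 h24
  rcases Nat.lt_or_ge k 26624 with h25 | h25
  · exact gadP_25 k h24 h25
  rcases Nat.lt_or_ge k 27648 with h26 | h26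
  · exact gadP_26 k h25 h26
  rcases Nat.lt_or_ge k 28672 with h27 | h27
  · exact gadP_27 k h26 h27
  rcases Nat.lt_or_ge k 29696 with h28 | h28
  · exact gadP_28 k h27 h28
  rcases Nat.lt_or_ge k 30720 with h29 | h29
  · exact gadP_29 k h28 h29
  rcases Nat.lt_or_ge k 31744 with h30 | h30
  · exact gadP_30 k h29 h30
  rcases Nat.lt_or_ge k 32768 with h31 | h31
  · exact gadP_31 k h30 h31
  rcases Nat.lt_or_ge k 33792 with h32 | h32
  · exact gadP_32 k h31 h32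
  rcases Nat.lt_or_ge k 34816 with h33 | h33
  · exact gadP_33 k h32 h33
  rcases Nat.lt_or_ge k 35840 with h34 | h34
  · exact gadP_34 k h33 h34
  rcases Nat.lt_or_ge k 36864 with h35 | h35
  · exact gadP_35 k h34 h35
  rcases Nat.lt_or_ge k 37888 with h36 | h36
  · exact gadP_36 k h35 h36
  exact gadP_37 k h36 hk

theorem gad_bw (k : ℕ) (hk : k < NG) : Bw (gfam AL (RI k) (LI k)) :=
  gad_all AL RI LI (RR RI) (LL LI) incA NG incA_sound
    (fun j hb => RR_ok RI_lt LI_lt j hb) (fun k hk => gadP_all k hk) k hk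

theorem FULL_ok : ∀ l, l < 109 → l ∈ mset FULL := by
  intro l hl
  have : FULL = 2 ^ 109 - 1 := by norm_num [FULL]
  rw [this, mem_mset, Nat.testBit_two_pow_sub_one]
  simpa using hl

theorem hitOK_sound {B hit : ℕ} (h : hitOK B hit = true) :
    ∀ l ∈ mset hit, ∃ b ∈ mset B, b ∈ mset (LMf l) := by
  unfold hitOK at h
  rw [band_iff, allUp_iff] at h
  intro l hl
  have hl128 : l < 128 := lt_of_testBit (lt_of_shiftRight h.1) hl
  have h1 := h.2 l hl128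
  have h2 : tb hit l = true := by rw [tb_eq]; exact hl
  rw [h2] at h1
  have h3 : Nat.land (LMf l) B ≠ 0 := by
    have := ble_iff.1 h1
    omega
  obtain ⟨b, hb⟩ := Nat.exists_testBit_of_ne_zero h3
  have := mem_land.1 (show b ∈ mset (Nat.land (LMf l) B) from hb)
  exact ⟨b, this.2, this.1⟩

end Pool.Agent.MP_c0c4a4_co.N5
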