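import Mathlib
import Pool.Agent.MP_c0c4a4_co.N5.GadAll
import Pool.Agent.MP_c0c4a4_co.N5.Slots
import Pool.Agent.MP_c0c4a4_co.N5.Slt0
import Pool.Agent.MP_c0c4a4_co.N5.Slt1
import Pool.Agent.MP_c0c4a4_co.N5.Slt2
import Pool.Agent.MP_c0c4a4_co.N5.Slt3
import Pool.Agent.MP_c0c4a4_co.N5.Slt4
import Pool.Agent.MP_c0c4a4_co.N5.Slt5
import Pool.Agent.MP_c0c4a4_co.N5.Slt6
import Pool.Agent.MP_c0c4a4_co.N5.Slt7

/-!
All slots are won by Breaker; soundness of the plans.
-/

set_option autoImplicit false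

namespace Pool.Agent.MP_c0c4a4_co.N5

theorem SR_lt (k : ℕ) : SR k < 2 ^ 25 := lt_of_le_of_lt Nat.and_le_right (by norm_num)

theorem SH_lt (k : ℕ) : SH k < 2 ^ 25 := lt_of_le_of_lt Nat.and_le_right (by norm_num)

theorem SA_lt (k : ℕ) : SA k < 2 ^ 12 := lt_of_le_of_lt Nat.and_le_right (by norm_num)

theorem SA_zero (k : ℕ) (hk : NS ≤ k) : SA k = 0 := by
  have ht := lt_of_shiftRight ST_chk
  unfold SA
  have : Nat.shiftRight ST (Nat.add (Nat.mul 64 k) 50) = 0 := by
    change ST >>> (64 * k + 50) = 0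
    rw [Nat.shiftRight_eq_div_pow]
    apply Nat.div_eq_of_lt
    refine lt_of_lt_of_le ht (Nat.pow_le_pow_right (by norm_num) ?_)
    change 64 * NS ≤ 64 * k + 50
    omega
  rw [this]
  exact Nat.zero_and _

theorem hRR (j : ℕ) (hj : Nat.shiftRight j 5 < NG) : Bw (gfam AL (RR RI j) (LL LI j)) :=
  RR_ok RI_lt LI_lt j (gad_bw _ hj)

theorem slot_of_all2 {DAT OFF b d i : ℕ} (h : all2 (schk DAT OFF b) d i = true) {lo hi : ℕ}
    (hlo : lo = 2 ^ d * i) (hhi : hi = 2 ^ d * i + 2 ^ d) :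
    ∀ k, lo ≤ k → k < hi → SlotG AL (SR k) (SH k) (SA k) := by
  intro k h1 h2
  have := all2_iff h (k - 2 ^ d * i) (by omega)
  rw [Nat.add_sub_cancel' (by omega)] at this
  unfold schk at this
  rw [frc_eq, frc_eq] at this
  exact slotOK_sound AL _ _ NG _ _ _ _ hRR this

theorem slot_all (k : ℕ) : SlotG AL (SR k) (SH k) (SA k) := by
  rcases Nat.lt_or_ge k 128 with h0 | h0
  · exact slot_of_all2 Slt0.c0 (lo := 0) (hi := 128) rfl rfl k (Nat.zero_le k) h0
  rcases Nat.lt_or_ge k 256 with h1 | h1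
  · exact slot_of_all2 Slt0.c1 (lo := 128) (hi := 256) rfl rfl k h0 h1
  rcases Nat.lt_or_ge k 384 with h2 | h2
  · exact slot_of_all2 Slt0.c2 (lo := 256) (hi := 384) rfl rfl k h1 h2
  rcases Nat.lt_or_ge k 512 with h3 | h3
  · exact slot_of_all2 Slt0.c3 (lo := 384) (hi := 512) rfl rfl k h2 h3
  rcases Nat.lt_or_ge k 640 with h4 | h4
  · exact slot_of_all2 Slt0.c4 (lo := 512) (hi := 640) rfl rfl k h3 h4
  rcases Nat.lt_or_ge k 768 with h5 | h5
  · exact slot_of_all2 Slt0.c5 (lo := 640) (hi := 768) rfl rfl k h4 h5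
  rcases Nat.lt_or_ge k 896 with h6 | h6
  · exact slot_of_all2 Slt0.c6 (lo := 768) (hi := 896) rfl rfl k h5 h6
  rcases Nat.lt_or_ge k 1024 with h7 | h7
  · exact slot_of_all2 Slt0.c7 (lo := 896) (hi := 1024) rfl rfl k h6 h7
  rcases Nat.lt_or_ge k 1152 with h8 | h8
  · exact slot_of_all2 Slt0.c8 (lo := 1024) (hi := 1152) rfl rfl k h7 h8
  rcases Nat.lt_or_ge k 1280 with h9 | h9
  · exact slot_of_all2 Slt0.c9 (lo := 1152) (hi := 1280) rfl rfl k h8 h9
  rcases Nat.lt_or_ge k 1408 with h10 | h10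
  · exact slot_of_all2 Slt0.c10 (lo := 1280) (hi := 1408) rfl rfl k h9 h10
  rcases Nat.lt_or_ge k 1472 with h11 | h11
  · exact slot_of_all2 Slt0.c11 (lo := 1408) (hi := 1472) rfl rfl k h10 h11
  rcases Nat.lt_or_ge k 1488 with h12 | h12
  · exact slot_of_all2 Slt0.c12 (lo := 1472) (hi := 1488) rfl rfl k h11 h12
  rcases Nat.lt_or_ge k 1496 with h13 | h13
  · exact slot_of_all2 Slt0.c13 (lo := 1488) (hi := 1496) rfl rfl k h12 h13
  rcases Nat.lt_or_ge k 1500 with h14 | h14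
  · exact slot_of_all2 Slt0.c14 (lo := 1496) (hi := 1500) rfl rfl k h13 h14
  rcases Nat.lt_or_ge k 1504 with h15 | h15
  · exact slot_of_all2 Slt1.c0 (lo := 1500) (hi := 1504) rfl rfl k h14 h15
  rcases Nat.lt_or_ge k 1536 with h16 | h16
  · exact slot_of_all2 Slt1.c1 (lo := 1504) (hi := 1536) rfl rfl k h15 h16
  rcases Nat.lt_or_ge k 1664 with h17 | h17
  · exact slot_of_all2 Slt1.c2 (lo := 1536) (hi := 1664) rfl rfl k h16 h17
  rcases Nat.lt_or_ge k 1792 with h18 | h18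
  · exact slot_of_all2 Slt1.c3 (lo := 1664) (hi := 1792) rfl rfl k h17 h18
  rcases Nat.lt_or_ge k 1920 with h19 | h19
  · exact slot_of_all2 Slt1.c4 (lo := 1792) (hi := 1920) rfl rfl k h18 h19
  rcases Nat.lt_or_ge k 2048 with h20 | h20
  · exact slot_of_all2 Slt1.c5 (lo := 1920) (hi := 2048) rfl rfl k h19 h20
  rcases Nat.lt_or_ge k 2176 with h21 | h21
  · exact slot_of_all2 Slt1.c6 (lo := 2048) (hi := 2176) rfl rfl k h20 h21
  rcases Nat.lt_or_ge k 2304 with h22 | h22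
  · exact slot_of_all2 Slt1.c7 (lo := 2176) (hi := 2304) rfl rfl k h21 h22
  rcases Nat.lt_or_ge k 2432 with h23 | h23
  · exact slot_of_all2 Slt1.c8 (lo := 2304) (hi := 2432) rfl rfl k h22 h23
  rcases Nat.lt_or_ge k 2560 with h24 | h24
  · exact slot_of_all2 Slt1.c9 (lo := 2432) (hi := 2560) rfl rfl k h23 h24
  rcases Nat.lt_or_ge k 2688 with h25 | h25
  · exact slot_of_all2 Slt1.c10 (lo := 2560) (hi := 2688) rfl rfl k h24 h25
  rcases Nat.lt_or_ge k 2816 with h26 | h26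
  · exact slot_of_all2 Slt1.c11 (lo := 2688) (hi := 2816) rfl rfl k h25 h26
  rcases Nat.lt_or_ge k 2944 with h27 | h27
  · exact slot_of_all2 Slt1.c12 (lo := 2816) (hi := 2944) rfl rfl k h26 h27
  rcases Nat.lt_or_ge k 2976 with h28 | h28
  · exact slot_of_all2 Slt1.c13 (lo := 2944) (hi := 2976) rfl rfl k h27 h28
  rcases Nat.lt_or_ge k 2992 with h29 | h29
  · exact slot_of_all2 Slt1.c14 (lo := 2976) (hi := 2992) rfl rfl k h28 h29
  rcases Nat.lt_or_ge k 3000 with h30 | h30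
  · exact slot_of_all2 Slt1.c15 (lo := 2992) (hi := 3000) rfl rfl k h29 h30
  rcases Nat.lt_or_ge k 3008 with h31 | h31
  · exact slot_of_all2 Slt2.c0 (lo := 3000) (hi := 3008) rfl rfl k h30 h31
  rcases Nat.lt_or_ge k 3072 with h32 | h32
  · exact slot_of_all2 Slt2.c1 (lo := 3008) (hi := 3072) rfl rfl k h31 h32
  rcases Nat.lt_or_ge k 3200 with h33 | h33
  · exact slot_of_all2 Slt2.c2 (lo := 3072) (hi := 3200) rfl rfl k h32 h33
  rcases Nat.lt_or_ge k 3328 with h34 | h34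
  · exact slot_of_all2 Slt2.c3 (lo := 3200) (hi := 3328) rfl rfl k h33 h34
  rcases Nat.lt_or_ge k 3456 with h35 | h35
  · exact slot_of_all2 Slt2.c4 (lo := 3328) (hi := 3456) rfl rfl k h34 h35
  rcases Nat.lt_or_ge k 3584 with h36 | h36
  · exact slot_of_all2 Slt2.c5 (lo := 3456) (hi := 3584) rfl rfl k h35 h36
  rcases Nat.lt_or_ge k 3712 with h37 | h37
  · exact slot_of_all2 Slt2.c6 (lo := 3584) (hi := 3712) rfl rfl k h36 h37
  rcases Nat.lt_or_ge k 3840 with h38 | h38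
  · exact slot_of_all2 Slt2.c7 (lo := 3712) (hi := 3840) rfl rfl k h37 h38
  rcases Nat.lt_or_ge k 3968 with h39 | h39
  · exact slot_of_all2 Slt2.c8 (lo := 3840) (hi := 3968) rfl rfl k h38 h39
  rcases Nat.lt_or_ge k 4096 with h40 | h40
  · exact slot_of_all2 Slt2.c9 (lo := 3968) (hi := 4096) rfl rfl k h39 h40
  rcases Nat.lt_or_ge k 4224 with h41 | h41
  · exact slot_of_all2 Slt2.c10 (lo := 4096) (hi := 4224) rfl rfl k h40 h41
  rcases Nat.lt_or_ge k 4352 with h42 | h42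
  · exact slot_of_all2 Slt2.c11 (lo := 4224) (hi := 4352) rfl rfl k h41 h42
  rcases Nat.lt_or_ge k 4480 with h43 | h43
  · exact slot_of_all2 Slt2.c12 (lo := 4352) (hi := 4480) rfl rfl k h42 h43
  rcases Nat.lt_or_ge k 4496 with h44 | h44
  · exact slot_of_all2 Slt2.c13 (lo := 4480) (hi := 4496) rfl rfl k h43 h44
  rcases Nat.lt_or_ge k 4500 with h45 | h45
  · exact slot_of_all2 Slt2.c14 (lo := 4496) (hi := 4500) rfl rfl k h44 h45
  rcases Nat.lt_or_ge k 4504 with h46 | h46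
  · exact slot_of_all2 Slt3.c0 (lo := 4500) (hi := 4504) rfl rfl k h45 h46
  rcases Nat.lt_or_ge k 4512 with h47 | h47
  · exact slot_of_all2 Slt3.c1 (lo := 4504) (hi := 4512) rfl rfl k h46 h47
  rcases Nat.lt_or_ge k 4544 with h48 | h48
  · exact slot_of_all2 Slt3.c2 (lo := 4512) (hi := 4544) rfl rfl k h47 h48
  rcases Nat.lt_or_ge k 4608 with h49 | h49
  · exact slot_of_all2 Slt3.c3 (lo := 4544) (hi := 4608) rfl rfl k h48 h49
  rcases Nat.lt_or_ge k 4736 with h50 | h50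
  · exact slot_of_all2 Slt3.c4 (lo := 4608) (hi := 4736) rfl rfl k h49 h50
  rcases Nat.lt_or_ge k 4864 with h51 | h51
  · exact slot_of_all2 Slt3.c5 (lo := 4736) (hi := 4864) rfl rfl k h50 h51
  rcases Nat.lt_or_ge k 4992 with h52 | h52
  · exact slot_of_all2 Slt3.c6 (lo := 4864) (hi := 4992) rfl rfl k h51 h52
  rcases Nat.lt_or_ge k 5120 with h53 | h53
  · exact slot_of_all2 Slt3.c7 (lo := 4992) (hi := 5120) rfl rfl k h52 h53
  rcases Nat.lt_or_ge k 5248 with h54 | h54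
  · exact slot_of_all2 Slt3.c8 (lo := 5120) (hi := 5248) rfl rfl k h53 h54
  rcases Nat.lt_or_ge k 5376 with h55 | h55
  · exact slot_of_all2 Slt3.c9 (lo := 5248) (hi := 5376) rfl rfl k h54 h55
  rcases Nat.lt_or_ge k 5504 with h56 | h56
  · exact slot_of_all2 Slt3.c10 (lo := 5376) (hi := 5504) rfl rfl k h55 h56
  rcases Nat.lt_or_ge k 5632 with h57 | h57
  · exact slot_of_all2 Slt3.c11 (lo := 5504) (hi := 5632) rfl rfl k h56 h57
  rcases Nat.lt_or_ge k 5760 with h58 | h58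
  · exact slot_of_all2 Slt3.c12 (lo := 5632) (hi := 5760) rfl rfl k h57 h58
  rcases Nat.lt_or_ge k 5888 with h59 | h59
  · exact slot_of_all2 Slt3.c13 (lo := 5760) (hi := 5888) rfl rfl k h58 h59
  rcases Nat.lt_or_ge k 5952 with h60 | h60
  · exact slot_of_all2 Slt3.c14 (lo := 5888) (hi := 5952) rfl rfl k h59 h60
  rcases Nat.lt_or_ge k 5984 with h61 | h61
  · exact slot_of_all2 Slt3.c15 (lo := 5952) (hi := 5984) rfl rfl k h60 h61
  rcases Nat.lt_or_ge k 6000 with h62 | h62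
  · exact slot_of_all2 Slt3.c16 (lo := 5984) (hi := 6000) rfl rfl k h61 h62
  rcases Nat.lt_or_ge k 6016 with h63 | h63
  · exact slot_of_all2 Slt4.c0 (lo := 6000) (hi := 6016) rfl rfl k h62 h63
  rcases Nat.lt_or_ge k 6144 with h64 | h64
  · exact slot_of_all2 Slt4.c1 (lo := 6016) (hi := 6144) rfl rfl k h63 h64
  rcases Nat.lt_or_ge k 6272 with h65 | h65
  · exact slot_of_all2 Slt4.c2 (lo := 6144) (hi := 6272) rfl rfl k h64 h65
  rcases Nat.lt_or_ge k 6400 with h66 | h66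
  · exact slot_of_all2 Slt4.c3 (lo := 6272) (hi := 6400) rfl rfl k h65 h66
  rcases Nat.lt_or_ge k 6528 with h67 | h67
  · exact slot_of_all2 Slt4.c4 (lo := 6400) (hi := 6528) rfl rfl k h66 h67
  rcases Nat.lt_or_ge k 6656 with h68 | h68
  · exact slot_of_all2 Slt4.c5 (lo := 6528) (hi := 6656) rfl rfl k h67 h68
  rcases Nat.lt_or_ge k 6784 with h69 | h69
  · exact slot_of_all2 Slt4.c6 (lo := 6656) (hi := 6784) rfl rfl k h68 h69
  rcases Nat.lt_or_ge k 6912 with h70 | h70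
  · exact slot_of_all2 Slt4.c7 (lo := 6784) (hi := 6912) rfl rfl k h69 h70
  rcases Nat.lt_or_ge k 7040 with h71 | h71
  · exact slot_of_all2 Slt4.c8 (lo := 6912) (hi := 7040) rfl rfl k h70 h71
  rcases Nat.lt_or_ge k 7168 with h72 | h72
  · exact slot_of_all2 Slt4.c9 (lo := 7040) (hi := 7168) rfl rfl k h71 h72
  rcases Nat.lt_or_ge k 7296 with h73 | h73
  · exact slot_of_all2 Slt4.c10 (lo := 7168) (hi := 7296) rfl rfl k h72 h73
  rcases Nat.lt_or_ge k 7424 with h74 | h74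
  · exact slot_of_all2 Slt4.c11 (lo := 7296) (hi := 7424) rfl rfl k h73 h74
  rcases Nat.lt_or_ge k 7488 with h75 | h75
  · exact slot_of_all2 Slt4.c12 (lo := 7424) (hi := 7488) rfl rfl k h74 h75
  rcases Nat.lt_or_ge k 7496 with h76 | h76
  · exact slot_of_all2 Slt4.c13 (lo := 7488) (hi := 7496) rfl rfl k h75 h76
  rcases Nat.lt_or_ge k 7500 with h77 | h77
  · exact slot_of_all2 Slt4.c14 (lo := 7496) (hi := 7500) rfl rfl k h76 h77
  rcases Nat.lt_or_ge k 7504 with h78 | h78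
  · exact slot_of_all2 Slt5.c0 (lo := 7500) (hi := 7504) rfl rfl k h77 h78
  rcases Nat.lt_or_ge k 7520 with h79 | h79
  · exact slot_of_all2 Slt5.c1 (lo := 7504) (hi := 7520) rfl rfl k h78 h79
  rcases Nat.lt_or_ge k 7552 with h80 | h80
  · exact slot_of_all2 Slt5.c2 (lo := 7520) (hi := 7552) rfl rfl k h79 h80
  rcases Nat.lt_or_ge k 7680 with h81 | h81
  · exact slot_of_all2 Slt5.c3 (lo := 7552) (hi := 7680) rfl rfl k h80 h81
  rcases Nat.lt_or_ge k 7808 with h82 | h82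
  · exact slot_of_all2 Slt5.c4 (lo := 7680) (hi := 7808) rfl rfl k h81 h82
  rcases Nat.lt_or_ge k 7936 with h83 | h83
  · exact slot_of_all2 Slt5.c5 (lo := 7808) (hi := 7936) rfl rfl k h82 h83
  rcases Nat.lt_or_ge k 8064 with h84 | h84
  · exact slot_of_all2 Slt5.c6 (lo := 7936) (hi := 8064) rfl rfl k h83 h84
  rcases Nat.lt_or_ge k 8192 with h85 | h85
  · exact slot_of_all2 Slt5.c7 (lo := 8064) (hi := 8192) rfl rfl k h84 h85
  rcases Nat.lt_or_ge k 8320 with h86 | h86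
  · exact slot_of_all2 Slt5.c8 (lo := 8192) (hi := 8320) rfl rfl k h85 h86
  rcases Nat.lt_or_ge k 8448 with h87 | h87
  · exact slot_of_all2 Slt5.c9 (lo := 8320) (hi := 8448) rfl rfl k h86 h87
  rcases Nat.lt_or_ge k 8576 with h88 | h88
  · exact slot_of_all2 Slt5.c10 (lo := 8448) (hi := 8576) rfl rfl k h87 h88
  rcases Nat.lt_or_ge k 8704 with h89 | h89
  · exact slot_of_all2 Slt5.c11 (lo := 8576) (hi := 8704) rfl rfl k h88 h89
  rcases Nat.lt_or_ge k 8832 with h90 | h90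
  · exact slot_of_all2 Slt5.c12 (lo := 8704) (hi := 8832) rfl rfl k h89 h90
  rcases Nat.lt_or_ge k 8960 with h91 | h91
  · exact slot_of_all2 Slt5.c13 (lo := 8832) (hi := 8960) rfl rfl k h90 h91
  rcases Nat.lt_or_ge k 8992 with h92 | h92
  · exact slot_of_all2 Slt5.c14 (lo := 8960) (hi := 8992) rfl rfl k h91 h92
  rcases Nat.lt_or_ge k 9000 with h93 | h93
  · exact slot_of_all2 Slt5.c15 (lo := 8992) (hi := 9000) rfl rfl k h92 h93
  rcases Nat.lt_or_ge k 9008 with h94 | h94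
  · exact slot_of_all2 Slt6.c0 (lo := 9000) (hi := 9008) rfl rfl k h93 h94
  rcases Nat.lt_or_ge k 9024 with h95 | h95
  · exact slot_of_all2 Slt6.c1 (lo := 9008) (hi := 9024) rfl rfl k h94 h95
  rcases Nat.lt_or_ge k 9088 with h96 | h96
  · exact slot_of_all2 Slt6.c2 (lo := 9024) (hi := 9088) rfl rfl k h95 h96
  rcases Nat.lt_or_ge k 9216 with h97 | h97
  · exact slot_of_all2 Slt6.c3 (lo := 9088) (hi := 9216) rfl rfl k h96 h97
  rcases Nat.lt_or_ge k 9344 with h98 | h98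
  · exact slot_of_all2 Slt6.c4 (lo := 9216) (hi := 9344) rfl rfl k h97 h98
  rcases Nat.lt_or_ge k 9472 with h99 | h99
  · exact slot_of_all2 Slt6.c5 (lo := 9344) (hi := 9472) rfl rfl k h98 h99
  rcases Nat.lt_or_ge k 9600 with h100 | h100
  · exact slot_of_all2 Slt6.c6 (lo := 9472) (hi := 9600) rfl rfl k h99 h100
  rcases Nat.lt_or_ge k 9728 with h101 | h101
  · exact slot_of_all2 Slt6.c7 (lo := 9600) (hi := 9728) rfl rfl k h100 h101
  rcases Nat.lt_or_ge k 9856 with h102 | h102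
  · exact slot_of_all2 Slt6.c8 (lo := 9728) (hi := 9856) rfl rfl k h101 h102
  rcases Nat.lt_or_ge k 9984 with h103 | h103
  · exact slot_of_all2 Slt6.c9 (lo := 9856) (hi := 9984) rfl rfl k h102 h103
  rcases Nat.lt_or_ge k 10112 with h104 | h104
  · exact slot_of_all2 Slt6.c10 (lo := 9984) (hi := 10112) rfl rfl k h103 h104
  rcases Nat.lt_or_ge k 10240 with h105 | h105
  · exact slot_of_all2 Slt6.c11 (lo := 10112) (hi := 10240) rfl rfl k h104 h105
  rcases Nat.lt_or_ge k 10368 with h106 | h106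
  · exact slot_of_all2 Slt6.c12 (lo := 10240) (hi := 10368) rfl rfl k h105 h106
  rcases Nat.lt_or_ge k 10496 with h107 | h107
  · exact slot_of_all2 Slt6.c13 (lo := 10368) (hi := 10496) rfl rfl k h106 h107
  rcases Nat.lt_or_ge k 10500 with h108 | h108
  · exact slot_of_all2 Slt6.c14 (lo := 10496) (hi := 10500) rfl rfl k h107 h108
  rcases Nat.lt_or_ge k 10504 with h109 | h109
  · exact slot_of_all2 Slt7.c0 (lo := 10500) (hi := 10504) rfl rfl k h108 h109
  rcases Nat.lt_or_ge k 10512 with h110 | h110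
  · exact slot_of_all2 Slt7.c1 (lo := 10504) (hi := 10512) rfl rfl k h109 h110
  rcases Nat.lt_or_ge k 10528 with h111 | h111
  · exact slot_of_all2 Slt7.c2 (lo := 10512) (hi := 10528) rfl rfl k h110 h111
  rcases Nat.lt_or_ge k 10560 with h112 | h112
  · exact slot_of_all2 Slt7.c3 (lo := 10528) (hi := 10560) rfl rfl k h111 h112
  rcases Nat.lt_or_ge k 10592 with h113 | h113
  · exact slot_of_all2 Slt7.c4 (lo := 10560) (hi := 10592) rfl rfl k h112 h113
  rcases Nat.lt_or_ge k 10600 with h114 | h114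
  · exact slot_of_all2 Slt7.c5 (lo := 10592) (hi := 10600) rfl rfl k h113 h114
  rcases Nat.lt_or_ge k 10602 with h115 | h115
  · exact slot_of_all2 Slt7.c6 (lo := 10600) (hi := 10602) rfl rfl k h114 h115
  rw [SA_zero k (by change 10602 ≤ k; exact h115)]
  exact slotG_zero _ _ _

/-- every placed slot is fine -/
theorem sR_ok (j : ℕ) : SlotG LMf (sR j) (sH j) (sL j) :=
  slot_placed (slot_sym SR_lt SH_lt SA_lt _ (slot_all _)) (RR_lt _ _) (RR_lt _ _) (LL_lt _ _) _

theorem sR_lt (j : ℕ) : sR j < 2 ^ 128 :=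
  Nat.or_lt_two_pow (e128_lt _ _) (Nat.or_lt_two_pow (e128_lt _ _) (Nat.or_lt_two_pow (e128_lt _ _)
    (Nat.or_lt_two_pow (e128_lt _ _) (e128_lt _ _))))

theorem plchk_sound {B hit MF E D : ℕ} (hh : hitOK B hit = true)
    (h : all2 (plchk hit MF E D) 6 0 = true) (j : ℕ) :
    PG LM (mset B) (mset MF) (Nat.land (Nat.shiftRight E (Nat.mul 1536 (Nat.land j 63)))
      2410312426921032588580116606028314112912093247945688951359675039065257391591803200669085024107346049663448766280888004787862416978794958324969612987890774651455213339381625224770782077917681499676845543137387820057597345857904599109461387122099507964997815641342300677629473355281617428411794163967785870370368969109221591943054232011562758450080579587850900993714892283476646631181515063804873375182260506246992837898705971012525843324401232986857004760339316735) := by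
  have hj : Nat.land j 63 < 2 ^ 6 := lt_of_le_of_lt Nat.and_le_right (by norm_num)
  have := all2_iff h _ hj
  rw [Nat.mul_zero, Nat.zero_add] at this
  unfold plchk at this
  rw [frc_eq, frc_eq] at this
  exact plnOK_sound sR_ok sR_lt inc_sound FULL_ok (hitOK_sound hh) this

end Pool.Agent.MP_c0c4a4_co.N5
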