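import Mathlib
import Pool.Agent.MP_c0c4a4_co.N5.Rows
import Pool.Agent.MP_c0c4a4_co.N5.Exc
import Pool.Agent.MP_c0c4a4_co.N5.Bad
import Pool.Agent.MP_c0c4a4_co.N5.SlotAll
import Pool.Agent.MP_c0c4a4_co.N5.DASym
import Pool.Agent.MP_c0c4a4_co.N5.DAChk0
import Pool.Agent.MP_c0c4a4_co.N5.DAChk1
import Pool.Agent.MP_c0c4a4_co.N5.DAChk2
import Pool.Agent.MP_c0c4a4_co.N5.DAChk3
import Pool.Agent.MP_c0c4a4_co.N5.DAChkX
import Pool.Agent.MP_c0c4a4_co.N5.DARow0
import Pool.Agent.MP_c0c4a4_co.N5.DARow1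
import Pool.Agent.MP_c0c4a4_co.N5.DARow2
import Pool.Agent.MP_c0c4a4_co.N5.DARow3
import Pool.Agent.MP_c0c4a4_co.N5.DARow4
import Pool.Agent.MP_c0c4a4_co.N5.DARow5
import Pool.Agent.MP_c0c4a4_co.N5.DARow6

/-!
The domain DA.
-/

set_option autoImplicit false

namespace Pool.Agent.MP_c0c4a4_co.N5

namespace DA

theorem dom : DomD 4611686018427387904 10995116277777 120 (e8 CL) (e8 PS) (e8 BS) := dom_sound cel

theorem sel_ok (g : ℕ) (cont : ℕ → ℕ → Bool) (h : sel g cont = true) :
    ∃ CX PX, SymB LM BMT 4611686018427387904 10995116277777 (e8 CL) (e8 PS) (e8 BS) 120 24 CX PX ∧ cont CX PX = true :=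
  (selE h (fun h => (selE h (fun h => (selE h (fun h => ⟨_, _, symB_sound dom sy0 bc0 blt, h⟩) (fun h => ⟨_, _, symB_sound dom sy1 bc1 blt, h⟩))) (fun h => (selE h (fun h => ⟨_, _, symB_sound dom sy2 bc2 blt, h⟩) (fun h => ⟨_, _, symB_sound dom sy3 bc3 blt, h⟩))))) (fun h => (selE h (fun h => (selE h (fun h => ⟨_, _, symB_sound dom sy4 bc4 blt, h⟩) (fun h => ⟨_, _, symB_sound dom sy5 bc5 blt, h⟩))) (fun h => (selE h (fun h => ⟨_, _, symB_sound dom sy6 bc6 blt, h⟩) (fun h => ⟨_, _, symB_sound dom sy7 bc7 blt, h⟩))))))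

theorem pl_ok {E D : ℕ} (h : all2 (plchk 2610396993376604848255 4611686018427387904 E D) 6 0 = true) (j : ℕ) :
    PG LM (mset 10995116277777) (mset 4611686018427387904) (Nat.land (Nat.shiftRight E (Nat.mul 1536 (Nat.land j 63))) ME) :=
  plchk_sound hit h j

theorem x_lt (i : ℕ) (hi : i < 64) : Nat.land (Nat.land (Nat.shiftRight E20 (Nat.mul 1536 i)) ME) M128 < 2 ^ 125 :=
  lt_of_shiftRight (allUp_iff.1 xs i hi)

theorem x_ok {i : ℕ} (hi : i < 64) {D : ℕ} (h : excOK sR sH sL inc FULL CELLS 2610396993376604848255 4611686018427387904 10995116277777 (Nat.land (Nat.shiftRight E20 (Nat.mul 1536 i)) ME) D = true) :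
    PG LM (mset 10995116277777) (mset 4611686018427387904) (Nat.land (Nat.shiftRight E20 (Nat.mul 1536 i)) ME) :=
  pg_of_exc (excOK_sound sR_ok sR_lt FULL_ok (by norm_num [CELLS]) (by norm_num) (by norm_num) (x_lt i hi) (hitOK_sound hit) h)

theorem px_ok (j : ℕ) : PG LM (mset 10995116277777) (mset 4611686018427387904) (Nat.land (Nat.shiftRight E20 (Nat.mul 1536 (Nat.land j 63))) ME) := by
  have hj : Nat.land j 63 < 64 := lt_of_le_of_lt Nat.and_le_right (by norm_num)
  generalize Nat.land j 63 = i at hj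
  rcases Nat.lt_or_ge i 1 with g0 | g0
  · have e : i = 0 := by omega
    subst e
    exact x_ok hj x0
  rcases Nat.lt_or_ge i 2 with g1 | g1
  · have e : i = 1 := by omega
    subst e
    exact x_ok hj x1
  rcases Nat.lt_or_ge i 3 with g2 | g2
  · have e : i = 2 := by omega
    subst e
    exact x_ok hj x2
  rcases Nat.lt_or_ge i 4 with g3 | g3
  · have e : i = 3 := by omega
    subst e
    exact x_ok hj x3
  rcases Nat.lt_or_ge i 5 with g4 | g4
  · have e : i = 4 := by omega
    subst e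
    exact x_ok hj x4
  rcases Nat.lt_or_ge i 6 with g5 | g5
  · have e : i = 5 := by omega
    subst e
    exact x_ok hj x5
  rcases Nat.lt_or_ge i 7 with g6 | g6
  · have e : i = 6 := by omega
    subst e
    exact x_ok hj x6
  rcases Nat.lt_or_ge i 8 with g7 | g7
  · have e : i = 7 := by omega
    subst e
    exact x_ok hj x7
  rcases Nat.lt_or_ge i 9 with g8 | g8
  · have e : i = 8 := by omega
    subst e
    exact x_ok hj x8
  rcases Nat.lt_or_ge i 10 with g9 | g9
  · have e : i = 9 := by omega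
    subst e
    exact x_ok hj x9
  rcases Nat.lt_or_ge i 11 with g10 | g10
  · have e : i = 10 := by omega
    subst e
    exact x_ok hj x10
  rcases Nat.lt_or_ge i 12 with g11 | g11
  · have e : i = 11 := by omega
    subst e
    exact x_ok hj x11
  rcases Nat.lt_or_ge i 13 with g12 | g12
  · have e : i = 12 := by omega
    subst e
    exact x_ok hj x12
  rcases Nat.lt_or_ge i 14 with g13 | g13
  · have e : i = 13 := by omega
    subst e
    exact x_ok hj x13
  rcases Nat.lt_or_ge i 15 with g14 | g14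
  · have e : i = 14 := by omega
    subst e
    exact x_ok hj x14
  have hz : Nat.land (Nat.shiftRight E20 (Nat.mul 1536 i)) ME = 0 := ent_zero xz g14
  rw [hz]
  intro M hM
  have h0 : M = ∅ := by
    ext c
    refine ⟨fun hc => ?_, fun hc => hc.elim⟩
    have := hM.1 c hc
    simp [mem_land] at this
  have := x_ok (i := 0) (by norm_num) x0 ∅ (Cmp.empty _)
  rw [h0]
  exact this

theorem ent_ok (j : ℕ) : PG LM (mset 10995116277777) (mset 4611686018427387904) (ent j) := by
  let Q : ℕ → Prop := fun E => PG LM (mset 10995116277777) (mset 4611686018427387904) (Nat.land (Nat.shiftRight E (Nat.mul 1536 (Nat.land j 63))) ME)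
  exact (treeE (P := Q) (treeE (P := Q) (treeE (P := Q) (treeE (P := Q) (treeE (P := Q) (pl_ok c0 j) (pl_ok c1 j)) (treeE (P := Q) (pl_ok c2 j) (pl_ok c3 j))) (treeE (P := Q) (treeE (P := Q) (pl_ok c4 j) (pl_ok c5 j)) (treeE (P := Q) (pl_ok c6 j) (pl_ok c7 j)))) (treeE (P := Q) (treeE (P := Q) (treeE (P := Q) (pl_ok c8 j) (pl_ok c9 j)) (treeE (P := Q) (pl_ok c10 j) (pl_ok c11 j))) (treeE (P := Q) (treeE (P := Q) (pl_ok c12 j) (pl_ok c13 j)) (treeE (P := Q) (pl_ok c14 j) (pl_ok c15 j))))) (treeE (P := Q) (treeE (P := Q) (treeE (P := Q) (treeE (P := Q) (pl_ok c16 j) (pl_ok c17 j)) (treeE (P := Q) (pl_ok c18 j) (pl_ok c19 j))) (treeE (P := Q) (treeE (P := Q) (px_ok j) (pl_ok c0 j)) (treeE (P := Q) (pl_ok c0 j) (pl_ok c0 j)))) (treeE (P := Q) (treeE (P := Q) (treeE (P := Q) (pl_ok c0 j) (pl_ok c0 j)) (treeE (P := Q) (pl_ok c0 j) (pl_ok c0 j))) (treeE (P := Q) (treeE (P := Q) (pl_ok c0 j) (pl_ok c0 j)) (treeE (P := Q) (pl_ok c0 j) (pl_ok c0 j))))))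

theorem tab : TabB BMT 4611686018427387904 10995116277777 120 24 (e8 CL) (e8 PS) (e8 BS) sel ent :=
  ⟨dom, sel_ok, ent_ok, by norm_num, by norm_num, PS, BS, US, rfl, rfl, rep⟩

theorem starts : ∀ i, i < 120 → e8 BS i = i → i ∈ [0, 8, 16, 24, 32, 40, 48, 56, 64, 72, 80, 84, 88, 92, 96, 100, 104, 108, 112, 114, 116, 118] := by decide +kernel

theorem rw0 (j : ℕ) (h1 : 0 < j) (h2 : j < 120) : RowB3 BMT 4611686018427387904 10995116277777 (e8 CL) 120 0 j := by
  rcases Nat.lt_or_ge j 17 with g0 | g0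
  · exact rowsB_sound tab (by norm_num) r0_1 j h1 g0
  rcases Nat.lt_or_ge j 33 with g1 | g1
  · exact rowsB_sound tab (by norm_num) r0_17 j g0 g1
  rcases Nat.lt_or_ge j 36 with g2 | g2
  · exact rowsB_sound tab (by norm_num) r0_33 j g1 g2
  rcases Nat.lt_or_ge j 52 with g3 | g3
  · exact rowsB_sound tab (by norm_num) r0_36 j g2 g3
  rcases Nat.lt_or_ge j 68 with g4 | g4
  · exact rowsB_sound tab (by norm_num) r0_52 j g3 g4
  rcases Nat.lt_or_ge j 84 with g5 | g5
  · exact rowsB_sound tab (by norm_num) r0_68 j g4 g5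
  rcases Nat.lt_or_ge j 100 with g6 | g6
  · exact rowsB_sound tab (by norm_num) r0_84 j g5 g6
  rcases Nat.lt_or_ge j 116 with g7 | g7
  · exact rowsB_sound tab (by norm_num) r0_100 j g6 g7
  rcases Nat.lt_or_ge j 118 with g8 | g8
  · exact rowsB_sound tab (by norm_num) r0_116 j g7 g8
  intro l x hl hx hn
  omega

theorem rw8 (j : ℕ) (h1 : 8 < j) (h2 : j < 120) : RowB3 BMT 4611686018427387904 10995116277777 (e8 CL) 120 8 j := by
  rcases Nat.lt_or_ge j 24 with g0 | g0
  · exact rowsB_sound tab (by norm_num) r8_9 j h1 g0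
  rcases Nat.lt_or_ge j 40 with g1 | g1
  · exact rowsB_sound tab (by norm_num) r8_24 j g0 g1
  rcases Nat.lt_or_ge j 56 with g2 | g2
  · exact rowsB_sound tab (by norm_num) r8_40 j g1 g2
  rcases Nat.lt_or_ge j 72 with g3 | g3
  · exact rowsB_sound tab (by norm_num) r8_56 j g2 g3
  rcases Nat.lt_or_ge j 88 with g4 | g4
  · exact rowsB_sound tab (by norm_num) r8_72 j g3 g4
  rcases Nat.lt_or_ge j 104 with g5 | g5
  · exact rowsB_sound tab (by norm_num) r8_88 j g4 g5
  rcases Nat.lt_or_ge j 118 with g6 | g6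
  · exact rowsB_sound tab (by norm_num) r8_104 j g5 g6
  intro l x hl hx hn
  omega

theorem rw16 (j : ℕ) (h1 : 16 < j) (h2 : j < 120) : RowB3 BMT 4611686018427387904 10995116277777 (e8 CL) 120 16 j := by
  rcases Nat.lt_or_ge j 23 with g0 | g0
  · exact rowsB_sound tab (by norm_num) r16_17 j h1 g0
  rcases Nat.lt_or_ge j 39 with g1 | g1
  · exact rowsB_sound tab (by norm_num) r16_23 j g0 g1
  rcases Nat.lt_or_ge j 55 with g2 | g2
  · exact rowsB_sound tab (by norm_num) r16_39 j g1 g2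
  rcases Nat.lt_or_ge j 71 with g3 | g3
  · exact rowsB_sound tab (by norm_num) r16_55 j g2 g3
  rcases Nat.lt_or_ge j 87 with g4 | g4
  · exact rowsB_sound tab (by norm_num) r16_71 j g3 g4
  rcases Nat.lt_or_ge j 103 with g5 | g5
  · exact rowsB_sound tab (by norm_num) r16_87 j g4 g5
  rcases Nat.lt_or_ge j 118 with g6 | g6
  · exact rowsB_sound tab (by norm_num) r16_103 j g5 g6
  intro l x hl hx hn
  omega

theorem rw24 (j : ℕ) (h1 : 24 < j) (h2 : j < 120) : RowB3 BMT 4611686018427387904 10995116277777 (e8 CL) 120 24 j := by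
  rcases Nat.lt_or_ge j 31 with g0 | g0
  · exact rowsB_sound tab (by norm_num) r24_25 j h1 g0
  rcases Nat.lt_or_ge j 47 with g1 | g1
  · exact rowsB_sound tab (by norm_num) r24_31 j g0 g1
  rcases Nat.lt_or_ge j 63 with g2 | g2
  · exact rowsB_sound tab (by norm_num) r24_47 j g1 g2
  rcases Nat.lt_or_ge j 79 with g3 | g3
  · exact rowsB_sound tab (by norm_num) r24_63 j g2 g3
  rcases Nat.lt_or_ge j 95 with g4 | g4
  · exact rowsB_sound tab (by norm_num) r24_79 j g3 g4
  rcases Nat.lt_or_ge j 111 with g5 | g5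
  · exact rowsB_sound tab (by norm_num) r24_95 j g4 g5
  rcases Nat.lt_or_ge j 118 with g6 | g6
  · exact rowsB_sound tab (by norm_num) r24_111 j g5 g6
  intro l x hl hx hn
  omega

theorem rw32 (j : ℕ) (h1 : 32 < j) (h2 : j < 120) : RowB3 BMT 4611686018427387904 10995116277777 (e8 CL) 120 32 j := by
  rcases Nat.lt_or_ge j 49 with g0 | g0
  · exact rowsB_sound tab (by norm_num) r32_33 j h1 g0
  rcases Nat.lt_or_ge j 54 with g1 | g1
  · exact rowsB_sound tab (by norm_num) r32_49 j g0 g1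
  rcases Nat.lt_or_ge j 70 with g2 | g2
  · exact rowsB_sound tab (by norm_num) r32_54 j g1 g2
  rcases Nat.lt_or_ge j 86 with g3 | g3
  · exact rowsB_sound tab (by norm_num) r32_70 j g2 g3
  rcases Nat.lt_or_ge j 102 with g4 | g4
  · exact rowsB_sound tab (by norm_num) r32_86 j g3 g4
  rcases Nat.lt_or_ge j 118 with g5 | g5
  · exact rowsB_sound tab (by norm_num) r32_102 j g4 g5
  intro l x hl hx hn
  omega

theorem rw40 (j : ℕ) (h1 : 40 < j) (h2 : j < 120) : RowB3 BMT 4611686018427387904 10995116277777 (e8 CL) 120 40 j := by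
  rcases Nat.lt_or_ge j 57 with g0 | g0
  · exact rowsB_sound tab (by norm_num) r40_41 j h1 g0
  rcases Nat.lt_or_ge j 73 with g1 | g1
  · exact rowsB_sound tab (by norm_num) r40_57 j g0 g1
  rcases Nat.lt_or_ge j 89 with g2 | g2
  · exact rowsB_sound tab (by norm_num) r40_73 j g1 g2
  rcases Nat.lt_or_ge j 105 with g3 | g3
  · exact rowsB_sound tab (by norm_num) r40_89 j g2 g3
  rcases Nat.lt_or_ge j 118 with g4 | g4
  · exact rowsB_sound tab (by norm_num) r40_105 j g3 g4
  intro l x hl hx hn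
  omega

theorem rw48 (j : ℕ) (h1 : 48 < j) (h2 : j < 120) : RowB3 BMT 4611686018427387904 10995116277777 (e8 CL) 120 48 j := by
  rcases Nat.lt_or_ge j 65 with g0 | g0
  · exact rowsB_sound tab (by norm_num) r48_49 j h1 g0
  rcases Nat.lt_or_ge j 70 with g1 | g1
  · exact rowsB_sound tab (by norm_num) r48_65 j g0 g1
  rcases Nat.lt_or_ge j 86 with g2 | g2
  · exact rowsB_sound tab (by norm_num) r48_70 j g1 g2
  rcases Nat.lt_or_ge j 102 with g3 | g3
  · exact rowsB_sound tab (by norm_num) r48_86 j g2 g3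
  rcases Nat.lt_or_ge j 118 with g4 | g4
  · exact rowsB_sound tab (by norm_num) r48_102 j g3 g4
  intro l x hl hx hn
  omega

theorem rw56 (j : ℕ) (h1 : 56 < j) (h2 : j < 120) : RowB3 BMT 4611686018427387904 10995116277777 (e8 CL) 120 56 j := by
  rcases Nat.lt_or_ge j 73 with g0 | g0
  · exact rowsB_sound tab (by norm_num) r56_57 j h1 g0
  rcases Nat.lt_or_ge j 89 with g1 | g1
  · exact rowsB_sound tab (by norm_num) r56_73 j g0 g1
  rcases Nat.lt_or_ge j 105 with g2 | g2
  · exact rowsB_sound tab (by norm_num) r56_89 j g1 g2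
  rcases Nat.lt_or_ge j 118 with g3 | g3
  · exact rowsB_sound tab (by norm_num) r56_105 j g2 g3
  intro l x hl hx hn
  omega

theorem rw64 (j : ℕ) (h1 : 64 < j) (h2 : j < 120) : RowB3 BMT 4611686018427387904 10995116277777 (e8 CL) 120 64 j := by
  rcases Nat.lt_or_ge j 81 with g0 | g0
  · exact rowsB_sound tab (by norm_num) r64_65 j h1 g0
  rcases Nat.lt_or_ge j 97 with g1 | g1
  · exact rowsB_sound tab (by norm_num) r64_81 j g0 g1
  rcases Nat.lt_or_ge j 113 with g2 | g2
  · exact rowsB_sound tab (by norm_num) r64_97 j g1 g2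
  rcases Nat.lt_or_ge j 118 with g3 | g3
  · exact rowsB_sound tab (by norm_num) r64_113 j g2 g3
  intro l x hl hx hn
  omega

theorem rw72 (j : ℕ) (h1 : 72 < j) (h2 : j < 120) : RowB3 BMT 4611686018427387904 10995116277777 (e8 CL) 120 72 j := by
  rcases Nat.lt_or_ge j 89 with g0 | g0
  · exact rowsB_sound tab (by norm_num) r72_73 j h1 g0
  rcases Nat.lt_or_ge j 105 with g1 | g1
  · exact rowsB_sound tab (by norm_num) r72_89 j g0 g1
  rcases Nat.lt_or_ge j 118 with g2 | g2
  · exact rowsB_sound tab (by norm_num) r72_105 j g1 g2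
  intro l x hl hx hn
  omega

theorem rw80 (j : ℕ) (h1 : 80 < j) (h2 : j < 120) : RowB3 BMT 4611686018427387904 10995116277777 (e8 CL) 120 80 j := by
  rcases Nat.lt_or_ge j 97 with g0 | g0
  · exact rowsB_sound tab (by norm_num) r80_81 j h1 g0
  rcases Nat.lt_or_ge j 113 with g1 | g1
  · exact rowsB_sound tab (by norm_num) r80_97 j g0 g1
  rcases Nat.lt_or_ge j 118 with g2 | g2
  · exact rowsB_sound tab (by norm_num) r80_113 j g1 g2
  intro l x hl hx hn
  omega

theorem rw84 (j : ℕ) (h1 : 84 < j) (h2 : j < 120) : RowB3 BMT 4611686018427387904 10995116277777 (e8 CL) 120 84 j := by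
  rcases Nat.lt_or_ge j 101 with g0 | g0
  · exact rowsB_sound tab (by norm_num) r84_85 j h1 g0
  rcases Nat.lt_or_ge j 117 with g1 | g1
  · exact rowsB_sound tab (by norm_num) r84_101 j g0 g1
  rcases Nat.lt_or_ge j 118 with g2 | g2
  · exact rowsB_sound tab (by norm_num) r84_117 j g1 g2
  intro l x hl hx hn
  omega

theorem rw88 (j : ℕ) (h1 : 88 < j) (h2 : j < 120) : RowB3 BMT 4611686018427387904 10995116277777 (e8 CL) 120 88 j := by
  rcases Nat.lt_or_ge j 105 with g0 | g0
  · exact rowsB_sound tab (by norm_num) r88_89 j h1 g0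
  rcases Nat.lt_or_ge j 118 with g1 | g1
  · exact rowsB_sound tab (by norm_num) r88_105 j g0 g1
  intro l x hl hx hn
  omega

theorem rw92 (j : ℕ) (h1 : 92 < j) (h2 : j < 120) : RowB3 BMT 4611686018427387904 10995116277777 (e8 CL) 120 92 j := by
  rcases Nat.lt_or_ge j 109 with g0 | g0
  · exact rowsB_sound tab (by norm_num) r92_93 j h1 g0
  rcases Nat.lt_or_ge j 118 with g1 | g1
  · exact rowsB_sound tab (by norm_num) r92_109 j g0 g1
  intro l x hl hx hn
  omega

theorem rw96 (j : ℕ) (h1 : 96 < j) (h2 : j < 120) : RowB3 BMT 4611686018427387904 10995116277777 (e8 CL) 120 96 j := by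
  rcases Nat.lt_or_ge j 113 with g0 | g0
  · exact rowsB_sound tab (by norm_num) r96_97 j h1 g0
  rcases Nat.lt_or_ge j 118 with g1 | g1
  · exact rowsB_sound tab (by norm_num) r96_113 j g0 g1
  intro l x hl hx hn
  omega

theorem rw100 (j : ℕ) (h1 : 100 < j) (h2 : j < 120) : RowB3 BMT 4611686018427387904 10995116277777 (e8 CL) 120 100 j := by
  rcases Nat.lt_or_ge j 117 with g0 | g0
  · exact rowsB_sound tab (by norm_num) r100_101 j h1 g0
  rcases Nat.lt_or_ge j 118 with g1 | g1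
  · exact rowsB_sound tab (by norm_num) r100_117 j g0 g1
  intro l x hl hx hn
  omega

theorem rw104 (j : ℕ) (h1 : 104 < j) (h2 : j < 120) : RowB3 BMT 4611686018427387904 10995116277777 (e8 CL) 120 104 j := by
  rcases Nat.lt_or_ge j 118 with g0 | g0
  · exact rowsB_sound tab (by norm_num) r104_105 j h1 g0
  intro l x hl hx hn
  omega

theorem rw108 (j : ℕ) (h1 : 108 < j) (h2 : j < 120) : RowB3 BMT 4611686018427387904 10995116277777 (e8 CL) 120 108 j := by
  rcases Nat.lt_or_ge j 118 with g0 | g0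
  · exact rowsB_sound tab (by norm_num) r108_109 j h1 g0
  intro l x hl hx hn
  omega

theorem rw112 (j : ℕ) (h1 : 112 < j) (h2 : j < 120) : RowB3 BMT 4611686018427387904 10995116277777 (e8 CL) 120 112 j := by
  rcases Nat.lt_or_ge j 118 with g0 | g0
  · exact rowsB_sound tab (by norm_num) r112_113 j h1 g0
  intro l x hl hx hn
  omega

theorem rw114 (j : ℕ) (h1 : 114 < j) (h2 : j < 120) : RowB3 BMT 4611686018427387904 10995116277777 (e8 CL) 120 114 j := by
  rcases Nat.lt_or_ge j 118 with g0 | g0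
  · exact rowsB_sound tab (by norm_num) r114_115 j h1 g0
  intro l x hl hx hn
  omega

theorem rw116 (j : ℕ) (h1 : 116 < j) (h2 : j < 120) : RowB3 BMT 4611686018427387904 10995116277777 (e8 CL) 120 116 j := by
  rcases Nat.lt_or_ge j 118 with g0 | g0
  · exact rowsB_sound tab (by norm_num) r116_117 j h1 g0
  intro l x hl hx hn
  omega

theorem rw118 (j : ℕ) (h1 : 118 < j) (h2 : j < 120) : RowB3 BMT 4611686018427387904 10995116277777 (e8 CL) 120 118 j := by
  intro l x hl hx hn
  omega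

theorem good : ∀ F : Finset ℕ, F.card = 4 → (∀ c ∈ F, c < 125 ∧ c ∉ mset 4611686018427387904 ∧ c ∉ mset 10995116277777) →
    QB BMT 4611686018427387904 10995116277777 F := by
  refine domB3 tab ?_
  intro i hi hb j h1 h2
  have hs := starts i hi hb
  simp only [List.mem_cons, List.not_mem_nil, or_false] at hs
  rcases hs with rfl | rfl | rfl | rfl | rfl | rfl | rfl | rfl | rfl | rfl | rfl | rfl | rfl | rfl | rfl | rfl | rfl | rfl | rfl | rfl | rfl | rfl
  · exact rw0 j h1 h2
  · exact rw8 j h1 h2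
  · exact rw16 j h1 h2
  · exact rw24 j h1 h2
  · exact rw32 j h1 h2
  · exact rw40 j h1 h2
  · exact rw48 j h1 h2
  · exact rw56 j h1 h2
  · exact rw64 j h1 h2
  · exact rw72 j h1 h2
  · exact rw80 j h1 h2
  · exact rw84 j h1 h2
  · exact rw88 j h1 h2
  · exact rw92 j h1 h2
  · exact rw96 j h1 h2
  · exact rw100 j h1 h2
  · exact rw104 j h1 h2
  · exact rw108 j h1 h2
  · exact rw112 j h1 h2
  · exact rw114 j h1 h2
  · exact rw116 j h1 h2
  · exact rw118 j h1 h2

end DA

end Pool.Agent.MP_c0c4a4_co.N5
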