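import Pool.Agent.MP_c0c4a4_co.N5.DB0Dat

/-!
Symmetries of the domain DB0.
-/

set_option autoImplicit false

namespace Pool.Agent.MP_c0c4a4_co.N5

namespace DB0

theorem cel : celOK CL PS BS 4611694814520410112 2417851639231457372667921 119 = true := by decide +kernel

theorem sy0 : symD LMf 109 CL PS BS 4611694814520410112 2417851639231457372667921 119 24 G0 L0 X0 P0 = true := by decide +kernel

theorem sy1 : symD LMf 109 CL PS BS 4611694814520410112 2417851639231457372667921 119 24 G1 L1 X1 P1 = true := by decide +kernel

theorem rep : repD sel PS BS US 119 = true := by decide +kernel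

end DB0

end Pool.Agent.MP_c0c4a4_co.N5
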