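import Mathlib
import Pool.Agent.MP_c0c4a4_co.N5.Rows
import Pool.Agent.MP_c0c4a4_co.N5.Exc
import Pool.Agent.MP_c0c4a4_co.N5.Bad
import Pool.Agent.MP_c0c4a4_co.N5.SlotAll
import Pool.Agent.MP_c0c4a4_co.N5.DB0Sym
import Pool.Agent.MP_c0c4a4_co.N5.DB0Chk0
import Pool.Agent.MP_c0c4a4_co.N5.DB0Chk1
import Pool.Agent.MP_c0c4a4_co.N5.DB0Row0

/-!
The domain DB0.
-/

set_option autoImplicit false

namespace Pool.Agent.MP_c0c4a4_co.N5

namespace DB0

theorem dom : DomD 4611694814520410112 2417851639231457372667921 119 (e8 CL) (e8 PS) (e8 BS) := dom_sound cel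

theorem sel_ok (g : ℕ) (cont : ℕ → ℕ → Bool) (h : sel g cont = true) :
    ∃ CX PX, SymQ LM 4611694814520410112 2417851639231457372667921 (e8 CL) (e8 PS) (e8 BS) 119 24 CX PX ∧ cont CX PX = true :=
  (selE h (fun h => ⟨_, _, symD_sound dom sy0, h⟩) (fun h => ⟨_, _, symD_sound dom sy1, h⟩))

theorem pl_ok {E D : ℕ} (h : all2 (plchk 10367750356365649662195990655 4611694814520410112 E D) 6 0 = true) (j : ℕ) :
    PG LM (mset 2417851639231457372667921) (mset 4611694814520410112) (Nat.land (Nat.shiftRight E (Nat.mul 1536 (Nat.land j 63))) ME) :=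
  plchk_sound hit h j

theorem ent_ok (j : ℕ) : PG LM (mset 2417851639231457372667921) (mset 4611694814520410112) (ent j) := by
  let Q : ℕ → Prop := fun E => PG LM (mset 2417851639231457372667921) (mset 4611694814520410112) (Nat.land (Nat.shiftRight E (Nat.mul 1536 (Nat.land j 63))) ME)
  exact (treeE (P := Q) (treeE (P := Q) (treeE (P := Q) (pl_ok c0 j) (pl_ok c1 j)) (treeE (P := Q) (pl_ok c2 j) (pl_ok c3 j))) (treeE (P := Q) (treeE (P := Q) (pl_ok c4 j) (pl_ok c5 j)) (treeE (P := Q) (pl_ok c6 j) (pl_ok c7 j))))

theorem tab : Tab 4611694814520410112 2417851639231457372667921 119 24 (e8 CL) (e8 PS) (e8 BS) sel ent :=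
  ⟨dom, sel_ok, ent_ok, by norm_num, by norm_num, PS, BS, US, rfl, rfl, rep⟩

theorem starts : ∀ i, i < 119 → e8 BS i = i → i ∈ [0, 2, 4, 6, 8, 10, 12, 14, 16, 18, 20, 22, 24, 26, 28, 30, 32, 34, 36, 38, 40, 42, 44, 46, 48, 50, 52, 54, 56, 58, 60, 62, 64, 66, 68, 70, 72, 74, 76, 78, 80, 82, 84, 86, 88, 90, 92, 94, 96, 98, 100, 102, 104, 106, 108, 109, 110, 111, 112, 113, 114, 115, 116, 117, 118] := by decide +kernel

theorem rws : ∀ i, i < 119 → e8 BS i = i → RowG2 4611694814520410112 2417851639231457372667921 (e8 CL) 119 i := by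
  intro i hi hb
  have hs := starts i hi hb
  simp only [List.mem_cons, List.not_mem_nil, or_false] at hs
  rcases hs with rfl | rfl | rfl | rfl | rfl | rfl | rfl | rfl | rfl | rfl | rfl | rfl | rfl | rfl | rfl | rfl | rfl | rfl | rfl | rfl | rfl | rfl | rfl | rfl | rfl | rfl | rfl | rfl | rfl | rfl | rfl | rfl | rfl | rfl | rfl | rfl | rfl | rfl | rfl | rfl | rfl | rfl | rfl | rfl | rfl | rfl | rfl | rfl | rfl | rfl | rfl | rfl | rfl | rfl | rfl | rfl | rfl | rfl | rfl | rfl | rfl | rfl | rfl | rfl | rfl
  · exact row2_sound tab r0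
  · exact row2_sound tab r2
  · exact row2_sound tab r4
  · exact row2_sound tab r6
  · exact row2_sound tab r8
  · exact row2_sound tab r10
  · exact row2_sound tab r12
  · exact row2_sound tab r14
  · exact row2_sound tab r16
  · exact row2_sound tab r18
  · exact row2_sound tab r20
  · exact row2_sound tab r22
  · exact row2_sound tab r24
  · exact row2_sound tab r26
  · exact row2_sound tab r28
  · exact row2_sound tab r30
  · exact row2_sound tab r32
  · exact row2_sound tab r34
  · exact row2_sound tab r36
  · exact row2_sound tab r38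
  · exact row2_sound tab r40
  · exact row2_sound tab r42
  · exact row2_sound tab r44
  · exact row2_sound tab r46
  · exact row2_sound tab r48
  · exact row2_sound tab r50
  · exact row2_sound tab r52
  · exact row2_sound tab r54
  · exact row2_sound tab r56
  · exact row2_sound tab r58
  · exact row2_sound tab r60
  · exact row2_sound tab r62
  · exact row2_sound tab r64
  · exact row2_sound tab r66
  · exact row2_sound tab r68
  · exact row2_sound tab r70
  · exact row2_sound tab r72
  · exact row2_sound tab r74
  · exact row2_sound tab r76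
  · exact row2_sound tab r78
  · exact row2_sound tab r80
  · exact row2_sound tab r82
  · exact row2_sound tab r84
  · exact row2_sound tab r86
  · exact row2_sound tab r88
  · exact row2_sound tab r90
  · exact row2_sound tab r92
  · exact row2_sound tab r94
  · exact row2_sound tab r96
  · exact row2_sound tab r98
  · exact row2_sound tab r100
  · exact row2_sound tab r102
  · exact row2_sound tab r104
  · exact row2_sound tab r106
  · exact row2_sound tab r108
  · exact row2_sound tab r109
  · exact row2_sound tab r110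
  · exact row2_sound tab r111
  · exact row2_sound tab r112
  · exact row2_sound tab r113
  · exact row2_sound tab r114
  · exact row2_sound tab r115
  · exact row2_sound tab r116
  · intro j x h1 h2 h3
    omega
  · intro j x h1 h2 h3
    omega

theorem good : DomG 4611694814520410112 2417851639231457372667921 2 := dom2 tab (by norm_num) rws

theorem good3 : ∀ F : Finset ℕ, F.card = 3 → (∀ c ∈ F, c < 125 ∧ c ∉ mset 4611694814520410112 ∧ c ∉ mset 2417851639231457372667921) →
    OKp LM (mset 2417851639231457372667921) (mset 4611694814520410112 ∪ F) := domO2 tab rws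

end DB0

end Pool.Agent.MP_c0c4a4_co.N5
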