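import Pool.Agent.MP_c0c4a4_co.N5.DB1Dat

/-!
Symmetries of the domain DB1.
-/

set_option autoImplicit false

namespace Pool.Agent.MP_c0c4a4_co.N5

namespace DB1

theorem cel : celOK CL PS BS 2417856250924072869822464 1267650600228229403695726460945 118 = true := by decide +kernel

theorem sy0 : symD LMf 109 CL PS BS 2417856250924072869822464 1267650600228229403695726460945 118 24 G0 L0 X0 P0 = true := by decide +kernel

theorem rep : repD sel PS BS US 118 = true := by decide +kernel

end DB1

end Pool.Agent.MP_c0c4a4_co.N5
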