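import Mathlib
import Pool.Agent.MP_c0c4a4_co.N5.Rows
import Pool.Agent.MP_c0c4a4_co.N5.Exc
import Pool.Agent.MP_c0c4a4_co.N5.Bad
import Pool.Agent.MP_c0c4a4_co.N5.SlotAll
import Pool.Agent.MP_c0c4a4_co.N5.DB1Sym
import Pool.Agent.MP_c0c4a4_co.N5.DB1Chk0
import Pool.Agent.MP_c0c4a4_co.N5.DB1Row0

/-!
The domain DB1.
-/

set_option autoImplicit false

namespace Pool.Agent.MP_c0c4a4_co.N5

namespace DB1

theorem dom : DomD 2417856250924072869822464 1267650600228229403695726460945 118 (e8 CL) (e8 PS) (e8 BS) := dom_sound cel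

theorem sel_ok (g : ℕ) (cont : ℕ → ℕ → Bool) (h : sel g cont = true) :
    ∃ CX PX, SymQ LM 2417856250924072869822464 1267650600228229403695726460945 (e8 CL) (e8 PS) (e8 BS) 118 24 CX PX ∧ cont CX PX = true :=
  ⟨_, _, symD_sound dom sy0, h⟩

theorem pl_ok {E D : ℕ} (h : all2 (plchk 1109194277727051456906717495423 2417856250924072869822464 E D) 6 0 = true) (j : ℕ) :
    PG LM (mset 1267650600228229403695726460945) (mset 2417856250924072869822464) (Nat.land (Nat.shiftRight E (Nat.mul 1536 (Nat.land j 63))) ME) :=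
  plchk_sound hit h j

theorem ent_ok (j : ℕ) : PG LM (mset 1267650600228229403695726460945) (mset 2417856250924072869822464) (ent j) := by
  let Q : ℕ → Prop := fun E => PG LM (mset 1267650600228229403695726460945) (mset 2417856250924072869822464) (Nat.land (Nat.shiftRight E (Nat.mul 1536 (Nat.land j 63))) ME)
  exact (treeE (P := Q) (pl_ok c0 j) (pl_ok c1 j))

theorem tab : Tab 2417856250924072869822464 1267650600228229403695726460945 118 24 (e8 CL) (e8 PS) (e8 BS) sel ent :=
  ⟨dom, sel_ok, ent_ok, by norm_num, by norm_num, PS, BS, US, rfl, rfl, rep⟩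

theorem good : DomG 2417856250924072869822464 1267650600228229403695726460945 1 := dom1 tab (by norm_num) (row1_sound tab r)

end DB1

end Pool.Agent.MP_c0c4a4_co.N5
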