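import Pool.Agent.MP_c0c4a4_co.N5.DB2Dat

/-!
The node of the domain DB2.
-/

set_option autoImplicit false

namespace Pool.Agent.MP_c0c4a4_co.N5

namespace DB2

/-- data -/
noncomputable def W : Nat := 0x3ffffffffffffffffffffffffffffe01601401201000e00c00a008006004002001801

theorem r : ndOK sel ent 0 0 0 117 24 W = true := by decide +kernel

end DB2

end Pool.Agent.MP_c0c4a4_co.N5
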