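import Pool.Agent.MP_c0c4a4_co.N5.DB2Dat

/-!
Symmetries of the domain DB2.
-/

set_option autoImplicit false

namespace Pool.Agent.MP_c0c4a4_co.N5

namespace DB2

theorem cel : celOK CL PS BS 1267653018084480325569573027840 2199040032785 117 = true := by decide +kernel

theorem sy0 : symD LMf 109 CL PS BS 1267653018084480325569573027840 2199040032785 117 24 G0 L0 X0 P0 = true := by decide +kernel

theorem rep : repD sel PS BS US 117 = true := by decide +kernel

end DB2

end Pool.Agent.MP_c0c4a4_co.N5
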