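import Mathlib
import Pool.Agent.MP_c0c4a4_co.N5.Rows
import Pool.Agent.MP_c0c4a4_co.N5.Exc
import Pool.Agent.MP_c0c4a4_co.N5.Bad
import Pool.Agent.MP_c0c4a4_co.N5.SlotAll
import Pool.Agent.MP_c0c4a4_co.N5.DB2Sym
import Pool.Agent.MP_c0c4a4_co.N5.DB2Chk0
import Pool.Agent.MP_c0c4a4_co.N5.DB2Row0

/-!
The domain DB2.
-/

set_option autoImplicit false

namespace Pool.Agent.MP_c0c4a4_co.N5

namespace DB2

theorem dom : DomD 1267653018084480325569573027840 2199040032785 117 (e8 CL) (e8 PS) (e8 BS) := dom_sound cel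

theorem sel_ok (g : ℕ) (cont : ℕ → ℕ → Bool) (h : sel g cont = true) :
    ∃ CX PX, SymQ LM 1267653018084480325569573027840 2199040032785 (e8 CL) (e8 PS) (e8 BS) 117 24 CX PX ∧ cont CX PX = true :=
  ⟨_, _, symD_sound dom sy0, h⟩

theorem pl_ok {E D : ℕ} (h : all2 (plchk 2529368272861419995263 1267653018084480325569573027840 E D) 6 0 = true) (j : ℕ) :
    PG LM (mset 2199040032785) (mset 1267653018084480325569573027840) (Nat.land (Nat.shiftRight E (Nat.mul 1536 (Nat.land j 63))) ME) :=
  plchk_sound hit h j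

theorem ent_ok (j : ℕ) : PG LM (mset 2199040032785) (mset 1267653018084480325569573027840) (ent j) := by
  let Q : ℕ → Prop := fun E => PG LM (mset 2199040032785) (mset 1267653018084480325569573027840) (Nat.land (Nat.shiftRight E (Nat.mul 1536 (Nat.land j 63))) ME)
  exact (pl_ok c0 j)

theorem tab : Tab 1267653018084480325569573027840 2199040032785 117 24 (e8 CL) (e8 PS) (e8 BS) sel ent :=
  ⟨dom, sel_ok, ent_ok, by norm_num, by norm_num, PS, BS, US, rfl, rfl, rep⟩

theorem good : DomG 1267653018084480325569573027840 2199040032785 0 := dom0 tab (by norm_num) (row0_sound tab r)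

end DB2

end Pool.Agent.MP_c0c4a4_co.N5
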