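import Pool.Agent.MP_c0c4a4_co.N5.DCDat

/-!
Symmetries of the domain DC.
-/

set_option autoImplicit false

namespace Pool.Agent.MP_c0c4a4_co.N5

namespace DC

theorem cel : celOK CL PS BS 0 21267647932558653971072598982912901121 122 = true := by decide +kernel

theorem sy0 : symD LMf 109 CL PS BS 0 21267647932558653971072598982912901121 122 25 G0 L0 X0 P0 = true := by decide +kernel

theorem sy1 : symD LMf 109 CL PS BS 0 21267647932558653971072598982912901121 122 25 G1 L1 X1 P1 = true := by decide +kernel

theorem sy2 : symD LMf 109 CL PS BS 0 21267647932558653971072598982912901121 122 25 G2 L2 X2 P2 = true := by decide +kernel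

theorem sy3 : symD LMf 109 CL PS BS 0 21267647932558653971072598982912901121 122 25 G3 L3 X3 P3 = true := by decide +kernel

theorem sy4 : symD LMf 109 CL PS BS 0 21267647932558653971072598982912901121 122 25 G4 L4 X4 P4 = true := by decide +kernel

theorem sy5 : symD LMf 109 CL PS BS 0 21267647932558653971072598982912901121 122 25 G5 L5 X5 P5 = true := by decide +kernel

theorem sy6 : symD LMf 109 CL PS BS 0 21267647932558653971072598982912901121 122 25 G6 L6 X6 P6 = true := by decide +kernel

theorem sy7 : symD LMf 109 CL PS BS 0 21267647932558653971072598982912901121 122 25 G7 L7 X7 P7 = true := by decide +kernel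

theorem sy8 : symD LMf 109 CL PS BS 0 21267647932558653971072598982912901121 122 25 G8 L8 X8 P8 = true := by decide +kernel

theorem sy9 : symD LMf 109 CL PS BS 0 21267647932558653971072598982912901121 122 25 G9 L9 X9 P9 = true := by decide +kernel

theorem sy10 : symD LMf 109 CL PS BS 0 21267647932558653971072598982912901121 122 25 G10 L10 X10 P10 = true := by decide +kernel

theorem sy11 : symD LMf 109 CL PS BS 0 21267647932558653971072598982912901121 122 25 G11 L11 X11 P11 = true := by decide +kernel

theorem sy12 : symD LMf 109 CL PS BS 0 21267647932558653971072598982912901121 122 25 G12 L12 X12 P12 = true := by decide +kernel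

theorem sy13 : symD LMf 109 CL PS BS 0 21267647932558653971072598982912901121 122 25 G13 L13 X13 P13 = true := by decide +kernel

theorem sy14 : symD LMf 109 CL PS BS 0 21267647932558653971072598982912901121 122 25 G14 L14 X14 P14 = true := by decide +kernel

theorem sy15 : symD LMf 109 CL PS BS 0 21267647932558653971072598982912901121 122 25 G15 L15 X15 P15 = true := by decide +kernel

theorem sy16 : symD LMf 109 CL PS BS 0 21267647932558653971072598982912901121 122 25 G16 L16 X16 P16 = true := by decide +kernel

theorem sy17 : symD LMf 109 CL PS BS 0 21267647932558653971072598982912901121 122 25 G17 L17 X17 P17 = true := by decide +kernel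

theorem sy18 : symD LMf 109 CL PS BS 0 21267647932558653971072598982912901121 122 25 G18 L18 X18 P18 = true := by decide +kernel

theorem sy19 : symD LMf 109 CL PS BS 0 21267647932558653971072598982912901121 122 25 G19 L19 X19 P19 = true := by decide +kernel

theorem sy20 : symD LMf 109 CL PS BS 0 21267647932558653971072598982912901121 122 25 G20 L20 X20 P20 = true := by decide +kernel

theorem sy21 : symD LMf 109 CL PS BS 0 21267647932558653971072598982912901121 122 25 G21 L21 X21 P21 = true := by decide +kernel

theorem sy22 : symD LMf 109 CL PS BS 0 21267647932558653971072598982912901121 122 25 G22 L22 X22 P22 = true := by decide +kernel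

theorem sy23 : symD LMf 109 CL PS BS 0 21267647932558653971072598982912901121 122 25 G23 L23 X23 P23 = true := by decide +kernel

theorem rep : repD sel PS BS US 122 = true := by decide +kernel

end DC

end Pool.Agent.MP_c0c4a4_co.N5
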