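import Mathlib
import Pool.Agent.MP_c0c4a4_co.N5.Rows
import Pool.Agent.MP_c0c4a4_co.N5.Exc
import Pool.Agent.MP_c0c4a4_co.N5.Bad
import Pool.Agent.MP_c0c4a4_co.N5.SlotAll
import Pool.Agent.MP_c0c4a4_co.N5.DCSym
import Pool.Agent.MP_c0c4a4_co.N5.DCChk0
import Pool.Agent.MP_c0c4a4_co.N5.DCRow0
import Pool.Agent.MP_c0c4a4_co.N5.DCRow1
import Pool.Agent.MP_c0c4a4_co.N5.DCRow2
import Pool.Agent.MP_c0c4a4_co.N5.DCRow3
import Pool.Agent.MP_c0c4a4_co.N5.DCRow4
import Pool.Agent.MP_c0c4a4_co.N5.DCRow5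

/-!
The domain DC.
-/

set_option autoImplicit false

namespace Pool.Agent.MP_c0c4a4_co.N5

namespace DC

theorem dom : DomD 0 21267647932558653971072598982912901121 122 (e8 CL) (e8 PS) (e8 BS) := dom_sound cel

theorem sel_ok (g : ℕ) (cont : ℕ → ℕ → Bool) (h : sel g cont = true) :
    ∃ CX PX, SymQ LM 0 21267647932558653971072598982912901121 (e8 CL) (e8 PS) (e8 BS) 122 25 CX PX ∧ cont CX PX = true :=
  (selE h (fun h => (selE h (fun h => (selE h (fun h => (selE h (fun h => (selE h (fun h => ⟨_, _, symD_sound dom sy0, h⟩) (fun h => ⟨_, _, symD_sound dom sy1, h⟩))) (fun h => (selE h (fun h => ⟨_, _, symD_sound dom sy2, h⟩) (fun h => ⟨_, _, symD_sound dom sy3, h⟩))))) (fun h => (selE h (fun h => (selE h (fun h => ⟨_, _, symD_sound dom sy4, h⟩) (fun h => ⟨_, _, symD_sound dom sy5, h⟩))) (fun h => (selE h (fun h => ⟨_, _, symD_sound dom sy6, h⟩) (fun h => ⟨_, _, symD_sound dom sy7, h⟩))))))) (fun h => (selE h (fun h => (selE h (fun h => (selE h (fun h => ⟨_, _, symD_sound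 dom sy8, h⟩) (fun h => ⟨_, _, symD_sound dom sy9, h⟩))) (fun h => (selE h (fun h => ⟨_, _, symD_sound dom sy10, h⟩) (fun h => ⟨_, _, symD_sound dom sy11, h⟩))))) (fun h => (selE h (fun h => (selE h (fun h => ⟨_, _, symD_sound dom sy12, h⟩) (fun h => ⟨_, _, symD_sound dom sy13, h⟩))) (fun h => (selE h (fun h => ⟨_, _, symD_sound dom sy14, h⟩) (fun h => ⟨_, _, symD_sound dom sy15, h⟩))))))))) (fun h => (selE h (fun h => (selE h (fun h => (selE h (fun h => (selE h (fun h => ⟨_, _, symD_sound dom sy16, h⟩) (fun h => ⟨_, _, symD_sound dom sy17, h⟩))) (fun h => (selE h (fun h => ⟨_, _, symD_sound dom sy18, h⟩) (fun h => ⟨_, _, symD_sound dom sy19, h⟩))))) (fun h => (selE h (fun h => (selE h (fun h => ⟨_, _, symD_sound dom sy20, h⟩) (fun h => ⟨_, _, symD_sound dom sy21, h⟩))) (fun h => (selE h (fun h => ⟨_, _, symD_sound dom sy22, h⟩) (fun h => ⟨_, _, symD_sound dom sy23, h⟩))))))) (fun h => (selE h (fun h => (selE h (fun h => (selE h (fun h => ⟨_, _, symD_sound dom sy0,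 h⟩) (fun h => ⟨_, _, symD_sound dom sy0, h⟩))) (fun h => (selE h (fun h => ⟨_, _, symD_sound dom sy0, h⟩) (fun h => ⟨_, _, symD_sound dom sy0, h⟩))))) (fun h => (selE h (fun h => (selE h (fun h => ⟨_, _, symD_sound dom sy0, h⟩) (fun h => ⟨_, _, symD_sound dom sy0, h⟩))) (fun h => (selE h (fun h => ⟨_, _, symD_sound dom sy0, h⟩) (fun h => ⟨_, _, symD_sound dom sy0, h⟩))))))))))

theorem pl_ok {E D : ℕ} (h : all2 (plchk 345434794191254666939825736650879 0 E D) 6 0 = true) (j : ℕ) :
    PG LM (mset 21267647932558653971072598982912901121) (mset 0) (Nat.land (Nat.shiftRight E (Nat.mul 1536 (Nat.land j 63))) ME) :=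
  plchk_sound hit h j

theorem ent_ok (j : ℕ) : PG LM (mset 21267647932558653971072598982912901121) (mset 0) (ent j) := by
  let Q : ℕ → Prop := fun E => PG LM (mset 21267647932558653971072598982912901121) (mset 0) (Nat.land (Nat.shiftRight E (Nat.mul 1536 (Nat.land j 63))) ME)
  exact (treeE (P := Q) (treeE (P := Q) (treeE (P := Q) (pl_ok c0 j) (pl_ok c1 j)) (treeE (P := Q) (pl_ok c2 j) (pl_ok c3 j))) (treeE (P := Q) (treeE (P := Q) (pl_ok c4 j) (pl_ok c5 j)) (treeE (P := Q) (pl_ok c0 j) (pl_ok c0 j))))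

theorem tab : Tab 0 21267647932558653971072598982912901121 122 25 (e8 CL) (e8 PS) (e8 BS) sel ent :=
  ⟨dom, sel_ok, ent_ok, by norm_num, by norm_num, PS, BS, US, rfl, rfl, rep⟩

theorem starts : ∀ i, i < 122 → e8 BS i = i → i ∈ [0, 24, 36, 48, 60, 72, 78, 84, 90, 96, 102, 108, 114, 120] := by decide +kernel

theorem rw0 (j : ℕ) (h1 : 0 < j) (h2 : j < 122) : RowG3 0 21267647932558653971072598982912901121 (e8 CL) 122 0 j := by
  rcases Nat.lt_or_ge j 17 with g0 | g0
  · exact rows3_sound tab (by norm_num) r0_1 j h1 g0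
  rcases Nat.lt_or_ge j 24 with g1 | g1
  · exact rows3_sound tab (by norm_num) r0_17 j g0 g1
  rcases Nat.lt_or_ge j 40 with g2 | g2
  · exact rows3_sound tab (by norm_num) r0_24 j g1 g2
  rcases Nat.lt_or_ge j 56 with g3 | g3
  · exact rows3_sound tab (by norm_num) r0_40 j g2 g3
  rcases Nat.lt_or_ge j 72 with g4 | g4
  · exact rows3_sound tab (by norm_num) r0_56 j g3 g4
  rcases Nat.lt_or_ge j 73 with g5 | g5
  · exact rows3_sound tab (by norm_num) r0_72 j g4 g5
  rcases Nat.lt_or_ge j 89 with g6 | g6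
  · exact rows3_sound tab (by norm_num) r0_73 j g5 g6
  rcases Nat.lt_or_ge j 105 with g7 | g7
  · exact rows3_sound tab (by norm_num) r0_89 j g6 g7
  rcases Nat.lt_or_ge j 120 with g8 | g8
  · exact rows3_sound tab (by norm_num) r0_105 j g7 g8
  intro l x hl hx hn
  omega

theorem rw24 (j : ℕ) (h1 : 24 < j) (h2 : j < 122) : RowG3 0 21267647932558653971072598982912901121 (e8 CL) 122 24 j := by
  rcases Nat.lt_or_ge j 41 with g0 | g0
  · exact rows3_sound tab (by norm_num) r24_25 j h1 g0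
  rcases Nat.lt_or_ge j 57 with g1 | g1
  · exact rows3_sound tab (by norm_num) r24_41 j g0 g1
  rcases Nat.lt_or_ge j 62 with g2 | g2
  · exact rows3_sound tab (by norm_num) r24_57 j g1 g2
  rcases Nat.lt_or_ge j 78 with g3 | g3
  · exact rows3_sound tab (by norm_num) r24_62 j g2 g3
  rcases Nat.lt_or_ge j 94 with g4 | g4
  · exact rows3_sound tab (by norm_num) r24_78 j g3 g4
  rcases Nat.lt_or_ge j 110 with g5 | g5
  · exact rows3_sound tab (by norm_num) r24_94 j g4 g5
  rcases Nat.lt_or_ge j 120 with g6 | g6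
  · exact rows3_sound tab (by norm_num) r24_110 j g5 g6
  intro l x hl hx hn
  omega

theorem rw36 (j : ℕ) (h1 : 36 < j) (h2 : j < 122) : RowG3 0 21267647932558653971072598982912901121 (e8 CL) 122 36 j := by
  rcases Nat.lt_or_ge j 53 with g0 | g0
  · exact rows3_sound tab (by norm_num) r36_37 j h1 g0
  rcases Nat.lt_or_ge j 69 with g1 | g1
  · exact rows3_sound tab (by norm_num) r36_53 j g0 g1
  rcases Nat.lt_or_ge j 85 with g2 | g2
  · exact rows3_sound tab (by norm_num) r36_69 j g1 g2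
  rcases Nat.lt_or_ge j 93 with g3 | g3
  · exact rows3_sound tab (by norm_num) r36_85 j g2 g3
  rcases Nat.lt_or_ge j 109 with g4 | g4
  · exact rows3_sound tab (by norm_num) r36_93 j g3 g4
  rcases Nat.lt_or_ge j 120 with g5 | g5
  · exact rows3_sound tab (by norm_num) r36_109 j g4 g5
  intro l x hl hx hn
  omega

theorem rw48 (j : ℕ) (h1 : 48 < j) (h2 : j < 122) : RowG3 0 21267647932558653971072598982912901121 (e8 CL) 122 48 j := by
  rcases Nat.lt_or_ge j 65 with g0 | g0
  · exact rows3_sound tab (by norm_num) r48_49 j h1 g0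
  rcases Nat.lt_or_ge j 81 with g1 | g1
  · exact rows3_sound tab (by norm_num) r48_65 j g0 g1
  rcases Nat.lt_or_ge j 97 with g2 | g2
  · exact rows3_sound tab (by norm_num) r48_81 j g1 g2
  rcases Nat.lt_or_ge j 113 with g3 | g3
  · exact rows3_sound tab (by norm_num) r48_97 j g2 g3
  rcases Nat.lt_or_ge j 120 with g4 | g4
  · exact rows3_sound tab (by norm_num) r48_113 j g3 g4
  intro l x hl hx hn
  omega

theorem rw60 (j : ℕ) (h1 : 60 < j) (h2 : j < 122) : RowG3 0 21267647932558653971072598982912901121 (e8 CL) 122 60 j := by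
  rcases Nat.lt_or_ge j 77 with g0 | g0
  · exact rows3_sound tab (by norm_num) r60_61 j h1 g0
  rcases Nat.lt_or_ge j 93 with g1 | g1
  · exact rows3_sound tab (by norm_num) r60_77 j g0 g1
  rcases Nat.lt_or_ge j 109 with g2 | g2
  · exact rows3_sound tab (by norm_num) r60_93 j g1 g2
  rcases Nat.lt_or_ge j 120 with g3 | g3
  · exact rows3_sound tab (by norm_num) r60_109 j g2 g3
  intro l x hl hx hn
  omega

theorem rw72 (j : ℕ) (h1 : 72 < j) (h2 : j < 122) : RowG3 0 21267647932558653971072598982912901121 (e8 CL) 122 72 j := by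
  rcases Nat.lt_or_ge j 89 with g0 | g0
  · exact rows3_sound tab (by norm_num) r72_73 j h1 g0
  rcases Nat.lt_or_ge j 105 with g1 | g1
  · exact rows3_sound tab (by norm_num) r72_89 j g0 g1
  rcases Nat.lt_or_ge j 109 with g2 | g2
  · exact rows3_sound tab (by norm_num) r72_105 j g1 g2
  rcases Nat.lt_or_ge j 120 with g3 | g3
  · exact rows3_sound tab (by norm_num) r72_109 j g2 g3
  intro l x hl hx hn
  omega

theorem rw78 (j : ℕ) (h1 : 78 < j) (h2 : j < 122) : RowG3 0 21267647932558653971072598982912901121 (e8 CL) 122 78 j := by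
  rcases Nat.lt_or_ge j 95 with g0 | g0
  · exact rows3_sound tab (by norm_num) r78_79 j h1 g0
  rcases Nat.lt_or_ge j 111 with g1 | g1
  · exact rows3_sound tab (by norm_num) r78_95 j g0 g1
  rcases Nat.lt_or_ge j 120 with g2 | g2
  · exact rows3_sound tab (by norm_num) r78_111 j g1 g2
  intro l x hl hx hn
  omega

theorem rw84 (j : ℕ) (h1 : 84 < j) (h2 : j < 122) : RowG3 0 21267647932558653971072598982912901121 (e8 CL) 122 84 j := by
  rcases Nat.lt_or_ge j 101 with g0 | g0
  · exact rows3_sound tab (by norm_num) r84_85 j h1 g0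
  rcases Nat.lt_or_ge j 117 with g1 | g1
  · exact rows3_sound tab (by norm_num) r84_101 j g0 g1
  rcases Nat.lt_or_ge j 120 with g2 | g2
  · exact rows3_sound tab (by norm_num) r84_117 j g1 g2
  intro l x hl hx hn
  omega

theorem rw90 (j : ℕ) (h1 : 90 < j) (h2 : j < 122) : RowG3 0 21267647932558653971072598982912901121 (e8 CL) 122 90 j := by
  rcases Nat.lt_or_ge j 107 with g0 | g0
  · exact rows3_sound tab (by norm_num) r90_91 j h1 g0
  rcases Nat.lt_or_ge j 120 with g1 | g1
  · exact rows3_sound tab (by norm_num) r90_107 j g0 g1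
  intro l x hl hx hn
  omega

theorem rw96 (j : ℕ) (h1 : 96 < j) (h2 : j < 122) : RowG3 0 21267647932558653971072598982912901121 (e8 CL) 122 96 j := by
  rcases Nat.lt_or_ge j 113 with g0 | g0
  · exact rows3_sound tab (by norm_num) r96_97 j h1 g0
  rcases Nat.lt_or_ge j 120 with g1 | g1
  · exact rows3_sound tab (by norm_num) r96_113 j g0 g1
  intro l x hl hx hn
  omega

theorem rw102 (j : ℕ) (h1 : 102 < j) (h2 : j < 122) : RowG3 0 21267647932558653971072598982912901121 (e8 CL) 122 102 j := by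
  rcases Nat.lt_or_ge j 119 with g0 | g0
  · exact rows3_sound tab (by norm_num) r102_103 j h1 g0
  rcases Nat.lt_or_ge j 120 with g1 | g1
  · exact rows3_sound tab (by norm_num) r102_119 j g0 g1
  intro l x hl hx hn
  omega

theorem rw108 (j : ℕ) (h1 : 108 < j) (h2 : j < 122) : RowG3 0 21267647932558653971072598982912901121 (e8 CL) 122 108 j := by
  rcases Nat.lt_or_ge j 120 with g0 | g0
  · exact rows3_sound tab (by norm_num) r108_109 j h1 g0
  intro l x hl hx hn
  omega

theorem rw114 (j : ℕ) (h1 : 114 < j) (h2 : j < 122) : RowG3 0 21267647932558653971072598982912901121 (e8 CL) 122 114 j := by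
  rcases Nat.lt_or_ge j 120 with g0 | g0
  · exact rows3_sound tab (by norm_num) r114_115 j h1 g0
  intro l x hl hx hn
  omega

theorem rw120 (j : ℕ) (h1 : 120 < j) (h2 : j < 122) : RowG3 0 21267647932558653971072598982912901121 (e8 CL) 122 120 j := by
  intro l x hl hx hn
  omega

theorem good : DomG 0 21267647932558653971072598982912901121 3 := by
  refine dom3 tab (by norm_num) ?_
  intro i hi hb j h1 h2
  have hs := starts i hi hb
  simp only [List.mem_cons, List.not_mem_nil, or_false] at hs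
  rcases hs with rfl | rfl | rfl | rfl | rfl | rfl | rfl | rfl | rfl | rfl | rfl | rfl | rfl | rfl
  · exact rw0 j h1 h2
  · exact rw24 j h1 h2
  · exact rw36 j h1 h2
  · exact rw48 j h1 h2
  · exact rw60 j h1 h2
  · exact rw72 j h1 h2
  · exact rw78 j h1 h2
  · exact rw84 j h1 h2
  · exact rw90 j h1 h2
  · exact rw96 j h1 h2
  · exact rw102 j h1 h2
  · exact rw108 j h1 h2
  · exact rw114 j h1 h2
  · exact rw120 j h1 h2

end DC

end Pool.Agent.MP_c0c4a4_co.N5
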