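import Mathlib
import Pool.Agent.MP_c0c4a4_co.N5.Rows
import Pool.Agent.MP_c0c4a4_co.N5.Exc
import Pool.Agent.MP_c0c4a4_co.N5.Bad
import Pool.Agent.MP_c0c4a4_co.N5.SlotAll
import Pool.Agent.MP_c0c4a4_co.N5.DE0Sym
import Pool.Agent.MP_c0c4a4_co.N5.DE0Chk0
import Pool.Agent.MP_c0c4a4_co.N5.DE0Row0

/-!
The domain DE0.
-/

set_option autoImplicit false

namespace Pool.Agent.MP_c0c4a4_co.N5

namespace DE0

theorem dom : DomD 21267647932558653966460912964485513216 4611686020574871553 121 (e8 CL) (e8 PS) (e8 BS) := dom_sound cel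

theorem sel_ok (g : ℕ) (cont : ℕ → ℕ → Bool) (h : sel g cont = true) :
    ∃ CX PX, SymQ LM 21267647932558653966460912964485513216 4611686020574871553 (e8 CL) (e8 PS) (e8 BS) 121 25 CX PX ∧ cont CX PX = true :=
  (selE h (fun h => (selE h (fun h => (selE h (fun h => ⟨_, _, symD_sound dom sy0, h⟩) (fun h => ⟨_, _, symD_sound dom sy1, h⟩))) (fun h => (selE h (fun h => ⟨_, _, symD_sound dom sy2, h⟩) (fun h => ⟨_, _, symD_sound dom sy3, h⟩))))) (fun h => (selE h (fun h => (selE h (fun h => ⟨_, _, symD_sound dom sy4, h⟩) (fun h => ⟨_, _, symD_sound dom sy5, h⟩))) (fun h => (selE h (fun h => ⟨_, _, symD_sound dom sy0, h⟩) (fun h => ⟨_, _, symD_sound dom sy0, h⟩))))))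

theorem pl_ok {E D : ℕ} (h : all2 (plchk 5629678966911038917710463 21267647932558653966460912964485513216 E D) 6 0 = true) (j : ℕ) :
    PG LM (mset 4611686020574871553) (mset 21267647932558653966460912964485513216) (Nat.land (Nat.shiftRight E (Nat.mul 1536 (Nat.land j 63))) ME) :=
  plchk_sound hit h j

theorem ent_ok (j : ℕ) : PG LM (mset 4611686020574871553) (mset 21267647932558653966460912964485513216) (ent j) := by
  let Q : ℕ → Prop := fun E => PG LM (mset 4611686020574871553) (mset 21267647932558653966460912964485513216) (Nat.land (Nat.shiftRight E (Nat.mul 1536 (Nat.land j 63))) ME)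
  exact (treeE (P := Q) (pl_ok c0 j) (pl_ok c1 j))

theorem tab : Tab 21267647932558653966460912964485513216 4611686020574871553 121 25 (e8 CL) (e8 PS) (e8 BS) sel ent :=
  ⟨dom, sel_ok, ent_ok, by norm_num, by norm_num, PS, BS, US, rfl, rfl, rep⟩

theorem starts : ∀ i, i < 121 → e8 BS i = i → i ∈ [0, 6, 12, 18, 24, 30, 36, 42, 48, 54, 60, 63, 66, 69, 72, 75, 78, 81, 84, 87, 90, 93, 96, 99, 102, 105, 108, 111, 114, 117, 120] := by decide +kernel

theorem rws : ∀ i, i < 121 → e8 BS i = i → RowG2 21267647932558653966460912964485513216 4611686020574871553 (e8 CL) 121 i := by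
  intro i hi hb
  have hs := starts i hi hb
  simp only [List.mem_cons, List.not_mem_nil, or_false] at hs
  rcases hs with rfl | rfl | rfl | rfl | rfl | rfl | rfl | rfl | rfl | rfl | rfl | rfl | rfl | rfl | rfl | rfl | rfl | rfl | rfl | rfl | rfl | rfl | rfl | rfl | rfl | rfl | rfl | rfl | rfl | rfl | rfl
  · exact row2_sound tab r0
  · exact row2_sound tab r6
  · exact row2_sound tab r12
  · exact row2_sound tab r18
  · exact row2_sound tab r24
  · exact row2_sound tab r30
  · exact row2_sound tab r36
  · exact row2_sound tab r42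
  · exact row2_sound tab r48
  · exact row2_sound tab r54
  · exact row2_sound tab r60
  · exact row2_sound tab r63
  · exact row2_sound tab r66
  · exact row2_sound tab r69
  · exact row2_sound tab r72
  · exact row2_sound tab r75
  · exact row2_sound tab r78
  · exact row2_sound tab r81
  · exact row2_sound tab r84
  · exact row2_sound tab r87
  · exact row2_sound tab r90
  · exact row2_sound tab r93
  · exact row2_sound tab r96
  · exact row2_sound tab r99
  · exact row2_sound tab r102
  · exact row2_sound tab r105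
  · exact row2_sound tab r108
  · exact row2_sound tab r111
  · exact row2_sound tab r114
  · exact row2_sound tab r117
  · intro j x h1 h2 h3
    omega

theorem good : DomG 21267647932558653966460912964485513216 4611686020574871553 2 := dom2 tab (by norm_num) rws

theorem good3 : ∀ F : Finset ℕ, F.card = 3 → (∀ c ∈ F, c < 125 ∧ c ∉ mset 21267647932558653966460912964485513216 ∧ c ∉ mset 4611686020574871553) →
    OKp LM (mset 4611686020574871553) (mset 21267647932558653966460912964485513216 ∪ F) := domO2 tab rws

end DE0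

end Pool.Agent.MP_c0c4a4_co.N5
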