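import Mathlib
import Pool.Agent.MP_c0c4a4_co.N5.Rows
import Pool.Agent.MP_c0c4a4_co.N5.Exc
import Pool.Agent.MP_c0c4a4_co.N5.Bad
import Pool.Agent.MP_c0c4a4_co.N5.SlotAll
import Pool.Agent.MP_c0c4a4_co.N5.DE1Sym
import Pool.Agent.MP_c0c4a4_co.N5.DE1Chk0
import Pool.Agent.MP_c0c4a4_co.N5.DE1Row0

/-!
The domain DE1.
-/

set_option autoImplicit false

namespace Pool.Agent.MP_c0c4a4_co.N5

namespace DE1

theorem dom : DomD 21267647932558653966460912966632996864 9903520318894728217620381697 120 (e8 CL) (e8 PS) (e8 BS) := dom_sound cel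

theorem sel_ok (g : ℕ) (cont : ℕ → ℕ → Bool) (h : sel g cont = true) :
    ∃ CX PX, SymQ LM 21267647932558653966460912966632996864 9903520318894728217620381697 (e8 CL) (e8 PS) (e8 BS) 120 24 CX PX ∧ cont CX PX = true :=
  (selE h (fun h => (selE h (fun h => (selE h (fun h => (selE h (fun h => ⟨_, _, symD_sound dom sy0, h⟩) (fun h => ⟨_, _, symD_sound dom sy1, h⟩))) (fun h => (selE h (fun h => ⟨_, _, symD_sound dom sy2, h⟩) (fun h => ⟨_, _, symD_sound dom sy3, h⟩))))) (fun h => (selE h (fun h => (selE h (fun h => ⟨_, _, symD_sound dom sy4, h⟩) (fun h => ⟨_, _, symD_sound dom sy5, h⟩))) (fun h => (selE h (fun h => ⟨_, _, symD_sound dom sy6, h⟩) (fun h => ⟨_, _, symD_sound dom sy7, h⟩))))))) (fun h => (selE h (fun h => (selE h (fun h => (selE h (fun h => ⟨_, _, symD_sound dom sy8, h⟩) (fun h => ⟨_, _, symD_sound dom sy9, h⟩))) (fun h => (selE h (fun h => ⟨_, _, symD_sound dom sy10, h⟩) (fun h => ⟨_, _, symD_sound dom sy11, h⟩))))) (fun h => (selE h (fun h => (selE h (fun h => ⟨_, _, symD_sound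 dom sy0, h⟩) (fun h => ⟨_, _, symD_sound dom sy0, h⟩))) (fun h => (selE h (fun h => ⟨_, _, symD_sound dom sy0, h⟩) (fun h => ⟨_, _, symD_sound dom sy0, h⟩))))))))

theorem pl_ok {E D : ℕ} (h : all2 (plchk 41012392862329216071235571839 21267647932558653966460912966632996864 E D) 6 0 = true) (j : ℕ) :
    PG LM (mset 9903520318894728217620381697) (mset 21267647932558653966460912966632996864) (Nat.land (Nat.shiftRight E (Nat.mul 1536 (Nat.land j 63))) ME) :=
  plchk_sound hit h j

theorem ent_ok (j : ℕ) : PG LM (mset 9903520318894728217620381697) (mset 21267647932558653966460912966632996864) (ent j) := by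
  let Q : ℕ → Prop := fun E => PG LM (mset 9903520318894728217620381697) (mset 21267647932558653966460912966632996864) (Nat.land (Nat.shiftRight E (Nat.mul 1536 (Nat.land j 63))) ME)
  exact (pl_ok c0 j)

theorem tab : Tab 21267647932558653966460912966632996864 9903520318894728217620381697 120 24 (e8 CL) (e8 PS) (e8 BS) sel ent :=
  ⟨dom, sel_ok, ent_ok, by norm_num, by norm_num, PS, BS, US, rfl, rfl, rep⟩

theorem good : DomG 21267647932558653966460912966632996864 9903520318894728217620381697 1 := dom1 tab (by norm_num) (row1_sound tab r)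

end DE1

end Pool.Agent.MP_c0c4a4_co.N5
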