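import Pool.Agent.MP_c0c4a4_co.N5.DE2Dat

/-!
The node of the domain DE2.
-/

set_option autoImplicit false

namespace Pool.Agent.MP_c0c4a4_co.N5

namespace DE2

/-- data -/
noncomputable def W : Nat := 0x424188424444412282200300200100041808080cc0008c0a1108c4440a441440018008010002080152900556206091090888a084504400800c00400102fd54b4cd54c4850231022225088288006004002000804

theorem r : ndOK sel ent 0 0 0 119 24 W = true := by decide +kernel

end DE2

end Pool.Agent.MP_c0c4a4_co.N5
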