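import Pool.Agent.MP_c0c4a4_co.N5.DE2Dat

/-!
Symmetries of the domain DE2.
-/

set_option autoImplicit false

namespace Pool.Agent.MP_c0c4a4_co.N5

namespace DE2

theorem cel : celOK CL PS BS 21267647942462174280743955165825990656 4611686018427387921 119 = true := by decide +kernel

theorem sy0 : symD LMf 109 CL PS BS 21267647942462174280743955165825990656 4611686018427387921 119 24 G0 L0 X0 P0 = true := by decide +kernel

theorem sy1 : symD LMf 109 CL PS BS 21267647942462174280743955165825990656 4611686018427387921 119 24 G1 L1 X1 P1 = true := by decide +kernel

theorem sy2 : symD LMf 109 CL PS BS 21267647942462174280743955165825990656 4611686018427387921 119 24 G2 L2 X2 P2 = true := by decide +kernel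

theorem sy3 : symD LMf 109 CL PS BS 21267647942462174280743955165825990656 4611686018427387921 119 24 G3 L3 X3 P3 = true := by decide +kernel

theorem rep : repD sel PS BS US 119 = true := by decide +kernel

end DE2

end Pool.Agent.MP_c0c4a4_co.N5
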