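import Mathlib
import Pool.Agent.MP_c0c4a4_co.N5.Rows
import Pool.Agent.MP_c0c4a4_co.N5.Exc
import Pool.Agent.MP_c0c4a4_co.N5.Bad
import Pool.Agent.MP_c0c4a4_co.N5.SlotAll
import Pool.Agent.MP_c0c4a4_co.N5.DE2Sym
import Pool.Agent.MP_c0c4a4_co.N5.DE2Chk0
import Pool.Agent.MP_c0c4a4_co.N5.DE2Row0

/-!
The domain DE2.
-/

set_option autoImplicit false

namespace Pool.Agent.MP_c0c4a4_co.N5

namespace DE2

theorem dom : DomD 21267647942462174280743955165825990656 4611686018427387921 119 (e8 CL) (e8 PS) (e8 BS) := dom_sound cel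

theorem sel_ok (g : ℕ) (cont : ℕ → ℕ → Bool) (h : sel g cont = true) :
    ∃ CX PX, SymQ LM 21267647942462174280743955165825990656 4611686018427387921 (e8 CL) (e8 PS) (e8 BS) 119 24 CX PX ∧ cont CX PX = true :=
  (selE h (fun h => (selE h (fun h => ⟨_, _, symD_sound dom sy0, h⟩) (fun h => ⟨_, _, symD_sound dom sy1, h⟩))) (fun h => (selE h (fun h => ⟨_, _, symD_sound dom sy2, h⟩) (fun h => ⟨_, _, symD_sound dom sy3, h⟩))))

theorem pl_ok {E D : ℕ} (h : all2 (plchk 5629061000984569600479359 21267647942462174280743955165825990656 E D) 6 0 = true) (j : ℕ) :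
    PG LM (mset 4611686018427387921) (mset 21267647942462174280743955165825990656) (Nat.land (Nat.shiftRight E (Nat.mul 1536 (Nat.land j 63))) ME) :=
  plchk_sound hit h j

theorem ent_ok (j : ℕ) : PG LM (mset 4611686018427387921) (mset 21267647942462174280743955165825990656) (ent j) := by
  let Q : ℕ → Prop := fun E => PG LM (mset 4611686018427387921) (mset 21267647942462174280743955165825990656) (Nat.land (Nat.shiftRight E (Nat.mul 1536 (Nat.land j 63))) ME)
  exact (pl_ok c0 j)

theorem tab : Tab 21267647942462174280743955165825990656 4611686018427387921 119 24 (e8 CL) (e8 PS) (e8 BS) sel ent :=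
  ⟨dom, sel_ok, ent_ok, by norm_num, by norm_num, PS, BS, US, rfl, rfl, rep⟩

theorem good : DomG 21267647942462174280743955165825990656 4611686018427387921 0 := dom0 tab (by norm_num) (row0_sound tab r)

end DE2

end Pool.Agent.MP_c0c4a4_co.N5
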