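import Mathlib
import Pool.Agent.MP_c0c4a4_co.N5.Rows

/-!
The opening moves.
-/

set_option autoImplicit false

namespace Pool.Agent.MP_c0c4a4_co.N5

/-- all positions with the stones `MF` and `k` further stones of Maker, and the stones `B` of
Breaker, are won by Breaker -/
def DomS (MF B : Set ℕ) (k : ℕ) : Prop := ∀ F : Finset ℕ, F.card = k →
  (∀ c ∈ F, c < 125 ∧ c ∉ MF ∧ c ∉ B) → Bw (fam LM (MF ∪ F) B)

theorem Sym2.surj {G : ℕ} (h : Sym2 LMf 109 G) {c : ℕ} (hc : c < 125) :
    ∃ d, d < 125 ∧ gmap G d = c := by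
  let f : Fin 125 → Fin 125 := fun i => ⟨e8 G i, h.lt i i.2⟩
  have hf : Function.Injective f := by
    intro i j hij
    have h1 : e8 G i = e8 G j := congrArg Fin.val hij
    have h2 : gmap G i = gmap G j := by
      rw [gmap_of_lt i.2, gmap_of_lt j.2, h1]
    exact Fin.ext (h.inj h2)
  obtain ⟨d, hd⟩ := (Finite.injective_iff_surjective.1 hf) ⟨c, hc⟩
  refine ⟨d, d.2, ?_⟩
  rw [gmap_of_lt d.2]
  exact congrArg Fin.val hd

theorem exists_free (S : Set ℕ) (T : Finset ℕ) (h : S ⊆ T) (hT : T.card < 125) :
    ∃ x, x < 125 ∧ x ∉ S := by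
  by_contra hcon
  push Not at hcon
  have hsub : Finset.range 125 ⊆ T := fun i hi => h (hcon i (Finset.mem_range.1 hi))
  have := Finset.card_le_card hsub
  rw [Finset.card_range] at this
  omega

/-- the exceptional positions -/
theorem exc {MF B : Set ℕ} {e y1 y2 : ℕ}
    (h0 : DomS MF (insert e B) 2) (h1 : DomS (insert e MF) (insert y1 B) 1)
    (h2 : DomS (insert y1 (insert e MF)) (insert y2 B) 0)
    (he : e ∉ MF) (hy1 : y1 ∉ insert e MF) (hy2 : y2 ∉ insert y1 (insert e MF)) :
    ∀ a b, a < 125 → b < 125 → a ≠ b → a ∉ MF → a ∉ B → b ∉ MF → b ∉ B →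
      OKp LM B (insert a (insert b MF)) := by
  have key : ∀ b, b < 125 → b ≠ e → b ∉ MF → b ∉ B → OKp LM B (insert e (insert b MF)) := by
    intro b hb hbe hbM hbB
    by_cases hy : b = y1
    · subst hy
      refine ⟨y2, ?_, ?_⟩
      · intro h
        apply hy2
        rcases h with rfl | rfl | h
        · exact Or.inr (Or.inl rfl)
        · exact Or.inl rfl
        · exact Or.inr (Or.inr h)
      · have := h2 ∅ rfl (by simp)
        rw [Finset.coe_empty, Set.union_empty, Set.insert_comm] at this
        exact this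
    · refine ⟨y1, ?_, ?_⟩
      · intro h
        apply hy1
        rcases h with rfl | rfl | h
        · exact Or.inl rfl
        · exact (hy rfl).elim
        · exact Or.inr h
      · have := h1 {b} rfl (by
          intro c hc
          rw [Finset.mem_singleton] at hc
          subst hc
          refine ⟨hb, ?_, ?_⟩
          · rintro (h | h)
            · exact hbe h
            · exact hbM h
          · rintro (h | h)
            · exact hy h
            · exact hbB h)
        have e1 : insert e MF ∪ (({b} : Finset ℕ) : Set ℕ) = insert e (insert b MF) := by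
          ext c
          simp only [Finset.coe_singleton, Set.mem_union, Set.mem_insert_iff, Set.mem_singleton_iff]
          tauto
        rw [e1] at this
        exact this
  intro a b ha hb hab haM haB hbM hbB
  by_cases h1' : a = e
  · subst h1'
    exact key b hb (Ne.symm hab) hbM hbB
  by_cases h2' : b = e
  · subst h2'
    rw [Set.insert_comm]
    exact key a ha hab haM haB
  refine ⟨e, ?_, ?_⟩
  · rintro (h | h | h)
    · exact h1' h.symm
    · exact h2' h.symm
    · exact he h
  · have := h0 {a, b} (Finset.card_pair hab) (by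
      intro c hc
      rw [Finset.mem_insert, Finset.mem_singleton] at hc
      rcases hc with rfl | rfl
      · refine ⟨ha, haM, ?_⟩
        rintro (h | h)
        · exact h1' h
        · exact haB h
      · refine ⟨hb, hbM, ?_⟩
        rintro (h | h)
        · exact h2' h
        · exact hbB h)
    have e1 : MF ∪ (({a, b} : Finset ℕ) : Set ℕ) = insert a (insert b MF) := by
      ext c
      simp only [Finset.coe_insert, Finset.coe_singleton, Set.mem_union, Set.mem_insert_iff,
        Set.mem_singleton_iff]
      tauto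
    rw [e1] at this
    exact this

/-- positions with two free stones of Maker in which Breaker wants to take the cell `b` -/
def Lvl (MF B : Set ℕ) (b : ℕ) : Prop :=
  ∀ a c, a < 125 → c < 125 → a ≠ c → a ∉ MF → a ∉ B → a ≠ b → c ∉ MF → c ∉ B → c ≠ b →
    Bw (fam LM (insert a (insert c MF)) B)

theorem lvl_of {MF B : Set ℕ} {b : ℕ} (hb : b < 125) (hbM : b ∉ MF) (hbB : b ∉ B)
    (hA : DomS MF (insert b B) 3)
    (hE : ∀ a c, a < 125 → c < 125 → a ≠ c → a ∉ insert b MF → a ∉ B → c ∉ insert b MF → c ∉ B →
      OKp LM B (insert a (insert c (insert b MF)))) : Lvl MF B b := by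
  intro a c ha hc hac haM haB hab hcM hcB hcb
  refine fam_step LM_lt ⟨b, hb, ?_, hbB⟩ ?_
  · rintro (h | h | h)
    · exact hab h.symm
    · exact hcb h.symm
    · exact hbM h
  · intro x hx hxM hxB
    by_cases hxb : x = b
    · subst hxb
      obtain ⟨y, hy, hyb⟩ := hE a c ha hc hac (by
          rintro (h | h)
          · exact hab h
          · exact haM h) haB (by
          rintro (h | h)
          · exact hcb h
          · exact hcM h) hcB
      have e1 : insert a (insert c (insert x MF)) = insert x (insert a (insert c MF)) := by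
        ext z
        simp only [Set.mem_insert_iff]
        tauto
      rw [e1] at hy hyb
      exact ⟨y, fun h => hy (Or.inl h), fun h => hy (Or.inr h), hyb⟩
    · refine ⟨b, Ne.symm hxb, ?_, ?_⟩
      · rintro (h | h | h)
        · exact hab h.symm
        · exact hcb h.symm
        · exact hbM h
      · have hxa : x ≠ a := fun h => hxM (Or.inl h)
        have hxc : x ≠ c := fun h => hxM (Or.inr (Or.inl h))
        have hxMF : x ∉ MF := fun h => hxM (Or.inr (Or.inr h))
        have := hA {x, a, c} (by
            rw [Finset.card_eq_three]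
            exact ⟨x, a, c, hxa, hxc, hac, rfl⟩) (by
          intro z hz
          rw [Finset.mem_insert, Finset.mem_insert, Finset.mem_singleton] at hz
          rcases hz with rfl | rfl | rfl
          · refine ⟨hx, hxMF, ?_⟩
            rintro (h | h)
            · exact hxb h
            · exact hxB h
          · refine ⟨ha, haM, ?_⟩
            rintro (h | h)
            · exact hab h
            · exact haB h
          · refine ⟨hc, hcM, ?_⟩
            rintro (h | h)
            · exact hcb h
            · exact hcB h)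
        have e1 : MF ∪ (({x, a, c} : Finset ℕ) : Set ℕ) = insert x (insert a (insert c MF)) := by
          ext z
          simp only [Finset.coe_insert, Finset.coe_singleton, Set.mem_union, Set.mem_insert_iff,
            Set.mem_singleton_iff]
          tauto
        rw [e1] at this
        exact this

theorem Lvl.sym {MF B : Set ℕ} {b G : ℕ} (h : Lvl MF B b) (hs : Sym2 LMf 109 G) :
    Lvl (gmap G '' MF) (gmap G '' B) (gmap G b) := by
  intro a c ha hc hac haM haB hab hcM hcB hcb
  obtain ⟨a', ha', rfl⟩ := hs.surj ha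
  obtain ⟨c', hc', rfl⟩ := hs.surj hc
  have := hs.bw (h a' c' ha' hc' (fun h => hac (by rw [h]))
    (fun h => haM ⟨_, h, rfl⟩) (fun h => haB ⟨_, h, rfl⟩) (fun h => hab (by rw [h]))
    (fun h => hcM ⟨_, h, rfl⟩) (fun h => hcB ⟨_, h, rfl⟩) (fun h => hcb (by rw [h])))
  rw [Set.image_insert_eq, Set.image_insert_eq] at this
  exact this

/-- two possible continuations -/
theorem two_ways {M B : Set ℕ} {r1 s1 r2 s2 : ℕ} (h0 : ∃ x, x < 125 ∧ x ∉ M ∧ x ∉ B)
    (h1 : ∀ x, x < 125 → x ∉ M → x ∉ B → x ≠ r1 → x ≠ s1 → Bw (fam LM (insert x M) (insert r1 B)))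
    (h2 : ∀ x, x < 125 → x ∉ M → x ∉ B → x ≠ r2 → x ≠ s2 → Bw (fam LM (insert x M) (insert r2 B)))
    (hr1 : r1 ∉ M) (hr2 : r2 ∉ M) (d1 : r1 ≠ r2) (d2 : r1 ≠ s2) (d3 : s1 ≠ r2) (d4 : s1 ≠ s2) :
    Bw (fam LM M B) := by
  refine fam_step LM_lt h0 ?_
  intro x hx hxM hxB
  by_cases hc : x = r1 ∨ x = s1
  · have hx1 : x ≠ r2 := by
      rcases hc with rfl | rfl
      · exact d1
      · exact d3
    have hx2 : x ≠ s2 := by
      rcases hc with rfl | rfl
      · exact d2
      · exact d4
    exact ⟨r2, Ne.symm hx1, hr2, h2 x hx hxM hxB hx1 hx2⟩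
  · push Not at hc
    exact ⟨r1, Ne.symm hc.1, hr1, h1 x hx hxM hxB hc.1 hc.2⟩

/-- the centre opening, with the second stone of Maker at `a`: the images `{h, p, r1, s1}` and
`{h, p, r2, s2}` of the special set -/
theorem ctr_pair {m h p r1 s1 r2 s2 : ℕ} (a : ℕ) (ha : a < 125)
    (l1 : Lvl {m} {r1, p, h} s1) (l2 : Lvl {m} {r2, p, h} s2)
    (n : ∀ i ∈ [m, h, p, r1, s1, r2, s2], a ≠ i)
    (hm : m ≠ r1 ∧ m ≠ r2) (d1 : r1 ≠ r2) (d2 : r1 ≠ s2) (d3 : s1 ≠ r2) (d4 : s1 ≠ s2) :
    Bw (fam LM {a, m} {p, h}) := by
  simp only [List.mem_cons, List.not_mem_nil, or_false, forall_eq_or_imp, forall_eq] at n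
  obtain ⟨n1, n2, n3, n4, n5, n6, n7⟩ := n
  refine two_ways (r1 := r1) (s1 := s1) (r2 := r2) (s2 := s2) ?_ ?_ ?_ ?_ ?_ d1 d2 d3 d4
  · obtain ⟨x, hx, hxn⟩ := exists_free {a, m, p, h} {a, m, p, h} (by simp)
      (lt_of_le_of_lt Finset.card_le_four (by norm_num))
    simp only [Set.mem_insert_iff, Set.mem_singleton_iff, not_or] at hxn
    refine ⟨x, hx, ?_, ?_⟩
    · rintro (h' | h')
      · exact hxn.1 h'
      · exact hxn.2.1 h'
    · rintro (h' | h')
      · exact hxn.2.2.1 h'
      · exact hxn.2.2.2 h'
  · intro x hx hxM hxB hx1 hx2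
    have := l1 x a hx ha (fun e => hxM (Or.inl e)) (fun e => hxM (Or.inr e))
      (by
        rintro (e | e | e)
        · exact hx1 e
        · exact hxB (Or.inl e)
        · exact hxB (Or.inr e)) hx2 n1
      (by
        rintro (e | e | e)
        · exact n4 e
        · exact n3 e
        · exact n2 e) n5
    exact this
  · intro x hx hxM hxB hx1 hx2
    have := l2 x a hx ha (fun e => hxM (Or.inl e)) (fun e => hxM (Or.inr e))
      (by
        rintro (e | e | e)
        · exact hx1 e
        · exact hxB (Or.inl e)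
        · exact hxB (Or.inr e)) hx2 n1
      (by
        rintro (e | e | e)
        · exact n6 e
        · exact n3 e
        · exact n2 e) n7
    exact this
  · rintro (e | e)
    · exact n4 e.symm
    · exact hm.1 e.symm
  · rintro (e | e)
    · exact n6 e.symm
    · exact hm.2 e.symm

theorem mset_lor (a b : ℕ) : mset (Nat.lor a b) = mset a ∪ mset b := by
  ext c
  exact mem_lor

theorem mset_pow (a : ℕ) : mset (Nat.pow 2 a) = {a} := by
  ext c
  exact mem_pow

end Pool.Agent.MP_c0c4a4_co.N5
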