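import Mathlib
import Pool.Agent.MP_c0c4a4_co.N5.Bad
import Pool.Agent.MP_c0c4a4_co.N5.Top

/-!
The opening moves: threats of Maker on lines through the centre.
-/

set_option autoImplicit false

namespace Pool.Agent.MP_c0c4a4_co.N5

/-- a threat forces the answer -/
theorem forced {B S : Set ℕ} {y z m : ℕ} (hm : m ∈ LM) (hd : Disjoint (mset m) B)
    (hsub : mset m ⊆ insert z S) (hz : z ∈ mset m) (hzS : z ∉ S) (hy : y ∉ S)
    (h : Bw (fam LM S (insert y B))) : y = z := by
  by_contra hne
  have hym : y ∉ mset m := by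
    intro h'
    rcases hsub h' with h'' | h''
    · exact hne h''
    · exact hy h''
  have ht : mset m \ S = {z} := by
    ext c
    constructor
    · rintro ⟨h1, h2⟩
      rcases hsub h1 with h3 | h3
      · exact h3
      · exact (h2 h3).elim
    · intro hc
      rw [Set.mem_singleton_iff] at hc
      subst hc
      exact ⟨hz, hzS⟩
  have hmem : ({z} : Set ℕ) ∈ fam LM S (insert y B) := by
    refine ⟨m, hm, ?_, ht.symm⟩
    rw [Set.disjoint_insert_right]
    exact ⟨hym, hd⟩
  obtain ⟨y', hy', hb⟩ := h.out.2 z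
  refine hb.out.1 ⟨{z}, hmem, ?_, ?_⟩
  · intro h'
    exact hy' h'
  · simp

/-- the level before the last hub, in the centre opening -/
theorem lvlA_of {Bad : Set ℕ → Prop}
    (hA4 : ∀ F : Finset ℕ, F.card = 4 →
      (∀ c ∈ F, c < 125 ∧ c ∉ ({62} : Set ℕ) ∧ c ∉ ({43, 41, 4, 0} : Set ℕ)) →
        OKp LM {43, 41, 4, 0} ({62} ∪ F) ∨ Bad F)
    (hB3 : ∀ F : Finset ℕ, F.card = 3 →
      (∀ c ∈ F, c < 125 ∧ c ∉ ({43, 62} : Set ℕ) ∧ c ∉ ({81, 41, 4, 0} : Set ℕ)) →
        OKp LM {81, 41, 4, 0} ({43, 62} ∪ F))
    (hE : ∀ a c, a < 125 → c < 125 → a ≠ c → a ∉ ({43, 62} : Set ℕ) → a ∉ ({41, 4, 0} : Set ℕ) →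
      c ∉ ({43, 62} : Set ℕ) → c ∉ ({41, 4, 0} : Set ℕ) →
      OKp LM {41, 4, 0} (insert a (insert c {43, 62})))
    (b1 : ∀ S, Bad S → ∃ m ∈ LM, mset m = insert 62 S)
    (b2 : ∀ S, Bad S → ∀ c ∈ S, c < 125 ∧ c ≠ 62 ∧ c ≠ 43 ∧ c ≠ 81 ∧ c ≠ 41 ∧ c ≠ 4 ∧ c ≠ 0)
    (b3 : ∀ S S', Bad S → Bad S' → ∀ c, c ∈ S → c ∈ S' → S = S') :
    Lvl {62} {41, 4, 0} 43 := by
  intro a c ha hc hac haM haB hab hcM hcB hcb
  simp only [Set.mem_insert_iff, Set.mem_singleton_iff, not_or] at haM haB hcM hcB
  refine fam_step LM_lt ⟨43, by norm_num, ?_, by simp⟩ ?_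
  · simp only [Set.mem_insert_iff, Set.mem_singleton_iff, not_or]
    exact ⟨Ne.symm hab, Ne.symm hcb, by norm_num⟩
  intro x hx hxM hxB
  simp only [Set.mem_insert_iff, Set.mem_singleton_iff, not_or] at hxM hxB
  obtain ⟨hxa, hxc, hx62⟩ := hxM
  obtain ⟨hx41, hx4, hx0⟩ := hxB
  obtain ⟨ha41, ha4, ha0⟩ := haB
  obtain ⟨hc41, hc4, hc0⟩ := hcB
  by_cases hxb : x = 43
  · subst hxb
    obtain ⟨y, hy, hyb⟩ := hE a c ha hc hac (by simp [haM, hab]) (by simp [ha41, ha4, ha0])
      (by simp [hcM, hcb]) (by simp [hc41, hc4, hc0])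
    have e1 : insert a (insert c ({43, 62} : Set ℕ)) = insert 43 (insert a (insert c {62})) := by
      ext z
      simp only [Set.mem_insert_iff, Set.mem_singleton_iff]
      tauto
    rw [e1] at hy hyb
    exact ⟨y, fun h => hy (Or.inl h), fun h => hy (Or.inr h), hyb⟩
  by_cases hT : ∃ z, z ≠ x ∧ z ≠ a ∧ z ≠ c ∧ Bad {x, a, c, z}
  · obtain ⟨z, hzx, hza, hzc, hbad⟩ := hT
    have f := b2 _ hbad
    have fx := f x (by simp)
    have fa := f a (by simp)
    have fc := f c (by simp)
    have fz := f z (by simp)
    obtain ⟨m, hm, hmS⟩ := b1 _ hbad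
    refine ⟨z, hzx, ?_, ?_⟩
    · simp only [Set.mem_insert_iff, Set.mem_singleton_iff, not_or]
      exact ⟨hza, hzc, fz.2.1⟩
    refine fam_step LM_lt ⟨43, by norm_num, ?_, ?_⟩ ?_
    · simp only [Set.mem_insert_iff, Set.mem_singleton_iff, not_or]
      exact ⟨Ne.symm hxb, Ne.symm hab, Ne.symm hcb, by norm_num⟩
    · simp only [Set.mem_insert_iff, Set.mem_singleton_iff, not_or]
      exact ⟨Ne.symm fz.2.2.1, by norm_num, by norm_num, by norm_num⟩
    intro w hw hwM hwB
    simp only [Set.mem_insert_iff, Set.mem_singleton_iff, not_or] at hwM hwB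
    obtain ⟨hwx, hwa, hwc, hw62⟩ := hwM
    obtain ⟨hwz, hw41, hw4, hw0⟩ := hwB
    by_cases hw43 : w = 43
    · subst hw43
      refine ⟨81, by norm_num, ?_, ?_⟩
      · simp only [Set.mem_insert_iff, Set.mem_singleton_iff, not_or]
        exact ⟨Ne.symm fx.2.2.2.1, Ne.symm fa.2.2.2.1, Ne.symm fc.2.2.2.1, by norm_num⟩
      obtain ⟨y, hy, hyb⟩ := hB3 {x, a, c} (by
          rw [Finset.card_eq_three]
          exact ⟨x, a, c, hxa, hxc, hac, rfl⟩) (by
          intro q hq
          simp only [Finset.mem_insert, Finset.mem_singleton] at hq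
          rcases hq with rfl | rfl | rfl
          · exact ⟨hx, by simp [hxb, hx62], by simp [fx.2.2.2.1, hx41, hx4, hx0]⟩
          · exact ⟨ha, by simp [hab, haM], by simp [fa.2.2.2.1, ha41, ha4, ha0]⟩
          · exact ⟨hc, by simp [hcb, hcM], by simp [fc.2.2.2.1, hc41, hc4, hc0]⟩)
      have e1 : ({43, 62} : Set ℕ) ∪ (({x, a, c} : Finset ℕ) : Set ℕ) =
          insert 43 (insert x (insert a (insert c {62}))) := by
        ext q
        simp only [Finset.coe_insert, Finset.coe_singleton, Set.mem_union, Set.mem_insert_iff,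
          Set.mem_singleton_iff]
        tauto
      rw [e1] at hy hyb
      have hyz : y = z := by
        refine forced hm ?_ ?_ ?_ ?_ hy hyb
        · rw [hmS, Set.disjoint_left]
          intro q hq hqB
          simp only [Set.mem_insert_iff, Set.mem_singleton_iff] at hq hqB
          rcases hq with rfl | rfl | rfl | rfl | rfl
          · omega
          · omega
          · omega
          · omega
          · omega
        · rw [hmS]
          intro q hq
          simp only [Set.mem_insert_iff, Set.mem_singleton_iff] at hq ⊢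
          tauto
        · rw [hmS]
          simp
        · simp only [Set.mem_insert_iff, Set.mem_singleton_iff, not_or]
          exact ⟨fz.2.2.1, hzx, hza, hzc, fz.2.1⟩
      subst hyz
      have e2 : (insert y ({81, 41, 4, 0} : Set ℕ)) = insert 81 (insert y {41, 4, 0}) :=
        Set.insert_comm _ _ _
      rw [e2] at hyb
      exact hyb
    · refine ⟨43, Ne.symm hw43, ?_, ?_⟩
      · simp only [Set.mem_insert_iff, Set.mem_singleton_iff, not_or]
        exact ⟨Ne.symm hxb, Ne.symm hab, Ne.symm hcb, by norm_num⟩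
      have hcard : ({w, x, a, c} : Finset ℕ).card = 4 := by
        rw [Finset.card_insert_of_notMem (by simp [hwx, hwa, hwc]),
          Finset.card_insert_of_notMem (by simp [hxa, hxc]), Finset.card_pair hac]
      have e1 : ({62} : Set ℕ) ∪ (({w, x, a, c} : Finset ℕ) : Set ℕ) =
          insert w (insert x (insert a (insert c {62}))) := by
        ext q
        simp only [Finset.coe_insert, Finset.coe_singleton, Set.mem_union, Set.mem_insert_iff,
          Set.mem_singleton_iff]
        tauto
      rcases hA4 {w, x, a, c} hcard (by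
          intro q hq
          simp only [Finset.mem_insert, Finset.mem_singleton] at hq
          rcases hq with rfl | rfl | rfl | rfl
          · exact ⟨hw, by simp [hw62], by simp [hw43, hw41, hw4, hw0]⟩
          · exact ⟨hx, by simp [hx62], by simp [hxb, hx41, hx4, hx0]⟩
          · exact ⟨ha, by simp [haM], by simp [hab, ha41, ha4, ha0]⟩
          · exact ⟨hc, by simp [hcM], by simp [hcb, hc41, hc4, hc0]⟩) with hok | hbad'
      · obtain ⟨y, hy, hyb⟩ := hok
        rw [e1] at hy hyb
        have hyz : y = z := by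
          refine forced hm ?_ ?_ ?_ ?_ hy hyb
          · rw [hmS, Set.disjoint_left]
            intro q hq hqB
            simp only [Set.mem_insert_iff, Set.mem_singleton_iff] at hq hqB
            rcases hq with rfl | rfl | rfl | rfl | rfl
            · omega
            · omega
            · omega
            · omega
            · omega
          · rw [hmS]
            intro q hq
            simp only [Set.mem_insert_iff, Set.mem_singleton_iff] at hq ⊢
            tauto
          · rw [hmS]
            simp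
          · simp only [Set.mem_insert_iff, Set.mem_singleton_iff, not_or]
            exact ⟨Ne.symm hwz, hzx, hza, hzc, fz.2.1⟩
        subst hyz
        have e2 : (insert y ({43, 41, 4, 0} : Set ℕ)) = insert 43 (insert y {41, 4, 0}) :=
          Set.insert_comm _ _ _
        rw [e2] at hyb
        exact hyb
      · exfalso
        have heq := b3 _ _ hbad hbad' x (by simp) (by simp)
        have hzF : z ∈ (({w, x, a, c} : Finset ℕ) : Set ℕ) := by
          rw [← heq]
          simp
        simp only [Finset.coe_insert, Finset.coe_singleton, Set.mem_insert_iff,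
          Set.mem_singleton_iff] at hzF
        rcases hzF with h | h | h | h
        · exact hwz h.symm
        · exact hzx h
        · exact hza h
        · exact hzc h
  · refine ⟨43, Ne.symm hxb, ?_, ?_⟩
    · simp only [Set.mem_insert_iff, Set.mem_singleton_iff, not_or]
      exact ⟨Ne.symm hab, Ne.symm hcb, by norm_num⟩
    refine fam_step LM_lt ?_ ?_
    · obtain ⟨q, hq, hqn⟩ := exists_free {x, a, c, 62, 43, 41, 4, 0} {x, a, c, 62, 43, 41, 4, 0}
        (by simp) (lt_of_le_of_lt (Finset.card_insert_le _ _)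
          (lt_of_le_of_lt (Nat.succ_le_succ (Finset.card_insert_le _ _))
          (lt_of_le_of_lt (Nat.succ_le_succ (Nat.succ_le_succ (Finset.card_insert_le _ _)))
            (by
              have : ({62, 43, 41, 4, 0} : Finset ℕ).card = 5 := by decide
              rw [this]
              norm_num))))
      simp only [Set.mem_insert_iff, Set.mem_singleton_iff, not_or] at hqn
      refine ⟨q, hq, ?_, ?_⟩
      · simp only [Set.mem_insert_iff, Set.mem_singleton_iff, not_or]
        tauto
      · simp only [Set.mem_insert_iff, Set.mem_singleton_iff, not_or]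
        tauto
    intro w hw hwM hwB
    simp only [Set.mem_insert_iff, Set.mem_singleton_iff, not_or] at hwM hwB
    obtain ⟨hwx, hwa, hwc, hw62⟩ := hwM
    obtain ⟨hw43, hw41, hw4, hw0⟩ := hwB
    have hcard : ({w, x, a, c} : Finset ℕ).card = 4 := by
      rw [Finset.card_insert_of_notMem (by simp [hwx, hwa, hwc]),
        Finset.card_insert_of_notMem (by simp [hxa, hxc]), Finset.card_pair hac]
    have e1 : ({62} : Set ℕ) ∪ (({w, x, a, c} : Finset ℕ) : Set ℕ) =
        insert w (insert x (insert a (insert c {62}))) := by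
      ext q
      simp only [Finset.coe_insert, Finset.coe_singleton, Set.mem_union, Set.mem_insert_iff,
        Set.mem_singleton_iff]
      tauto
    rcases hA4 {w, x, a, c} hcard (by
        intro q hq
        simp only [Finset.mem_insert, Finset.mem_singleton] at hq
        rcases hq with rfl | rfl | rfl | rfl
        · exact ⟨hw, by simp [hw62], by simp [hw43, hw41, hw4, hw0]⟩
        · exact ⟨hx, by simp [hx62], by simp [hxb, hx41, hx4, hx0]⟩
        · exact ⟨ha, by simp [haM], by simp [hab, ha41, ha4, ha0]⟩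
        · exact ⟨hc, by simp [hcM], by simp [hcb, hc41, hc4, hc0]⟩) with hok | hbad'
    · obtain ⟨y, hy, hyb⟩ := hok
      rw [e1] at hy hyb
      exact ⟨y, fun h => hy (Or.inl h), fun h => hy (Or.inr h), hyb⟩
    · exfalso
      apply hT
      refine ⟨w, hwx, hwa, hwc, ?_⟩
      have e2 : (({w, x, a, c} : Finset ℕ) : Set ℕ) = {x, a, c, w} := by
        ext q
        simp only [Finset.coe_insert, Finset.coe_singleton, Set.mem_insert_iff,
          Set.mem_singleton_iff]
        tauto
      rw [← e2]
      exact hbad'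

end Pool.Agent.MP_c0c4a4_co.N5
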