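import Mathlib
import Pool.Agent.MP_c0c4a4_co.N5.TopB

/-!
The table of the lines through the centre which are not hit by Breaker.
-/

set_option autoImplicit false

namespace Pool.Agent.MP_c0c4a4_co.N5

/-- the mask of the cells which are not in bad sets -/
def FM : ℕ := Nat.lor (Nat.pow 2 62) (Nat.lor (Nat.pow 2 43) (Nat.lor (Nat.pow 2 81)
  (Nat.lor (Nat.pow 2 41) (Nat.lor (Nat.pow 2 4) (Nat.pow 2 0)))))

/-- the check of the table of the bad sets -/
noncomputable def badOK (LMf : Nat → Nat) (nl BMT : Nat) : Bool :=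
  allUp (fun a => frc (fun m =>
    band (Nat.beq (Nat.shiftRight m 125) 0)
    (band (Nat.beq (Nat.land m FM) 0)
    (band (bor (Nat.beq m 0) (anyUp (fun l => Nat.beq (LMf l) (Nat.lor (Nat.pow 2 62) m)) nl))
      (allUp (fun b => frc (fun m' => bor (Nat.beq m m') (Nat.beq (Nat.land m m') 0))
        (e128 BMT b)) 16)))) (e128 BMT a)) 16

/-- the bad sets, nonempty -/
def BadN (BMT : ℕ) (S : Set ℕ) : Prop := S.Nonempty ∧ BadS BMT S

theorem badOK_sound {BMT : ℕ} (h : badOK LMf 109 BMT = true) :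
    (∀ S, BadN BMT S → ∃ m ∈ LM, mset m = insert 62 S) ∧
    (∀ S, BadN BMT S → ∀ c ∈ S, c < 125 ∧ c ≠ 62 ∧ c ≠ 43 ∧ c ≠ 81 ∧ c ≠ 41 ∧ c ≠ 4 ∧ c ≠ 0) ∧
    (∀ S S', BadN BMT S → BadN BMT S' → ∀ c, c ∈ S → c ∈ S' → S = S') := by
  have key : ∀ a, a < 16 → e128 BMT a < 2 ^ 125 ∧ Disjoint (mset (e128 BMT a)) (mset FM) ∧
      (e128 BMT a = 0 ∨ ∃ l, l < 109 ∧ LMf l = Nat.lor (Nat.pow 2 62) (e128 BMT a)) ∧
      ∀ b, b < 16 → e128 BMT a = e128 BMT b ∨ Disjoint (mset (e128 BMT a)) (mset (e128 BMT b)) := by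
    intro a ha
    unfold badOK at h
    rw [allUp_iff] at h
    have h1 := h a ha
    rw [frc_eq, band_iff, band_iff, band_iff, bor_iff, anyUp_iff, allUp_iff] at h1
    obtain ⟨g1, g2, g3, g4⟩ := h1
    refine ⟨lt_of_shiftRight g1, disjoint_of_land g2, ?_, ?_⟩
    · rcases g3 with g3 | ⟨l, hl, g3⟩
      · exact Or.inl (beq_iff.1 g3)
      · exact Or.inr ⟨l, hl, beq_iff.1 g3⟩
    · intro b hb
      have := g4 b hb
      rw [frc_eq, bor_iff] at this
      rcases this with g | g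
      · exact Or.inl (beq_iff.1 g)
      · exact Or.inr (disjoint_of_land g)
  refine ⟨?_, ?_, ?_⟩
  · rintro S ⟨hne, a, ha, rfl⟩
    obtain ⟨_, _, h3, _⟩ := key a ha
    rcases h3 with h3 | ⟨l, hl, h3⟩
    · exfalso
      rw [h3] at hne
      obtain ⟨c, hc⟩ := hne
      simp at hc
    · refine ⟨LMf l, mem_LMl.2 ⟨l, hl, rfl⟩, ?_⟩
      rw [h3, mset_lor, mset_pow]
      rfl
  · rintro S ⟨hne, a, ha, rfl⟩ c hc
    obtain ⟨h1, h2, _, _⟩ := key a ha
    rw [Set.disjoint_left] at h2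
    have h5 := h2 hc
    unfold FM at h5
    simp only [mem_lor, mem_pow, not_or] at h5
    exact ⟨lt_of_testBit h1 hc, h5⟩
  · rintro S S' ⟨hne, a, ha, rfl⟩ ⟨hne', b, hb, rfl⟩ c hc hc'
    obtain ⟨_, _, _, h4⟩ := key a ha
    rcases h4 b hb with g | g
    · rw [g]
    · exact (Set.disjoint_left.1 g hc hc').elim

/-- the facts about the four stones of Maker, in the form used for the opening -/
theorem hA4_of {BMT M B : ℕ} {Ms Bs : Set ℕ} (eM : mset M = Ms) (eB : mset B = Bs)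
    (h : ∀ F : Finset ℕ, F.card = 4 → (∀ c ∈ F, c < 125 ∧ c ∉ mset M ∧ c ∉ mset B) →
      QB BMT M B F) :
    ∀ F : Finset ℕ, F.card = 4 → (∀ c ∈ F, c < 125 ∧ c ∉ Ms ∧ c ∉ Bs) →
      OKp LM Bs (Ms ∪ F) ∨ BadN BMT F := by
  intro F hF hFc
  subst eM eB
  rcases h F hF hFc with h' | h'
  · exact Or.inl h'
  · refine Or.inr ⟨?_, h'⟩
    rw [Finset.coe_nonempty, ← Finset.card_pos, hF]
    norm_num

end Pool.Agent.MP_c0c4a4_co.N5
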