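import Mathlib
import Pool.Agent.MP_c0c4a4_co.N5.TopC

/-!
The opening moves with the concrete symmetries.
-/

set_option autoImplicit false

namespace Pool.Agent.MP_c0c4a4_co.N5

/-- a symmetry (cells) -/
noncomputable def TG0 : Nat := 0x7c7b7a797877767574737271706f6e6d6c6b6a696867666564636261605f5e5d5c5b5a595857565554535251504f4e4d4c4b4a494847464544434241403f3e3d3c3b3a393837363534333231302f2e2d2c2b2a292827262524232221201f1e1d1c1b1a191817161514131211100f0e0d0c0b0a09080706050403020100


/-- a symmetry (lines) -/
noncomputable def TL0 : Nat := 0x6c6b6a696867666564636261605f5e5d5c5b5a595857565554535251504f4e4d4c4b4a494847464544434241403f3e3d3c3b3a393837363534333231302f2e2d2c2b2a292827262524232221201f1e1d1c1b1a191817161514131211100f0e0d0c0b0a09080706050403020100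


theorem tsym0 : Sym2 LMf 109 TG0 := sym2_sound (LT := TL0) (by decide +kernel)

/-- a symmetry (cells) -/
noncomputable def TG1 : Nat := 0x7c7b7a7978636261605f4a4948474631302f2e2d181716151477767574735e5d5c5b5a45444342412c2b2a2928131211100f7271706f6e5958575655403f3e3d3c27262524230e0d0c0b0a6d6c6b6a6954535251503b3a3938372221201f1e090807060568676665644f4e4d4c4b36353433321d1c1b1a190403020100


/-- a symmetry (lines) -/
noncomputable def TL1 : Nat := 0x6c6054483c3b38363432312e6b5f53472d2c2b2a292827266a5e52462524232221201f1e695d51451d1c1b1a1918171668673a306637653564336362392f615c5b5a5958575655504f4e4d4c4b4a4944434241403f3e3d1514111013120f0d0e0c0a0b09070806050201040300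


theorem tsym1 : Sym2 LMf 109 TG1 := sym2_sound (LT := TL1) (by decide +kernel)

/-- a symmetry (cells) -/
noncomputable def TG2 : Nat := 0x7c77726d687b76716c677a75706b6679746f6a6578736e6964635e59544f625d58534e615c57524d605b56514c5f5a55504b4a45403b3649443f3a3548433e393447423d383346413c3732312c27221d302b26211c2f2a25201b2e29241f1a2d28231e1918130e090417120d080316110c070215100b0601140f0a0500


/-- a symmetry (lines) -/
noncomputable def TL2 : Nat := 0x686665646c676b6a696361625c5a5958605b5f5e5d575556504e4d4c544f5352514b494a4442414048434746453f3d3e3c3a3b392d2c25241d1c151314121138372b231b0f0e0d36352a221a0c0b0a34332921190908073230312f2e10282726201f1e18171606040503020001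


theorem tsym2 : Sym2 LMf 109 TG2 := sym2_sound (LT := TL2) (by decide +kernel)

/-- a symmetry (cells) -/
noncomputable def TG3 : Nat := 0x7c77726d68635e59544f4a45403b36312c27221d18130e09047b76716c67625d58534e49443f3a35302b26211c17120d08037a75706b66615c57524d48433e39342f2a25201b16110c070279746f6a65605b56514c47423d38332e29241f1a15100b060178736e69645f5a55504b46413c37322d28231e19140f0a0500


/-- a symmetry (lines) -/
noncomputable def TL3 : Nat := 0x3c3836346c3b605448322e312d2b2a296b2c5f5347282627252322216a245e5246201e1f1d1b1a19691c5d5145181617683a67305c5b504f4443151114101366375a4e420f0d0e6535594d410c0a0b6433584c400907086339622f61125756554b4a493f3e3d06020501040003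


theorem tsym3 : Sym2 LMf 109 TG3 := sym2_sound (LT := TL3) (by decide +kernel)

/-- a symmetry (cells) -/
noncomputable def TG4 : Nat := 0x7c634a31187b624930177a61482f167960472e15785f462d14775e452c13765d442b12755c432a11745b422910735a41280f725940270e71583f260d70573e250c6f563d240b6e553c230a6d543b22096c533a21086b523920076a51381f066950371e05684f361d04674e351c03664d341b02654c331a01644b321900


/-- a symmetry (lines) -/
noncomputable def TL4 : Nat := 0x685c50443c3a2d251d151311665a4e4238372b231b0f0e0d65594d4136352a221a0c0b0a64584c4034332921190908076c673b146b2c6a24691c6361391262605b5f5e5d575556544f5352514b494a48434746453f3d3e32302e10312f282627201e1f18161706040200050301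


theorem tsym4 : Sym2 LMf 109 TG4 := sym2_sound (LT := TL4) (by decide +kernel)

/-- a symmetry (cells) -/
noncomputable def TG5 : Nat := 0x7c634a3118775e452c13725940270e6d543b2209684f361d047b62493017765d442b1271583f260d6c533a2108674e351c037a61482f16755c432a1170573e250c6b52392007664d341b027960472e15745b4229106f563d240b6a51381f06654c331a01785f462d14735a41280f6e553c230a6950371e05644b321900


/-- a symmetry (lines) -/
noncomputable def TL5 : Nat := 0x3c2d251d683a5c5044151113382b231b66375a4e420f0d0e362a221a6535594d410c0a0b342921196433584c400907086c3b6714605b544f4843322e3010316b2c5f53472826276a245e5246201e1f691c5d514518161763396112622f5755564b494a3f3d3e06020400050103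


theorem tsym5 : Sym2 LMf 109 TG5 := sym2_sound (LT := TL5) (by decide +kernel)

/-- a symmetry (cells) -/
noncomputable def TG6 : Nat := 0x7c7b7a797877767574737271706f6e6d6c6b6a696867666564636261605f5e5d5c5b5a595857565554535251504f4e4d4c4b4a494847464544434241403f3e3d3c3b3a393837363534333231302f2e2d2c2b2a292827262524232221201f1e1d1c1b1a191817161514131211100f0e0d0c0b0a09080706050403020100


/-- a symmetry (lines) -/
noncomputable def TL6 : Nat := 0x6c6b6a696867666564636261605f5e5d5c5b5a595857565554535251504f4e4d4c4b4a494847464544434241403f3e3d3c3b3a393837363534333231302f2e2d2c2b2a292827262524232221201f1e1d1c1b1a191817161514131211100f0e0d0c0b0a09080706050403020100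


theorem tsym6 : Sym2 LMf 109 TG6 := sym2_sound (LT := TL6) (by decide +kernel)

/-- a symmetry (cells) -/
noncomputable def TG7 : Nat := 0x787b7a797c696c6b6a6d6e71706f72737675747764676665682d302f2e311e21201f222326252427282b2a292c191c1b1a1d464948474a373a39383b3c3f3e3d40414443424532353433365f62616063505352515455585756595a5d5c5b5e4b4e4d4c4f141716151805080706090a0d0c0b0e0f121110130003020104


/-- a symmetry (lines) -/
noncomputable def TL7 : Nat := 0x6c696a6b6263666564676861484546473e3f42414043443d545152534a4b4e4d4c4f5049605d5e5f56575a59585b5c5531322f303837363534333b3c393a2e17181b1a191c1d161f2023222124251e27282b2a292c2d260506030401020f0e0d0c0b0a09080714151213101100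


theorem tsym7 : Sym2 LMf 109 TG7 := sym2_sound (LT := TL7) (by decide +kernel)

/-- a symmetry (cells) -/
noncomputable def TG8 : Nat := 0x6877726d7c65746f6a796675706b7a6776716c7b64736e69781d2c2722311a29241f2e1b2a25202f1c2b2621301928231e2d3645403b4a33423d384734433e394835443f3a4932413c37464f5e5954634c5b5651604d5c5752614e5d5853624b5a55505f04130e091801100b061502110c071603120d0817000f0a0514


/-- a symmetry (lines) -/
noncomputable def TL8 : Nat := 0x626665646c63696a6b6761683e424140483f454647433d444a4e4d4c544b5152534f4950565a595860575d5e5f5b555c312f323017181f202728050306040138371b232b0f0e0d36351a222a0c0b0a34331921290908073b393c3a2e021c1d1624251e2c2d2614121513100011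


theorem tsym8 : Sym2 LMf 109 TG8 := sym2_sound (LT := TL8) (by decide +kernel)

theorem mA : mset (4611686018427387904 : ℕ) = {62} := by
  have e1 : (4611686018427387904 : ℕ) = (Nat.pow 2 62) := by decide +kernel
  rw [e1]
  simp only [mset_pow]

theorem bA : mset (10995116277777 : ℕ) = {43, 41, 4, 0} := by
  have e1 : (10995116277777 : ℕ) = (Nat.lor (Nat.pow 2 43) (Nat.lor (Nat.pow 2 41) (Nat.lor (Nat.pow 2 4) (Nat.pow 2 0)))) := by decide +kernel
  rw [e1]
  simp only [mset_lor, mset_pow, Set.singleton_union]

theorem mB0 : mset (4611694814520410112 : ℕ) = {43, 62} := by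
  have e1 : (4611694814520410112 : ℕ) = (Nat.lor (Nat.pow 2 43) (Nat.pow 2 62)) := by decide +kernel
  rw [e1]
  simp only [mset_lor, mset_pow, Set.singleton_union]

theorem bB0 : mset (2417851639231457372667921 : ℕ) = {81, 41, 4, 0} := by
  have e1 : (2417851639231457372667921 : ℕ) = (Nat.lor (Nat.pow 2 81) (Nat.lor (Nat.pow 2 41) (Nat.lor (Nat.pow 2 4) (Nat.pow 2 0)))) := by decide +kernel
  rw [e1]
  simp only [mset_lor, mset_pow, Set.singleton_union]

theorem cB0 (h : DomG 4611694814520410112 2417851639231457372667921 2) : DomS {43, 62} {81, 41, 4, 0} 2 := by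
  have e1 : (4611694814520410112 : ℕ) = (Nat.lor (Nat.pow 2 43) (Nat.pow 2 62)) := by decide +kernel
  have e2 : (2417851639231457372667921 : ℕ) = (Nat.lor (Nat.pow 2 81) (Nat.lor (Nat.pow 2 41) (Nat.lor (Nat.pow 2 4) (Nat.pow 2 0)))) := by decide +kernel
  have f1 : mset (4611694814520410112 : ℕ) = {43, 62} := by
    rw [e1]
    simp only [mset_lor, mset_pow, Set.singleton_union]
  have f2 : mset (2417851639231457372667921 : ℕ) = {81, 41, 4, 0} := by
    rw [e2]
    simp only [mset_lor, mset_pow, Set.singleton_union]
  intro F hF hFc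
  have := h F hF (by rw [f1, f2]; exact hFc)
  rw [f1, f2] at this
  exact this

theorem cB1 (h : DomG 2417856250924072869822464 1267650600228229403695726460945 1) : DomS {81, 43, 62} {100, 41, 4, 0} 1 := by
  have e1 : (2417856250924072869822464 : ℕ) = (Nat.lor (Nat.pow 2 81) (Nat.lor (Nat.pow 2 43) (Nat.pow 2 62))) := by decide +kernel
  have e2 : (1267650600228229403695726460945 : ℕ) = (Nat.lor (Nat.pow 2 100) (Nat.lor (Nat.pow 2 41) (Nat.lor (Nat.pow 2 4) (Nat.pow 2 0)))) := by decide +kernel
  have f1 : mset (2417856250924072869822464 : ℕ) = {81, 43, 62} := by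
    rw [e1]
    simp only [mset_lor, mset_pow, Set.singleton_union]
  have f2 : mset (1267650600228229403695726460945 : ℕ) = {100, 41, 4, 0} := by
    rw [e2]
    simp only [mset_lor, mset_pow, Set.singleton_union]
  intro F hF hFc
  have := h F hF (by rw [f1, f2]; exact hFc)
  rw [f1, f2] at this
  exact this

theorem cB2 (h : DomG 1267653018084480325569573027840 2199040032785 0) : DomS {100, 81, 43, 62} {24, 41, 4, 0} 0 := by
  have e1 : (1267653018084480325569573027840 : ℕ) = (Nat.lor (Nat.pow 2 100) (Nat.lor (Nat.pow 2 81) (Nat.lor (Nat.pow 2 43) (Nat.pow 2 62)))) := by decide +kernel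
  have e2 : (2199040032785 : ℕ) = (Nat.lor (Nat.pow 2 24) (Nat.lor (Nat.pow 2 41) (Nat.lor (Nat.pow 2 4) (Nat.pow 2 0)))) := by decide +kernel
  have f1 : mset (1267653018084480325569573027840 : ℕ) = {100, 81, 43, 62} := by
    rw [e1]
    simp only [mset_lor, mset_pow, Set.singleton_union]
  have f2 : mset (2199040032785 : ℕ) = {24, 41, 4, 0} := by
    rw [e2]
    simp only [mset_lor, mset_pow, Set.singleton_union]
  intro F hF hFc
  have := h F hF (by rw [f1, f2]; exact hFc)
  rw [f1, f2] at this
  exact this

theorem cC (h : DomG 0 21267647932558653971072598982912901121 3) : DomS ∅ {124, 0, 62} 3 := by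
  have e2 : (21267647932558653971072598982912901121 : ℕ) = (Nat.lor (Nat.pow 2 124) (Nat.lor (Nat.pow 2 0) (Nat.pow 2 62))) := by decide +kernel
  have f1 : mset 0 = ∅ := by
    ext c
    simp
  have f2 : mset (21267647932558653971072598982912901121 : ℕ) = {124, 0, 62} := by
    rw [e2]
    simp only [mset_lor, mset_pow, Set.singleton_union]
  intro F hF hFc
  have := h F hF (by rw [f1, f2]; exact hFc)
  rw [f1, f2] at this
  exact this

theorem cD0 (h : DomG 21267647932558653966460912964485513216 4611686020574871553 2) : DomS {124} {31, 0, 62} 2 := by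
  have e1 : (21267647932558653966460912964485513216 : ℕ) = (Nat.pow 2 124) := by decide +kernel
  have e2 : (4611686020574871553 : ℕ) = (Nat.lor (Nat.pow 2 31) (Nat.lor (Nat.pow 2 0) (Nat.pow 2 62))) := by decide +kernel
  have f1 : mset (21267647932558653966460912964485513216 : ℕ) = {124} := by
    rw [e1]
    simp only [mset_pow]
  have f2 : mset (4611686020574871553 : ℕ) = {31, 0, 62} := by
    rw [e2]
    simp only [mset_lor, mset_pow, Set.singleton_union]
  intro F hF hFc
  have := h F hF (by rw [f1, f2]; exact hFc)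
  rw [f1, f2] at this
  exact this

theorem cD1 (h : DomG 21267647932558653966460912966632996864 9903520318894728217620381697 1) : DomS {31, 124} {93, 0, 62} 1 := by
  have e1 : (21267647932558653966460912966632996864 : ℕ) = (Nat.lor (Nat.pow 2 31) (Nat.pow 2 124)) := by decide +kernel
  have e2 : (9903520318894728217620381697 : ℕ) = (Nat.lor (Nat.pow 2 93) (Nat.lor (Nat.pow 2 0) (Nat.pow 2 62))) := by decide +kernel
  have f1 : mset (21267647932558653966460912966632996864 : ℕ) = {31, 124} := by
    rw [e1]
    simp only [mset_lor, mset_pow, Set.singleton_union]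
  have f2 : mset (9903520318894728217620381697 : ℕ) = {93, 0, 62} := by
    rw [e2]
    simp only [mset_lor, mset_pow, Set.singleton_union]
  intro F hF hFc
  have := h F hF (by rw [f1, f2]; exact hFc)
  rw [f1, f2] at this
  exact this

theorem cD2 (h : DomG 21267647942462174280743955165825990656 4611686018427387921 0) : DomS {93, 31, 124} {4, 0, 62} 0 := by
  have e1 : (21267647942462174280743955165825990656 : ℕ) = (Nat.lor (Nat.pow 2 93) (Nat.lor (Nat.pow 2 31) (Nat.pow 2 124))) := by decide +kernel
  have e2 : (4611686018427387921 : ℕ) = (Nat.lor (Nat.pow 2 4) (Nat.lor (Nat.pow 2 0) (Nat.pow 2 62))) := by decide +kernel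
  have f1 : mset (21267647942462174280743955165825990656 : ℕ) = {93, 31, 124} := by
    rw [e1]
    simp only [mset_lor, mset_pow, Set.singleton_union]
  have f2 : mset (4611686018427387921 : ℕ) = {4, 0, 62} := by
    rw [e2]
    simp only [mset_lor, mset_pow, Set.singleton_union]
  intro F hF hFc
  have := h F hF (by rw [f1, f2]; exact hFc)
  rw [f1, f2] at this
  exact this

theorem top_all {BMT : ℕ} (hbad : badOK LMf 109 BMT = true)
    (hA : ∀ F : Finset ℕ, F.card = 4 → (∀ c ∈ F, c < 125 ∧ c ∉ mset 4611686018427387904 ∧ c ∉ mset 10995116277777) →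
      QB BMT 4611686018427387904 10995116277777 F)
    (hB3 : ∀ F : Finset ℕ, F.card = 3 → (∀ c ∈ F, c < 125 ∧ c ∉ mset 4611694814520410112 ∧ c ∉ mset 2417851639231457372667921) →
      OKp LM (mset 2417851639231457372667921) (mset 4611694814520410112 ∪ F))
    (hB0 : DomG 4611694814520410112 2417851639231457372667921 2) (hB1 : DomG 2417856250924072869822464 1267650600228229403695726460945 1)
    (hB2 : DomG 1267653018084480325569573027840 2199040032785 0)
    (hC : DomG 0 21267647932558653971072598982912901121 3)
    (hD0 : DomG 21267647932558653966460912964485513216 4611686020574871553 2) (hD1 : DomG 21267647932558653966460912966632996864 9903520318894728217620381697 1)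
    (hD2 : DomG 21267647942462174280743955165825990656 4611686018427387921 0) : Bw (fam LM ∅ ∅) := by
  have lA : Lvl {62} {41, 4, 0} 43 := by
    obtain ⟨b1, b2, b3⟩ := badOK_sound hbad
    refine lvlA_of (hA4_of mA bA hA) ?_ ?_ b1 b2 b3
    · rw [← mB0, ← bB0]
      exact hB3
    have := exc (cB0 hB0) (cB1 hB1) (cB2 hB2) (by simp) (by simp) (by simp)
    intro a c ha hc hac h1 h2 h3 h4
    exact this a c ha hc hac h1 h2 h3 h4
  have lC : Lvl ∅ {0, 62} 124 := by
    refine lvl_of (by norm_num) (by simp) (by simp) (cC hC) ?_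
    have := exc (cD0 hD0) (cD1 hD1) (cD2 hD2) (by simp) (by simp) (by simp)
    intro a c ha hc hac h1 h2 h3 h4
    have h1' : a ∉ ({124} : Set ℕ) := by simpa using h1
    have h3' : c ∉ ({124} : Set ℕ) := by simpa using h3
    have := this a c ha hc hac h1' h2 h3' h4
    have e : insert 124 (∅ : Set ℕ) = {124} := by simp
    rw [e]
    exact this
  have l0 : Lvl {62} {41, 4, 0} 43 := by
    have h := lA.sym tsym0
    have e1 : gmap TG0 62 = 62 := by
      rw [gmap_of_lt (by norm_num)]; decide +kernel
    have e2 : gmap TG0 43 = 43 := by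
      rw [gmap_of_lt (by norm_num)]; decide +kernel
    have e3 : gmap TG0 41 = 41 := by
      rw [gmap_of_lt (by norm_num)]; decide +kernel
    have e4 : gmap TG0 4 = 4 := by
      rw [gmap_of_lt (by norm_num)]; decide +kernel
    have e5 : gmap TG0 0 = 0 := by
      rw [gmap_of_lt (by norm_num)]; decide +kernel
    rw [Set.image_insert_eq, Set.image_insert_eq, Set.image_singleton, Set.image_singleton,
      e1, e2, e3, e4, e5] at h
    have e : ({41, 4, 0} : Set ℕ) = {41, 4, 0} := by
      ext c
      simp only [Set.mem_insert_iff, Set.mem_singleton_iff] <;> tauto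
    rw [e] at h
    exact h
  have l1 : Lvl {62} {81, 4, 0} 83 := by
    have h := lA.sym tsym1
    have e1 : gmap TG1 62 = 62 := by
      rw [gmap_of_lt (by norm_num)]; decide +kernel
    have e2 : gmap TG1 43 = 83 := by
      rw [gmap_of_lt (by norm_num)]; decide +kernel
    have e3 : gmap TG1 41 = 81 := by
      rw [gmap_of_lt (by norm_num)]; decide +kernel
    have e4 : gmap TG1 4 = 4 := by
      rw [gmap_of_lt (by norm_num)]; decide +kernel
    have e5 : gmap TG1 0 = 0 := by
      rw [gmap_of_lt (by norm_num)]; decide +kernel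
    rw [Set.image_insert_eq, Set.image_insert_eq, Set.image_singleton, Set.image_singleton,
      e1, e2, e3, e4, e5] at h
    have e : ({81, 4, 0} : Set ℕ) = {81, 4, 0} := by
      ext c
      simp only [Set.mem_insert_iff, Set.mem_singleton_iff] <;> tauto
    rw [e] at h
    exact h
  have l2 : Lvl {62} {33, 20, 0} 43 := by
    have h := lA.sym tsym2
    have e1 : gmap TG2 62 = 62 := by
      rw [gmap_of_lt (by norm_num)]; decide +kernel
    have e2 : gmap TG2 43 = 43 := by
      rw [gmap_of_lt (by norm_num)]; decide +kernel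
    have e3 : gmap TG2 41 = 33 := by
      rw [gmap_of_lt (by norm_num)]; decide +kernel
    have e4 : gmap TG2 4 = 20 := by
      rw [gmap_of_lt (by norm_num)]; decide +kernel
    have e5 : gmap TG2 0 = 0 := by
      rw [gmap_of_lt (by norm_num)]; decide +kernel
    rw [Set.image_insert_eq, Set.image_insert_eq, Set.image_singleton, Set.image_singleton,
      e1, e2, e3, e4, e5] at h
    have e : ({33, 20, 0} : Set ℕ) = {33, 20, 0} := by
      ext c
      simp only [Set.mem_insert_iff, Set.mem_singleton_iff] <;> tauto
    rw [e] at h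
    exact h
  have l3 : Lvl {62} {81, 20, 0} 91 := by
    have h := lA.sym tsym3
    have e1 : gmap TG3 62 = 62 := by
      rw [gmap_of_lt (by norm_num)]; decide +kernel
    have e2 : gmap TG3 43 = 91 := by
      rw [gmap_of_lt (by norm_num)]; decide +kernel
    have e3 : gmap TG3 41 = 81 := by
      rw [gmap_of_lt (by norm_num)]; decide +kernel
    have e4 : gmap TG3 4 = 20 := by
      rw [gmap_of_lt (by norm_num)]; decide +kernel
    have e5 : gmap TG3 0 = 0 := by
      rw [gmap_of_lt (by norm_num)]; decide +kernel
    rw [Set.image_insert_eq, Set.image_insert_eq, Set.image_singleton, Set.image_singleton,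
      e1, e2, e3, e4, e5] at h
    have e : ({81, 20, 0} : Set ℕ) = {81, 20, 0} := by
      ext c
      simp only [Set.mem_insert_iff, Set.mem_singleton_iff] <;> tauto
    rw [e] at h
    exact h
  have l4 : Lvl {62} {33, 100, 0} 83 := by
    have h := lA.sym tsym4
    have e1 : gmap TG4 62 = 62 := by
      rw [gmap_of_lt (by norm_num)]; decide +kernel
    have e2 : gmap TG4 43 = 83 := by
      rw [gmap_of_lt (by norm_num)]; decide +kernel
    have e3 : gmap TG4 41 = 33 := by
      rw [gmap_of_lt (by norm_num)]; decide +kernel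
    have e4 : gmap TG4 4 = 100 := by
      rw [gmap_of_lt (by norm_num)]; decide +kernel
    have e5 : gmap TG4 0 = 0 := by
      rw [gmap_of_lt (by norm_num)]; decide +kernel
    rw [Set.image_insert_eq, Set.image_insert_eq, Set.image_singleton, Set.image_singleton,
      e1, e2, e3, e4, e5] at h
    have e : ({33, 100, 0} : Set ℕ) = {33, 100, 0} := by
      ext c
      simp only [Set.mem_insert_iff, Set.mem_singleton_iff] <;> tauto
    rw [e] at h
    exact h
  have l5 : Lvl {62} {41, 100, 0} 91 := by
    have h := lA.sym tsym5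
    have e1 : gmap TG5 62 = 62 := by
      rw [gmap_of_lt (by norm_num)]; decide +kernel
    have e2 : gmap TG5 43 = 91 := by
      rw [gmap_of_lt (by norm_num)]; decide +kernel
    have e3 : gmap TG5 41 = 41 := by
      rw [gmap_of_lt (by norm_num)]; decide +kernel
    have e4 : gmap TG5 4 = 100 := by
      rw [gmap_of_lt (by norm_num)]; decide +kernel
    have e5 : gmap TG5 0 = 0 := by
      rw [gmap_of_lt (by norm_num)]; decide +kernel
    rw [Set.image_insert_eq, Set.image_insert_eq, Set.image_singleton, Set.image_singleton,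
      e1, e2, e3, e4, e5] at h
    have e : ({41, 100, 0} : Set ℕ) = {41, 100, 0} := by
      ext c
      simp only [Set.mem_insert_iff, Set.mem_singleton_iff] <;> tauto
    rw [e] at h
    exact h
  have m0 : Lvl ∅ {0, 62} 124 := by
    have h := lC.sym tsym6
    have e1 : gmap TG6 62 = 62 := by
      rw [gmap_of_lt (by norm_num)]; decide +kernel
    have e2 : gmap TG6 0 = 0 := by
      rw [gmap_of_lt (by norm_num)]; decide +kernel
    have e3 : gmap TG6 124 = 124 := by
      rw [gmap_of_lt (by norm_num)]; decide +kernel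
    rw [Set.image_empty, Set.image_insert_eq, Set.image_singleton, e1, e2, e3] at h
    exact h
  have m1 : Lvl ∅ {4, 62} 120 := by
    have h := lC.sym tsym7
    have e1 : gmap TG7 62 = 62 := by
      rw [gmap_of_lt (by norm_num)]; decide +kernel
    have e2 : gmap TG7 0 = 4 := by
      rw [gmap_of_lt (by norm_num)]; decide +kernel
    have e3 : gmap TG7 124 = 120 := by
      rw [gmap_of_lt (by norm_num)]; decide +kernel
    rw [Set.image_empty, Set.image_insert_eq, Set.image_singleton, e1, e2, e3] at h
    exact h
  have m2 : Lvl ∅ {20, 62} 104 := by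
    have h := lC.sym tsym8
    have e1 : gmap TG8 62 = 62 := by
      rw [gmap_of_lt (by norm_num)]; decide +kernel
    have e2 : gmap TG8 0 = 20 := by
      rw [gmap_of_lt (by norm_num)]; decide +kernel
    have e3 : gmap TG8 124 = 104 := by
      rw [gmap_of_lt (by norm_num)]; decide +kernel
    rw [Set.image_empty, Set.image_insert_eq, Set.image_singleton, e1, e2, e3] at h
    exact h
  have ctr : ∀ a, a < 125 → a ≠ 62 → a ≠ 0 → ∃ y, y ≠ a ∧ y ∉ ({62} : Set ℕ) ∧
      Bw (fam LM {a, 62} {y, 0}) := by
    intro a ha h62 h0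
    by_cases c1 : ∀ i ∈ [4, 41, 43, 81, 83], a ≠ i
    · simp only [List.mem_cons, List.not_mem_nil, or_false, forall_eq_or_imp, forall_eq] at c1
      refine ⟨4, Ne.symm c1.1, by simp, ctr_pair (r1 := 41) (s1 := 43) (r2 := 81) (s2 := 83) a ha l0 l1 ?_
        (by norm_num) (by norm_num) (by norm_num) (by norm_num) (by norm_num)⟩
      simp only [List.mem_cons, List.not_mem_nil, or_false, forall_eq_or_imp, forall_eq]
      tauto
    by_cases c2 : ∀ i ∈ [20, 33, 43, 81, 91], a ≠ i
    · simp only [List.mem_cons, List.not_mem_nil, or_false, forall_eq_or_imp, forall_eq] at c2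
      refine ⟨20, Ne.symm c2.1, by simp, ctr_pair (r1 := 33) (s1 := 43) (r2 := 81) (s2 := 91) a ha l2 l3 ?_
        (by norm_num) (by norm_num) (by norm_num) (by norm_num) (by norm_num)⟩
      simp only [List.mem_cons, List.not_mem_nil, or_false, forall_eq_or_imp, forall_eq]
      tauto
    have c3 : ∀ i ∈ [100, 33, 83, 41, 91], a ≠ i := by
      simp only [List.mem_cons, List.not_mem_nil, or_false, forall_eq_or_imp, forall_eq] at c1 c2 ⊢
      omega
    simp only [List.mem_cons, List.not_mem_nil, or_false, forall_eq_or_imp, forall_eq] at c3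
    refine ⟨100, Ne.symm c3.1, by simp, ctr_pair (r1 := 33) (s1 := 83) (r2 := 41) (s2 := 91) a ha l4 l5 ?_
        (by norm_num) (by norm_num) (by norm_num) (by norm_num) (by norm_num)⟩
    simp only [List.mem_cons, List.not_mem_nil, or_false, forall_eq_or_imp, forall_eq]
    tauto
  have free : ∀ T : Finset ℕ, T.card < 125 → ∃ x, x < 125 ∧ x ∉ T := fun T hT => by
    obtain ⟨x, hx, hxn⟩ := exists_free (T : Set ℕ) T subset_rfl hT
    exact ⟨x, hx, hxn⟩
  have c62 : Bw (fam LM {62} {0}) := by
    refine fam_step LM_lt ⟨1, by norm_num, by simp, by simp⟩ ?_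
    intro x hx hxM hxB
    exact (ctr x hx (by simpa using hxM) (by simpa using hxB))
  have nctr : ∀ a, a < 125 → a ≠ 62 → Bw (fam LM {a} {62}) := by
    intro a ha h62
    have fr : ∃ x, x < 125 ∧ x ∉ ({a} : Set ℕ) ∧ x ∉ ({62} : Set ℕ) := by
      obtain ⟨x, hx, hxn⟩ := exists_free {a, 62} {a, 62} (by simp)
        (lt_of_le_of_lt Finset.card_le_two (by norm_num))
      simp only [Set.mem_insert_iff, Set.mem_singleton_iff, not_or] at hxn
      exact ⟨x, hx, by simpa using hxn.1, by simpa using hxn.2⟩
    refine fam_step LM_lt fr ?_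
    intro x hx hxM hxB
    have hxa : x ≠ a := by simpa using hxM
    have hx62 : x ≠ 62 := by simpa using hxB
    have go : ∀ h k, Lvl ∅ {h, 62} k → x ≠ h → x ≠ k → a ≠ h → a ≠ k →
        ∃ y, y ≠ x ∧ y ∉ ({a} : Set ℕ) ∧ Bw (fam LM (insert x {a}) (insert y {62})) := by
      intro h k hl h1 h2 h3 h4
      refine ⟨h, Ne.symm h1, by simpa using Ne.symm h3, ?_⟩
      have := hl x a hx ha hxa (by simp) (by simp [h1, hx62]) h2 (by simp) (by simp [h3, h62]) h4
      have e : insert a (∅ : Set ℕ) = {a} := by simp
      rw [e] at this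
      exact this
    by_cases c1 : x ≠ 0 ∧ x ≠ 124 ∧ a ≠ 0 ∧ a ≠ 124
    · exact go 0 124 m0 c1.1 c1.2.1 c1.2.2.1 c1.2.2.2
    by_cases c2 : x ≠ 4 ∧ x ≠ 120 ∧ a ≠ 4 ∧ a ≠ 120
    · exact go 4 120 m1 c2.1 c2.2.1 c2.2.2.1 c2.2.2.2
    exact go 20 104 m2 (by omega) (by omega) (by omega) (by omega)
  refine fam_step LM_lt ⟨0, by norm_num, by simp, by simp⟩ ?_
  intro x hx _ _
  have e : ∀ z : ℕ, insert z (∅ : Set ℕ) = {z} := fun z => by simp
  by_cases hx62 : x = 62
  · subst hx62
    refine ⟨0, by norm_num, by simp, ?_⟩
    rw [e, e]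
    exact c62
  · refine ⟨62, Ne.symm hx62, by simp, ?_⟩
    rw [e, e]
    exact nctr x hx hx62

end Pool.Agent.MP_c0c4a4_co.N5
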