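import Mathlib
import Pool.Agent.MP_c0c4a4_co.N5.TopAll
import Pool.Agent.MP_c0c4a4_co.N5.DCDom
import Pool.Agent.MP_c0c4a4_co.N5.DADom
import Pool.Agent.MP_c0c4a4_co.N5.DB0Dom
import Pool.Agent.MP_c0c4a4_co.N5.DB1Dom
import Pool.Agent.MP_c0c4a4_co.N5.DB2Dom
import Pool.Agent.MP_c0c4a4_co.N5.DE0Dom
import Pool.Agent.MP_c0c4a4_co.N5.DE1Dom
import Pool.Agent.MP_c0c4a4_co.N5.DE2Dom

/-!
The board of side 5.
-/

set_option autoImplicit false

namespace Pool.Agent.MP_c0c4a4_co.N5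

theorem bad_chk : badOK LMf 109 DA.BMT = true := by decide +kernel

theorem final : Bw (fam LM ∅ ∅) :=
  top_all bad_chk DA.good DB0.good3 DB0.good DB1.good DB2.good DC.good DE0.good DE1.good DE2.good

end Pool.Agent.MP_c0c4a4_co.N5

namespace Pool.Agent.MP_c0c4a4_co

/-- In the game on the cube of side 5 the second player forces a strong draw. -/
theorem five : SecondForcesStrongDraw 5 := N5.strongDraw_of_Bw N5.LM N5.LM_listed N5.LM_lt N5.final

end Pool.Agent.MP_c0c4a4_co
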