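import Mathlib
import Pool.Agent.MP_c0c4a4_co.Defs

/-!
From strong draws to the frozen form of the statement.
-/

set_option autoImplicit false

namespace Pool.Agent.MP_c0c4a4_co.N5

/-- a strong draw for the side `n` gives the frozen form for the side `n` -/
theorem frozen_of_strong {n : ℕ} (h : SecondForcesStrongDraw n) :
    ∃ σ : List (Fin 3 → Fin n) → (Fin 3 → Fin n),
      ∀ l : List (Fin 3 → Fin n), l.Nodup →
        (∀ k : ℕ, Odd k → ∀ c : Fin 3 → Fin n, l[k]? = some c → c = σ (l.take k)) →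
        ((Odd l.length → (∃ c : Fin 3 → Fin n, c ∉ l) → σ l ∉ l) ∧
         ((∃ a : Fin 3 → Fin n, ∃ t : Fin 3 → Fin 3, (∃ j, t j ≠ 0) ∧
             ∀ i : Fin n, ∃ m : ℕ, Even m ∧
               l[m]? = some (fun j => if t j = 0 then a j else if t j = 1 then i else Fin.rev i)) →
          (∃ a : Fin 3 → Fin n, ∃ t : Fin 3 → Fin 3, (∃ j, t j ≠ 0) ∧
             ∀ i : Fin n, ∃ m : ℕ, Odd m ∧
               l[m]? = some (fun j => if t j = 0 then a j else if t j = 1 then i else Fin.rev i)))) := by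
  obtain ⟨σ, hσ⟩ := h
  refine ⟨σ, fun l hl hf => ?_⟩
  obtain ⟨h1, h2⟩ := hσ l ⟨hl, hf⟩
  refine ⟨h1, ?_⟩
  rintro ⟨a, t, ht, hall⟩
  exfalso
  refine h2 (Set.range (lineCell a t)) ⟨a, t, ht, rfl⟩ ?_
  rintro c ⟨i, rfl⟩
  exact hall i

end Pool.Agent.MP_c0c4a4_co.N5
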